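import Mathlib
import Pool.Agent.Helper669.Forcing

set_option autoImplicit false
set_option linter.unusedSectionVars false
set_option linter.unusedVariables false

/-!
# Closure of forcing notions, regular sets of conditions, choice of names
-/

namespace Run7.h898

open Set Cardinal Pool.Agent.Helper669.Forcing

section

variable {P Q : Type} [Preorder P] [Preorder Q]

/-- directed families of at most `mu` conditions have lower bounds -/
def DC (mu : Cardinal.{0}) (P : Type) [Preorder P] : Prop :=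
  ∀ (ι : Type) (D : ι → P), #ι ≤ mu → Nonempty ι → (∀ i j, ∃ k, D k ≤ D i ∧ D k ≤ D j) →
    ∃ p, ∀ i, p ≤ D i

theorem DC.mono {mu nu : Cardinal.{0}} (h : DC mu P) (hn : nu ≤ mu) : DC nu P :=
  fun ι D hι => h ι D (hι.trans hn)

theorem exists_wo (X : Type) : ∃ _ : LinearOrder X, WellFoundedLT X := by
  classical
  exact ⟨linearOrderOfSTO (WellOrderingRel (α := X)), ⟨(IsWellFounded.wf (r := WellOrderingRel (α := X)))⟩⟩

theorem exists_chain {lam : Cardinal.{0}} (h0 : ℵ₀ ≤ lam) (hP : DC lam P) {J : Type}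
    [LinearOrder J] [WellFoundedLT J] (hJ : ∀ j : J, #(Iio j) ≤ lam) (p0 : P)
    (Φ : J → P → P → Prop) (step : ∀ j, ∀ m ≤ p0, ∃ m' ≤ m, Φ j m m') :
    ∃ M : J → P, (∀ j, M j ≤ p0) ∧ (∀ j' j, j' < j → M j ≤ M j') ∧
      ∀ j, ∃ m ≤ p0, (∀ j' < j, m ≤ M j') ∧ M j ≤ m ∧ Φ j m (M j) := by
  classical
  choose! nx hnx1 hnx2 using step
  let G : (j : J) → ((j' : J) → j' < j → P) → P := fun j ih =>
    if h : ∃ m, m ≤ p0 ∧ ∀ j' (h' : j' < j), m ≤ ih j' h' then nx j h.choose else p0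
  let M : J → P := (wellFounded_lt (α := J)).fix G
  have hM : ∀ j, M j = G j fun j' _ => M j' := fun j => (wellFounded_lt (α := J)).fix_eq G j
  have key : ∀ j, (∃ m ≤ p0, (∀ j' < j, m ≤ M j') ∧ M j ≤ m ∧ Φ j m (M j)) := by
    intro j
    induction j using (wellFounded_lt (α := J)).induction with
    | _ j ih =>
      have h1 : ∀ j' < j, ∀ j'' < j', M j' ≤ M j'' := by
        intro j' hj' j'' hj''
        obtain ⟨m, _, h2, h3, _⟩ := ih j' hj'
        exact h3.trans (h2 j'' hj'')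
      have h2 : ∀ j' < j, M j' ≤ p0 := by
        intro j' hj'
        obtain ⟨m, h3, _, h4, _⟩ := ih j' hj'
        exact h4.trans h3
      obtain ⟨m, hm⟩ := hP (Option (Iio j)) (fun o => match o with
        | none => p0
        | some a => M a.1) (by
          rw [mk_option]
          exact add_le_of_le h0 (hJ j) (one_le_aleph0.trans h0)) ⟨none⟩ (by
          rintro (_ | a) (_ | b)
          · exact ⟨none, le_rfl, le_rfl⟩
          · exact ⟨some b, h2 b.1 b.2, le_rfl⟩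
          · exact ⟨some a, le_rfl, h2 a.1 a.2⟩
          · rcases lt_trichotomy a.1 b.1 with h3 | h3 | h3
            · exact ⟨some b, h1 b.1 b.2 a.1 h3, le_rfl⟩
            · exact ⟨some a, le_rfl, by
                change M a.1 ≤ M b.1
                rw [h3]⟩
            · exact ⟨some a, le_rfl, h1 a.1 a.2 b.1 h3⟩)
      have hex : ∃ m, m ≤ p0 ∧ ∀ j' (h' : j' < j), m ≤ M j' :=
        ⟨m, hm none, fun j' hj' => hm (some ⟨j', hj'⟩)⟩
      have h3 : M j = nx j hex.choose := by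
        rw [hM j]
        exact dif_pos hex
      obtain ⟨h4, h5⟩ := hex.choose_spec
      refine ⟨hex.choose, h4, h5, ?_, ?_⟩
      · rw [h3]
        exact hnx1 j _ h4
      · rw [h3]
        exact hnx2 j _ h4
  refine ⟨M, fun j => ?_, fun j' j hj => ?_, key⟩
  · obtain ⟨m, h1, _, h2, _⟩ := key j
    exact h2.trans h1
  · obtain ⟨m, _, h1, h2, _⟩ := key j
    exact h2.trans (h1 j' hj)

theorem DC.lb {lam : Cardinal.{0}} (hP : DC lam P) {J : Type} [LinearOrder J] [Nonempty J]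
    (hJ : #J ≤ lam) (M : J → P) (hM : ∀ j' j, j' < j → M j ≤ M j') : ∃ p, ∀ j, p ≤ M j := by
  refine hP J M hJ inferInstance fun i j => ?_
  rcases lt_trichotomy i j with h | h | h
  · exact ⟨j, hM i j h, le_rfl⟩
  · exact ⟨i, le_rfl, by rw [h]⟩
  · exact ⟨i, le_rfl, hM j i h⟩

/-- meeting at most `mu` dense sets -/
theorem DC.all {mu : Cardinal.{0}} (h0 : ℵ₀ ≤ mu) (hP : DC mu P) {J : Type} (hJ : #J ≤ mu)
    (p0 : P) (Φ : J → P → Prop) (hd : ∀ j p q, q ≤ p → Φ j p → Φ j q)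
    (step : ∀ j, ∀ p ≤ p0, ∃ q ≤ p, Φ j q) : ∃ q ≤ p0, ∀ j, Φ j q := by
  rcases isEmpty_or_nonempty J with hJe | hJn
  · exact ⟨p0, le_rfl, fun j => hJe.elim j⟩
  obtain ⟨_, _⟩ := exists_wo J
  obtain ⟨M, h1, h2, h3⟩ := exists_chain h0 hP (J := J) (fun j => (mk_set_le _).trans hJ) p0
    (fun j _ m' => Φ j m') step
  obtain ⟨q, hq⟩ := hP.lb hJ M h2
  refine ⟨q, (hq hJn.some).trans (h1 _), fun j => ?_⟩
  obtain ⟨_, _, _, _, h⟩ := h3 j
  exact hd j _ _ (hq j) h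

theorem DC.prod {mu : Cardinal.{0}} (hP : DC mu P) (hQ : DC mu Q) : DC mu (P × Q) := by
  intro ι D hι hne hd
  obtain ⟨p, hp⟩ := hP ι (fun i => (D i).1) hι hne fun i j => by
    obtain ⟨k, h1, h2⟩ := hd i j
    exact ⟨k, h1.1, h2.1⟩
  obtain ⟨q, hq⟩ := hQ ι (fun i => (D i).2) hι hne fun i j => by
    obtain ⟨k, h1, h2⟩ := hd i j
    exact ⟨k, h1.2, h2.2⟩
  exact ⟨(p, q), fun i => ⟨hp i, hq i⟩⟩

theorem DC.pi {mu : Cardinal.{0}} {J : Type} {C : J → Type} [∀ j, Preorder (C j)]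
    (hC : ∀ j, DC mu (C j)) : DC mu (∀ j, C j) := by
  intro ι D hι hne hd
  have h : ∀ j, ∃ p : C j, ∀ i, p ≤ D i j := fun j => hC j ι (fun i => D i j) hι hne fun i i' => by
    obtain ⟨k, h1, h2⟩ := hd i i'
    exact ⟨k, h1 j, h2 j⟩
  choose p hp using h
  exact ⟨p, fun i j => hp j i⟩

theorem DC.iso {mu : Cardinal.{0}} (hP : DC mu P) (e : P ≃o Q) : DC mu Q := by
  intro ι D hι hne hd
  obtain ⟨p, hp⟩ := hP ι (fun i => e.symm (D i)) hι hne fun i j => by
    obtain ⟨k, h1, h2⟩ := hd i j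
    exact ⟨k, e.symm.monotone h1, e.symm.monotone h2⟩
  refine ⟨e p, fun i => ?_⟩
  have := e.monotone (hp i)
  rwa [e.apply_symm_apply] at this

/-! ### Regular sets -/

/-- sets of conditions closed downwards and such that a condition belongs to the set if densely
many conditions below it do -/
structure Rg (N : Set P) : Prop where
  dn : Down N
  ds : ∀ p, (∀ q ≤ p, ∃ r ≤ q, r ∈ N) → p ∈ N

theorem Rg.meets (N : Set P) : Rg (meets N) where
  dn := down_meets N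
  ds p h q hq := by
    obtain ⟨r, hr, h1⟩ := h q hq
    obtain ⟨t, ht, s, hs, hts⟩ := h1 r le_rfl
    exact ⟨t, ht.trans hr, s, hs, hts⟩

theorem Rg.fnot {N : Set P} (hN : Down N) : Rg (fnot N) where
  dn := down_fnot N
  ds p h q hq hqN := by
    obtain ⟨r, hr, h1⟩ := h q hq
    exact h1 r le_rfl (hN q hqN r hr)

theorem Rg.inter {M N : Set P} (hM : Rg M) (hN : Rg N) : Rg (M ∩ N) where
  dn p hp q hq := ⟨hM.dn p hp.1 q hq, hN.dn p hp.2 q hq⟩
  ds p h := ⟨hM.ds p fun q hq => by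
      obtain ⟨r, hr, h1⟩ := h q hq
      exact ⟨r, hr, h1.1⟩, hN.ds p fun q hq => by
      obtain ⟨r, hr, h1⟩ := h q hq
      exact ⟨r, hr, h1.2⟩⟩

/-- the choice of a name -/
theorem exists_mix {A : Type} (Ψ : A → Set P) (hd : ∀ a, Down (Ψ a)) :
    ∃ F : A → Set P, (∀ a, Down (F a)) ∧ (∀ a, F a ⊆ Ψ a) ∧
      (∀ a b p, p ∈ F a → p ∈ F b → a = b) ∧
      ∀ p, (∀ q ≤ p, ∃ r ≤ q, ∃ a, r ∈ Ψ a) → ∀ q ≤ p, ∃ r ≤ q, ∃ a, r ∈ F a := by
  classical
  let G : Set P := {r | ∃ a, r ∈ Ψ a}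
  have hch : ∀ r : P, ∃ s : Set A, (r ∈ G → ∃ a, s = {a} ∧ r ∈ Ψ a) := by
    intro r
    by_cases h : r ∈ G
    · obtain ⟨a, ha⟩ := h
      exact ⟨{a}, fun _ => ⟨a, rfl, ha⟩⟩
    · exact ⟨∅, fun h' => absurd h' h⟩
  choose s hs using hch
  let D : P → Set P := fun b => {r | b ∈ G ∧ r ≤ b ∧
    ∀ b', WellOrderingRel b' b → b' ∈ G → ∀ t ≤ r, ¬ t ≤ b'}
  have hDu : ∀ a b r, r ∈ D a → r ∈ D b → a = b := by
    rintro a b r ⟨h1, h2, h3⟩ ⟨h4, h5, h6⟩
    rcases trichotomous_of WellOrderingRel a b with h | h | h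
    · exact absurd h2 (h6 a h h1 r le_rfl)
    · exact h
    · exact absurd h5 (h3 b h h4 r le_rfl)
  have hDd : ∀ a, Down (D a) := by
    rintro a r ⟨h1, h2, h3⟩ r' hr'
    exact ⟨h1, hr'.trans h2, fun a' ha' ha'G t ht => h3 a' ha' ha'G t (ht.trans hr')⟩
  refine ⟨fun a => {r | ∃ b, r ∈ D b ∧ s b = {a}}, ?_, ?_, ?_, ?_⟩
  · rintro a r ⟨b, h1, h2⟩ r' hr'
    exact ⟨b, hDd b r h1 r' hr', h2⟩
  · rintro a r ⟨b, h1, h2⟩
    obtain ⟨a', h3, h4⟩ := hs b h1.1
    rw [h2] at h3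
    rw [Set.singleton_eq_singleton_iff.1 h3]
    exact hd a' b h4 r h1.2.1
  · rintro a b r ⟨c, h1, h2⟩ ⟨c', h3, h4⟩
    have := hDu c c' r h1 h3
    subst this
    rw [h2] at h4
    exact Set.singleton_eq_singleton_iff.1 h4
  · intro p hp q hq
    obtain ⟨r, hr, a, ha⟩ := hp q hq
    have hne : {b | b ∈ G ∧ ∃ t, t ≤ q ∧ t ≤ b}.Nonempty := ⟨r, ⟨a, ha⟩, r, hr, le_rfl⟩
    obtain ⟨b, ⟨h1, t, h2, h3⟩, hmin⟩ :=
      (IsWellFounded.wf (r := WellOrderingRel (α := P))).has_min _ hne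
    obtain ⟨a', h4, h5⟩ := hs b h1
    exact ⟨t, h2, a', b, ⟨h1, h3, fun b' hb' hb'G u hu hub =>
      hmin b' ⟨hb'G, u, hu.trans h2, hub⟩ hb'⟩, h4⟩

end

/-! ### Cardinal facts -/

/-- `κ` is strongly inaccessible (or `ℵ₀`) -/
structure Inac (κ : Cardinal.{0}) : Prop where
  unc : ℵ₀ < κ
  reg : κ.IsRegular
  lim : ∀ x < κ, 2 ^ x < κ

theorem Inac.pow_lt {κ : Cardinal.{0}} (h : Inac κ) {x y : Cardinal.{0}} (hx : x < κ)
    (hy : y < κ) : x ^ y < κ := by
  have h1 : x ^ y ≤ (2 ^ x) ^ y := Cardinal.power_le_power_right (Cardinal.cantor x).le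
  rw [← Cardinal.power_mul] at h1
  exact h1.trans_lt (h.lim _ (mul_lt_of_lt h.unc.le hx hy))

/-- the number of small subsets of a set of size `κ` -/
theorem Inac.mk_small {κ : Cardinal.{0}} (h : Inac κ) (X : Type) (hX : #X ≤ κ) :
    #{s : Set X // #s < κ} ≤ κ := by
  classical
  obtain ⟨f⟩ : Nonempty (X ↪ κ.out) := by
    rw [← Cardinal.mk_out κ] at hX
    exact hX
  have h1 : #{s : Set X // #s < κ} ≤ #{s : Set κ.out // #s < (#κ.out).ord.cof} := by
    refine Cardinal.mk_le_of_injective (f := fun s => ⟨f '' s.1, ?_⟩) ?_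
    · rw [Cardinal.mk_out, h.reg.cof_ord]
      exact Cardinal.mk_image_le.trans_lt s.2
    · rintro ⟨s, hs⟩ ⟨t, ht⟩ hst
      have : f '' s = f '' t := congrArg Subtype.val hst
      exact Subtype.ext (f.injective.image_injective this)
  refine h1.trans ?_
  rw [Cardinal.mk_subset_mk_lt_cof (by
    intro x hx
    rw [Cardinal.mk_out] at hx ⊢
    exact h.lim x hx), Cardinal.mk_out]

theorem Inac.pow_le {κ : Cardinal.{0}} (h : Inac κ) {x : Cardinal.{0}} (hx : x < κ) :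
    κ ^ x ≤ κ := by
  classical
  have h1 : #(x.out → κ.out) ≤ #{s : Set (x.out × κ.out) // #s < κ} := by
    refine Cardinal.mk_le_of_injective
      (f := fun g => ⟨{q | g q.1 = q.2}, ?_⟩) ?_
    · refine lt_of_le_of_lt ?_ hx
      refine (Cardinal.mk_le_of_injective (f := fun q : {q : x.out × κ.out | g q.1 = q.2} =>
        q.1.1) ?_).trans (Cardinal.mk_out x).le
      rintro ⟨⟨a, b⟩, h1⟩ ⟨⟨c, d⟩, h2⟩ h3
      simp only [Set.mem_ofPred_eq] at h1 h2 h3
      subst h3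
      subst h1
      subst h2
      rfl
    · intro g g' hg
      have : {q : x.out × κ.out | g q.1 = q.2} = {q | g' q.1 = q.2} := congrArg Subtype.val hg
      funext a
      have h2 : (a, g a) ∈ {q : x.out × κ.out | g' q.1 = q.2} := by
        rw [← this]
        exact rfl
      exact (show g' a = g a from h2).symm
  have h2 := h.mk_small (x.out × κ.out) (by
    rw [Cardinal.mk_prod, Cardinal.mk_out, Cardinal.mk_out, Cardinal.lift_id, Cardinal.lift_id]
    exact (mul_le_mul_left hx.le κ).trans (Cardinal.mul_eq_self h.unc.le).le)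
  have h3 := h1.trans h2
  rwa [← Cardinal.power_def, Cardinal.mk_out, Cardinal.mk_out] at h3

end Run7.h898
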