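import Mathlib
import Pool.Agent.Run7.h898.Base

set_option autoImplicit false
set_option linter.unusedSectionVars false
set_option linter.unusedVariables false

/-!
# Graded forcing notions
-/

namespace Run7.h898

open Set Cardinal Pool.Agent.Helper669.Forcing

/-- `R` is for each `k` the product of a part with at most `κ k` conditions and a part which is
closed under families of size `(κ k)⁺` -/
structure Gr (R : Type) [Preorder R] (κ : ℕ → Cardinal.{0}) where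
  Lo : ℕ → Type
  Up : ℕ → Type
  iL : ∀ k, Preorder (Lo k)
  iU : ∀ k, Preorder (Up k)
  e : ∀ k, R ≃o (Lo k × Up k)
  card : ∀ k, #(Lo k) ≤ κ k
  dc : ∀ k, DC (Order.succ (κ k)) (Up k)
  fus : ∀ (k0 : ℕ) (r : ℕ → R), (∀ n, r (n + 1) ≤ r n) →
    (∀ n, (e (k0 + n) (r (n + 1))).1 = (e (k0 + n) (r n)).1) → ∃ r' : R, ∀ n, r' ≤ r n

attribute [instance] Gr.iL Gr.iU

section

variable {R : Type} [Preorder R] {κ : ℕ → Cardinal.{0}} (G : Gr R κ)

/-- fusion -/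
theorem Gr.fusion (k0 : ℕ) (r0 : R) (Φ : ℕ → R → Prop)
    (hd : ∀ n r r', r' ≤ r → Φ n r → Φ n r')
    (step : ∀ n, ∀ r ≤ r0, ∃ r' ≤ r, (G.e (k0 + n) r').1 = (G.e (k0 + n) r).1 ∧ Φ n r') :
    ∃ r' ≤ r0, ∀ n, Φ n r' := by
  choose! nx h1 h2 h3 using step
  let s : ℕ → R := fun n => Nat.rec r0 (fun n r => nx n r) n
  have hs : ∀ n, s (n + 1) = nx n (s n) := fun n => rfl
  have hs0 : ∀ n, s n ≤ r0 := by
    intro n
    induction n with
    | zero => exact le_rfl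
    | succ n ih => exact (h1 n _ ih).trans ih
  obtain ⟨r', hr'⟩ := G.fus k0 s (fun n => h1 n _ (hs0 n)) fun n => h2 n _ (hs0 n)
  exact ⟨r', hr' 0, fun n => hd n _ _ (hr' (n + 1)) (h3 n _ (hs0 n))⟩

/-- the condition with lower part `l` and upper part `u` -/
def Gr.gl (k : ℕ) (l : G.Lo k) (u : G.Up k) : R := (G.e k).symm (l, u)

theorem Gr.gl_le {k : ℕ} {l l' : G.Lo k} {u u' : G.Up k} (hl : l' ≤ l) (hu : u' ≤ u) :
    G.gl k l' u' ≤ G.gl k l u := (G.e k).symm.monotone ⟨hl, hu⟩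

theorem Gr.e_gl (k : ℕ) (l : G.Lo k) (u : G.Up k) : G.e k (G.gl k l u) = (l, u) :=
  (G.e k).apply_symm_apply _

theorem Gr.gl_e (k : ℕ) (r : R) : G.gl k (G.e k r).1 (G.e k r).2 = r :=
  (G.e k).symm_apply_apply _

theorem Gr.e_mono (k : ℕ) {r r' : R} (h : r' ≤ r) : (G.e k r').1 ≤ (G.e k r).1 ∧
    (G.e k r').2 ≤ (G.e k r).2 := (G.e k).monotone h

theorem Gr.le_gl {k : ℕ} {r : R} {l : G.Lo k} {u : G.Up k} (h : r ≤ G.gl k l u) :
    (G.e k r).1 ≤ l ∧ (G.e k r).2 ≤ u := by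
  have := G.e_mono k h
  rwa [G.e_gl] at this

/-- A family of dense requirements on the lower part, met by the upper part. -/
theorem Gr.upper (k : ℕ) (hκ : ℵ₀ ≤ κ k) {J : Type} (hJ : #J ≤ Order.succ (κ k)) (r : R)
    (Φ : J → G.Lo k → G.Up k → Prop)
    (hd : ∀ j l u u', u' ≤ u → Φ j l u → Φ j l u')
    (step : ∀ j l, ∀ u ≤ (G.e k r).2, ∃ u' ≤ u, Φ j l u') :
    ∃ r' ≤ r, (G.e k r').1 = (G.e k r).1 ∧ ∀ j l, Φ j l (G.e k r').2 := by
  obtain ⟨u, hu, h1⟩ := (G.dc k).all (hκ.trans (Order.le_succ _)) (J := J × G.Lo k) (by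
    simp only [mk_prod, lift_id]
    exact mul_le_of_le (hκ.trans (Order.le_succ _)) hJ ((G.card k).trans (Order.le_succ _)))
    (G.e k r).2 (fun x u => Φ x.1 x.2 u) (fun x u u' hu h => hd _ _ _ _ hu h)
    (fun x u hu => step x.1 x.2 u hu)
  refine ⟨G.gl k (G.e k r).1 u, ?_, ?_, fun j l => ?_⟩
  · conv_rhs => rw [← G.gl_e k r]
    exact G.gl_le le_rfl hu
  · rw [G.e_gl]
  · rw [G.e_gl]
    exact h1 (j, l)

include G in
/-- Partial functions from `λ` to `λ⁺` are bounded. -/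
theorem Gr.reg {Z : Type} [Preorder Z] (k0 : ℕ) (hκ : ∀ k, ℵ₀ ≤ κ k) (hZ : ∀ k, k0 ≤ k → #Z ≤ κ k)
    {W La : Type} [LinearOrder La] [WellFoundedLT La]
    (hLa : ∀ (ι : Type) (f : ι → La), (∃ k, #ι ≤ Order.succ (κ k)) → ∃ b, ∀ i, f i < b)
    (V : ℕ → Set W) (hV : ∀ w, ∃ n, w ∈ V n) (hV' : ∀ n, #(V n) ≤ κ (k0 + n))
    (Φ : W → La → Set (Z × R)) (hd : ∀ w a, Down (Φ w a))
    (hu : ∀ w a b p, p ∈ Φ w a → p ∈ Φ w b → a = b) (p : Z × R) :
    ∃ r' ≤ p.2, ∃ b, ∀ w, ∀ q ≤ (p.1, r'), ∀ a, q ∈ Φ w a → a < b := by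
  have key : ∀ n, ∀ r ≤ p.2, ∃ r' ≤ r, (G.e (k0 + n) r').1 = (G.e (k0 + n) r).1 ∧
      ∃ b, ∀ w ∈ V n, ∀ q : Z × R, q.2 ≤ r' → ∀ a, q ∈ Φ w a → a < b := by
    intro n r hr
    let k := k0 + n
    let Ψ : V n × Z → G.Lo k → G.Up k → Prop := fun j l u =>
      (∃ z ≤ j.2, ∃ l' ≤ l, ∃ a, (z, G.gl k l' u) ∈ Φ j.1 a) ∨
      ∀ z ≤ j.2, ∀ l' ≤ l, ∀ u' ≤ u, ∀ a, (z, G.gl k l' u') ∉ Φ j.1 a
    obtain ⟨r', hr', h1, h2⟩ := G.upper k (hκ k) (J := V n × Z) (by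
      simp only [mk_prod, lift_id]
      refine mul_le_of_le ((hκ k).trans (Order.le_succ _)) ((hV' n).trans (Order.le_succ _)) ?_
      exact (hZ k (Nat.le_add_right _ _)).trans (Order.le_succ _)) r Ψ (by
      rintro j l u u' hu' (⟨z, hz, l', hl', a, h⟩ | h)
      · exact Or.inl ⟨z, hz, l', hl', a, hd _ _ _ h _ ⟨le_rfl, G.gl_le le_rfl hu'⟩⟩
      · exact Or.inr fun z hz l' hl' u'' hu'' a => h z hz l' hl' u'' (hu''.trans hu') a) (by
      intro j l u hu'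
      by_cases h : ∀ z ≤ j.2, ∀ l' ≤ l, ∀ u' ≤ u, ∀ a, (z, G.gl k l' u') ∉ Φ j.1 a
      · exact ⟨u, le_rfl, Or.inr h⟩
      · push Not at h
        obtain ⟨z, hz, l', hl', u', hu'', a, h⟩ := h
        exact ⟨u', hu'', Or.inl ⟨z, hz, l', hl', a, h⟩⟩)
    classical
    have h3 : ∀ j : (V n × Z) × G.Lo k, ∃ b : La, ∀ z ≤ j.1.2, ∀ l' ≤ j.2, ∀ a,
        (z, G.gl k l' (G.e k r').2) ∈ Φ j.1.1 a → True := fun j => by
      obtain ⟨b, _⟩ := hLa Empty (fun e => e.elim) ⟨0, by simp⟩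
      exact ⟨b, fun _ _ _ _ _ _ => trivial⟩
    -- the values decided
    have h4 : ∀ j : (V n × Z) × G.Lo k, ∃ b : La, (∃ z ≤ j.1.2, ∃ l' ≤ j.2,
        (z, G.gl k l' (G.e k r').2) ∈ Φ j.1.1 b) ∨
        ∀ z ≤ j.1.2, ∀ l' ≤ j.2, ∀ u' ≤ (G.e k r').2, ∀ a, (z, G.gl k l' u') ∉ Φ j.1.1 a := by
      intro j
      rcases h2 j.1 j.2 with ⟨z, hz, l', hl', a, h⟩ | h
      · exact ⟨a, Or.inl ⟨z, hz, l', hl', h⟩⟩
      · obtain ⟨b, _⟩ := h3 j
        exact ⟨b, Or.inr h⟩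
    choose f hf using h4
    obtain ⟨b, hb⟩ := hLa _ f ⟨k, by
      simp only [mk_prod, lift_id]
      have h0 := (hκ k).trans (Order.le_succ _)
      exact mul_le_of_le h0 (mul_le_of_le h0 ((hV' n).trans (Order.le_succ _))
        ((hZ k (Nat.le_add_right _ _)).trans (Order.le_succ _)))
        ((G.card k).trans (Order.le_succ _))⟩
    refine ⟨r', hr', h1, b, fun w hw q hq a hqa => ?_⟩
    have h5 := G.e_mono k hq
    rcases hf ((⟨w, hw⟩, q.1), (G.e k q.2).1) with ⟨z, hz, l', hl', h⟩ | h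
    · have h6 : (z, G.gl k l' (G.e k q.2).2) ∈ Φ w (f ((⟨w, hw⟩, q.1), (G.e k q.2).1)) :=
        hd _ _ _ h _ ⟨le_rfl, G.gl_le le_rfl h5.2⟩
      have h7 : (z, G.gl k l' (G.e k q.2).2) ∈ Φ w a := by
        refine hd _ _ _ hqa _ ⟨hz, ?_⟩
        conv_rhs => rw [← G.gl_e k q.2]
        exact G.gl_le hl' le_rfl
      rw [hu _ _ _ _ h7 h6]
      exact hb _
    · refine absurd ?_ (h q.1 le_rfl (G.e k q.2).1 le_rfl (G.e k q.2).2 h5.2 a)
      rw [G.gl_e]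
      exact hqa
  obtain ⟨r', hr', h⟩ := G.fusion k0 p.2 (fun n r => ∃ b, ∀ w ∈ V n, ∀ q : Z × R, q.2 ≤ r →
    ∀ a, q ∈ Φ w a → a < b) (fun n r r' hr ⟨b, h⟩ => ⟨b, fun w hw q hq a ha =>
      h w hw q (hq.trans hr) a ha⟩) key
  choose b hb using h
  obtain ⟨c, hc⟩ := hLa ℕ b ⟨0, by
    rw [mk_nat]
    exact (hκ 0).trans (Order.le_succ _)⟩
  refine ⟨r', hr', c, fun w q hq a ha => ?_⟩
  obtain ⟨n, hn⟩ := hV w
  exact (hb n w hn q hq.2 a ha).trans (hc n)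

end

/-! ### Products -/

/-- products over an index set with a level function -/
noncomputable def Gr.pi {J : Type} {C : J → Type} [∀ j, Preorder (C j)] {κ : ℕ → Cardinal.{0}}
    (lvl : J → ℕ) (h1 : ∀ k, #(∀ j : {j // lvl j < k}, C j) ≤ κ k)
    (h2 : ∀ k j, ¬ lvl j < k → DC (Order.succ (κ k)) (C j)) : Gr (∀ j, C j) κ where
  Lo k := ∀ j : {j // lvl j < k}, C j
  Up k := ∀ j : {j // ¬ lvl j < k}, C j
  iL k := inferInstance
  iU k := inferInstance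
  e k := {
    toEquiv := Equiv.piEquivPiSubtypeProd (fun j => lvl j < k) C
    map_rel_iff' := by
      intro p q
      constructor
      · intro h j
        by_cases hj : lvl j < k
        · exact h.1 ⟨j, hj⟩
        · exact h.2 ⟨j, hj⟩
      · intro h
        exact ⟨fun j => h j.1, fun j => h j.1⟩ }
  card := h1
  dc k := DC.pi fun j => h2 k j.1 j.2
  fus k0 r hr he := by
    have hr' : ∀ m n, m ≤ n → r n ≤ r m := by
      intro m n hmn
      induction n, hmn using Nat.le_induction with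
      | base => exact le_rfl
      | succ n _ ih => exact (hr n).trans ih
    have hst : ∀ j n, lvl j < k0 + n → r (n + 1) j = r n j := fun j n hn => congrFun (he n) ⟨j, hn⟩
    have hst' : ∀ j n, lvl j + 1 ≤ n → r n j = r (lvl j + 1) j := by
      intro j n hn
      induction n, hn using Nat.le_induction with
      | base => rfl
      | succ n hn ih => rw [hst j n (by omega), ih]
    refine ⟨fun j => r (lvl j + 1) j, fun n j => ?_⟩
    rcases le_total n (lvl j + 1) with h | h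
    · exact hr' n _ h j
    · rw [hst' j n h]

end Run7.h898
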