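import Mathlib
import Pool.Agent.Run7.h898.Base

set_option autoImplicit false
set_option linter.unusedSectionVars false
set_option linter.unusedVariables false

/-!
# Collapsing blocks
-/

namespace Run7.h898

open Set Cardinal Pool.Agent.Helper669.Forcing

/-! ### Well-ordered sets -/

section

variable {X : Type} [LinearOrder X] [WellFoundedLT X]

theorem mk_le_of_iio {κ : Cardinal.{0}} (h : ∀ a : X, #(Iio a) < κ) : #X ≤ κ := by
  by_contra hcon
  push Not at hcon
  have h1 : κ.ord < Ordinal.type (α := X) (· < ·) :=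
    (ord_lt_ord.2 hcon).trans_le (ord_le_type _)
  obtain ⟨a, ha⟩ := Ordinal.typein_surj (α := X) (· < ·) h1
  have h2 := Ordinal.card_typein (r := fun x y : X => x < y) a
  rw [ha, card_ord] at h2
  exact absurd (h a) (not_lt.2 h2.le)

theorem mk_le_succ_of_iio {κ : Cardinal.{0}} (h : ∀ a : X, #(Iio a) ≤ κ) :
    #X ≤ Order.succ κ :=
  mk_le_of_iio fun a => Order.lt_succ_iff.2 (h a)

/-- an element with `κ` elements below it -/
theorem exists_iio {κ : Cardinal.{0}} (h : κ < #X) : ∃ a : X, #(Iio a) = κ ∧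
    ∀ b < a, #(Iio b) < κ := by
  have h1 : κ.ord < Ordinal.type (α := X) (· < ·) :=
    (ord_lt_ord.2 h).trans_le (ord_le_type _)
  obtain ⟨a, ha⟩ := Ordinal.typein_surj (α := X) (· < ·) h1
  refine ⟨a, ?_, fun b hb => ?_⟩
  · have h2 := Ordinal.card_typein (r := fun x y : X => x < y) a
    rw [ha, card_ord] at h2
    exact h2.symm
  · have h2 := Ordinal.card_typein (r := fun x y : X => x < y) b
    have h3 : (#(Iio b)) = _ := h2.symm
    rw [h3, ← lt_ord, ← ha]
    exact (Ordinal.typein_lt_typein (r := fun x y : X => x < y)).2 hb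

end

section

variable (Om : Type) [LinearOrder Om] [WellFoundedLT Om]

variable {Om} in
/-- the size of the initial segment below `a` -/
def sz (a : Om) : Cardinal.{0} := #(Iio a)

variable {Om} in
theorem sz_mono {a b : Om} (h : a ≤ b) : sz a ≤ sz b := mk_le_mk_of_subset (Iio_subset_Iio h)

/-- the ordinals below `κ` -/
def sg (κ : Cardinal.{0}) : Set Om := {a | sz a < κ}

variable {Om} in
theorem mem_sg {κ : Cardinal.{0}} {a : Om} : a ∈ sg Om κ ↔ sz a < κ := Iff.rfl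

variable {Om} in
theorem sg_low {κ : Cardinal.{0}} {a b : Om} (h : a ≤ b) (hb : b ∈ sg Om κ) : a ∈ sg Om κ :=
  (sz_mono h).trans_lt hb

theorem iio_sub {κ : Cardinal.{0}} (a : sg Om κ) : #(Iio a) = sz a.1 := by
  refine mk_congr ⟨fun b => ⟨b.1.1, b.2⟩, fun b => ⟨⟨b.1, sg_low (le_of_lt b.2) a.2⟩, b.2⟩,
    fun _ => rfl, fun _ => rfl⟩

theorem mk_sg_le (κ : Cardinal.{0}) : #(sg Om κ) ≤ κ :=
  mk_le_of_iio fun a => by
    rw [iio_sub]
    exact a.2

theorem sg_mono {κ μ : Cardinal.{0}} (h : κ ≤ μ) : sg Om κ ⊆ sg Om μ := fun _ ha => lt_of_lt_of_le ha h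

theorem mk_sg {κ : Cardinal.{0}} (h : κ ≤ #Om) : #(sg Om κ) = κ := by
  refine le_antisymm (mk_sg_le Om κ) ?_
  by_cases h9 : κ < #Om
  · obtain ⟨c, hc, hc'⟩ := exists_iio h9
    have h14 : Iio c ⊆ sg Om κ := fun d hd => hc' d hd
    have := mk_le_mk_of_subset h14
    rwa [hc] at this
  · have h9 : κ = #Om := le_antisymm h (not_lt.1 h9)
    by_cases hu : sg Om κ = Set.univ
    · rw [hu, mk_univ, h9]
    · obtain ⟨b, hb⟩ := (ne_univ_iff_exists_notMem _).1 hu
      obtain ⟨c, hc, hc'⟩ := WellFounded.has_min (wellFounded_lt (α := Om))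
        {b | b ∉ sg Om κ} ⟨b, hb⟩
      have h14 : Iio c ⊆ sg Om κ := fun d hd => by
        by_contra h15
        exact hc' d h15 hd
      have h15 : κ ≤ sz c := not_lt.1 hc
      exact h15.trans (mk_le_mk_of_subset h14)

end

/-! ### Blocks -/

/-- the successor of `lo`, or `ℵ₀` -/
noncomputable def sl (lo : Cardinal.{0}) : Cardinal.{0} := max ℵ₀ (Order.succ lo)

theorem sl_eq {lo : Cardinal.{0}} (h : ℵ₀ ≤ lo) : sl lo = Order.succ lo :=
  max_eq_right (h.trans (Order.le_succ lo))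

theorem aleph0_le_sl (lo : Cardinal.{0}) : ℵ₀ ≤ sl lo := le_max_left _ _

theorem lt_sl (lo : Cardinal.{0}) : lo < sl lo := (Order.lt_succ lo).trans_le (le_max_right _ _)

/-- partial functions collapsing all ordinals below `hi` to `(sl lo)⁺` -/
structure Cb (Om : Type) [LinearOrder Om] (lo hi : Cardinal.{0}) where
  f : Om → Om → Option Om
  ok : ∀ ξ ε v, f ξ ε = some v → #(Iio ξ) < hi ∧ #(Iio ε) ≤ sl lo ∧ v < ξ
  sm : #{q : Om × Om // f q.1 q.2 ≠ none} ≤ sl lo

section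

variable {Om : Type} [LinearOrder Om] {lo hi : Cardinal.{0}}

instance : Preorder (Cb Om lo hi) where
  le q p := ∀ ξ ε v, p.f ξ ε = some v → q.f ξ ε = some v
  le_refl p := fun _ _ _ h => h
  le_trans p q r h h' := fun ξ ε v hv => h ξ ε v (h' ξ ε v hv)

theorem Cb.le_def {p q : Cb Om lo hi} : q ≤ p ↔ ∀ ξ ε v, p.f ξ ε = some v → q.f ξ ε = some v :=
  Iff.rfl

theorem Cb.ext {p q : Cb Om lo hi} (h : p.f = q.f) : p = q := by
  cases p
  cases q
  simp only at h
  subst h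
  rfl

theorem Cb.le_antisymm {p q : Cb Om lo hi} (h : p ≤ q) (h' : q ≤ p) : p = q := by
  refine Cb.ext (funext fun ξ => funext fun ε => ?_)
  cases h1 : p.f ξ ε with
  | some v => exact (h' ξ ε v h1).symm
  | none =>
    cases h2 : q.f ξ ε with
    | none => rfl
    | some v =>
      rw [h ξ ε v h2] at h1
      exact absurd h1 (by simp)

instance : OrderTop (Cb Om lo hi) where
  top := ⟨fun _ _ => none, fun _ _ _ h => absurd h (by simp), by
    have : IsEmpty {q : Om × Om // (none : Option Om) ≠ none} := ⟨fun x => x.2 rfl⟩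
    rw [mk_eq_zero]
    exact zero_le⟩
  le_top p := fun ξ ε v h => absurd h (by simp)

theorem Cb.top_f (ξ ε : Om) : (⊤ : Cb Om lo hi).f ξ ε = none := rfl

/-- unions -/
theorem Cb.exists_un {ι : Type} (D : ι → Cb Om lo hi) (hι : #ι ≤ sl lo)
    (hd : ∀ i j, ∃ k, D k ≤ D i ∧ D k ≤ D j) :
    ∃ p : Cb Om lo hi, (∀ i, p ≤ D i) ∧ ∀ ξ ε v, p.f ξ ε = some v → ∃ i, (D i).f ξ ε = some v := by
  classical
  have hu : ∀ i j ξ ε v w, (D i).f ξ ε = some v → (D j).f ξ ε = some w → v = w := by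
    intro i j ξ ε v w hv hw
    obtain ⟨k, h1, h2⟩ := hd i j
    have h3 := h1 ξ ε v hv
    rw [h2 ξ ε w hw] at h3
    exact (Option.some.inj h3).symm
  let g : Om → Om → Option Om := fun ξ ε =>
    if h : ∃ i v, (D i).f ξ ε = some v then some h.choose_spec.choose else none
  have hg : ∀ ξ ε v, g ξ ε = some v → ∃ i, (D i).f ξ ε = some v := by
    intro ξ ε v hv
    by_cases h : ∃ i v, (D i).f ξ ε = some v
    · simp only [g, dif_pos h, Option.some.injEq] at hv
      exact ⟨h.choose, hv ▸ h.choose_spec.choose_spec⟩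
    · simp only [g, dif_neg h] at hv
      exact absurd hv (by simp)
  have hg' : ∀ i ξ ε v, (D i).f ξ ε = some v → g ξ ε = some v := by
    intro i ξ ε v hv
    have h : ∃ i v, (D i).f ξ ε = some v := ⟨i, v, hv⟩
    simp only [g, dif_pos h, Option.some.injEq]
    exact hu h.choose i ξ ε _ _ h.choose_spec.choose_spec hv
  refine ⟨⟨g, fun ξ ε v hv => ?_, ?_⟩, fun i ξ ε v hv => hg' i ξ ε v hv, hg⟩
  · obtain ⟨i, hi⟩ := hg ξ ε v hv
    exact (D i).ok ξ ε v hi
  · have h1 : #{q : Om × Om // g q.1 q.2 ≠ none} ≤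
        #(Σ i, {q : Om × Om // (D i).f q.1 q.2 ≠ none}) := by
      have h2 : ∀ q : {q : Om × Om // g q.1 q.2 ≠ none}, ∃ i, (D i).f q.1.1 q.1.2 ≠ none := by
        rintro ⟨q, hq⟩
        obtain ⟨v, hv⟩ := Option.ne_none_iff_exists'.1 hq
        obtain ⟨i, hi⟩ := hg _ _ _ hv
        exact ⟨i, by rw [hi]; simp⟩
      choose i hi using h2
      refine mk_le_of_injective (f := fun q => ⟨i q, q.1, hi q⟩) ?_
      intro q q' hqq
      simp only [Sigma.mk.injEq] at hqq
      obtain ⟨h3, h4⟩ := hqq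
      have : ∀ {a b : ι} (ha : {q : Om × Om // (D a).f q.1 q.2 ≠ none})
          (hb : {q : Om × Om // (D b).f q.1 q.2 ≠ none}), a = b → HEq ha hb → ha.1 = hb.1 := by
        intro a b ha hb hab h
        subst hab
        exact congrArg Subtype.val (eq_of_heq h)
      exact Subtype.ext (this _ _ h3 h4)
    refine h1.trans ?_
    rw [mk_sigma]
    refine (Cardinal.sum_le_sum _ (fun _ => sl lo) fun i => (D i).sm).trans ?_
    rw [Cardinal.sum_const']
    exact mul_le_of_le (aleph0_le_sl lo) hι le_rfl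

theorem dc_Cb : DC (sl lo) (Cb Om lo hi) := fun ι D hι _ hd => by
  obtain ⟨p, hp, _⟩ := Cb.exists_un D hι hd
  exact ⟨p, hp⟩

/-- restriction to the coordinates in `x` -/
def Cb.rs (x : Set Om) [DecidablePred (· ∈ x)] (p : Cb Om lo hi) : Cb Om lo hi where
  f ξ ε := if ξ ∈ x then p.f ξ ε else none
  ok ξ ε v h := by
    split_ifs at h with h1
    exact p.ok ξ ε v h
  sm := by
    refine (mk_le_of_injective (f := fun q : {q : Om × Om // (if q.1 ∈ x then p.f q.1 q.2
      else none) ≠ none} => (⟨q.1, fun h => q.2 (by rw [h]; simp)⟩ :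
      {q : Om × Om // p.f q.1 q.2 ≠ none})) ?_).trans p.sm
    intro q q' h
    exact Subtype.ext (Subtype.mk.inj h)

/-- union, the values of the first condition have priority -/
def Cb.jn (p q : Cb Om lo hi) : Cb Om lo hi where
  f ξ ε := (p.f ξ ε).or (q.f ξ ε)
  ok ξ ε v h := by
    rw [Option.or_eq_some_iff] at h
    rcases h with h | h
    · exact p.ok ξ ε v h
    · exact q.ok ξ ε v h.2
  sm := by
    classical
    refine (mk_le_of_injective (f := fun r : {r : Om × Om // (p.f r.1 r.2).or (q.f r.1 r.2) ≠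
      none} => if h : p.f r.1.1 r.1.2 ≠ none then
        (Sum.inl ⟨r.1, h⟩ : {r : Om × Om // p.f r.1 r.2 ≠ none} ⊕
          {r : Om × Om // q.f r.1 r.2 ≠ none}) else Sum.inr ⟨r.1, fun h' => r.2 (by
            rw [not_ne_iff.1 h, h']; rfl)⟩) ?_).trans ?_
    · intro r r' h
      simp only at h
      split_ifs at h with h1 h2 h2
      · exact Subtype.ext (Subtype.mk.inj (Sum.inl.inj h))
      · exact Subtype.ext (Subtype.mk.inj (Sum.inr.inj h))
    · rw [mk_sum, lift_id, lift_id]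
      exact add_le_of_le (aleph0_le_sl lo) p.sm q.sm

end

/-! ### Sizes -/

theorem mk_pi_le {κ : Cardinal.{0}} (h : Inac κ) {J : Type} (hJ : #J < κ) {C : J → Type}
    (hC : ∀ j, #(C j) ≤ κ) : #(∀ j, C j) ≤ κ := by
  rw [mk_pi]
  refine (Cardinal.prod_le_prod _ (fun _ => κ) hC).trans ?_
  rw [Cardinal.prod_const']
  exact h.pow_le hJ

theorem Inac.sl_lt {κ lo : Cardinal.{0}} (h : Inac κ) (hlo : lo < κ) : sl lo < κ := by
  refine max_lt h.unc (lt_of_le_of_lt ?_ (h.lim lo hlo))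
  exact Order.succ_le_of_lt (cantor lo)

theorem mk_Cb_le {Om : Type} [LinearOrder Om] [WellFoundedLT Om] {κ lo hi : Cardinal.{0}}
    (h : Inac κ) (hlo : lo < κ) (hhi : hi ≤ κ) : #(Cb Om lo hi) ≤ κ := by
  classical
  have hX : #(sg Om κ × sg Om κ × sg Om κ) ≤ κ := by
    simp only [mk_prod, lift_id]
    exact mul_le_of_le h.unc.le (mk_sg_le Om κ) (mul_le_of_le h.unc.le (mk_sg_le Om κ)
      (mk_sg_le Om κ))
  refine le_trans ?_ (h.mk_small (sg Om κ × sg Om κ × sg Om κ) hX)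
  have hin : ∀ (p : Cb Om lo hi) ξ ε v, p.f ξ ε = some v → ξ ∈ sg Om κ ∧ ε ∈ sg Om κ ∧
      v ∈ sg Om κ := by
    intro p ξ ε v hv
    obtain ⟨h1, h2, h3⟩ := p.ok ξ ε v hv
    have h4 : ξ ∈ sg Om κ := lt_of_lt_of_le h1 hhi
    exact ⟨h4, lt_of_le_of_lt h2 (h.sl_lt hlo), sg_low h3.le h4⟩
  refine mk_le_of_injective (f := fun p : Cb Om lo hi =>
    (⟨{t | p.f t.1 t.2.1 = some t.2.2.1}, ?_⟩ : {s : Set (sg Om κ × sg Om κ × sg Om κ) //
      #s < κ})) ?_
  · refine lt_of_le_of_lt ?_ (h.sl_lt hlo)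
    refine le_trans (mk_le_of_injective (f := fun t : {t : sg Om κ × sg Om κ × sg Om κ //
      p.f t.1 t.2.1 = some t.2.2.1} => (⟨(t.1.1.1, t.1.2.1.1), by
        change p.f t.1.1 t.1.2.1 ≠ none
        rw [t.2]
        simp⟩ : {q : Om × Om // p.f q.1 q.2 ≠ none})) ?_) p.sm
    rintro ⟨⟨a, b, c⟩, h1⟩ ⟨⟨a', b', c'⟩, h2⟩ h3
    obtain ⟨h4, h5⟩ := Prod.mk.inj (Subtype.mk.inj h3)
    have h6 : a = a' := Subtype.ext h4
    have h7 : b = b' := Subtype.ext h5
    subst h6
    subst h7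
    have h8 : c = c' := Subtype.ext (Option.some.inj (h1.symm.trans h2))
    subst h8
    rfl
  · intro p q hpq
    have h1 := Subtype.mk.inj hpq
    have key : ∀ p q : Cb Om lo hi, {t : sg Om κ × sg Om κ × sg Om κ |
        p.f t.1 t.2.1 = some t.2.2.1} = {t | q.f t.1 t.2.1 = some t.2.2.1} → q ≤ p := by
      intro p q h1 ξ ε v hv
      obtain ⟨h2, h3, h4⟩ := hin p ξ ε v hv
      have h5 : ((⟨ξ, h2⟩, ⟨ε, h3⟩, ⟨v, h4⟩) : sg Om κ × sg Om κ × sg Om κ) ∈
          {t : sg Om κ × sg Om κ × sg Om κ | p.f t.1 t.2.1 = some t.2.2.1} := hv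
      rw [h1] at h5
      exact h5
    exact Cb.le_antisymm (key q p h1.symm) (key p q h1)

end Run7.h898
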