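import Mathlib
import Pool.Agent.Helper669.Forcing

set_option autoImplicit false
set_option linter.unusedSectionVars false

/-!
# Trees and supercompact cardinals in forcing extensions

The forcing relation is the one of `Pool.Agent.Helper669.Forcing`: a sentence is the set of the
conditions which force it, a name for a subset of a ground model set `X` is a map from `X` to sets
of conditions, and `meets N` says that the generic filter meets the set `N` of conditions.
-/

namespace Run7.h898

open Cardinal Pool.Agent.Helper669.Forcing

section

variable {P : Type} [Preorder P]

/-- `φ or ψ` is `not (not φ and not ψ)`. -/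
def for' (φ ψ : Set P) : Set P := fnot (fand (fnot φ) (fnot ψ))

/-- In the extension: `F` is a proper `κ`-complete filter on `Y`. -/
def IsCompleteFilter {Y : Type} (κ : Cardinal.{0}) (F : (Y → Set P) → Set P) : Set P :=
  fand (fall fun A : Y → Set P => fall fun A' : Y → Set P =>
    fimp (fand (meets (F A)) (fall fun y : Y => fimp (meets (A y)) (meets (A' y))))
      (meets (F A')))
  (fand (fnot (meets (F fun _ => fground False)))
  (fall fun I : Type => fall fun _ : #I < κ => fall fun A : I → Y → Set P =>
    fimp (fall fun i : I => meets (F (A i))) (meets (F fun y => fall fun i : I => meets (A i y)))))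

/-- In the extension: for each subset `A` of `Y`, the family `U` contains `A` or its complement. -/
def IsUltra {Y : Type} (U : (Y → Set P) → Set P) : Set P :=
  fall fun A : Y → Set P => for' (meets (U A)) (meets (U fun y => fnot (meets (A y))))

/-- In the extension: all the sets `x y` have less than `κ` elements. -/
def IsSmall {X Y : Type} (κ : Cardinal.{0}) (x : Y → X → Set P) : Set P :=
  fall fun y : Y => fex fun μ : Cardinal.{0} => fex fun F : μ.out → X → Set P =>
    fand (fground (μ < κ)) (fand (IsFun F)
      (fall fun a : X => fimp (meets (x y a)) (fex fun i => meets (F i a))))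

/-- In the extension: for all `a ∈ X`, the set `{y : a ∈ x y}` is in `U`. -/
def IsFine {X Y : Type} (x : Y → X → Set P) (U : (Y → Set P) → Set P) : Set P :=
  fall fun a : X => meets (U fun y => x y a)

/-- In the extension: if `{y : y ∈ A a for some a ∈ x y}` is in `U` then `A a` is in `U` for
some `a`. -/
def IsNormal {X Y : Type} (x : Y → X → Set P) (U : (Y → Set P) → Set P) : Set P :=
  fall fun A : X → Y → Set P =>
    fimp (meets (U fun y => fex fun a : X => fand (meets (x y a)) (meets (A a y))))
      (fex fun a : X => meets (U (A a)))

/-- In the extension: `κ` is supercompact, that is, for each set `X` there is a `κ`-complete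
ultrafilter `U` on a set `Y` with a family `x` of subsets `x y` of `X` of size less than `κ`, which
is fine and normal (so the image of `U` under `x` is a fine normal ultrafilter on `P_κ(X)`). -/
def Supercompact (P : Type) [Preorder P] (κ : Cardinal.{0}) : Set P :=
  fall fun X : Type => fex fun Y : Type => fex fun x : Y → X → Set P =>
    fex fun U : (Y → Set P) → Set P =>
      fand (IsCompleteFilter κ U) (fand (IsUltra U) (fand (IsSmall κ x)
        (fand (IsFine x U) (IsNormal x U))))

end

/-- every directed family of less than `κ` conditions has a lower bound -/
def DirectedClosed (κ : Cardinal.{0}) (Q : Type) [Preorder Q] : Prop :=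
  ∀ (ι : Type) (D : ι → Q), #ι < κ → Nonempty ι → (∀ i j, ∃ k, D k ≤ D i ∧ D k ≤ D j) →
    ∃ p, ∀ i, p ≤ D i

/-- The uncountable cardinal `κ` is supercompact and remains so in all extensions by
`κ`-directed closed forcing. (The forcing `Q` can be trivial.) -/
def IndestructiblySupercompact (κ : Cardinal.{0}) : Prop :=
  ℵ₀ < κ ∧ ∀ (Q : Type) [Preorder Q], DirectedClosed κ Q → ∀ q : Q, q ∈ Supercompact Q κ

end Run7.h898
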