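import Mathlib
import Pool.Agent.Run7.h898.Base
import Pool.Agent.Run7.h898.Defs

set_option autoImplicit false
set_option linter.unusedSectionVars false
set_option linter.unusedVariables false

/-!
# Names of normal ultrafilters
-/

namespace Run7.h898

open Set Cardinal Pool.Agent.Helper669.Forcing

/-- subsets of `X` of size less than `κ` -/
abbrev PK (κ : Cardinal.{0}) (X : Type) : Type := {s : Set X // #s < κ}

/-- `al φ` is the set of the conditions forcing `φ x` for almost all `x` in the sense of a normal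
ultrafilter of the extension. -/
structure AU (G : Type) [Preorder G] (κ : Cardinal.{0}) (X : Type) (g0 : G) where
  al : (PK κ X → Set G) → Set G
  rg : ∀ φ, Rg (al φ)
  mono : ∀ g ≤ g0, ∀ φ ψ : PK κ X → Set G, (∀ x, Down (φ x)) → g ∈ al φ →
    (∀ x, ∀ g' ≤ g, g' ∈ φ x → ∃ g'' ≤ g', g'' ∈ ψ x) → g ∈ al ψ
  inter : ∀ g ≤ g0, ∀ (ι : Type) (φ : ι → PK κ X → Set G), #ι < κ → (∀ i x, Down (φ i x)) →
    (∀ i, g ∈ al (φ i)) → g ∈ al fun x => {g' | ∀ i, g' ∈ φ i x}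
  ultra : ∀ g ≤ g0, ∀ φ : PK κ X → Set G, (∀ x, Down (φ x)) →
    ∃ g' ≤ g, g' ∈ al φ ∨ g' ∈ al fun x => fnot (φ x)
  ne : ∀ g ≤ g0, ∀ φ : PK κ X → Set G, (∀ x, Down (φ x)) → g ∈ al φ →
    ∃ g' ≤ g, ∃ x, g' ∈ φ x
  fine : ∀ g ≤ g0, ∀ a : X, g ∈ al fun x => {g' | a ∈ x.1}
  normal : ∀ g ≤ g0, ∀ F : X → PK κ X → Set G, (∀ a x, Down (F a x)) →
    g ∈ al (fun x => {g' | ∃ a ∈ x.1, g' ∈ F a x}) → ∃ g' ≤ g, ∃ a, g' ∈ al (F a)

section

variable {P : Type} [Preorder P]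

theorem meets_of_dense {N : Set P} {p : P} (h : ∀ q ≤ p, ∃ r ≤ q, r ∈ meets N) :
    p ∈ meets N := (Rg.meets N).ds p h

theorem meets_dn {N : Set P} {p q : P} (h : p ∈ meets N) (hq : q ≤ p) : q ∈ meets N :=
  down_meets N p h q hq

theorem fnot_dn {N : Set P} {p q : P} (h : p ∈ fnot N) (hq : q ≤ p) : q ∈ fnot N :=
  down_fnot N p h q hq

theorem mem_meets_fground {h : Prop} {p : P} : p ∈ meets (fground (P := P) h) ↔ h := by
  constructor
  · intro h1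
    obtain ⟨_, _, _, h2, _⟩ := h1 p le_rfl
    exact h2
  · intro h1
    exact meets_of_mem h1

theorem for'_elim {φ ψ : Set P} {p : P} (h : p ∈ for' φ ψ) : ∃ q ≤ p, q ∈ φ ∨ q ∈ ψ := by
  by_contra hcon
  push Not at hcon
  exact h p le_rfl ⟨fun q hq h1 => (hcon q hq).1 h1, fun q hq h1 => (hcon q hq).2 h1⟩

theorem for'_left {φ ψ : Set P} (hd : Down φ) {p : P} (h : p ∈ φ) : p ∈ for' φ ψ :=
  fun q hq h1 => h1.1 q le_rfl (hd p h q hq)

theorem for'_right {φ ψ : Set P} (hd : Down ψ) {p : P} (h : p ∈ ψ) : p ∈ for' φ ψ :=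
  fun q hq h1 => h1.2 q le_rfl (hd p h q hq)

theorem down_for' (φ ψ : Set P) : Down (for' φ ψ) := down_fnot _

theorem DirectedClosed.dc {κ mu : Cardinal.{0}} (h : DirectedClosed κ P) (hmu : mu < κ) :
    DC mu P := fun ι D hι hne hd => h ι D (hι.trans_lt hmu) hne hd

theorem DC.dcl {κ : Cardinal.{0}} (h : DC κ P) : DirectedClosed κ P :=
  fun ι D hι hne hd => h ι D hι.le hne hd

theorem dcl_all {κ : Cardinal.{0}} (hκ : ℵ₀ < κ) (h : DirectedClosed κ P) {J : Type}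
    (hJ : #J < κ) (p0 : P) (Φ : J → P → Prop) (hd : ∀ j p q, q ≤ p → Φ j p → Φ j q)
    (step : ∀ j, ∀ p ≤ p0, ∃ q ≤ p, Φ j q) : ∃ q ≤ p0, ∀ j, Φ j q :=
  DC.all (le_max_left ℵ₀ (#J)) (h.dc (max_lt hκ hJ)) (le_max_right _ _) p0 Φ hd step

end

section

variable {G : Type} [Preorder G] {κ : Cardinal.{0}} {X Y : Type} {x : Y → X → Set G}
  {U : (Y → Set G) → Set G} {g0 : G}

/-- the set `x y` is decided to be `s` -/
def dec (x : Y → X → Set G) (y : Y) (s : Set X) : Set G :=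
  {g | ∀ a, (a ∈ s → g ∈ meets (x y a)) ∧ (a ∉ s → g ∈ fnot (meets (x y a)))}

theorem down_dec (y : Y) (s : Set X) : Down (dec x y s) := fun g hg g' hg' a =>
  ⟨fun h => meets_dn ((hg a).1 h) hg', fun h => fnot_dn ((hg a).2 h) hg'⟩

theorem dec_unique {y : Y} {s t : Set X} {g : G} (hs : g ∈ dec x y s) (ht : g ∈ dec x y t) :
    s = t := by
  have key : ∀ s t : Set X, g ∈ dec x y s → g ∈ dec x y t → s ⊆ t := by
    intro s t hs ht a ha
    by_contra hat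
    exact (ht a).2 hat g le_rfl ((hs a).1 ha)
  exact Subset.antisymm (key s t hs ht) (key t s ht hs)

theorem exists_dec (hκ : ℵ₀ < κ) (hG : DirectedClosed κ G) {g : G} (hg : g ∈ IsSmall κ x)
    (y : Y) : ∃ g' ≤ g, ∃ s : PK κ X, g' ∈ dec x y s.1 := by
  obtain ⟨g1, hg1, μ, h1⟩ := mem_fex.1 (hg y) g le_rfl
  obtain ⟨g2, hg2, F, hμ, hF, hc⟩ := mem_fex.1 h1 g1 le_rfl
  obtain ⟨g3, hg3, h3⟩ := dcl_all hκ hG (J := μ.out) (by rw [mk_out]; exact hμ) g2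
    (fun i g => ∃ a, g ∈ meets (F i a) ∧ (g ∈ meets (x y a) ∨ g ∈ fnot (meets (x y a)))) (by
    rintro i p q hq ⟨a, ha, h | h⟩
    · exact ⟨a, meets_dn ha hq, Or.inl (meets_dn h hq)⟩
    · exact ⟨a, meets_dn ha hq, Or.inr (fnot_dn h hq)⟩) (by
    intro i p hp
    obtain ⟨q, hq, a, ha⟩ := IsFun.total (down_IsFun F _ hF p hp) i
    by_cases h : ∃ r ≤ q, r ∈ meets (x y a)
    · obtain ⟨r, hr, h⟩ := h
      exact ⟨r, hr.trans hq, a, meets_dn ha hr, Or.inl h⟩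
    · push Not at h
      exact ⟨q, hq, a, ha, Or.inr h⟩)
  choose a ha hd using h3
  have hF3 : g3 ∈ IsFun F := down_IsFun F _ hF g3 hg3
  refine ⟨g3, hg3.trans (hg2.trans hg1), ⟨{b | ∃ i, b = a i ∧ g3 ∈ meets (x y (a i))}, ?_⟩,
    fun b => ⟨?_, ?_⟩⟩
  · refine lt_of_le_of_lt ?_ hμ
    have h4 : {b | ∃ i, b = a i ∧ g3 ∈ meets (x y (a i))} ⊆ range a := by
      rintro b ⟨i, rfl, _⟩
      exact ⟨i, rfl⟩
    refine (mk_le_mk_of_subset h4).trans (mk_range_le.trans ?_)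
    rw [mk_out]
  · rintro ⟨i, rfl, h⟩
    exact h
  · intro hb g4 hg4 h4
    obtain ⟨g5, hg5, h5⟩ := mem_fimp.1 (hc b) g4 (hg4.trans hg3) h4
    obtain ⟨g6, hg6, i, h6⟩ := mem_fex.1 h5 g5 le_rfl
    have hg63 : g6 ≤ g3 := hg6.trans (hg5.trans hg4)
    have h7 : b = a i := IsFun.unique (down_IsFun F _ hF3 g6 hg63) h6 (meets_dn (ha i) hg63)
    rcases hd i with h8 | h8
    · exact hb ⟨i, h7, h8⟩
    · rw [h7] at h4
      exact h8 g6 hg63 (meets_dn h4 (hg6.trans hg5))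

/-- the translation of families -/
def nu (x : Y → X → Set G) (φ : PK κ X → Set G) (y : Y) : Set G :=
  {g | ∃ s : PK κ X, g ∈ dec x y s.1 ∧ g ∈ φ s}

theorem down_nu {φ : PK κ X → Set G} (h : ∀ s, Down (φ s)) (y : Y) : Down (nu x φ y) := by
  rintro g ⟨s, h1, h2⟩ g' hg'
  exact ⟨s, down_dec y s.1 g h1 g' hg', h s g h2 g' hg'⟩

theorem filt_mono {g : G} (h : g ∈ IsCompleteFilter κ U) {A A' : Y → Set G}
    (hA : g ∈ meets (U A))
    (hs : ∀ y, ∀ g' ≤ g, g' ∈ meets (A y) → ∃ g'' ≤ g', g'' ∈ meets (A' y)) :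
    g ∈ meets (U A') :=
  meets_of_dense fun q' hq' => mem_fimp.1 (h.1 A A') q' hq'
    ⟨meets_dn hA hq', fun a => mem_fimp.2 fun s hs' h' => hs a s (hs'.trans hq') h'⟩

theorem down_icf : Down (IsCompleteFilter (P := G) κ U) :=
  down_fand (down_fall fun _ => down_fall fun _ => down_fimp _ _) (down_fand (down_fnot _)
    (down_fall fun _ => down_fall fun _ => down_fall fun _ => down_fimp _ _))

theorem down_sm : Down (IsSmall κ x) := down_fall fun _ => down_fex _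

theorem exists_au {κ : Cardinal.{0}} (h : IndestructiblySupercompact κ)
    {G : Type} [Preorder G] (hG : DirectedClosed κ G) (X : Type) (g : G) :
    ∃ g0 ≤ g, Nonempty (AU G κ X g0) := by
  obtain ⟨hκ, hsc⟩ := h
  have h1 := hsc G hG g X
  obtain ⟨g1, hg1, Y, h2⟩ := mem_fex.1 h1 g le_rfl
  obtain ⟨g2, hg2, x, h3⟩ := mem_fex.1 h2 g1 le_rfl
  obtain ⟨g3, hg3, U, hF, hU, hS, hN, hM⟩ := mem_fex.1 h3 g2 le_rfl
  have hF' : ∀ g ≤ g3, g ∈ IsCompleteFilter κ U := fun g hg => down_icf _ hF g hg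
  have hS' : ∀ g ≤ g3, g ∈ IsSmall κ x := fun g hg => down_sm _ hS g hg
  -- from `meets (nu x φ y)` to a decided set
  have hdec : ∀ g ≤ g3, ∀ y, ∃ g' ≤ g, ∃ s : PK κ X, g' ∈ dec x y s.1 := fun g hg y =>
    exists_dec hκ hG (hS' g hg) y
  refine ⟨g3, hg3.trans (hg2.trans hg1), ⟨{
    al := fun φ => meets (U (nu x φ))
    rg := fun φ => Rg.meets _
    mono := ?_
    inter := ?_
    ultra := ?_
    ne := ?_
    fine := ?_
    normal := ?_ }⟩⟩
  · intro g hg φ ψ hφ h4 h5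
    refine filt_mono (hF' g hg) h4 fun y g' hg' h6 => ?_
    obtain ⟨g4, hg4, s, h7, h8⟩ := exists_of_meets (down_nu hφ y) h6
    obtain ⟨g5, hg5, h9⟩ := h5 s g4 (hg4.trans hg') h8
    exact ⟨g5, hg5.trans hg4, meets_of_mem ⟨s, down_dec y s.1 _ h7 _ hg5, h9⟩⟩
  · intro g hg ι φ hι hφ h4
    have h5 : g ∈ meets (U fun y => fall fun i : ι => meets (nu x (φ i) y)) :=
      meets_of_dense fun q' hq' => mem_fimp.1 ((hF' g hg).2.2 ι hι fun i => nu x (φ i)) q' hq'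
        fun i => meets_dn (h4 i) hq'
    refine filt_mono (hF' g hg) h5 fun y g' hg' h6 => ?_
    obtain ⟨g4, hg4, h7⟩ := exists_of_meets (down_fall fun i => down_meets _) h6
    obtain ⟨g5, hg5, s, h8⟩ := hdec g4 (hg4.trans (hg'.trans hg)) y
    obtain ⟨g6, hg6, h9⟩ := dcl_all hκ hG hι g5 (fun i g => g ∈ φ i s)
      (fun i p q hq h => hφ i s p h q hq) (by
      intro i p hp
      obtain ⟨q, hq, t, h10, h11⟩ := exists_of_meets (down_nu (hφ i) y)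
        (meets_dn (h7 i) (hp.trans hg5))
      have h12 : s = t := Subtype.ext (dec_unique (down_dec y s.1 _ h8 q (hq.trans hp)) h10)
      subst h12
      exact ⟨q, hq, h11⟩)
    exact ⟨g6, hg6.trans (hg5.trans hg4), meets_of_mem ⟨s, down_dec y s.1 _ h8 _ hg6, h9⟩⟩
  · intro g hg φ hφ
    obtain ⟨g4, hg4, h4⟩ := for'_elim (down_for' _ _ _ (hU (nu x φ)) g hg)
    refine ⟨g4, hg4, h4.imp id fun h5 => ?_⟩
    refine filt_mono (hF' g4 (hg4.trans hg)) h5 fun y g' hg' h6 => ?_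
    obtain ⟨g5, hg5, h7⟩ := exists_of_meets (down_fnot _) h6
    obtain ⟨g6, hg6, s, h8⟩ := hdec g5 (hg5.trans (hg'.trans (hg4.trans hg))) y
    refine ⟨g6, hg6.trans hg5, meets_of_mem ⟨s, h8, fun g7 hg7 h9 => ?_⟩⟩
    exact h7 g7 (hg7.trans hg6) (meets_of_mem ⟨s, down_dec y s.1 _ h8 _ hg7, h9⟩)
  · intro g hg φ hφ h4
    by_contra hcon
    push Not at hcon
    refine (hF' g hg).2.1 g le_rfl (filt_mono (hF' g hg) h4 fun y g' hg' h5 => ?_)
    obtain ⟨g5, hg5, s, _, h6⟩ := exists_of_meets (down_nu hφ y) h5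
    exact absurd h6 (hcon g5 (hg5.trans hg') s)
  · intro g hg a
    refine filt_mono (hF' g hg) (meets_dn (hN a) hg) fun y g' hg' h4 => ?_
    obtain ⟨g5, hg5, s, h5⟩ := hdec g' (hg'.trans hg) y
    refine ⟨g5, hg5, meets_of_mem ⟨s, h5, ?_⟩⟩
    by_contra h6
    obtain ⟨r, hr, t, ht, hrt⟩ := h4 g5 hg5
    exact (h5 a).2 h6 r hr (meets_of_mem (by
      exact ht) |> fun h => meets_dn h hrt)
  · intro g hg F hF2 h4
    have h5 : g ∈ meets (U fun y => fex fun a : X => fand (meets (x y a)) (meets (nu x (F a) y))) := by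
      refine filt_mono (hF' g hg) h4 fun y g' hg' h6 => ?_
      obtain ⟨g5, hg5, s, h7, a, ha, h8⟩ := exists_of_meets (down_nu (fun s => by
        rintro g ⟨a, ha, h⟩ g' hg'
        exact ⟨a, ha, hF2 a s g h g' hg'⟩) y) h6
      exact ⟨g5, hg5, meets_of_mem (mem_fex_of_mem a (down_fand (down_meets _) (down_meets _))
        ⟨(h7 a).1 ha, meets_of_mem ⟨s, h7, h8⟩⟩)⟩
    obtain ⟨g5, hg5, h6⟩ := mem_fimp.1 (hM fun a => nu x (F a)) g hg h5
    obtain ⟨g6, hg6, a, h7⟩ := mem_fex.1 h6 g5 le_rfl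
    exact ⟨g6, hg6.trans hg5, a, h7⟩

end

end Run7.h898
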