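import Mathlib
import Pool.Agent.Run7.h898.Blk
import Pool.Agent.Run7.h898.Uf

set_option autoImplicit false
set_option linter.unusedSectionVars false
set_option linter.unusedVariables false

/-!
# Conditions of the image of a collapse under the embedding of a normal ultrafilter
-/

namespace Run7.h898

open Set Cardinal Pool.Agent.Helper669.Forcing

/-! ### Consequences of the axioms of `AU` -/

section

variable {G : Type} [Preorder G] {κ : Cardinal.{0}} {X : Type} {g0 : G} (A : AU G κ X g0)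

theorem AU.dn {φ : PK κ X → Set G} {g g' : G} (h : g ∈ A.al φ) (hg : g' ≤ g) : g' ∈ A.al φ :=
  (A.rg φ).dn g h g' hg

theorem AU.and (hκ : ℵ₀ ≤ κ) {g : G} (hg : g ≤ g0) {φ ψ : PK κ X → Set G}
    (hφ : ∀ x, Down (φ x)) (hψ : ∀ x, Down (ψ x)) (h : g ∈ A.al φ) (h' : g ∈ A.al ψ) :
    g ∈ A.al fun x => φ x ∩ ψ x := by
  have h1 := A.inter g hg Bool (fun i => match i with
    | true => φ
    | false => ψ) ((lt_aleph0_of_finite _).trans_le hκ) (by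
      rintro (_ | _) x
      · exact hψ x
      · exact hφ x) (by
      rintro (_ | _)
      · exact h'
      · exact h)
  refine A.mono g hg _ _ (fun x => ?_) h1 fun x g' hg' h2 => ⟨g', le_rfl, h2 true, h2 false⟩
  rintro p hp q hq (_ | _)
  · exact hψ x p (hp false) q hq
  · exact hφ x p (hp true) q hq

theorem AU.mono' {g : G} (hg : g ≤ g0) {φ ψ : PK κ X → Set G}
    (hφ : ∀ x, Down (φ x)) (h : g ∈ A.al φ) (h' : ∀ x, ∀ g' ≤ g, g' ∈ φ x → g' ∈ ψ x) :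
    g ∈ A.al ψ :=
  A.mono g hg φ ψ hφ h fun x g' hg' h1 => ⟨g', le_rfl, h' x g' hg' h1⟩

theorem AU.cover (hκ : ℵ₀ ≤ κ) {g : G} (hg : g ≤ g0) {ι : Type} (hι : #ι < κ)
    (φ : ι → PK κ X → Set G) (hφ : ∀ i x, Down (φ i x))
    (h : g ∈ A.al fun x => {g' | ∃ i, g' ∈ φ i x}) : ∃ g' ≤ g, ∃ i, g' ∈ A.al (φ i) := by
  by_contra hcon
  push Not at hcon
  have h1 : ∀ i, g ∈ A.al fun x => fnot (φ i x) := fun i => (A.rg _).ds g fun q hq => by
    obtain ⟨r, hr, h2⟩ := A.ultra q (hq.trans hg) (φ i) (hφ i)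
    rcases h2 with h2 | h2
    · exact absurd h2 (hcon r (hr.trans hq) i)
    · exact ⟨r, hr, h2⟩
  have h2 := A.inter g hg ι (fun i x => fnot (φ i x)) hι (fun i x => down_fnot _) h1
  have h3 := A.and hκ hg (fun x => by
    rintro p ⟨i, hi⟩ q hq
    exact ⟨i, hφ i x p hi q hq⟩) (fun x => by
    intro p hp q hq i
    exact down_fnot _ p (hp i) q hq) h h2
  obtain ⟨g', hg', x, ⟨i, h4⟩, h5⟩ := A.ne g hg _ (fun x => by
    rintro p ⟨⟨i, hi⟩, hp⟩ q hq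
    exact ⟨⟨i, hφ i x p hi q hq⟩, fun i => down_fnot _ p (hp i) q hq⟩) h3
  exact h5 i g' le_rfl h4

/-- a statement for almost all `x` follows if its negation cannot hold for almost all `x` -/
theorem AU.of_not {g : G} (hg : g ≤ g0) {φ : PK κ X → Set G} (hφ : ∀ x, Down (φ x))
    (h : ∀ g' ≤ g, g' ∉ A.al fun x => fnot (φ x)) : g ∈ A.al φ :=
  (A.rg _).ds g fun q hq => by
    obtain ⟨r, hr, h2⟩ := A.ultra q (hq.trans hg) φ hφ
    rcases h2 with h2 | h2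
    · exact ⟨r, hr, h2⟩
    · exact absurd h2 (h r (hr.trans hq))

end

/-! ### Restrictions -/

section

variable {J : Type} {Om : Type} [LinearOrder Om] [WellFoundedLT Om] {lo hi : J → Cardinal.{0}}

variable (Om lo hi) in
/-- a product of blocks -/
abbrev Bb : Type := ∀ j : J, Cb Om (lo j) (hi j)

open Classical in
/-- restriction -/
noncomputable def rs (x : Set Om) (b : Bb Om lo hi) : Bb Om lo hi := fun j => (b j).rs x

/-- union -/
def jn (b c : Bb Om lo hi) : Bb Om lo hi := fun j => (b j).jn (c j)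

/-- all coordinates are in `x` -/
def inn (x : Set Om) (b : Bb Om lo hi) : Prop := ∀ j ξ ε v, (b j).f ξ ε = some v → ξ ∈ x

/-- no coordinate is in `x` -/
def tl (x : Set Om) (b : Bb Om lo hi) : Prop := ∀ j ξ ε v, (b j).f ξ ε = some v → ξ ∉ x

theorem rs_f {x : Set Om} {b : Bb Om lo hi} {j : J} {ξ ε v : Om} :
    (rs x b j).f ξ ε = some v ↔ ξ ∈ x ∧ (b j).f ξ ε = some v := by
  classical
  simp only [rs, Cb.rs]
  split_ifs with h
  · exact ⟨fun h' => ⟨h, h'⟩, fun h' => h'.2⟩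
  · exact ⟨fun h' => absurd h' (by simp), fun h' => absurd h'.1 h⟩

theorem jn_f {b c : Bb Om lo hi} {j : J} {ξ ε v : Om} :
    (jn b c j).f ξ ε = some v ↔ (b j).f ξ ε = some v ∨ ((b j).f ξ ε = none ∧
      (c j).f ξ ε = some v) := by
  change ((b j).f ξ ε).or ((c j).f ξ ε) = some v ↔ _
  rw [Option.or_eq_some_iff]

theorem jn_le (b c : Bb Om lo hi) : jn b c ≤ b := fun j ξ ε v h => jn_f.2 (Or.inl h)

theorem jn_mono {x : Set Om} {b b' c c' : Bb Om lo hi} (hb : b' ≤ b) (hc : c' ≤ c)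
    (hi : inn x b') (ht : tl x c) : jn b' c' ≤ jn b c := by
  intro j ξ ε v h
  rcases jn_f.1 h with h | ⟨h, h'⟩
  · exact jn_f.2 (Or.inl (hb j ξ ε v h))
  · refine jn_f.2 (Or.inr ⟨?_, hc j ξ ε v h'⟩)
    cases h1 : (b' j).f ξ ε with
    | none => rfl
    | some w => exact absurd (hi j ξ ε w h1) (ht j ξ ε v h')

theorem Bb.ext_le {b c : Bb Om lo hi} (h : b ≤ c) (h' : c ≤ b) : b = c :=
  funext fun j => Cb.le_antisymm (h j) (h' j)

theorem jn_rs (x : Set Om) (b : Bb Om lo hi) : jn (rs x b) (rs xᶜ b) = b := by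
  apply Bb.ext_le
  · intro j ξ ε v h
    by_cases hx : ξ ∈ x
    · exact jn_f.2 (Or.inl (rs_f.2 ⟨hx, h⟩))
    · refine jn_f.2 (Or.inr ⟨?_, rs_f.2 ⟨hx, h⟩⟩)
      cases h1 : (rs x b j).f ξ ε with
      | none => rfl
      | some w => exact absurd (rs_f.1 h1).1 hx
  · intro j ξ ε v h
    rcases jn_f.1 h with h | ⟨_, h⟩
    · exact (rs_f.1 h).2
    · exact (rs_f.1 h).2

theorem tl_rs (x : Set Om) (b : Bb Om lo hi) : tl x (rs xᶜ b) := fun j ξ ε v h => (rs_f.1 h).1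

/-- the entries of a condition -/
abbrev En (b : Bb Om lo hi) : Type := Σ j, {q : Om × Om // (b j).f q.1 q.2 ≠ none}

theorem mk_En {κ : Cardinal.{0}} (h : Inac κ) (hJ : #J < κ) (hlo : ∀ j, lo j < κ)
    (b : Bb Om lo hi) : #(En b) < κ := by
  rw [mk_sigma]
  exact sum_lt_of_isRegular h.reg hJ fun j => (b j).sm.trans_lt (h.sl_lt (hlo j))

end

/-! ### Names of conditions -/

section

variable {S G : Type} [Preorder S] [Preorder G] {J : Type} {Om : Type} [LinearOrder Om]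
  [WellFoundedLT Om] {lo hi : J → Cardinal.{0}} {κ : Cardinal.{0}} {g0 : G}
  (A : AU G κ Om g0) (hI : Inac κ) (hJ : #J < κ) (hlo : ∀ j, lo j < κ) (hhi : ∀ j, hi j ≤ κ)

include hI hJ hlo in
theorem inn_ae {g : G} (hg : g ≤ g0) (b : Bb Om lo hi) :
    g ∈ A.al fun x => {_g' | inn x.1 b} := by
  have h1 := A.inter g hg (En b) (fun e x => {_g' | e.2.1.1 ∈ x.1}) (mk_En hI hJ hlo b)
    (fun _ _ _ hp _ _ => hp) fun e => A.fine g hg e.2.1.1
  refine A.mono' hg (fun x => by intro p hp q hq e; exact hp e) h1 fun x g' hg' h2 j ξ ε v h => ?_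
  exact h2 ⟨j, (ξ, ε), by rw [h]; simp⟩

include hI hJ hlo hhi in
/-- the part below the critical point is constant -/
theorem rs_const (hG : DC κ G) {g : G} (hg : g ≤ g0) (m : PK κ Om → Bb Om lo hi → Set G)
    (hm : ∀ x c, Down (m x c)) (hu : ∀ x c c' g, g ∈ m x c → g ∈ m x c' → c = c')
    (h : g ∈ A.al fun x => {g' | ∃ c, g' ∈ m x c}) :
    ∃ g' ≤ g, ∃ b, g' ∈ A.al fun x => {g'' | ∃ c, g'' ∈ m x c ∧ rs x.1 c = b} := by
  classical
  have h0 : ℵ₀ ≤ κ := hI.unc.le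
  let E : J → Om → Om → Om → PK κ Om → Set G := fun j ξ ε v x =>
    {g' | ∃ c, g' ∈ m x c ∧ (c j).f ξ ε = some v}
  have hE : ∀ j ξ ε v x, Down (E j ξ ε v x) := by
    rintro j ξ ε v x p ⟨c, h1, h2⟩ q hq
    exact ⟨c, hm x c p h1 q hq, h2⟩
  obtain ⟨g1, hg1, h1⟩ := hG.all h0 (J := J × sg Om κ × sg Om κ × sg Om κ) (by
    simp only [mk_prod, lift_id]
    exact mul_le_of_le h0 hJ.le (mul_le_of_le h0 (mk_sg_le Om κ) (mul_le_of_le h0
      (mk_sg_le Om κ) (mk_sg_le Om κ)))) g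
    (fun t g => g ∈ A.al (E t.1 t.2.1 t.2.2.1 t.2.2.2) ∨
      g ∈ A.al fun x => fnot (E t.1 t.2.1 t.2.2.1 t.2.2.2 x)) (by
      rintro t p q hq (h1 | h1)
      · exact Or.inl (A.dn h1 hq)
      · exact Or.inr (A.dn h1 hq)) fun t p hp => A.ultra p (hp.trans hg) _ (hE _ _ _ _)
  have hg10 : g1 ≤ g0 := hg1.trans hg
  let Q : J → Om → Om → Om → Prop := fun j ξ ε v => g1 ∈ A.al (E j ξ ε v)
  -- properties of `Q`
  have hQ1 : ∀ j ξ ε v, ∀ g2 ≤ g1, g2 ∈ A.al (E j ξ ε v) → #(Iio ξ) < hi j ∧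
      #(Iio ε) ≤ sl (lo j) ∧ v < ξ := by
    intro j ξ ε v g2 hg2 h2
    obtain ⟨_, _, x, c, _, h3⟩ := A.ne g2 (hg2.trans hg10) _ (hE j ξ ε v) h2
    exact (c j).ok ξ ε v h3
  have hQ2 : ∀ j ξ ε v w, Q j ξ ε v → Q j ξ ε w → v = w := by
    intro j ξ ε v w h2 h3
    obtain ⟨g2, _, x, ⟨c, h4, h5⟩, c', h6, h7⟩ := A.ne g1 hg10 _ (fun x => by
      rintro p ⟨h4, h5⟩ q hq
      exact ⟨hE j ξ ε v x p h4 q hq, hE j ξ ε w x p h5 q hq⟩)
      (A.and h0 hg10 (hE j ξ ε v) (hE j ξ ε w) h2 h3)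
    have := hu x c c' g2 h4 h6
    subst this
    rw [h5] at h7
    exact Option.some.inj h7
  have hQ3 : ∀ j ξ ε v, ¬ Q j ξ ε v → ∀ g2 ≤ g1, g2 ∉ A.al (E j ξ ε v) := by
    intro j ξ ε v h2 g2 hg2 h3
    obtain ⟨h4, h5, h6⟩ := hQ1 j ξ ε v g2 hg2 h3
    have hξ : ξ ∈ sg Om κ := lt_of_lt_of_le h4 (hhi j)
    have hε : ε ∈ sg Om κ := lt_of_le_of_lt h5 (hI.sl_lt (hlo j))
    have hv : v ∈ sg Om κ := sg_low h6.le hξ
    rcases h1 (j, ⟨ξ, hξ⟩, ⟨ε, hε⟩, ⟨v, hv⟩) with h7 | h7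
    · exact h2 h7
    · obtain ⟨g3, hg3, x, h8, h9⟩ := A.ne g2 (hg2.trans hg10) _ (fun x => by
        rintro p ⟨h4, h5⟩ q hq
        exact ⟨hE j ξ ε v x p h4 q hq, down_fnot _ p h5 q hq⟩)
        (A.and h0 (hg2.trans hg10) (hE j ξ ε v) (fun _ => down_fnot _) h3 (A.dn h7 hg2))
      exact h9 g3 le_rfl h8
  -- the condition
  let b : Bb Om lo hi := fun j => {
    f := fun ξ ε => if h : ∃ v, Q j ξ ε v then some h.choose else none
    ok := by
      intro ξ ε v hv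
      split_ifs at hv with h2
      rw [← Option.some.inj hv]
      exact hQ1 j ξ ε _ g1 le_rfl h2.choose_spec
    sm := by
      by_contra hcon
      push Not at hcon
      obtain ⟨T, hT1, hT2⟩ := Cardinal.le_mk_iff_exists_subset.1 (Order.succ_le_of_lt hcon)
      have hT3 : #T < κ := by
        rw [hT2]
        refine lt_of_le_of_lt ?_ (hI.lim _ (hI.sl_lt (hlo j)))
        exact Order.succ_le_of_lt (cantor _)
      have hq : ∀ q : T, ∃ v, Q j q.1.1 q.1.2 v := by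
        intro q
        by_contra h3
        exact hT1 q.2 (dif_neg h3)
      choose v hv using hq
      have h2 := A.inter g1 hg10 T (fun q => E j q.1.1 q.1.2 (v q)) hT3
        (fun q => hE _ _ _ _) hv
      obtain ⟨g2, _, x, h3⟩ := A.ne g1 hg10 _ (fun x => by intro p hp q hq t; exact hE _ _ _ _ x p (hp t) q hq) h2
      have hne : Nonempty T := by
        rw [← mk_ne_zero_iff, hT2]
        exact (lt_of_le_of_lt zero_le (Order.lt_succ _)).ne'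
      obtain ⟨c, hc, _⟩ := h3 hne.some
      have h4 : ∀ q : T, (c j).f q.1.1 q.1.2 ≠ none := by
        intro q
        obtain ⟨c', hc', h5⟩ := h3 q
        rw [hu x c c' g2 hc hc', h5]
        simp
      have h5 : #T ≤ sl (lo j) := (mk_le_of_injective (f := fun q : T =>
        (⟨q.1, h4 q⟩ : {q : Om × Om // (c j).f q.1 q.2 ≠ none})) (fun q q' hqq =>
          Subtype.ext (Subtype.mk.inj hqq))).trans (c j).sm
      rw [hT2] at h5
      exact absurd h5 (not_le.2 (Order.lt_succ _)) }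
  have hb : ∀ j ξ ε v, (b j).f ξ ε = some v ↔ Q j ξ ε v := by
    intro j ξ ε v
    change (if h : ∃ v, Q j ξ ε v then some h.choose else none) = some v ↔ _
    split_ifs with h2
    · constructor
      · intro h3
        rw [← Option.some.inj h3]
        exact h2.choose_spec
      · intro h3
        rw [hQ2 _ _ _ _ _ h2.choose_spec h3]
    · exact ⟨fun h3 => absurd h3 (by simp), fun h3 => absurd ⟨v, h3⟩ h2⟩
  refine ⟨g1, hg1, b, ?_⟩
  have hφ : ∀ x : PK κ Om, Down {g'' | ∃ c, g'' ∈ m x c ∧ rs x.1 c = b} := by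
    rintro x p ⟨c, h1, h2⟩ q hq
    exact ⟨c, hm x c p h1 q hq, h2⟩
  refine A.of_not hg10 hφ fun g2 hg2 h2 => ?_
  have hg20 : g2 ≤ g0 := hg2.trans hg10
  -- the entries of `b` are entries of the conditions
  have h3 : g2 ∈ A.al fun x => {g' | ∀ e : En b, ∃ c, g' ∈ m x c ∧
      (c e.1).f e.2.1.1 e.2.1.2 = (b e.1).f e.2.1.1 e.2.1.2} := by
    refine A.inter g2 hg20 (En b) (fun e x => {g' | ∃ c, g' ∈ m x c ∧
      (c e.1).f e.2.1.1 e.2.1.2 = (b e.1).f e.2.1.1 e.2.1.2}) (mk_En hI hJ hlo b) (by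
      rintro e x p ⟨c, h1, h2⟩ q hq
      exact ⟨c, hm x c p h1 q hq, h2⟩) ?_
    rintro ⟨j, ⟨ξ, ε⟩, hne⟩
    obtain ⟨v, hv⟩ := Option.ne_none_iff_exists'.1 hne
    refine A.mono' hg20 (hE j ξ ε v) (A.dn ((hb j ξ ε v).1 hv) hg2) fun x g' hg' h4 => ?_
    obtain ⟨c, h5, h6⟩ := h4
    exact ⟨c, h5, h6.trans hv.symm⟩
  have h4 := inn_ae A hI hJ hlo hg20 b
  have hd3 : ∀ x : PK κ Om, Down {g' | ∀ e : En b, ∃ c, g' ∈ m x c ∧
      (c e.1).f e.2.1.1 e.2.1.2 = (b e.1).f e.2.1.1 e.2.1.2} := by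
    intro x p hp q hq e
    obtain ⟨c, h1, h2⟩ := hp e
    exact ⟨c, hm x c p h1 q hq, h2⟩
  have hdm : ∀ x : PK κ Om, Down {g' | ∃ c, g' ∈ m x c} := by
    rintro x p ⟨c, h1⟩ q hq
    exact ⟨c, hm x c p h1 q hq⟩
  have h5 := A.and h0 hg20 hdm (fun x => down_fnot _) (A.dn h (hg2.trans hg1)) h2
  have h6 := A.and h0 hg20 hd3 (fun x => by intro p hp q hq; exact hp) h3 h4
  have h7 := A.and h0 hg20 (fun x => by
      intro p hp q hq; exact ⟨hdm x p hp.1 q hq, down_fnot _ p hp.2 q hq⟩)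
    (fun x => by intro p hp q hq; exact ⟨hd3 x p hp.1 q hq, hp.2⟩) h5 h6
  have h8 : g2 ∈ A.al fun x => {g' | ∃ j : J, g' ∈ {g' | ∃ ξ ∈ x.1, g' ∈ {g' | ∃ ε v c,
      g' ∈ m x c ∧ (c j).f ξ ε = some v ∧ ¬ Q j ξ ε v}}} := by
    refine A.mono' hg20 (fun x => by
      intro p hp q hq
      exact ⟨⟨hdm x p hp.1.1 q hq, down_fnot _ p hp.1.2 q hq⟩,
      ⟨hd3 x p hp.2.1 q hq, hp.2.2⟩⟩) h7 fun x g' hg' h9 => ?_
    obtain ⟨⟨⟨c, hc⟩, h10⟩, h11, h12⟩ := h9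
    by_contra hcon
    refine h10 g' le_rfl ⟨c, hc, ?_⟩
    apply Bb.ext_le
    · intro j ξ ε v hv
      refine rs_f.2 ⟨h12 j ξ ε v hv, ?_⟩
      obtain ⟨c', hc', h13⟩ := h11 ⟨j, (ξ, ε), by rw [hv]; simp⟩
      rw [hu x c c' g' hc hc']
      exact h13.trans hv
    · intro j ξ ε v hv
      obtain ⟨h13, h14⟩ := rs_f.1 hv
      by_contra h15
      exact hcon ⟨j, ξ, h13, ε, v, c, hc, h14, fun h16 => h15 ((hb j ξ ε v).2 h16)⟩
  obtain ⟨g3, hg3, j, h9⟩ := A.cover h0 hg20 hJ _ (by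
    rintro j x p ⟨ξ, hξ, ε, v, c, h1, h2, h3⟩ q hq
    exact ⟨ξ, hξ, ε, v, c, hm x c p h1 q hq, h2, h3⟩) h8
  have hg30 := hg3.trans hg20
  have hd4 : ∀ j ξ, ∀ x : PK κ Om, Down {g' | ∃ ε v c, g' ∈ m x c ∧ (c j).f ξ ε = some v ∧
      ¬ Q j ξ ε v} := by
    rintro j ξ x p ⟨ε, v, c, h1, h2, h3⟩ q hq
    exact ⟨ε, v, c, hm x c p h1 q hq, h2, h3⟩
  obtain ⟨g4, hg4, ξ, h10⟩ := A.normal g3 hg30 _ (hd4 j) h9
  have hg40 := hg4.trans hg30
  obtain ⟨_, _, x0, ε0, v0, c0, _, h11, _⟩ := A.ne g4 hg40 _ (hd4 j ξ) h10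
  have hξ : #(Iio ξ) < κ := ((c0 j).ok ξ ε0 v0 h11).1.trans_le (hhi j)
  have hcard : #({ε : Om // #(Iio ε) ≤ sl (lo j)} × Iio ξ) < κ := by
    rw [mk_prod, lift_id, lift_id]
    refine mul_lt_of_lt h0 ?_ hξ
    refine lt_of_le_of_lt (?_ : _ ≤ Order.succ (sl (lo j))) ?_
    · refine le_trans (mk_le_mk_of_subset (t := sg Om (Order.succ (sl (lo j)))) ?_)
        (mk_sg_le Om (Order.succ (sl (lo j))))
      intro ε hε
      exact Order.lt_succ_iff.2 (show sz ε ≤ _ from hε)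
    · exact lt_of_le_of_lt (Order.succ_le_of_lt (cantor _)) (hI.lim _ (hI.sl_lt (hlo j)))
  have hd5 : ∀ (t : {ε : Om // #(Iio ε) ≤ sl (lo j)} × Iio ξ) (x : PK κ Om),
      Down {g' | ∃ c, g' ∈ m x c ∧ (c j).f ξ t.1 = some t.2.1 ∧ ¬ Q j ξ t.1 t.2.1} := by
    rintro t x p ⟨c, h1, h2, h3⟩ q hq
    exact ⟨c, hm x c p h1 q hq, h2, h3⟩
  have h11 : g4 ∈ A.al fun x => {g' | ∃ t : {ε : Om // #(Iio ε) ≤ sl (lo j)} × Iio ξ,
      g' ∈ {g' | ∃ c, g' ∈ m x c ∧ (c j).f ξ t.1 = some t.2.1 ∧ ¬ Q j ξ t.1 t.2.1}} := by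
    refine A.mono' hg40 (hd4 j ξ) h10 fun x g' hg' h12 => ?_
    obtain ⟨ε, v, c, h13, h14, h15⟩ := h12
    have h16 := (c j).ok ξ ε v h14
    exact ⟨(⟨ε, h16.2.1⟩, ⟨v, h16.2.2⟩), c, h13, h14, h15⟩
  obtain ⟨g5, hg5, t, h12⟩ := A.cover h0 hg40 hcard _ hd5 h11
  have hg50 := hg5.trans hg40
  have hg51 : g5 ≤ g1 := hg5.trans (hg4.trans (hg3.trans hg2))
  obtain ⟨_, _, _, _, _, _, hnQ⟩ := A.ne g5 hg50 _ (hd5 t) h12
  refine hQ3 j ξ t.1 t.2.1 hnQ g5 hg51 (A.mono' hg50 (hd5 t) h12 fun x g' hg' h13 => ?_)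
  obtain ⟨c, h14, h15, _⟩ := h13
  exact ⟨c, h14, h15⟩

end

end Run7.h898
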