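import Mathlib
import Pool.Agent.Run7.h898.Star

set_option autoImplicit false
set_option linter.unusedSectionVars false
set_option linter.unusedVariables false

/-!
# Names of functions to a product of blocks, and the forcing relation for the image
-/

namespace Run7.h898

open Set Cardinal Pool.Agent.Helper669.Forcing

/-- names of functions `f` with `f x` without coordinates in `x` -/
structure Nf (G : Type) [Preorder G] {J : Type} (Om : Type) [LinearOrder Om]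
    [WellFoundedLT Om] (lo hi : J → Cardinal.{0}) (κ : Cardinal.{0}) where
  f : PK κ Om → Bb Om lo hi → Set G
  dn : ∀ x c, Down (f x c)
  un : ∀ x c c' g, g ∈ f x c → g ∈ f x c' → c = c'
  ex : ∀ x g, ∃ g' ≤ g, ∃ c, g' ∈ f x c
  tl : ∀ x c g, g ∈ f x c → tl x.1 c

section

variable {S G : Type} [Preorder S] [Preorder G] {J : Type} {Om : Type} [LinearOrder Om]
  [WellFoundedLT Om] {lo hi : J → Cardinal.{0}} {κ : Cardinal.{0}}

instance : Preorder (Nf G Om lo hi κ) where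
  le f' f := ∀ x g c c', g ∈ f.f x c → g ∈ f'.f x c' → c' ≤ c
  le_refl f := fun x g c c' h h' => by rw [f.un x c c' g h h']
  le_trans f f' f'' h h' := fun x g c c'' hc hc'' => by
    -- `f ≤ f' ≤ f''`
    obtain ⟨g', hg', c', hc'⟩ := f'.ex x g
    exact (h x g' c' c'' hc' (f.dn x c'' g hc'' g' hg')).trans
      (h' x g' c c' (f''.dn x c g hc g' hg') hc')

theorem Nf.le_def {f f' : Nf G Om lo hi κ} : f' ≤ f ↔
    ∀ x g c c', g ∈ f.f x c → g ∈ f'.f x c' → c' ≤ c := Iff.rfl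

/-- the trivial name -/
def Nf.one : Nf G Om lo hi κ where
  f _ c := {_g | c = ⊤}
  dn _ _ _ h _ _ := h
  un _ _ _ _ h h' := h.trans h'.symm
  ex _ g := ⟨g, le_rfl, ⊤, rfl⟩
  tl x c g h := by
    intro j ξ ε v hv
    rw [show c = ⊤ from h] at hv
    exact absurd hv (by
      change (⊤ : Cb Om (lo j) (hi j)).f ξ ε ≠ some v
      rw [Cb.top_f]
      simp)

/-- closure -/
theorem dc_Nf {χ : Cardinal.{0}} (hχ : ℵ₀ ≤ χ) (hG : DC χ G) (hlo : ∀ j, χ ≤ sl (lo j)) :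
    DC χ (Nf G Om lo hi κ) := by
  intro ι D hι hne hd
  classical
  let IsU : (ι → Bb Om lo hi) → Bb Om lo hi → Prop := fun c b => (∀ i, b ≤ c i) ∧
    ∀ j ξ ε v, (b j).f ξ ε = some v → ∃ i, (c i j).f ξ ε = some v
  have hIsU : ∀ c b b', IsU c b → IsU c b' → b = b' := by
    have key : ∀ c b b', IsU c b → IsU c b' → b ≤ b' := by
      intro c b b' h h' j ξ ε v hv
      obtain ⟨i, hi⟩ := h'.2 j ξ ε v hv
      exact h.1 i j ξ ε v hi
    exact fun c b b' h h' => Bb.ext_le (key c b b' h h') (key c b' b h' h)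
  -- deciding all values
  have hall : ∀ x g, ∃ g' ≤ g, ∃ c : ι → Bb Om lo hi, ∀ i, g' ∈ (D i).f x (c i) := by
    intro x g
    obtain ⟨g', hg', h⟩ := hG.all hχ hι g (fun i g => ∃ c, g ∈ (D i).f x c) (by
      rintro i p q hq ⟨c, hc⟩
      exact ⟨c, (D i).dn x c p hc q hq⟩) fun i p _ => (D i).ex x p
    choose c hc using h
    exact ⟨g', hg', c, hc⟩
  have hdir : ∀ x g (c : ι → Bb Om lo hi), (∀ i, g ∈ (D i).f x (c i)) →
      ∀ i i', ∃ k, c k ≤ c i ∧ c k ≤ c i' := by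
    intro x g c hc i i'
    obtain ⟨k, h1, h2⟩ := hd i i'
    exact ⟨k, h1 x g _ _ (hc i) (hc k), h2 x g _ _ (hc i') (hc k)⟩
  have hex : ∀ x g (c : ι → Bb Om lo hi), (∀ i, g ∈ (D i).f x (c i)) → ∃ b, IsU c b := by
    intro x g c hc
    have h : ∀ j, ∃ p : Cb Om (lo j) (hi j), (∀ i, p ≤ c i j) ∧
        ∀ ξ ε v, p.f ξ ε = some v → ∃ i, (c i j).f ξ ε = some v := fun j =>
      Cb.exists_un (fun i => c i j) (hι.trans (hlo j)) fun i i' => by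
        obtain ⟨k, h1, h2⟩ := hdir x g c hc i i'
        exact ⟨k, h1 j, h2 j⟩
    choose b hb hb' using h
    exact ⟨b, fun i j => hb j i, hb'⟩
  refine ⟨{
    f := fun x b => {g | ∃ c : ι → Bb Om lo hi, (∀ i, g ∈ (D i).f x (c i)) ∧ IsU c b}
    dn := ?_
    un := ?_
    ex := ?_
    tl := ?_ }, fun i x g c c' hc hc' => ?_⟩
  · rintro x b g ⟨c, h1, h2⟩ g' hg'
    exact ⟨c, fun i => (D i).dn x _ g (h1 i) g' hg', h2⟩
  · rintro x b b' g ⟨c, h1, h2⟩ ⟨c', h3, h4⟩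
    have : c = c' := funext fun i => (D i).un x _ _ g (h1 i) (h3 i)
    subst this
    exact hIsU c b b' h2 h4
  · intro x g
    obtain ⟨g', hg', c, hc⟩ := hall x g
    obtain ⟨b, hb⟩ := hex x g' c hc
    exact ⟨g', hg', b, c, hc, hb⟩
  · rintro x b g ⟨c, h1, h2⟩ j ξ ε v hv
    obtain ⟨i, hi⟩ := h2.2 j ξ ε v hv
    exact (D i).tl x _ g (h1 i) j ξ ε v hi
  · obtain ⟨c1, h1, h2⟩ := hc'
    rw [(D i).un x c (c1 i) g hc (h1 i)]
    exact h2.1 i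

variable {g0 : G} (A : AU G κ Om g0) (hI : Inac κ) (hJ : #J < κ) (hlo : ∀ j, lo j < κ)
  (hhi : ∀ j, hi j ≤ κ)

/-- `ψ x` is forced by `(s, b ∪ f x)` for almost all `x` -/
def star (g : G) (s : S) (b : Bb Om lo hi) (f : Nf G Om lo hi κ)
    (ψ : PK κ Om → Set (S × Bb Om lo hi × G)) : Prop :=
  g ∈ A.al fun x => {g' | ∃ c, g' ∈ f.f x c ∧ (s, jn b c, g') ∈ ψ x}

theorem down_star {s : S} {b : Bb Om lo hi} {f : Nf G Om lo hi κ}
    {ψ : PK κ Om → Set (S × Bb Om lo hi × G)} (hψ : ∀ x, Down (ψ x)) (x : PK κ Om) :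
    Down {g' | ∃ c, g' ∈ f.f x c ∧ (s, jn b c, g') ∈ ψ x} := by
  rintro p ⟨c, h1, h2⟩ q hq
  exact ⟨c, f.dn x c p h1 q hq, hψ x _ h2 _ ⟨le_rfl, le_rfl, hq⟩⟩

include hI hJ hlo in
theorem star_mono {g g' : G} (hg : g ≤ g0) {s s' : S} {b b' : Bb Om lo hi}
    {f f' : Nf G Om lo hi κ} {ψ ψ' : PK κ Om → Set (S × Bb Om lo hi × G)}
    (hψ : ∀ x, Down (ψ x))
    (h : star A g s b f ψ) (h1 : g' ≤ g) (h2 : s' ≤ s) (h3 : b' ≤ b) (h4 : f' ≤ f)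
    (h5 : ∀ x, ψ x ⊆ ψ' x) : star A g' s' b' f' ψ' := by
  have hg' : g' ≤ g0 := h1.trans hg
  have h6 := A.and hI.unc.le hg' (down_star hψ) (fun x => by intro p hp q hq; exact hp)
    (A.dn h h1) (inn_ae A hI hJ hlo hg' b')
  refine A.mono g' hg' _ _ (fun x => by
    intro p hp q hq
    exact ⟨down_star hψ x p hp.1 q hq, hp.2⟩) h6 fun x g2 hg2 h7 => ?_
  obtain ⟨⟨c, h8, h9⟩, h10⟩ := h7
  obtain ⟨g3, hg3, c', h11⟩ := f'.ex x g2
  refine ⟨g3, hg3, c', h11, h5 x (hψ x _ h9 _ ⟨h2, ?_, hg3⟩)⟩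
  exact jn_mono h3 (h4 x g3 c c' (f.dn x c _ h8 _ hg3) h11) h10 (f.tl x c _ h8)

include hI in
theorem star_and {g : G} (hg : g ≤ g0) {s : S} {b : Bb Om lo hi}
    {f : Nf G Om lo hi κ} {ψ ψ' : PK κ Om → Set (S × Bb Om lo hi × G)}
    (hψ : ∀ x, Down (ψ x)) (hψ' : ∀ x, Down (ψ' x)) (h : star A g s b f ψ)
    (h' : star A g s b f ψ') : star A g s b f fun x => ψ x ∩ ψ' x := by
  refine A.mono' hg (fun x => by
    intro p hp q hq
    exact ⟨down_star hψ x p hp.1 q hq, down_star hψ' x p hp.2 q hq⟩)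
    (A.and hI.unc.le hg (down_star hψ) (down_star hψ') h h') fun x g2 hg2 h7 => ?_
  obtain ⟨⟨c, h8, h9⟩, ⟨c', h10, h11⟩⟩ := h7
  have := f.un x c c' g2 h8 h10
  subst this
  exact ⟨c, h8, h9, h11⟩

include hI hJ hlo in
theorem star_truth {g : G} (hg : g ≤ g0) {s : S} {b : Bb Om lo hi}
    {f : Nf G Om lo hi κ} {N : Set (S × Bb Om lo hi × G)} (hN : Rg N)
    (h : star A g s b f fun _ => N) : (s, b, g) ∈ N := by
  refine hN.ds _ fun q hq => ?_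
  obtain ⟨s2, b2, g2⟩ := q
  have h1 := star_mono A hI hJ hlo hg (fun _ => hN.dn) h hq.2.2 hq.1 hq.2.1 le_rfl
    fun _ => Subset.rfl
  obtain ⟨g3, hg3, x, c, _, h3⟩ := A.ne g2 (hq.2.2.trans hg) _ (down_star fun _ => hN.dn) h1
  exact ⟨(s2, jn b2 c, g3), ⟨le_rfl, jn_le b2 c, hg3⟩, h3⟩

include hI hJ hlo hhi in
theorem star_dec (hG : DC κ G) (hS : #S < κ) {I : Type} (hI' : #I < κ)
    (Φ : I → PK κ Om → Set (S × Bb Om lo hi × G)) (hΦ : ∀ i x, Down (Φ i x))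
    {g : G} (hg : g ≤ g0) (s : S) (b : Bb Om lo hi) (f : Nf G Om lo hi κ)
    (X0 : Set (PK κ Om)) (hX0 : g ∈ A.al fun x => {_g' | x ∈ X0})
    (h : ∀ x ∈ X0, ∀ q ≤ (s, b, g), ∃ r ≤ q, ∃ i, r ∈ Φ i x) :
    ∃ g' ≤ g, ∃ s' ≤ s, ∃ b' ≤ b, ∃ f' ≤ f, ∃ i, star A g' s' b' f' (Φ i) := by
  classical
  have h0 : ℵ₀ ≤ κ := hI.unc.le
  let Ψ : PK κ Om → S × Bb Om lo hi × I → Set G := fun x a => {g3 | inn x.1 b ∧
    ∃ c, g3 ∈ f.f x c ∧ a.1 ≤ s ∧ a.2.1 ≤ jn b c ∧ (a.1, a.2.1, g3) ∈ Φ a.2.2 x}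
  have hΨ : ∀ x a, Down (Ψ x a) := by
    rintro x a p ⟨h1, c, h2, h3, h4, h5⟩ q hq
    exact ⟨h1, c, f.dn x c p h2 q hq, h3, h4, hΦ _ x _ h5 _ ⟨le_rfl, le_rfl, hq⟩⟩
  choose m hm1 hm2 hm3 hm4 using fun x => exists_mix (Ψ x) (hΨ x)
  have hdm : ∀ x, Down {g' | ∃ a, g' ∈ m x a} := by
    rintro x p ⟨a, ha⟩ q hq
    exact ⟨a, hm1 x a p ha q hq⟩
  have h1 : g ∈ A.al fun x => {g' | ∃ a, g' ∈ m x a} := by
    refine A.mono g hg _ _ (fun x => by intro p hp q hq; exact hp)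
      (A.and h0 hg (fun x => by intro p hp q hq; exact hp)
      (fun x => by intro p hp q hq; exact hp) hX0 (inn_ae A hI hJ hlo hg b))
      fun x g' hg' h2 => ?_
    obtain ⟨h3, h4⟩ := h2
    refine hm4 x g' (fun q hq => ?_) g' le_rfl
    obtain ⟨q1, hq1, c, hc⟩ := f.ex x q
    obtain ⟨⟨s3, b3, g3⟩, hr, i, hi⟩ := h x h3 (s, jn b c, q1)
      ⟨le_rfl, jn_le b c, hq1.trans (hq.trans hg')⟩
    exact ⟨g3, hr.2.2.trans hq1, (s3, b3, i), h4, c, f.dn x c q1 hc g3 hr.2.2, hr.1, hr.2.1, hi⟩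
  have h2 : g ∈ A.al fun x => {g' | ∃ t : S × I, g' ∈ {g' | ∃ b3, g' ∈ m x (t.1, b3, t.2)}} :=
    A.mono' hg hdm h1 fun x g' _ h3 => by
      obtain ⟨a, ha⟩ := h3
      exact ⟨(a.1, a.2.2), a.2.1, ha⟩
  obtain ⟨g2, hg2, ⟨s', i⟩, h3⟩ := A.cover h0 hg (ι := S × I) (by
    rw [mk_prod, lift_id, lift_id]
    exact mul_lt_of_lt h0 hS hI') _ (by
    rintro t x p ⟨b3, h⟩ q hq
    exact ⟨b3, hm1 x _ p h q hq⟩) h2
  have hg20 := hg2.trans hg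
  let m1 : PK κ Om → Bb Om lo hi → Set G := fun x b3 => m x (s', b3, i)
  obtain ⟨g3, hg3, b', h4⟩ := rs_const A hI hJ hlo hhi hG hg20 m1 (fun x c => hm1 x _)
    (fun x c c' g h h' => by
      have := hm3 x _ _ g h h'
      simp only [Prod.mk.injEq, true_and, and_true] at this
      exact this) h3
  have hg30 := hg3.trans hg20
  have hd4 : ∀ x, Down {g'' | ∃ c, g'' ∈ m1 x c ∧ rs x.1 c = b'} := by
    rintro x p ⟨c, h1, h2⟩ q hq
    exact ⟨c, hm1 x _ p h1 q hq, h2⟩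
  have hu1 : ∀ x c c' g, g ∈ m1 x c → g ∈ m1 x c' → c = c' := fun x c c' g h h' => by
    have := hm3 x _ _ g h h'
    simp only [Prod.mk.injEq, true_and, and_true] at this
    exact this
  -- the values of the first coordinates
  obtain ⟨_, _, x, c, hc, hcb⟩ := A.ne g3 hg30 _ hd4 h4
  obtain ⟨hx1, c1, hx2, hx3, hx4, _⟩ := hm2 x _ hc
  have hbb : b' ≤ b := by
    rw [← hcb]
    intro j ξ ε v hv
    exact rs_f.2 ⟨hx1 j ξ ε v hv, (hx4.trans (jn_le b c1)) j ξ ε v hv⟩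
  let f' : Nf G Om lo hi κ := {
    f := fun x c' => {g' | (∃ b3, g' ∈ m1 x b3 ∧ c' = rs x.1ᶜ b3) ∨
      ((∀ g'' ≤ g', ∀ b3, g'' ∉ m1 x b3) ∧ g' ∈ f.f x c')}
    dn := by
      rintro x c' p (⟨b3, h5, h6⟩ | ⟨h5, h6⟩) q hq
      · exact Or.inl ⟨b3, hm1 x _ p h5 q hq, h6⟩
      · exact Or.inr ⟨fun g'' hg'' => h5 g'' (hg''.trans hq), f.dn x c' p h6 q hq⟩
    un := by
      rintro x c c' p (⟨b3, h5, h6⟩ | ⟨h5, h6⟩) (⟨b4, h7, h8⟩ | ⟨h7, h8⟩)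
      · rw [h6, h8, hu1 x b3 b4 p h5 h7]
      · exact absurd h5 (h7 p le_rfl b3)
      · exact absurd h7 (h5 p le_rfl b4)
      · exact f.un x c c' p h6 h8
    ex := by
      intro x g
      by_cases h5 : ∃ g' ≤ g, ∃ b3, g' ∈ m1 x b3
      · obtain ⟨g', hg', b3, h5⟩ := h5
        exact ⟨g', hg', _, Or.inl ⟨b3, h5, rfl⟩⟩
      · push Not at h5
        obtain ⟨g', hg', c, hc⟩ := f.ex x g
        exact ⟨g', hg', c, Or.inr ⟨fun g'' hg'' => h5 g'' (hg''.trans hg'), hc⟩⟩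
    tl := by
      rintro x c p (⟨b3, h5, h6⟩ | ⟨h5, h6⟩)
      · rw [h6]
        exact tl_rs x.1 b3
      · exact f.tl x c p h6 }
  have hff : f' ≤ f := by
    rintro x p c c' h5 (⟨b3, h6, h7⟩ | ⟨h6, h7⟩)
    · obtain ⟨h8, c1, h9, h10, h11, _⟩ := hm2 x _ h6
      have := f.un x c c1 p h5 h9
      subst this
      rw [h7]
      intro j ξ ε v hv
      have h12 : ξ ∉ x.1 := f.tl x c p h5 j ξ ε v hv
      refine rs_f.2 ⟨h12, h11 j ξ ε v (jn_f.2 (Or.inr ⟨?_, hv⟩))⟩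
      cases h13 : (b j).f ξ ε with
      | none => rfl
      | some w => exact absurd (h8 j ξ ε w h13) h12
    · rw [f.un x c c' p h5 h7]
  refine ⟨g3, hg3.trans hg2, s', hx3, b', hbb, f', hff, i, ?_⟩
  refine A.mono' hg30 hd4 h4 fun x g' _ h5 => ?_
  obtain ⟨b3, h6, h7⟩ := h5
  refine ⟨rs x.1ᶜ b3, Or.inl ⟨b3, h6, rfl⟩, ?_⟩
  rw [← h7, jn_rs]
  obtain ⟨_, _, _, _, _, h8⟩ := hm2 x _ h6
  exact h8

end

end Run7.h898
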