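import Mathlib
import Pool.Agent.Run7.h898.Nf

set_option autoImplicit false
set_option linter.unusedSectionVars false
set_option linter.unusedVariables false

/-!
# The narrow system property in the extension by a collapse of a supercompact cardinal
-/

namespace Run7.h898

open Set Cardinal Pool.Agent.Helper669.Forcing

/-- small families are bounded -/
def Bd (mu : Cardinal.{0}) (K : Type) [LT K] : Prop :=
  ∀ (ι : Type) (f : ι → K), #ι ≤ mu → ∃ b, ∀ i, f i < b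

/-- the ordinals below `lam⁺` -/
abbrev La (Om : Type) [LinearOrder Om] (lam : Cardinal.{0}) : Type := {a : Om // #(Iio a) ≤ lam}

section

variable {P : Type} [Preorder P] {K X : Type} [LinearOrder K]

/-- tree-like relations on `K × X` in the extension -/
structure TL (R : K × X → K × X → Set P) : Prop where
  rg : ∀ x y, Rg (R x y)
  lt : ∀ x y p, p ∈ R x y → x.1 < y.1
  tr : ∀ x y z p, p ∈ R x y → p ∈ R y z → p ∈ R x z
  cmp : ∀ x y z p, p ∈ R x z → p ∈ R y z → x.1 < y.1 → p ∈ R x y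
  unq : ∀ x y z p, p ∈ R x z → p ∈ R y z → x.1 = y.1 → x = y

/-- below `p`, `B` names an unbounded chain -/
structure Bch (R : K × X → K × X → Set P) (p : P) (B : K × X → Set P) : Prop where
  dn : ∀ x, Down (B x)
  ch : ∀ x y, ∀ q ≤ p, q ∈ B x → q ∈ B y → x.1 < y.1 → q ∈ R x y
  eq : ∀ x y, ∀ q ≤ p, q ∈ B x → q ∈ B y → x.1 = y.1 → x = y
  un : ∀ a, ∀ q ≤ p, ∃ r ≤ q, ∃ x : K × X, a < x.1 ∧ r ∈ B x

end

section

variable {S G : Type} [Preorder S] [Preorder G] {J : Type} {Om : Type} [LinearOrder Om]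
  [WellFoundedLT Om] {lo hi : J → Cardinal.{0}} {κ lam : Cardinal.{0}}

/-- `γ` is the least element of `D` above `x` -/
def Top (D : La Om lam → Set (S × Bb Om lo hi × G)) (x : PK κ Om) (γ : La Om lam) :
    Set (S × Bb Om lo hi × G) :=
  {p | (∀ a ∈ x.1, ∀ h : #(Iio a) ≤ lam, (⟨a, h⟩ : La Om lam) < γ) ∧ p ∈ D γ ∧
    ∀ δ < γ, (∀ a ∈ x.1, ∀ h : #(Iio a) ≤ lam, (⟨a, h⟩ : La Om lam) < δ) → p ∈ fnot (D δ)}

/-- `y` is below the node with index `c.2` over the least element of `D` above `x` -/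
def In {T X : Type} (D : La Om lam → Set (S × Bb Om lo hi × G))
    (Rel : T → La Om lam × X → La Om lam × X → Set (S × Bb Om lo hi × G)) (c : T × X)
    (y : La Om lam × X) (x : PK κ Om) : Set (S × Bb Om lo hi × G) :=
  {p | ∃ γ, p ∈ Top D x γ ∧ p ∈ Rel c.1 y (γ, c.2)}

variable {D : La Om lam → Set (S × Bb Om lo hi × G)} (hDd : ∀ a, Down (D a))

include hDd in
theorem down_Top (x : PK κ Om) (γ : La Om lam) : Down (Top D x γ) := by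
  rintro p ⟨h1, h2, h3⟩ q hq
  exact ⟨h1, hDd γ p h2 q hq, fun δ hδ h => down_fnot _ p (h3 δ hδ h) q hq⟩

theorem Top_unique {x : PK κ Om} {γ γ' : La Om lam} {p : S × Bb Om lo hi × G}
    (h : p ∈ Top D x γ) (h' : p ∈ Top D x γ') : γ = γ' := by
  rcases lt_trichotomy γ γ' with h1 | h1 | h1
  · exact absurd h.2.1 (h'.2.2 γ h1 h.1 p le_rfl)
  · exact h1
  · exact absurd h'.2.1 (h.2.2 γ' h1 h'.1 p le_rfl)

include hDd in
theorem exists_Top (hbd : Bd lam (La Om lam)) (hκ : κ ≤ lam) (x : PK κ Om)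
    {p : S × Bb Om lo hi × G} (hD : ∀ q ≤ p, ∀ a, ∃ r ≤ q, ∃ α, a ≤ α ∧ r ∈ D α) :
    ∃ q ≤ p, ∃ γ, q ∈ Top D x γ := by
  obtain ⟨a, ha⟩ := hbd {a : x.1 // #(Iio a.1) ≤ lam} (fun a => ⟨a.1.1, a.2⟩)
    ((mk_le_of_injective (f := fun a : {a : x.1 // #(Iio a.1) ≤ lam} => a.1)
      Subtype.val_injective).trans (x.2.le.trans hκ))
  obtain ⟨r, hr, α, h1, h2⟩ := hD p le_rfl a
  obtain ⟨γ, ⟨⟨h3, q, hq, h4⟩, hmin⟩⟩ : ∃ γ, ((∀ a ∈ x.1, ∀ h : #(Iio a) ≤ lam,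
      (⟨a, h⟩ : La Om lam) < γ) ∧ ∃ q ≤ p, q ∈ D γ) ∧ ∀ δ < γ, ¬ ((∀ a ∈ x.1,
      ∀ h : #(Iio a) ≤ lam, (⟨a, h⟩ : La Om lam) < δ) ∧ ∃ q ≤ p, q ∈ D δ) := by
    obtain ⟨γ, h3, h4⟩ := WellFounded.has_min (wellFounded_lt (α := La Om lam))
      {γ | (∀ a ∈ x.1, ∀ h : #(Iio a) ≤ lam, (⟨a, h⟩ : La Om lam) < γ) ∧ ∃ q ≤ p, q ∈ D γ}
      ⟨α, fun b hb h => (ha ⟨⟨b, hb⟩, h⟩).trans_le h1, r, hr, h2⟩
    exact ⟨γ, h3, fun δ hδ h => h4 δ h hδ⟩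
  refine ⟨q, hq, γ, h3, h4, fun δ hδ h q' hq' hqδ => ?_⟩
  exact hmin δ hδ ⟨h, q', hq'.trans hq, hqδ⟩

variable {T X : Type} {Rel : T → La Om lam × X → La Om lam × X → Set (S × Bb Om lo hi × G)}
  (hR : ∀ t, TL (Rel t))

include hDd hR in
theorem down_In (c : T × X) (y : La Om lam × X) (x : PK κ Om) : Down (In D Rel c y x) := by
  rintro p ⟨γ, h1, h2⟩ q hq
  exact ⟨γ, down_Top hDd x γ p h1 q hq, ((hR _).rg _ _).dn p h2 q hq⟩

include hR in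
theorem In_rel {c : T × X} {y y' : La Om lam × X} {x : PK κ Om} {p : S × Bb Om lo hi × G}
    (h : p ∈ In D Rel c y x) (h' : p ∈ In D Rel c y' x) (hy : y.1 < y'.1) :
    p ∈ Rel c.1 y y' := by
  obtain ⟨γ, h1, h2⟩ := h
  obtain ⟨γ', h3, h4⟩ := h'
  have := Top_unique h1 h3
  subst this
  exact (hR _).cmp _ _ _ p h2 h4 hy

include hR in
theorem In_eq {c : T × X} {y y' : La Om lam × X} {x : PK κ Om} {p : S × Bb Om lo hi × G}
    (h : p ∈ In D Rel c y x) (h' : p ∈ In D Rel c y' x) (hy : y.1 = y'.1) :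
    y = y' := by
  obtain ⟨γ, h1, h2⟩ := h
  obtain ⟨γ', h3, h4⟩ := h'
  have := Top_unique h1 h3
  subst this
  exact (hR _).unq _ _ _ p h2 h4 hy

variable {g0 : G} (A : AU G κ Om g0)

/-- no extensions of the two conditions force a common node on a level above `β` -/
def Sep (D : La Om lam → Set (S × Bb Om lo hi × G))
    (Rel : T → La Om lam × X → La Om lam × X → Set (S × Bb Om lo hi × G)) (c : T × X)
    (β : La Om lam) (g : G) (s : S) (b : Bb Om lo hi) (f0 f1 : Nf G Om lo hi κ) : Prop :=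
  ∀ g' ≤ g, ∀ s' ≤ s, ∀ b' ≤ b, ∀ f0' ≤ f0, ∀ f1' ≤ f1, ∀ y : La Om lam × X, β ≤ y.1 →
    ¬ (star A g' s' b' f0' (In D Rel c y) ∧ star A g' s' b' f1' (In D Rel c y))

theorem Sep.mono {c : T × X} {β : La Om lam} {g g' : G} {s s' : S} {b b' : Bb Om lo hi}
    {f0 f1 f0' f1' : Nf G Om lo hi κ} (h : Sep A D Rel c β g s b f0 f1) (h1 : g' ≤ g)
    (h2 : s' ≤ s) (h3 : b' ≤ b) (h4 : f0' ≤ f0) (h5 : f1' ≤ f1) :
    Sep A D Rel c β g' s' b' f0' f1' :=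
  fun g'' hg s'' hs b'' hb f0'' hf0 f1'' hf1 => h g'' (hg.trans h1) s'' (hs.trans h2) b''
    (hb.trans h3) f0'' (hf0.trans h4) f1'' (hf1.trans h5)

include hDd hR in
theorem sep_claim (hI : Inac κ) (hJ : #J < κ) (hlo : ∀ j, lo j < κ)
    (hbd : Bd lam (La Om lam)) (hlam : ℵ₀ ≤ lam) {p0 : S × Bb Om lo hi × G}
    (hneg : ∀ q ≤ p0, ∀ t b, ¬ Bch (Rel t) q b) {g : G} (hg : g ≤ g0) (s : S)
    (b : Bb Om lo hi) (hp : (s, b, g) ≤ p0) (f0 f1 : Nf G Om lo hi κ) (c : T × X) :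
    ∃ g' ≤ g, ∃ s' ≤ s, ∃ b' ≤ b, ∃ f0' ≤ f0, ∃ f1' ≤ f1, ∃ β,
      Sep A D Rel c β g' s' b' f0' f1' := by
  by_contra hcon
  have H1 : ∀ g' ≤ g, ∀ s' ≤ s, ∀ b' ≤ b, ∀ f0' ≤ f0, ∀ f1' ≤ f1, ∀ β,
      ∃ g'' ≤ g', ∃ s'' ≤ s', ∃ b'' ≤ b', ∃ f0'' ≤ f0', ∃ f1'' ≤ f1', ∃ y : La Om lam × X,
        β ≤ y.1 ∧ star A g'' s'' b'' f0'' (In D Rel c y) ∧
          star A g'' s'' b'' f1'' (In D Rel c y) := by
    intro g' hg' s' hs' b' hb' f0' hf0' f1' hf1' β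
    by_contra h1
    refine hcon ⟨g', hg', s', hs', b', hb', f0', hf0', f1', hf1', β, ?_⟩
    intro g'' h2 s'' h3 b'' h4 f0'' h5 f1'' h6 y h7 h8
    exact h1 ⟨g'', h2, s'', h3, b'', h4, f0'', h5, f1'', h6, y, h7, h8.1, h8.2⟩
  have hsucc : ∀ a : La Om lam, ∃ b, a < b := fun a => by
    obtain ⟨b, hb⟩ := hbd Unit (fun _ => a) (by rw [mk_unit]; exact one_le_aleph0.trans hlam)
    exact ⟨b, hb ()⟩
  have hdI := fun c y => fun x => down_In (κ := κ) (D := D) (Rel := Rel) hDd hR c y x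
  -- relations from two nodes
  have hrel : ∀ g' ≤ g, ∀ (s' : S) (b' : Bb Om lo hi) (f : Nf G Om lo hi κ)
      (y y' : La Om lam × X), star A g' s' b' f (In D Rel c y) →
      star A g' s' b' f (In D Rel c y') → y.1 < y'.1 → (s', b', g') ∈ Rel c.1 y y' := by
    intro g' hg' s' b' f y y' h1 h2 h3
    have h4 := star_and A hI (hg'.trans hg) (hdI c y) (hdI c y') h1 h2
    have h5 := star_mono A hI hJ hlo (hg'.trans hg) (fun x => by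
      intro p hp q hq
      exact ⟨hdI c y x p hp.1 q hq, hdI c y' x p hp.2 q hq⟩) h4 le_rfl le_rfl le_rfl le_rfl
      (ψ' := fun _ => Rel c.1 y y') (fun x p hp => In_rel hR hp.1 hp.2 h3)
    exact star_truth A hI hJ hlo (hg'.trans hg) ((hR _).rg _ _) h5
  refine hneg (s, b, g) hp c.1 (fun y => {p | p ≤ (s, b, g) ∧
    ∃ f1' ≤ f1, star A p.2.2 p.1 p.2.1 f1' (In D Rel c y)}) ⟨?_, ?_, ?_, ?_⟩
  · rintro y p ⟨h1, f1', h2, h3⟩ q hq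
    exact ⟨hq.trans h1, f1', h2, star_mono A hI hJ hlo (h1.2.2.trans hg) (hdI c y) h3 hq.2.2
      hq.1 hq.2.1 le_rfl fun _ => Subset.rfl⟩
  · rintro y y' p hp ⟨_, f1', h1, h2⟩ ⟨_, f1'', h3, h4⟩ hyy
    refine ((hR _).rg _ _).ds p fun q hq => ?_
    obtain ⟨s2, b2, g2⟩ := q
    obtain ⟨β, hβ⟩ := hsucc y'.1
    have hq' : (s2, b2, g2) ≤ (s, b, g) := hq.trans hp
    obtain ⟨g3, hg3, s3, hs3, b3, hb3, f3, hf3, f4, hf4, y1, hy1, h5, h6⟩ :=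
      H1 g2 hq'.2.2 s2 hq'.1 b2 hq'.2.1 f0 le_rfl f1' h1 β
    obtain ⟨β', hβ'⟩ := hsucc y1.1
    have hg30 : g3 ≤ g := hg3.trans hq'.2.2
    obtain ⟨g5, hg5, s5, hs5, b5, hb5, f5, hf5, f6, hf6, y2, hy2, h7, h8⟩ :=
      H1 g3 hg30 s3 (hs3.trans hq'.1) b3 (hb3.trans hq'.2.1) f3 hf3 f1'' h3 β'
    have hg50 : g5 ≤ g := hg5.trans hg30
    have hg20 : g2 ≤ g0 := hq'.2.2.trans hg
    -- `y < y1`
    have k1 : star A g5 s5 b5 f4 (In D Rel c y) := by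
      refine star_mono A hI hJ hlo (hp.2.2.trans hg) (hdI c y) h2
        (hg5.trans (hg3.trans hq.2.2)) (hs5.trans (hs3.trans hq.1))
        (hb5.trans (hb3.trans hq.2.1)) hf4 fun _ => Subset.rfl
    have k2 : star A g5 s5 b5 f4 (In D Rel c y1) :=
      star_mono A hI hJ hlo (hg30.trans hg) (hdI c y1) h6 hg5 hs5 hb5 le_rfl fun _ => Subset.rfl
    have k3 : star A g5 s5 b5 f5 (In D Rel c y1) :=
      star_mono A hI hJ hlo (hg30.trans hg) (hdI c y1) h5 hg5 hs5 hb5 hf5 fun _ => Subset.rfl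
    have k4 : star A g5 s5 b5 f6 (In D Rel c y') := by
      refine star_mono A hI hJ hlo (hp.2.2.trans hg) (hdI c y') h4
        (hg5.trans (hg3.trans hq.2.2)) (hs5.trans (hs3.trans hq.1))
        (hb5.trans (hb3.trans hq.2.1)) hf6 fun _ => Subset.rfl
    have l1 := hrel g5 hg50 s5 b5 f4 y y1 k1 k2 (hyy.trans (hβ.trans_le hy1))
    have l2 := hrel g5 hg50 s5 b5 f5 y1 y2 k3 h7 (hβ'.trans_le hy2)
    have l3 := hrel g5 hg50 s5 b5 f6 y' y2 k4 h8 ((hβ.trans_le hy1).trans (hβ'.trans_le hy2))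
    exact ⟨(s5, b5, g5), ⟨hs5.trans hs3, hb5.trans hb3, hg5.trans hg3⟩,
      (hR _).cmp _ _ _ _ ((hR _).tr _ _ _ _ l1 l2) l3 hyy⟩
  · rintro y y' p hp ⟨_, f1', h1, h2⟩ ⟨_, f1'', h3, h4⟩ hyy
    obtain ⟨β, hβ⟩ := hsucc y.1
    obtain ⟨s2, b2, g2⟩ := p
    have hq' : (s2, b2, g2) ≤ (s, b, g) := hp
    obtain ⟨g3, hg3, s3, hs3, b3, hb3, f3, hf3, f4, hf4, y1, hy1, h5, h6⟩ :=
      H1 g2 hq'.2.2 s2 hq'.1 b2 hq'.2.1 f0 le_rfl f1' h1 β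
    obtain ⟨β', hβ'⟩ := hsucc y1.1
    have hg30 : g3 ≤ g := hg3.trans hq'.2.2
    obtain ⟨g5, hg5, s5, hs5, b5, hb5, f5, hf5, f6, hf6, y2, hy2, h7, h8⟩ :=
      H1 g3 hg30 s3 (hs3.trans hq'.1) b3 (hb3.trans hq'.2.1) f3 hf3 f1'' h3 β'
    have hg50 : g5 ≤ g := hg5.trans hg30
    have k1 : star A g5 s5 b5 f4 (In D Rel c y) := by
      refine star_mono A hI hJ hlo (hp.2.2.trans hg) (hdI c y) h2
        (hg5.trans hg3) (hs5.trans hs3) (hb5.trans hb3) hf4 fun _ => Subset.rfl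
    have k2 : star A g5 s5 b5 f4 (In D Rel c y1) :=
      star_mono A hI hJ hlo (hg30.trans hg) (hdI c y1) h6 hg5 hs5 hb5 le_rfl fun _ => Subset.rfl
    have k3 : star A g5 s5 b5 f5 (In D Rel c y1) :=
      star_mono A hI hJ hlo (hg30.trans hg) (hdI c y1) h5 hg5 hs5 hb5 hf5 fun _ => Subset.rfl
    have k4 : star A g5 s5 b5 f6 (In D Rel c y') := by
      refine star_mono A hI hJ hlo (hp.2.2.trans hg) (hdI c y') h4
        (hg5.trans hg3) (hs5.trans hs3) (hb5.trans hb3) hf6 fun _ => Subset.rfl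
    have l1 := hrel g5 hg50 s5 b5 f4 y y1 k1 k2 (hβ.trans_le hy1)
    have l2 := hrel g5 hg50 s5 b5 f5 y1 y2 k3 h7 (hβ'.trans_le hy2)
    have l3 := hrel g5 hg50 s5 b5 f6 y' y2 k4 h8 (hyy ▸ (hβ.trans_le hy1).trans
      (hβ'.trans_le hy2))
    exact (hR _).unq _ _ _ _ ((hR _).tr _ _ _ _ l1 l2) l3 hyy
  · intro a q hq
    obtain ⟨s2, b2, g2⟩ := q
    obtain ⟨β, hβ⟩ := hsucc a
    obtain ⟨g3, hg3, s3, hs3, b3, hb3, f3, hf3, f4, hf4, y1, hy1, h5, h6⟩ :=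
      H1 g2 hq.2.2 s2 hq.1 b2 hq.2.1 f0 le_rfl f1 le_rfl β
    exact ⟨(s3, b3, g3), ⟨hs3, hb3, hg3⟩, y1, hβ.trans_le hy1,
      ⟨⟨hs3.trans hq.1, hb3.trans hq.2.1, hg3.trans hq.2.2⟩, f4, hf4, h6⟩⟩

end

end Run7.h898
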