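import Mathlib
import Pool.Agent.Run7.h898.Gr
import Pool.Agent.Run7.h898.Nsp

set_option autoImplicit false
set_option linter.unusedSectionVars false
set_option linter.unusedVariables false

/-!
# Graded forcing does not add branches
-/

namespace Run7.h898

open Set Cardinal Pool.Agent.Helper669.Forcing

section

variable {P Q : Type} [Preorder P] [Preorder Q] {K X : Type} [LinearOrder K]

/-- trees on `K × X` in the extension -/
structure FT (R : K × X → K × X → Set P) : Prop extends TL R where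
  ex : ∀ p y a, a < y.1 → ∃ q ≤ p, ∃ x : K × X, x.1 = a ∧ q ∈ R x y

/-- projections -/
structure Pj (π : Q → P) : Prop where
  mono : ∀ q q' : Q, q' ≤ q → π q' ≤ π q
  lift : ∀ q, ∀ p ≤ π q, ∃ q' ≤ q, π q' ≤ p

theorem Pj.rg {π : Q → P} (h : Pj π) {N : Set P} (hN : Rg N) : Rg (π ⁻¹' N) where
  dn q hq q' hq' := hN.dn _ hq _ (h.mono _ _ hq')
  ds q hq := hN.ds _ fun p hp => by
    obtain ⟨q', hq', h1⟩ := h.lift q p hp
    obtain ⟨r, hr, h2⟩ := hq q' hq'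
    exact ⟨π r, (h.mono _ _ hr).trans h1, h2⟩

theorem FT.pb {π : Q → P} (h : Pj π) {R : K × X → K × X → Set P} (hR : FT R) :
    FT fun x y => π ⁻¹' R x y where
  rg x y := h.rg (hR.rg x y)
  lt x y p hp := hR.lt x y _ hp
  tr x y z p hp hp' := hR.tr x y z _ hp hp'
  cmp x y z p hp hp' := hR.cmp x y z _ hp hp'
  unq x y z p hp hp' := hR.unq x y z _ hp hp'
  ex p y a ha := by
    obtain ⟨q, hq, x, hx, h1⟩ := hR.ex (π p) y a ha
    obtain ⟨q', hq', h2⟩ := h.lift p q hq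
    exact ⟨q', hq', x, hx, (hR.rg x y).dn _ h1 _ h2⟩

/-- the downward closure of a branch meets all levels -/
theorem Bch.full {R : K × X → K × X → Set P} (hR : FT R) {p : P} {B : K × X → Set P}
    (hB : Bch R p B) : ∃ B' : K × X → Set P, Bch R p B' ∧
      ∀ a, ∀ q ≤ p, ∃ r ≤ q, ∃ x : K × X, x.1 = a ∧ r ∈ B' x := by
  refine ⟨fun x => {q | ∃ y, q ∈ B y ∧ (x = y ∨ q ∈ R x y)}, ⟨?_, ?_, ?_, ?_⟩, ?_⟩
  · rintro x q ⟨y, h1, h2⟩ q' hq'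
    exact ⟨y, hB.dn y q h1 q' hq', h2.imp id fun h => (hR.rg x y).dn _ h _ hq'⟩
  · rintro x x' q hq ⟨y, h1, h2⟩ ⟨y', h3, h4⟩ hx
    -- both are below the larger one of `y` and `y'`
    have key : ∀ y y', q ∈ B y → q ∈ B y' → (x = y ∨ q ∈ R x y) → (x' = y' ∨ q ∈ R x' y') →
        y.1 ≤ y'.1 → q ∈ R x x' := by
      intro y y' h1 h3 h2 h4 hyy
      have h5 : x = y' ∨ q ∈ R x y' := by
        rcases hyy.lt_or_eq with h6 | h6
        · have h7 := hB.ch y y' q hq h1 h3 h6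
          rcases h2 with rfl | h2
          · exact Or.inr h7
          · exact Or.inr (hR.tr _ _ _ _ h2 h7)
        · rw [← hB.eq y y' q hq h1 h3 h6]
          exact h2
      rcases h5 with rfl | h5
      · rcases h4 with rfl | h4
        · exact absurd hx (lt_irrefl _)
        · exact absurd (hR.lt _ _ _ h4) (not_lt.2 hx.le)
      · rcases h4 with rfl | h4
        · exact h5
        · exact hR.cmp _ _ _ _ h5 h4 hx
    rcases le_total y.1 y'.1 with h5 | h5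
    · exact key y y' h1 h3 h2 h4 h5
    · -- `y'` is below `y`
      have h6 : x' = y ∨ q ∈ R x' y := by
        rcases h5.lt_or_eq with h6 | h6
        · have h7 := hB.ch y' y q hq h3 h1 h6
          rcases h4 with rfl | h4
          · exact Or.inr h7
          · exact Or.inr (hR.tr _ _ _ _ h4 h7)
        · rw [← hB.eq y' y q hq h3 h1 h6]
          exact h4
      rcases h6 with rfl | h6
      · rcases h2 with rfl | h2
        · exact absurd hx (lt_irrefl _)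
        · exact h2
      · rcases h2 with rfl | h2
        · exact absurd (hR.lt _ _ _ h6) (not_lt.2 hx.le)
        · exact hR.cmp _ _ _ _ h2 h6 hx
  · rintro x x' q hq ⟨y, h1, h2⟩ ⟨y', h3, h4⟩ hx
    have key : ∀ x x' y y', q ∈ B y → q ∈ B y' → (x = y ∨ q ∈ R x y) →
        (x' = y' ∨ q ∈ R x' y') → x.1 = x'.1 → y.1 ≤ y'.1 → x = x' := by
      intro x x' y y' h1 h3 h2 h4 hx hyy
      have h5 : x = y' ∨ q ∈ R x y' := by
        rcases hyy.lt_or_eq with h6 | h6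
        · have h7 := hB.ch y y' q hq h1 h3 h6
          rcases h2 with rfl | h2
          · exact Or.inr h7
          · exact Or.inr (hR.tr _ _ _ _ h2 h7)
        · rw [← hB.eq y y' q hq h1 h3 h6]
          exact h2
      rcases h5 with h5 | h5
      · rcases h4 with h4 | h4
        · rw [h5, h4]
        · have h7 := hR.lt _ _ _ h4
          rw [← hx, h5] at h7
          exact absurd h7 (lt_irrefl _)
      · rcases h4 with h4 | h4
        · have h7 := hR.lt _ _ _ h5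
          rw [hx, h4] at h7
          exact absurd h7 (lt_irrefl _)
        · exact hR.unq _ _ _ _ h5 h4 hx
    rcases le_total y.1 y'.1 with h5 | h5
    · exact key x x' y y' h1 h3 h2 h4 hx h5
    · exact (key x' x y' y h3 h1 h4 h2 hx.symm h5).symm
  · intro a q hq
    obtain ⟨r, hr, x, hx, h⟩ := hB.un a q hq
    exact ⟨r, hr, x, hx, x, h, Or.inl rfl⟩
  · intro a q hq
    obtain ⟨r, hr, y, hy, h⟩ := hB.un a q hq
    obtain ⟨r', hr', x, hx, h'⟩ := hR.ex r y a hy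
    exact ⟨r', hr'.trans hr, x, hx, y, hB.dn y r h r' hr', Or.inr h'⟩

end

section

variable {Z R U : Type} [Preorder Z] [Preorder R] [Preorder U] {K X : Type} [LinearOrder K]

/-- no extensions force a common node above `β` -/
def SepB (B : K × X → Set (Z × R × U)) (β : K) (z : Z) (r : R) (w0 w1 : U) : Prop :=
  ∀ z' ≤ z, ∀ r' ≤ r, ∀ w0' ≤ w0, ∀ w1' ≤ w1, ∀ y : K × X, β ≤ y.1 →
    ¬ ((z', r', w0') ∈ B y ∧ (z', r', w1') ∈ B y)

theorem SepB.mono {B : K × X → Set (Z × R × U)} {β : K} {z z' : Z} {r r' : R}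
    {w0 w1 w0' w1' : U} (h : SepB B β z r w0 w1) (h1 : z' ≤ z) (h2 : r' ≤ r) (h3 : w0' ≤ w0)
    (h4 : w1' ≤ w1) : SepB B β z' r' w0' w1' :=
  fun z'' hz r'' hr w0'' hw0 w1'' hw1 => h z'' (hz.trans h1) r'' (hr.trans h2) w0''
    (hw0.trans h3) w1'' (hw1.trans h4)

theorem split_claim {T : K × X → K × X → Set (Z × R)} (hT : TL T) (hK : ∀ a : K, ∃ b, a < b)
    {z1 : Z} {r1 : R} {u1 : U} {B : K × X → Set (Z × R × U)}
    (hB : Bch (fun x y => {p : Z × R × U | (p.1, p.2.1) ∈ T x y}) (z1, r1, u1) B)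
    (hneg : ∀ q ≤ (z1, r1), ∀ b, ¬ Bch T q b) {z : Z} {r : R} {w0 w1 : U} (hz : z ≤ z1)
    (hr : r ≤ r1) (hw0 : w0 ≤ u1) (hw1 : w1 ≤ u1) :
    ∃ z' ≤ z, ∃ r' ≤ r, ∃ w0' ≤ w0, ∃ w1' ≤ w1, ∃ β, SepB B β z' r' w0' w1' := by
  by_contra hcon
  have H1 : ∀ z' ≤ z, ∀ r' ≤ r, ∀ w0' ≤ w0, ∀ w1' ≤ w1, ∀ β,
      ∃ z'' ≤ z', ∃ r'' ≤ r', ∃ w0'' ≤ w0', ∃ w1'' ≤ w1', ∃ y : K × X,
        β ≤ y.1 ∧ (z'', r'', w0'') ∈ B y ∧ (z'', r'', w1'') ∈ B y := by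
    intro z' hz' r' hr' w0' hw0' w1' hw1' β
    by_contra h1
    refine hcon ⟨z', hz', r', hr', w0', hw0', w1', hw1', β, ?_⟩
    intro z'' h2 r'' h3 w0'' h4 w1'' h5 y h7 h8
    exact h1 ⟨z'', h2, r'', h3, w0'', h4, w1'', h5, y, h7, h8.1, h8.2⟩
  have main : ∀ (z2 : Z) (r2 : R), z2 ≤ z → r2 ≤ r → ∀ f ≤ w1, ∀ f' ≤ w1, ∀ y y' : K × X,
      (z2, r2, f) ∈ B y → (z2, r2, f') ∈ B y' → y.1 ≤ y'.1 →
      ∃ z5 ≤ z2, ∃ r5 ≤ r2, ∃ y2, (z5, r5) ∈ T y y2 ∧ (z5, r5) ∈ T y' y2 := by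
    intro z2 r2 hz2 hr2 f hf f' hf' y y' hy hy' hyy
    obtain ⟨β, hβ⟩ := hK y'.1
    obtain ⟨z3, hz3, r3, hr3, f3, hf3, f4, hf4, y1, hy1, h5, h6⟩ :=
      H1 z2 hz2 r2 hr2 w0 le_rfl f hf β
    obtain ⟨β', hβ'⟩ := hK y1.1
    obtain ⟨z5, hz5, r5, hr5, f5, hf5, f6, hf6, y2, hy2, h7, h8⟩ :=
      H1 z3 (hz3.trans hz2) r3 (hr3.trans hr2) f3 hf3 f' hf' β'
    have hz51 : z5 ≤ z1 := hz5.trans (hz3.trans (hz2.trans hz))
    have hr51 : r5 ≤ r1 := hr5.trans (hr3.trans (hr2.trans hr))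
    have k1 : (z5, r5, f4) ∈ B y := hB.dn _ _ hy _ ⟨hz5.trans hz3, hr5.trans hr3, hf4⟩
    have k2 : (z5, r5, f4) ∈ B y1 := hB.dn _ _ h6 _ ⟨hz5, hr5, le_rfl⟩
    have k3 : (z5, r5, f5) ∈ B y1 := hB.dn _ _ h5 _ ⟨hz5, hr5, hf5⟩
    have k4 : (z5, r5, f6) ∈ B y' := hB.dn _ _ hy' _ ⟨hz5.trans hz3, hr5.trans hr3, hf6⟩
    have l1 := hB.ch y y1 _ ⟨hz51, hr51, (hf4.trans hf).trans hw1⟩ k1 k2
      (hyy.trans_lt (hβ.trans_le hy1))
    have l2 := hB.ch y1 y2 _ ⟨hz51, hr51, (hf5.trans hf3).trans hw0⟩ k3 h7 (hβ'.trans_le hy2)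
    have l3 := hB.ch y' y2 _ ⟨hz51, hr51, (hf6.trans hf').trans hw1⟩ k4 h8
      ((hβ.trans_le hy1).trans (hβ'.trans_le hy2))
    exact ⟨z5, hz5.trans hz3, r5, hr5.trans hr3, y2, hT.tr _ _ _ _ l1 l2, l3⟩
  refine hneg (z, r) ⟨hz, hr⟩ (fun y => {p | p ≤ (z, r) ∧ ∃ w1' ≤ w1, (p.1, p.2, w1') ∈ B y})
    ⟨?_, ?_, ?_, ?_⟩
  · rintro y p ⟨h1, w, h2, h3⟩ q hq
    exact ⟨hq.trans h1, w, h2, hB.dn _ _ h3 _ ⟨hq.1, hq.2, le_rfl⟩⟩
  · rintro y y' p hp ⟨_, f, hf, h1⟩ ⟨_, f', hf', h2⟩ hyy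
    refine (hT.rg _ _).ds p fun q hq => ?_
    obtain ⟨z5, h3, r5, h4, y2, h5, h6⟩ := main q.1 q.2 (hq.1.trans hp.1) (hq.2.trans hp.2)
      f hf f' hf' y y' (hB.dn _ _ h1 _ ⟨hq.1, hq.2, le_rfl⟩)
      (hB.dn _ _ h2 _ ⟨hq.1, hq.2, le_rfl⟩) hyy.le
    exact ⟨(z5, r5), ⟨h3, h4⟩, hT.cmp _ _ _ _ h5 h6 hyy⟩
  · rintro y y' p hp ⟨_, f, hf, h1⟩ ⟨_, f', hf', h2⟩ hyy
    obtain ⟨z5, h3, r5, h4, y2, h5, h6⟩ := main p.1 p.2 hp.1 hp.2
      f hf f' hf' y y' h1 h2 hyy.le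
    exact hT.unq _ _ _ _ h5 h6 hyy
  · intro a q hq
    obtain ⟨β, hβ⟩ := hK a
    obtain ⟨z3, hz3, r3, hr3, f3, hf3, f4, hf4, y1, hy1, h5, h6⟩ :=
      H1 q.1 hq.1 q.2 hq.2 w0 le_rfl w1 le_rfl β
    exact ⟨(z3, r3), ⟨hz3, hr3⟩, y1, hβ.trans_le hy1, ⟨hz3.trans hq.1, hr3.trans hq.2⟩, f4,
      hf4, h6⟩

end

end Run7.h898
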