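import Mathlib
import Pool.Agent.Run7.h898.Defs

set_option autoImplicit false
set_option linter.unusedSectionVars false

/-!
# Cardinals and trees in forcing extensions

All infinite cardinals of a forcing extension are cardinals of the ground model, so quantifiers
over the cardinals of the extension range over `Cardinal.{0}`, together with the statement
`IsCard P μ` that `μ` is a cardinal of the extension.
-/

namespace Run7.h898

open Cardinal Pool.Agent.Helper669.Forcing

section

variable (P : Type) [Preorder P]

/-- In the extension: `μ` is a cardinal, that is, there is no function from a smaller ordinal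
(equivalently from a smaller cardinal of the ground model) onto `μ`. -/
def IsCard (μ : Cardinal.{0}) : Set P :=
  fall fun θ : Cardinal.{0} => fall fun _ : θ < μ =>
    fnot (fex fun F : θ.out → μ.out → Set P => fand (IsFun F) (IsOnto F))

/-- In the extension: `lam` is an uncountable limit cardinal, that is, an uncountable cardinal such
that for each `θ < lam` there is a cardinal between `θ` and `lam`. -/
def IsLimitCard (lam : Cardinal.{0}) : Set P :=
  fand (fground (ℵ₀ < lam)) (fand (IsCard P lam)
    (fall fun θ : Cardinal.{0} => fall fun _ : θ < lam => fex fun θ' : Cardinal.{0} =>
      fand (fground (θ < θ' ∧ θ' < lam)) (IsCard P θ')))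

/-- In the extension: there are only countably many cardinals below `lam`, that is, they are all
values of some function with domain `ℕ`. -/
def CountablyManyBelow (lam : Cardinal.{0}) : Set P :=
  fex fun g : ℕ → Cardinal.{0} → Set P => fand (IsFun g)
    (fall fun θ : Cardinal.{0} => fall fun _ : θ < lam =>
      fimp (IsCard P θ) (fex fun n : ℕ => meets (g n θ)))

/-- In the extension: some uncountable limit cardinal is smaller than `lam`. -/
def NotLeastLimit (lam : Cardinal.{0}) : Set P :=
  fex fun θ : Cardinal.{0} => fand (fground (θ < lam)) (IsLimitCard P θ)

/-- In the extension: `μ` is the successor cardinal of `lam`. -/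
def IsSuccCard (lam μ : Cardinal.{0}) : Set P :=
  fand (fground (lam < μ)) (fand (IsCard P μ)
    (fall fun θ : Cardinal.{0} => fall fun _ : lam < θ => fall fun _ : θ < μ =>
      fnot (IsCard P θ)))

variable {P}
variable {L : Type} {K : Type} [LinearOrder K]

/-- In the extension: `L` with the relation named by `R` is a tree of height `K`, and all its
levels are nonempty and have less than `μ` elements. Here `ℓ` names the level function, with
values in `K`: if `x` is below `y` then the level of `x` is smaller, the relation is transitive,
and each `y` has exactly one predecessor on each level below its own. -/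
def IsTree (μ : Cardinal.{0}) (R : L → L → Set P) (ℓ : L → K → Set P) : Set P :=
  fand (IsFun ℓ)
  (fand (fall fun x : L => fall fun y : L => fall fun a : K => fall fun b : K =>
    fimp (fand (meets (R x y)) (fand (meets (ℓ x a)) (meets (ℓ y b)))) (fground (a < b)))
  (fand (fall fun x : L => fall fun y : L => fall fun z : L =>
    fimp (fand (meets (R x y)) (meets (R y z))) (meets (R x z)))
  (fand (fall fun y : L => fall fun b : K => fall fun a : K => fall fun _ : a < b =>
    fimp (meets (ℓ y b)) (fex fun x : L => fand (meets (R x y)) (meets (ℓ x a))))
  (fand (fall fun x : L => fall fun y : L => fall fun z : L => fall fun a : K =>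
    fimp (fand (fand (meets (R x z)) (meets (R y z))) (fand (meets (ℓ x a)) (meets (ℓ y a))))
      (fground (x = y)))
  (fand (fall fun a : K => fex fun x : L => meets (ℓ x a))
    (fall fun a : K => fex fun θ : Cardinal.{0} => fex fun F : θ.out → L → Set P =>
      fand (fground (θ < μ)) (fand (IsFun F) (fall fun x : L => fimp (meets (ℓ x a))
        (fex fun w : θ.out => meets (F w x))))))))))

/-- In the extension: `B` is a linearly ordered subset of the tree named by `R` and `ℓ` which
meets all levels. -/
def IsCofinalBranch (R : L → L → Set P) (ℓ : L → K → Set P) (B : L → Set P) : Set P :=
  fand (fall fun x : L => fall fun y : L =>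
    fimp (fand (meets (B x)) (meets (B y)))
      (for' (fground (x = y)) (for' (meets (R x y)) (meets (R y x)))))
    (fall fun a : K => fex fun x : L => fand (meets (B x)) (meets (ℓ x a)))

variable (P)

/-- In the extension: `μ` has the tree property, that is, every tree of height `μ` whose levels have
less than `μ` elements has a cofinal branch. (The underlying set of the tree is any set `L` of the
ground model; in the extension each set is in bijection with such a set.) -/
def TreeProp (μ : Cardinal.{0}) : Set P :=
  fall fun L : Type => fall fun R : L → L → Set P => fall fun ℓ : L → μ.ord.ToType → Set P =>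
    fimp (IsTree μ R ℓ) (fex fun B : L → Set P => IsCofinalBranch R ℓ B)

/-- In the extension: the successor cardinal of `lam` has the tree property, for all uncountable
limit cardinals `lam` with only countably many cardinals below `lam`, except possibly for the least
uncountable limit cardinal. In other words, the tree property holds at `ℵ_{α + 1}` for all limit
ordinals `α` with `ω < α < ω₁`. -/
def TreePropAtSuccessors : Set P :=
  fall fun lam : Cardinal.{0} => fall fun μ : Cardinal.{0} =>
    fimp (fand (IsLimitCard P lam) (fand (CountablyManyBelow P lam)
      (fand (NotLeastLimit P lam) (IsSuccCard P lam μ)))) (TreeProp P μ)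

end

end Run7.h898
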