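import Mathlib
import Pool.Agent.Run7.h898.Star

set_option autoImplicit false
set_option linter.unusedSectionVars false
set_option linter.unusedVariables false

/-!
# Ground model statements which hold almost everywhere
-/

namespace Run7.h898

open Set Cardinal Pool.Agent.Helper669.Forcing

section

variable {G : Type} [Preorder G] {κ : Cardinal.{0}} {X : Type} {g0 : G} (U : AU G κ X g0)

/-- `P x` holds for almost all `x` -/
def ev (g : G) (P : PK κ X → Prop) : Prop := g ∈ U.al fun x => {_g | P x}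

theorem dnc (p : Prop) : Down {_g : G | p} := fun _ hp _ _ => hp

theorem ev_dn {g g' : G} {P : PK κ X → Prop} (h : ev U g P) (hg : g' ≤ g) : ev U g' P := U.dn h hg

theorem ev_mono {g : G} (hg : g ≤ g0) {P Q : PK κ X → Prop} (h : ev U g P)
    (hs : ∀ x, P x → Q x) : ev U g Q :=
  U.mono' hg (fun x => dnc _) h fun x _ _ hx => hs x hx

theorem ev_of_not {g : G} (hg : g ≤ g0) {P : PK κ X → Prop}
    (h : ∀ g' ≤ g, ¬ ev U g' fun x => ¬ P x) : ev U g P :=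
  U.of_not hg (fun x => dnc _) fun g' hg' h1 => h g' hg' (U.mono' (hg'.trans hg)
    (fun x => down_fnot _) h1 fun x g'' _ hx => hx g'' le_rfl)

theorem ev_ne {g : G} (hg : g ≤ g0) {P : PK κ X → Prop} (h : ev U g P) : ∃ x, P x := by
  obtain ⟨_, _, x, hx⟩ := U.ne g hg _ (fun x => dnc _) h
  exact ⟨x, hx⟩

theorem ev_fine {g : G} (hg : g ≤ g0) (a : X) : ev U g fun x => a ∈ x.1 := U.fine g hg a

theorem ev_inter {g : G} (hg : g ≤ g0) {ι : Type} (hι : #ι < κ) {P : ι → PK κ X → Prop}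
    (h : ∀ i, ev U g (P i)) : ev U g fun x => ∀ i, P i x :=
  U.inter g hg ι (fun i x => {_g | P i x}) hι (fun i x => dnc _) h

theorem ev_and (hκ : ℵ₀ ≤ κ) {g : G} (hg : g ≤ g0) {P Q : PK κ X → Prop} (h : ev U g P)
    (h' : ev U g Q) : ev U g fun x => P x ∧ Q x :=
  U.and hκ hg (fun x => dnc _) (fun x => dnc _) h h'

theorem ev_triv {g : G} (hg : g ≤ g0) (hκ : ℵ₀ ≤ κ) {P : PK κ X → Prop} (h : ∀ x, P x) :
    ev U g P :=
  ev_mono U hg (ev_inter U hg (ι := Empty) (P := fun _ _ => True) (by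
    rw [mk_eq_zero]; exact aleph0_pos.trans_le hκ) fun i => i.elim) fun x _ => h x

theorem ev_cover (hκ : ℵ₀ ≤ κ) {g : G} (hg : g ≤ g0) {ι : Type} (hι : #ι < κ)
    {P : ι → PK κ X → Prop} (h : ev U g fun x => ∃ i, P i x) : ∃ g' ≤ g, ∃ i, ev U g' (P i) :=
  U.cover hκ hg hι (fun i x => {_g | P i x}) (fun i x => dnc _) h

theorem ev_normal {g : G} (hg : g ≤ g0) {P : X → PK κ X → Prop}
    (h : ev U g fun x => ∃ a ∈ x.1, P a x) : ∃ g' ≤ g, ∃ a, ev U g' (P a) :=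
  U.normal g hg (fun a x => {_g | P a x}) (fun a x => dnc _) h

theorem ev_diag (hκ : ℵ₀ ≤ κ) {g : G} (hg : g ≤ g0) {P : X → PK κ X → Prop} (h : ∀ a, ev U g (P a)) :
    ev U g fun x => ∀ a ∈ x.1, P a x := by
  refine ev_of_not U hg fun g' hg' h1 => ?_
  obtain ⟨g2, hg2, a, h2⟩ := ev_normal U (hg'.trans hg) (P := fun a x => ¬ P a x)
    (ev_mono U (hg'.trans hg) h1 fun x hx => by
      push Not at hx
      exact hx)
  obtain ⟨x, hx, hx'⟩ := ev_ne U (hg2.trans (hg'.trans hg)) (ev_and U hκ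
    (hg2.trans (hg'.trans hg)) h2 (ev_dn U (h a) (hg2.trans hg')))
  exact hx hx'

/-- closure under a function -/
theorem ev_clo (hκ : ℵ₀ ≤ κ) {g : G} (hg : g ≤ g0) (F : X → X → X) :
    ev U g fun x => ∀ a ∈ x.1, ∀ b ∈ x.1, F a b ∈ x.1 :=
  ev_diag U hκ hg fun a => ev_diag U hκ hg fun b => ev_fine U hg (F a b)

/-- closure under codes of sequences -/
theorem ev_code (hκ : ℵ₀ < κ) (hG : DC ℵ₀ G) (cd : (ℕ → X) → X) {g : G} (hg : g ≤ g0) :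
    ev U g fun x => ∀ s : ℕ → X, (∀ n, s n ∈ x.1) → cd s ∈ x.1 := by
  classical
  refine ev_of_not U hg fun g1 hg1 h1 => ?_
  have hg10 := hg1.trans hg
  have h2 : ∀ x : PK κ X, ∃ s : ℕ → Option X, (¬ ∀ s : ℕ → X, (∀ n, s n ∈ x.1) → cd s ∈ x.1) →
      ∃ s' : ℕ → X, (∀ n, s n = some (s' n)) ∧ (∀ n, s' n ∈ x.1) ∧ cd s' ∉ x.1 := by
    intro x
    by_cases h : ∀ s : ℕ → X, (∀ n, s n ∈ x.1) → cd s ∈ x.1
    · exact ⟨fun _ => none, fun h' => absurd h h'⟩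
    · push Not at h
      obtain ⟨s, h3, h4⟩ := h
      exact ⟨fun n => some (s n), fun _ => ⟨s, fun _ => rfl, h3, h4⟩⟩
  choose s hs using h2
  obtain ⟨g2, hg2, h3⟩ := hG.all le_rfl (J := ℕ) (by simp) g1
    (fun n g => ∃ a, ev U g fun x => s x n = some a) (fun n p q hq ⟨a, ha⟩ => ⟨a, ev_dn U ha hq⟩)
    fun n p hp => by
      obtain ⟨q, hq, a, ha⟩ := ev_normal U (hp.trans hg10) (P := fun a x => s x n = some a)
        (ev_mono U (hp.trans hg10) (ev_dn U h1 hp) fun x hx => by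
          obtain ⟨s', h3, h4, _⟩ := hs x hx
          exact ⟨s' n, h4 n, h3 n⟩)
      exact ⟨q, hq, a, ha⟩
  choose a ha using h3
  have hg20 := hg2.trans hg10
  obtain ⟨x, ⟨h4, h5⟩, h6⟩ := ev_ne U hg20 (ev_and U hκ.le hg20 (ev_and U hκ.le hg20
    (ev_inter U hg20 (by simpa using hκ) ha) (ev_fine U hg20 (cd a))) (ev_dn U h1 hg2))
  obtain ⟨s', h7, _, h8⟩ := hs x h6
  have : s' = a := funext fun n => Option.some.inj ((h7 n).symm.trans (h4 n))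
  rw [this] at h8
  exact h8 h5

/-- boundedness of functions -/
theorem ev_bdd [LinearOrder X] (hκ : ℵ₀ ≤ κ) (Dm Cd : Set X) {g : G} (hg : g ≤ g0)
    (H : ∀ h ≤ g, ∀ Φ : X → X → Set G, (∀ w a, Down (Φ w a)) →
      (∀ w a b p, p ∈ Φ w a → p ∈ Φ w b → a = b) → (∀ w a p, p ∈ Φ w a → a ∈ Cd) →
      ∃ h' ≤ h, ∃ b ∈ Cd, ∀ w ∈ Dm, ∀ q ≤ h', ∀ a, q ∈ Φ w a → a < b) :
    ev U g fun x => ∀ f : {w // w ∈ Dm ∧ w ∈ x.1} → {a // a ∈ Cd ∧ a ∈ x.1},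
      ∃ b ∈ Cd, b ∈ x.1 ∧ ∀ w, (f w).1 < b := by
  classical
  refine ev_of_not U hg fun h hh h1 => ?_
  have hg0 := hh.trans hg
  have h2 : ∀ x : PK κ X, ∃ r : X → X → Prop, (∀ w a b, r w a → r w b → a = b) ∧
      (∀ w a, r w a → a ∈ Cd) ∧
      ((¬ ∀ f : {w // w ∈ Dm ∧ w ∈ x.1} → {a // a ∈ Cd ∧ a ∈ x.1},
        ∃ b ∈ Cd, b ∈ x.1 ∧ ∀ w, (f w).1 < b) → ∀ b ∈ Cd, b ∈ x.1 →
          ∃ w ∈ x.1, ∃ a ∈ x.1, w ∈ Dm ∧ r w a ∧ ¬ a < b) := by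
    intro x
    by_cases h3 : ∀ f : {w // w ∈ Dm ∧ w ∈ x.1} → {a // a ∈ Cd ∧ a ∈ x.1},
        ∃ b ∈ Cd, b ∈ x.1 ∧ ∀ w, (f w).1 < b
    · exact ⟨fun _ _ => False, fun _ _ _ h => h.elim, fun _ _ h => h.elim,
        fun h' => absurd h3 h'⟩
    · push Not at h3
      obtain ⟨f, hf⟩ := h3
      refine ⟨fun w a => ∃ hw : w ∈ Dm ∧ w ∈ x.1, (f ⟨w, hw⟩).1 = a, ?_, ?_, fun _ b hb hbx => ?_⟩
      · rintro w a b ⟨_, rfl⟩ ⟨_, rfl⟩
        rfl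
      · rintro w a ⟨hw, rfl⟩
        exact (f ⟨w, hw⟩).2.1
      · obtain ⟨w, hw⟩ := hf b hb hbx
        exact ⟨w.1, w.2.2, _, (f w).2.2, w.2.1, ⟨w.2, rfl⟩, not_lt.2 hw⟩
  choose r hr1 hr2 hr3 using h2
  obtain ⟨h', hh', b, hb, h4⟩ := H h hh (fun w a => {g' | g' ≤ h ∧ ev U g' fun x => r x w a})
    (fun w a p hp q hq => ⟨hq.trans hp.1, ev_dn U hp.2 hq⟩) (fun w a b p hp hp' => by
      obtain ⟨x, hx, hx'⟩ := ev_ne U (hp.1.trans hg0) (ev_and U hκ (hp.1.trans hg0) hp.2 hp'.2)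
      exact hr1 x w a b hx hx') (fun w a p hp => by
      obtain ⟨x, hx⟩ := ev_ne U (hp.1.trans hg0) hp.2
      exact hr2 x w a hx)
  have hh0 := hh'.trans hg0
  obtain ⟨h2, hh2, w, h5⟩ := ev_normal U hh0 (P := fun w x => ∃ a ∈ x.1, w ∈ Dm ∧ r x w a ∧
    ¬ a < b) (ev_mono U hh0 (ev_and U hκ hh0 (ev_dn U h1 hh') (ev_fine U hh0 b))
      fun x hx => hr3 x hx.1 b hb hx.2)
  obtain ⟨h3, hh3, a, h6⟩ := ev_normal U (hh2.trans hh0) (P := fun a x => w ∈ Dm ∧ r x w a ∧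
    ¬ a < b) h5
  have hh30 := hh3.trans (hh2.trans hh0)
  obtain ⟨x, hx1, hx2, hx3⟩ := ev_ne U hh30 h6
  exact hx3 (h4 w hx1 h3 (hh3.trans hh2) a ⟨(hh3.trans hh2).trans hh',
    ev_mono U hh30 h6 fun x hx => hx.2.1⟩)

theorem lt_of_bdd [LinearOrder X] {x : Set X} {Dm Cd : Set X} (hDC : Dm ⊆ Cd)
    (h : ∀ f : {w // w ∈ Dm ∧ w ∈ x} → {a // a ∈ Cd ∧ a ∈ x}, ∃ b ∈ Cd, b ∈ x ∧ ∀ w, (f w).1 < b) :
    #{w // w ∈ Dm ∧ w ∈ x} < #{a // a ∈ Cd ∧ a ∈ x} := by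
  by_contra hcon
  push Not at hcon
  rcases isEmpty_or_nonempty {a // a ∈ Cd ∧ a ∈ x} with he | hn
  · obtain ⟨b, hb, hbx, _⟩ := h fun w => ⟨w.1, hDC w.2.1, w.2.2⟩
    exact he.elim ⟨b, hb, hbx⟩
  · obtain ⟨e⟩ := hcon
    obtain ⟨b, hb, hbx, h1⟩ := h (Function.invFun e)
    obtain ⟨w, hw⟩ := Function.invFun_surjective e.injective (⟨b, hb, hbx⟩ : {a // a ∈ Cd ∧ a ∈ x})
    have := h1 w
    rw [hw] at this
    exact lt_irrefl _ this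

end

end Run7.h898
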