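import Mathlib
import Pool.Agent.Run7.h898.Ev
import Pool.Agent.Run7.h898.Nsp

set_option autoImplicit false
set_option linter.unusedSectionVars false
set_option linter.unusedVariables false

/-!
# Sizes of the traces of small sets
-/

namespace Run7.h898

open Set Cardinal Pool.Agent.Helper669.Forcing

/-! ### Supercompact cardinals are inaccessible -/

theorem unit_dc (κ : Cardinal.{0}) : DirectedClosed κ Unit :=
  fun _ _ _ _ _ => ⟨(), fun _ => le_rfl⟩

theorem exists_nm {κ : Cardinal.{0}} (h : IndestructiblySupercompact κ) (X : Type) :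
    Nonempty (AU Unit κ X ()) := by
  obtain ⟨g0, _, h1⟩ := exists_au h (unit_dc κ) X ()
  exact h1

theorem evu_cover {κ : Cardinal.{0}} {X : Type} (U : AU Unit κ X ()) (hκ : ℵ₀ ≤ κ) {ι : Type}
    (hι : #ι < κ) {P : ι → PK κ X → Prop} (h : ev U () fun x => ∃ i, P i x) : ∃ i, ev U () (P i) := by
  obtain ⟨_, _, i, hi⟩ := ev_cover U hκ le_rfl hι h
  exact ⟨i, hi⟩

theorem evu_normal {κ : Cardinal.{0}} {X : Type} (U : AU Unit κ X ())
    {P : X → PK κ X → Prop} (h : ev U () fun x => ∃ a ∈ x.1, P a x) : ∃ a, ev U () (P a) := by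
  obtain ⟨_, _, i, hi⟩ := ev_normal U le_rfl h
  exact ⟨i, hi⟩

theorem mk_iio_toType {κ : Cardinal.{0}} (a : κ.ord.ToType) : #(Iio a) < κ := by
  have h2 := Ordinal.card_typein (r := fun x y : κ.ord.ToType => x < y) a
  have h3 : (#(Iio a)) = _ := h2.symm
  rw [h3, ← lt_ord]
  exact Ordinal.typein_lt_self a

theorem inac_of_sc {κ : Cardinal.{0}} (h : IndestructiblySupercompact κ) : Inac κ := by
  classical
  have hκ : ℵ₀ < κ := h.1
  obtain ⟨U⟩ := exists_nm h κ.ord.ToType
  have hun : ∀ x : PK κ κ.ord.ToType, ∃ y, y ∉ x.1 := by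
    intro x
    by_contra h2
    push Not at h2
    have h3 : x.1 = Set.univ := eq_univ_iff_forall.2 h2
    have h4 := x.2
    rw [h3, mk_univ, mk_ord_toType] at h4
    exact lt_irrefl _ h4
  refine ⟨hκ, ?_, ?_⟩
  · refine ⟨hκ.le, ?_⟩
    by_contra hcon
    push Not at hcon
    -- a decomposition into few small sets
    obtain ⟨s, hs1, hs2⟩ := Order.exists_cof_eq κ.ord.ToType
    rw [Ordinal.cof_toType] at hs2
    have h2 : ev U () fun x => ∀ i : s, Iic i.1 ⊆ x.1 := ev_inter U le_rfl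
      (hs2.trans_lt hcon) fun i => by
      have h3 := ev_inter U (g := ()) le_rfl (ι := Iic i.1) (by
        have e1 : Iic i.1 = insert i.1 (Iio i.1) := Iio_insert.symm
        rw [e1]
        exact (mk_insert_le).trans_lt (add_lt_of_lt hκ.le (mk_iio_toType _)
          (one_lt_aleph0.trans hκ))) (P := fun a x => a.1 ∈ x.1)
        fun a => ev_fine U le_rfl a.1
      exact ev_mono U le_rfl h3 fun x hx a ha => hx ⟨a, ha⟩
    obtain ⟨x, hx⟩ := ev_ne U le_rfl h2
    obtain ⟨y, hy⟩ := hun x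
    obtain ⟨i, hi, hyi⟩ := hs1 y
    exact hy (hx ⟨i, hi⟩ hyi)
  · intro θ hθ
    by_contra hcon
    push Not at hcon
    rw [← mk_out θ, ← mk_set] at hcon
    obtain ⟨s⟩ : Nonempty (κ.ord.ToType ↪ Set θ.out) := by
      rw [← Cardinal.le_def, mk_ord_toType]
      exact hcon
    choose y hy using hun
    have h2 : ∀ i : θ.out, ∃ b : Bool, ev U () fun x => (i ∈ s (y x)) = (b = true) := fun i =>
      evu_cover U hκ.le (ι := Bool) ((lt_aleph0_of_finite _).trans hκ) (ev_triv U le_rfl hκ.le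
        fun x => by
        by_cases h3 : i ∈ s (y x)
        · exact ⟨true, by simp [h3]⟩
        · exact ⟨false, by simp [h3]⟩)
    choose b hb using h2
    have h3 := ev_inter U (g := ()) le_rfl (ι := θ.out) (by rw [mk_out]; exact hθ) hb
    obtain ⟨x, hx⟩ := ev_ne U le_rfl h3
    have h4 : ev U () fun x' => y x' = y x ∧ y x ∈ x'.1 := by
      refine ev_mono U le_rfl (ev_and U hκ.le le_rfl h3 (ev_fine U le_rfl (y x))) ?_
      rintro x' ⟨h5, h6⟩
      refine ⟨s.injective (Set.ext fun i => ?_), h6⟩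
      rw [h5 i, hx i]
    obtain ⟨x', h5, h6⟩ := ev_ne U le_rfl h4
    rw [← h5] at h6
    exact hy x' h6

/-! ### Powers of successors of singular cardinals -/

theorem mk_La {lam : Cardinal.{0}} {Om : Type} [LinearOrder Om] [WellFoundedLT Om]
    (hOm : lam < #Om) : #(La Om lam) = Order.succ lam := by
  have : #(La Om lam) = #(sg Om (Order.succ lam)) :=
    mk_congr (Equiv.subtypeEquivRight fun a => Order.lt_succ_iff.symm)
  rw [this]
  exact mk_sg Om (Order.succ_le_of_lt hOm)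

theorem bd_La {lam : Cardinal.{0}} (h0 : ℵ₀ ≤ lam) {Om : Type} [LinearOrder Om]
    [WellFoundedLT Om] (hOm : lam < #Om) : Bd lam (La Om lam) := by
  intro ι f hι
  have h1 : #(⋃ i, Iic (f i).1 : Set Om) ≤ lam := by
    refine (mk_iUnion_le_sum_mk).trans ?_
    refine (Cardinal.sum_le_sum _ (fun _ => lam) fun i => ?_).trans ?_
    · have e1 : Iic (f i).1 = insert (f i).1 (Iio (f i).1) := Iio_insert.symm
      rw [e1]
      exact mk_insert_le.trans (add_le_of_le h0 (f i).2 (one_le_aleph0.trans h0))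
    · rw [Cardinal.sum_const']
      exact mul_le_of_le h0 hι le_rfl
  have h2 : ∃ b : Om, b ∉ (⋃ i, Iic (f i).1 : Set Om) := by
    by_contra h3
    push Not at h3
    rw [eq_univ_iff_forall.2 h3, mk_univ] at h1
    exact absurd hOm (not_lt.2 h1)
  obtain ⟨b, hb, hmin⟩ := WellFounded.has_min (wellFounded_lt (α := Om))
    {b | b ∉ (⋃ i, Iic (f i).1 : Set Om)} h2
  refine ⟨⟨b, (mk_le_mk_of_subset fun c hc => ?_).trans h1⟩, fun i => ?_⟩
  · by_contra h3
    exact hmin c h3 hc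
  · have h3 : b ∉ Iic (f i).1 := fun h4 => hb (mem_iUnion.2 ⟨i, h4⟩)
    exact not_le.1 h3

theorem solovay {K lam : Cardinal.{0}} {Om : Type} [LinearOrder Om] [WellFoundedLT Om]
    (U : AU Unit K Om ()) (hK : ℵ₀ < K) (hKlam : K ≤ lam) (hOm : lam < #Om)
    (hbd : Bd lam (La Om lam)) (V : ℕ → Set (sg Om lam)) (hV : ∀ w, ∃ n, w ∈ V n)
    (hV' : ∀ n, #(V n) ^ ℵ₀ ≤ lam) : lam ^ ℵ₀ ≤ Order.succ lam := by
  classical
  have h0 : ℵ₀ ≤ lam := hK.le.trans hKlam
  have hLa : #(La Om lam) = Order.succ lam := mk_La hOm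
  have hiio : ∀ σ : La Om lam, #(Iio σ) ≤ lam := by
    intro σ
    refine (mk_le_of_injective (f := fun b : Iio σ => (⟨b.1.1, b.2⟩ : Iio σ.1)) ?_).trans σ.2
    intro a b hab
    exact Subtype.ext (Subtype.ext (Subtype.mk.inj hab))
  have hin : ∀ σ : La Om lam, Nonempty (Iio σ ↪ sg Om lam) := by
    intro σ
    rw [← Cardinal.le_def, mk_sg Om hOm.le]
    exact hiio σ
  let e : ∀ σ : La Om lam, Iio σ ↪ sg Om lam := fun σ => (hin σ).some
  have hσ : ∀ x : PK K Om, ∃ σ : La Om lam, ∀ a : La Om lam, a.1 ∈ x.1 → a < σ := by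
    intro x
    obtain ⟨b, hb⟩ := hbd {a : La Om lam // a.1 ∈ x.1} (fun a => a.1) (by
      refine (mk_le_of_injective (f := fun a : {a : La Om lam // a.1 ∈ x.1} =>
        (⟨a.1.1, a.2⟩ : x.1)) ?_).trans (x.2.le.trans hKlam)
      intro a b h
      exact Subtype.ext (Subtype.ext (Subtype.mk.inj h)))
    exact ⟨b, fun a ha => hb ⟨a, ha⟩⟩
  choose σ hσ using hσ
  have h1 : ∀ β : La Om lam, ∃ n, ev U () fun x => ∃ h : β < σ x, e (σ x) ⟨β, h⟩ ∈ V n := by
    intro β
    refine evu_cover U hK.le (ι := ℕ) (by simpa using hK) ?_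
    refine ev_mono U le_rfl (ev_fine U le_rfl β.1) fun x hx => ?_
    obtain ⟨n, hn⟩ := hV (e (σ x) ⟨β, hσ x β hx⟩)
    exact ⟨n, _, hn⟩
  choose n hn using h1
  obtain ⟨m, hm⟩ : ∃ m, Order.succ lam ≤ #{β // n β = m} := by
    by_contra hcon
    push Not at hcon
    have h2 : #(La Om lam) ≤ #(Σ m : ℕ, {β // n β = m}) :=
      mk_le_of_injective (f := fun β => ⟨n β, β, rfl⟩) fun a b hab => by
        simp only [Sigma.mk.injEq] at hab
        obtain ⟨h3, h4⟩ := hab
        have : ∀ {k l : ℕ} (hk : n a = k) (hl : n b = l), k = l →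
            HEq (⟨a, hk⟩ : {β // n β = k}) (⟨b, hl⟩ : {β // n β = l}) → a = b := by
          intro k l hk hl hkl h
          subst hkl
          exact Subtype.mk.inj (eq_of_heq h)
        exact this rfl rfl h3 h4
    rw [mk_sigma, hLa] at h2
    have h3 := h2.trans ((Cardinal.sum_le_sum _ (fun _ => lam) fun m =>
      Order.lt_succ_iff.1 (hcon m)))
    rw [Cardinal.sum_const'] at h3
    have h4 : #ℕ * lam ≤ lam := mul_le_of_le h0 (by rw [mk_nat]; exact h0) le_rfl
    exact absurd (h3.trans h4) (not_le.2 (Order.lt_succ _))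
  have h2 : #(ℕ → {β // n β = m}) ≤ #(La Om lam × (ℕ → V m)) := by
    have h3 : ∀ s : ℕ → {β // n β = m}, ∃ x : PK K Om, ∀ k, ∃ h : (s k).1 < σ x,
        e (σ x) ⟨(s k).1, h⟩ ∈ V m := by
      intro s
      refine ev_ne U le_rfl (ev_inter U (g := ()) le_rfl (ι := ℕ) (by simpa using hK)
        (P := fun k x => ∃ h : (s k).1 < σ x, e (σ x) ⟨(s k).1, h⟩ ∈ V m) fun k => ?_)
      have := hn (s k).1
      rw [(s k).2] at this
      exact this
    choose x hx1 hx2 using h3
    refine mk_le_of_injective (f := fun s => (σ (x s), fun k => ⟨_, hx2 s k⟩)) ?_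
    intro s t hst
    simp only [Prod.mk.injEq] at hst
    obtain ⟨h4, h5⟩ := hst
    funext k
    have h6 := congrFun h5 k
    simp only [Subtype.mk.injEq] at h6
    have : ∀ {a b : La Om lam} (ha : (s k).1 < a) (hb : (t k).1 < b), a = b →
        e a ⟨(s k).1, ha⟩ = e b ⟨(t k).1, hb⟩ → (s k).1 = (t k).1 := by
      intro a b ha hb hab h
      subst hab
      exact Subtype.mk.inj ((e a).injective h)
    exact Subtype.ext (this _ _ h4 h6)
  have h3 : #(ℕ → {β // n β = m}) = #{β // n β = m} ^ ℵ₀ := by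
    rw [← Cardinal.power_def, mk_nat]
  have h4 : #(ℕ → V m) = #(V m) ^ ℵ₀ := by
    rw [← Cardinal.power_def, mk_nat]
  calc lam ^ ℵ₀ ≤ #{β // n β = m} ^ ℵ₀ :=
        Cardinal.power_le_power_right ((Order.le_succ _).trans hm)
    _ ≤ #(La Om lam × (ℕ → V m)) := h3 ▸ h2
    _ ≤ Order.succ lam := by
      rw [mk_prod, lift_id, lift_id, hLa, h4]
      exact mul_le_of_le (h0.trans (Order.le_succ _)) le_rfl ((hV' m).trans (Order.le_succ _))

end Run7.h898
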