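import Mathlib
import Pool.Agent.Run7.h898.Bp
import Pool.Agent.Run7.h898.Ev2
import Pool.Agent.Run7.h898.Defs2

set_option autoImplicit false
set_option linter.unusedSectionVars false
set_option linter.unusedVariables false

/-!
# From general trees to trees on `λ⁺ × λ`
-/

namespace Run7.h898

open Set Cardinal Pool.Agent.Helper669.Forcing

theorem iso_La {Om : Type} [LinearOrder Om] [WellFoundedLT Om] {lam : Cardinal.{0}}
    (hOm : lam < #Om) : Nonempty (La Om lam ≃o (Order.succ lam).ord.ToType) := by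
  have h1 : Ordinal.type (α := La Om lam) (· < ·) =
      Ordinal.type (α := (Order.succ lam).ord.ToType) (· < ·) := by
    rw [Ordinal.type_toType]
    refine le_antisymm (not_lt.1 fun h => ?_) ?_
    · obtain ⟨a, ha⟩ := Ordinal.typein_surj (α := La Om lam) (· < ·) h
      have h2 := Ordinal.card_typein (r := fun x y : La Om lam => x < y) a
      rw [ha, card_ord] at h2
      have h3 : #(Iio a) = Order.succ lam := h2.symm
      have h4 : #(Iio a) ≤ lam := by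
        refine (mk_le_of_injective (f := fun b : Iio a => (⟨b.1.1, b.2⟩ : Iio a.1)) ?_).trans a.2
        intro b c hbc
        exact Subtype.ext (Subtype.ext (Subtype.mk.inj hbc))
      rw [h3] at h4
      exact absurd h4 (not_le.2 (Order.lt_succ _))
    · have h2 := ord_le_type (α := La Om lam) (· < ·)
      rwa [mk_La hOm] at h2
  obtain ⟨e⟩ := Ordinal.type_eq.1 h1
  exact ⟨OrderIso.ofRelIsoLT e⟩

section

variable {Q : Type} [Preorder Q] {L : Type} {K : Type} [LinearOrder K] {μ : Cardinal.{0}}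

/-- the properties of trees in a convenient form -/
structure Tr (R : L → L → Set Q) (ℓ : L → K → Set Q) (q1 : Q) : Prop where
  lex : ∀ u, ∀ q ≤ q1, ∃ r ≤ q, ∃ a, r ∈ meets (ℓ u a)
  lun : ∀ u a b, ∀ q ≤ q1, q ∈ meets (ℓ u a) → q ∈ meets (ℓ u b) → a = b
  lt : ∀ u v a b, ∀ q ≤ q1, q ∈ meets (R u v) → q ∈ meets (ℓ u a) → q ∈ meets (ℓ v b) → a < b
  tr : ∀ u v w, ∀ q ≤ q1, q ∈ meets (R u v) → q ∈ meets (R v w) → q ∈ meets (R u w)
  pr : ∀ v b a, a < b → ∀ q ≤ q1, q ∈ meets (ℓ v b) → ∃ r ≤ q, ∃ u, r ∈ meets (R u v) ∧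
    r ∈ meets (ℓ u a)
  un : ∀ u v w a, ∀ q ≤ q1, q ∈ meets (R u w) → q ∈ meets (R v w) → q ∈ meets (ℓ u a) →
    q ∈ meets (ℓ v a) → u = v
  ne : ∀ a, ∀ q ≤ q1, ∃ r ≤ q, ∃ u, r ∈ meets (ℓ u a)
  cov : ∀ a, ∀ q ≤ q1, ∃ r ≤ q, ∃ θ : Cardinal.{0}, ∃ F : θ.out → L → Set Q, θ < μ ∧
    r ∈ IsFun F ∧ ∀ u, ∀ s ≤ r, s ∈ meets (ℓ u a) → ∃ t ≤ s, ∃ w, t ∈ meets (F w u)

theorem tr_of {R : L → L → Set Q} {ℓ : L → K → Set Q} {q1 : Q} (h : q1 ∈ IsTree μ R ℓ) :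
    Tr (μ := μ) R ℓ q1 := by
  obtain ⟨h1, h2, h3, h4, h5, h6, h7⟩ := h
  have hf := fun q (hq : q ≤ q1) => down_IsFun ℓ _ h1 q hq
  refine ⟨fun u q hq => IsFun.total (hf q hq) u, fun u a b q hq => IsFun.unique (hf q hq), ?_,
    ?_, ?_, ?_, ?_, ?_⟩
  · intro u v a b q hq k1 k2 k3
    obtain ⟨r, _, hr⟩ := mem_fimp.1 (h2 u v a b) q hq ⟨k1, k2, k3⟩
    exact hr
  · intro u v w q hq k1 k2
    exact meets_of_dense fun s hs => mem_fimp.1 (h3 u v w) s (hs.trans hq)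
      ⟨meets_dn k1 hs, meets_dn k2 hs⟩
  · intro v b a hab q hq k1
    obtain ⟨r, hr, k2⟩ := mem_fimp.1 (h4 v b a hab) q hq k1
    obtain ⟨s, hs, u, k3, k4⟩ := mem_fex.1 k2 r le_rfl
    exact ⟨s, hs.trans hr, u, k3, k4⟩
  · intro u v w a q hq k1 k2 k3 k4
    obtain ⟨r, _, hr⟩ := mem_fimp.1 (h5 u v w a) q hq ⟨⟨k1, k2⟩, k3, k4⟩
    exact hr
  · intro a q hq
    exact mem_fex.1 (h6 a) q hq
  · intro a q hq
    obtain ⟨r, hr, θ, k1⟩ := mem_fex.1 (h7 a) q hq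
    obtain ⟨s, hs, F, k2, k3, k4⟩ := mem_fex.1 k1 r le_rfl
    refine ⟨s, hs.trans hr, θ, F, k2, k3, fun u t ht k5 => ?_⟩
    obtain ⟨t', ht', k6⟩ := mem_fimp.1 (k4 u) t ht k5
    obtain ⟨t'', ht'', w, k7⟩ := mem_fex.1 k6 t' le_rfl
    exact ⟨t'', ht''.trans ht', w, k7⟩

theorem Tr.cmp {R : L → L → Set Q} {ℓ : L → K → Set Q} {q1 : Q} (h : Tr (μ := μ) R ℓ q1)
    {u v w : L} {a b : K} {q : Q} (hq : q ≤ q1) (k1 : q ∈ meets (R u w)) (k2 : q ∈ meets (R v w))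
    (k3 : q ∈ meets (ℓ u a)) (k4 : q ∈ meets (ℓ v b)) (hab : a < b) : q ∈ meets (R u v) :=
  meets_of_dense fun s hs => by
    obtain ⟨r, hr, u', k5, k6⟩ := h.pr v b a hab s (hs.trans hq) (meets_dn k4 hs)
    have hrq := hr.trans (hs.trans hq)
    have k7 := h.tr _ _ _ r hrq k5 (meets_dn k2 (hr.trans hs))
    have k8 := h.un u u' w a r hrq (meets_dn k1 (hr.trans hs)) k7 (meets_dn k3 (hr.trans hs)) k6
    exact ⟨r, hr, k8 ▸ k5⟩

/-- names of functions onto the level `a` -/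
structure Gd {W : Type} (ℓ : L → K → Set Q) (a : K) (r : Q) (F : W → L → Set Q) : Prop where
  dn : ∀ w u, Down (F w u)
  ex : ∀ w, ∀ q ≤ r, ∃ q' ≤ q, ∃ u, q' ∈ F w u
  un : ∀ w u u', ∀ q ≤ r, q ∈ F w u → q ∈ F w u' → u = u'
  lv : ∀ w u, ∀ q ≤ r, q ∈ F w u → q ∈ meets (ℓ u a)
  on : ∀ u, ∀ q ≤ r, q ∈ meets (ℓ u a) → ∃ q' ≤ q, ∃ w, q' ∈ F w u

theorem Tr.exists_Gd {R : L → L → Set Q} {ℓ : L → K → Set Q} {q1 : Q} (h : Tr (μ := μ) R ℓ q1)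
    {W : Type} (hW : ∀ θ < μ, θ ≤ #W) (a : K) {q : Q} (hq : q ≤ q1) :
    ∃ r ≤ q, ∃ F : W → L → Set Q, Gd ℓ a r F := by
  classical
  obtain ⟨r0, hr0, u0, k0⟩ := h.ne a q hq
  obtain ⟨r, hr, θ, F0, hθ, k1, k2⟩ := h.cov a r0 (hr0.trans hq)
  obtain ⟨j⟩ : Nonempty (θ.out ↪ W) := by
    rw [← Cardinal.le_def, mk_out]
    exact hW θ hθ
  refine ⟨r, hr.trans hr0, fun w u => {s | (∃ t, j t = w ∧ s ∈ meets (F0 t u) ∧
    s ∈ meets (ℓ u a)) ∨ (u = u0 ∧ ∀ s' ≤ s, ∀ t, j t = w → ∀ u', s' ∈ meets (F0 t u') →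
      s' ∉ meets (ℓ u' a))}, ⟨?_, ?_, ?_, ?_, ?_⟩⟩
  · rintro w u s (⟨t, h1, h2, h3⟩ | ⟨h1, h2⟩) s' hs'
    · exact Or.inl ⟨t, h1, meets_dn h2 hs', meets_dn h3 hs'⟩
    · exact Or.inr ⟨h1, fun s'' hs'' => h2 s'' (hs''.trans hs')⟩
  · intro w s hs
    by_cases h1 : ∃ s' ≤ s, ∃ t, j t = w ∧ ∃ u', s' ∈ meets (F0 t u') ∧ s' ∈ meets (ℓ u' a)
    · obtain ⟨s', hs', t, h1, u', h2, h3⟩ := h1
      exact ⟨s', hs', u', Or.inl ⟨t, h1, h2, h3⟩⟩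
    · push Not at h1
      exact ⟨s, le_rfl, u0, Or.inr ⟨rfl, fun s' hs' t ht u' h2 => h1 s' hs' t ht u' h2⟩⟩
  · rintro w u u' s hs (⟨t, h1, h2, h3⟩ | ⟨h1, h2⟩) (⟨t', h4, h5, h6⟩ | ⟨h4, h5⟩)
    · have : t = t' := j.injective (h1.trans h4.symm)
      subst this
      exact IsFun.unique (down_IsFun F0 _ k1 s hs) h2 h5
    · exact absurd h3 (h5 s le_rfl t h1 u h2)
    · exact absurd h6 (h2 s le_rfl t' h4 u' h5)
    · rw [h1, h4]
  · rintro w u s hs (⟨t, h1, h2, h3⟩ | ⟨h1, h2⟩)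
    · exact h3
    · rw [h1]
      exact meets_dn k0 (hs.trans hr)
  · intro u s hs h1
    obtain ⟨s', hs', t, h2⟩ := k2 u s hs h1
    exact ⟨s', hs', j t, Or.inl ⟨t, rfl, h2, meets_dn h1 hs'⟩⟩

/-- The tree property for trees on `λ⁺ × λ` is enough. -/
theorem conv {Om : Type} [LinearOrder Om] [WellFoundedLT Om] {lam : Cardinal.{0}}
    (h0 : ℵ₀ ≤ lam) (hOm : lam < #Om) {q0 : Q}
    (H : ∀ T : La Om lam × sg Om lam → La Om lam × sg Om lam → Set Q, FT T → ∀ p ≤ q0,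
      ∃ q ≤ p, ∃ B, Bch T q B) : q0 ∈ TreeProp Q (Order.succ lam) := by
  classical
  intro L R ℓ
  refine mem_fimp.2 fun q1 hq1 htree => ?_
  have h := tr_of htree
  obtain ⟨e⟩ := iso_La hOm
  have hWne : Nonempty (sg Om lam) := by
    rw [← mk_ne_zero_iff, mk_sg Om hOm.le]
    exact (aleph0_pos.trans_le h0).ne'
  let w0 : sg Om lam := hWne.some
  choose FF hF1 hF2 hF3 hF4 using fun a => exists_mix (fun F : sg Om lam → L → Set Q =>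
    {r | Gd ℓ a r F}) (fun F r hr r' hr' => ⟨hr.dn, fun w q hq => hr.ex w q (hq.trans hr'),
      fun w u u' q hq => hr.un w u u' q (hq.trans hr'), fun w u q hq => hr.lv w u q (hq.trans hr'),
      fun u q hq => hr.on u q (hq.trans hr')⟩)
  have hFd : ∀ a, ∀ q ≤ q1, ∃ r ≤ q, ∃ F, r ∈ FF a F := fun a q hq =>
    hF4 a q1 (fun q' hq' => h.exists_Gd (fun θ hθ => by
      rw [mk_sg Om hOm.le]
      exact Order.lt_succ_iff.1 hθ) a hq') q hq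
  -- the nodes
  let Nd : La Om lam × sg Om lam → L → Set Q := fun x u =>
    {q | ∃ F, q ∈ FF (e x.1) F ∧ q ∈ F x.2 u}
  have hNd1 : ∀ x u, Down (Nd x u) := by
    rintro x u q ⟨F, k1, k2⟩ q' hq'
    exact ⟨F, hF1 _ F q k1 q' hq', (hF2 _ F k1).dn _ _ q k2 q' hq'⟩
  have hNd2 : ∀ x, ∀ q ≤ q1, ∃ r ≤ q, ∃ u, r ∈ Nd x u := by
    intro x q hq
    obtain ⟨r, hr, F, k1⟩ := hFd (e x.1) q hq
    obtain ⟨r', hr', u, k2⟩ := (hF2 _ F k1).ex x.2 r le_rfl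
    exact ⟨r', hr'.trans hr, u, F, hF1 _ F r k1 r' hr', k2⟩
  have hNd3 : ∀ x u u' q, q ∈ Nd x u → q ∈ Nd x u' → u = u' := by
    rintro x u u' q ⟨F, k1, k2⟩ ⟨F', k3, k4⟩
    have := hF3 _ F F' q k1 k3
    subst this
    exact (hF2 _ F k1).un x.2 u u' q le_rfl k2 k4
  have hNd4 : ∀ x u q, q ∈ Nd x u → q ∈ meets (ℓ u (e x.1)) := by
    rintro x u q ⟨F, k1, k2⟩
    exact (hF2 _ F k1).lv x.2 u q le_rfl k2
  have hNd5 : ∀ a u, ∀ q ≤ q1, q ∈ meets (ℓ u (e a)) → ∃ r ≤ q, ∃ w, r ∈ Nd (a, w) u := by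
    intro a u q hq k1
    obtain ⟨r, hr, F, k2⟩ := hFd (e a) q hq
    obtain ⟨r', hr', w, k3⟩ := (hF2 _ F k2).on u r le_rfl (meets_dn k1 hr)
    exact ⟨r', hr'.trans hr, w, F, hF1 _ F r k2 r' hr', k3⟩
  let Can : La Om lam × sg Om lam → Set Q := fun x =>
    {q | ∀ w' < x.2, ∀ u, ∀ q' ≤ q, q' ∈ Nd (x.1, w') u → q' ∉ Nd x u}
  have hCan : ∀ x, Down (Can x) := fun x q hq q' hq' w' hw' u q'' hq'' =>
    hq w' hw' u q'' (hq''.trans hq')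
  let E : La Om lam × sg Om lam → La Om lam × sg Om lam → Set Q := fun x y =>
    {q | (q ≤ q1 ∧ q ∈ Can x ∧ ∃ u v, q ∈ Nd x u ∧ q ∈ Nd y v ∧ q ∈ meets (R u v)) ∨
      ((∀ s ≤ q, ¬ s ≤ q1) ∧ x.1 < y.1 ∧ x.2 = w0)}
  have hEd : ∀ x y, Down (E x y) := by
    rintro x y q (⟨k1, k2, u, v, k3, k4, k5⟩ | ⟨k1, k2⟩) q' hq'
    · exact Or.inl ⟨hq'.trans k1, hCan x q k2 q' hq', u, v, hNd1 _ _ q k3 q' hq',
        hNd1 _ _ q k4 q' hq', meets_dn k5 hq'⟩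
    · exact Or.inr ⟨fun s hs => k1 s (hs.trans hq'), k2⟩
  have hElt : ∀ x y q, q ∈ E x y → x.1 < y.1 := by
    rintro x y q (⟨k1, k2, u, v, k3, k4, k5⟩ | ⟨k1, k2⟩)
    · exact e.lt_iff_lt.1 (h.lt u v _ _ q k1 k5 (hNd4 _ _ _ k3) (hNd4 _ _ _ k4))
    · exact k2.1
  let T : La Om lam × sg Om lam → La Om lam × sg Om lam → Set Q := fun x y => meets (E x y)
  have hT : FT T := by
    refine ⟨⟨fun x y => Rg.meets _, ?_, ?_, ?_, ?_⟩, ?_⟩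
    · intro x y p hp
      obtain ⟨q, _, hq⟩ := exists_of_meets (hEd x y) hp
      exact hElt x y q hq
    · intro x y z p hp hp'
      refine meets_of_dense fun q hq => ?_
      obtain ⟨r1, hr1, k1⟩ := exists_of_meets (hEd x y) (meets_dn hp hq)
      obtain ⟨r2, hr2, k2⟩ := exists_of_meets (hEd y z) (meets_dn hp' (hr1.trans hq))
      refine ⟨r2, hr2.trans hr1, meets_of_mem ?_⟩
      have k1' := hEd x y r1 k1 r2 hr2
      rcases k1' with ⟨l1, l2, u, v, l3, l4, l5⟩ | ⟨l1, l2⟩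
      · rcases k2 with ⟨m1, m2, v', w, m3, m4, m5⟩ | ⟨m1, m2⟩
        · have := hNd3 _ _ _ _ l4 m3
          subst this
          exact Or.inl ⟨l1, l2, u, w, l3, m4, h.tr _ _ _ r2 l1 l5 m5⟩
        · exact absurd l1 (m1 r2 le_rfl)
      · rcases k2 with ⟨m1, m2, v', w, m3, m4, m5⟩ | ⟨m1, m2⟩
        · exact absurd m1 (l1 r2 le_rfl)
        · exact Or.inr ⟨l1, l2.1.trans m2.1, l2.2⟩
    · intro x y z p hp hp' hxy
      refine meets_of_dense fun q hq => ?_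
      obtain ⟨r1, hr1, k1⟩ := exists_of_meets (hEd x z) (meets_dn hp hq)
      obtain ⟨r2, hr2, k2⟩ := exists_of_meets (hEd y z) (meets_dn hp' (hr1.trans hq))
      refine ⟨r2, hr2.trans hr1, meets_of_mem ?_⟩
      have k1' := hEd x z r1 k1 r2 hr2
      rcases k1' with ⟨l1, l2, u, w, l3, l4, l5⟩ | ⟨l1, l2⟩
      · rcases k2 with ⟨m1, m2, v, w', m3, m4, m5⟩ | ⟨m1, m2⟩
        · have := hNd3 _ _ _ _ l4 m4
          subst this
          exact Or.inl ⟨l1, l2, u, v, l3, m3, h.cmp l1 l5 m5 (hNd4 _ _ _ l3) (hNd4 _ _ _ m3)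
            (e.lt_iff_lt.2 hxy)⟩
        · exact absurd l1 (m1 r2 le_rfl)
      · rcases k2 with ⟨m1, m2, v', w, m3, m4, m5⟩ | ⟨m1, m2⟩
        · exact absurd m1 (l1 r2 le_rfl)
        · exact Or.inr ⟨l1, hxy, l2.2⟩
    · intro x y z p hp hp' hxy
      obtain ⟨r1, hr1, k1⟩ := exists_of_meets (hEd x z) hp
      obtain ⟨r2, hr2, k2⟩ := exists_of_meets (hEd y z) (meets_dn hp' hr1)
      have k1' := hEd x z r1 k1 r2 hr2
      rcases k1' with ⟨l1, l2, u, w, l3, l4, l5⟩ | ⟨l1, l2⟩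
      · rcases k2 with ⟨m1, m2, v, w', m3, m4, m5⟩ | ⟨m1, m2⟩
        · have := hNd3 _ _ _ _ l4 m4
          subst this
          have huv : u = v := h.un u v w (e x.1) r2 l1 l5 m5 (hNd4 _ _ _ l3)
            (hxy ▸ hNd4 _ _ _ m3)
          subst huv
          obtain ⟨x1, x2⟩ := x
          obtain ⟨y1, y2⟩ := y
          simp only at hxy
          subst hxy
          rcases lt_trichotomy x2 y2 with h9 | h9 | h9
          · exact absurd m3 (m2 x2 h9 u r2 le_rfl l3)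
          · rw [h9]
          · exact absurd l3 (l2 y2 h9 u r2 le_rfl m3)
        · exact absurd l1 (m1 r2 le_rfl)
      · rcases k2 with ⟨m1, m2, v', w, m3, m4, m5⟩ | ⟨m1, m2⟩
        · exact absurd m1 (l1 r2 le_rfl)
        · exact Prod.ext hxy (l2.2.trans m2.2.symm)
    · intro p y a ha
      by_cases hs : ∃ s ≤ p, s ≤ q1
      · obtain ⟨s, hs, hs1⟩ := hs
        obtain ⟨s1, hs1', v, k1⟩ := hNd2 y s hs1
        obtain ⟨s2, hs2, u, k2, k3⟩ := h.pr v (e y.1) (e a) (e.lt_iff_lt.2 ha) s1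
          (hs1'.trans hs1) (hNd4 _ _ _ k1)
        have hs2q : s2 ≤ q1 := hs2.trans (hs1'.trans hs1)
        have hex : ∃ w, ∃ s4 ≤ s2, s4 ∈ Nd (a, w) u := by
          obtain ⟨r, hr, w, k4⟩ := hNd5 a u s2 hs2q k3
          exact ⟨w, r, hr, k4⟩
        obtain ⟨w, ⟨s4, hs4, k4⟩, hmin⟩ := WellFounded.has_min
          (wellFounded_lt (α := sg Om lam)) {w | ∃ s4 ≤ s2, s4 ∈ Nd (a, w) u} hex
        refine ⟨s4, hs4.trans (hs2.trans (hs1'.trans hs)), (a, w), rfl, meets_of_mem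
          (Or.inl ⟨hs4.trans hs2q, ?_, u, v, k4, hNd1 _ _ _ k1 _ (hs4.trans hs2),
            meets_dn k2 hs4⟩)⟩
        intro w' hw' u' q' hq' k5 k6
        have k7 := hNd3 _ _ _ _ k6 (hNd1 _ _ _ k4 _ hq')
        rw [k7] at k5
        exact hmin w' ⟨q', hq'.trans hs4, k5⟩ hw'
      · push Not at hs
        exact ⟨p, le_rfl, (a, w0), rfl, meets_of_mem (Or.inr ⟨fun s hs' => hs s hs', ha, rfl⟩)⟩
  obtain ⟨q2, hq2, B, hB⟩ := H T hT q1 hq1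
  obtain ⟨B', hB', hfull⟩ := Bch.full hT hB
  have hBd : ∀ u : L, Down {q : Q | ∃ x, q ∈ B' x ∧ q ∈ Nd x u} := by
    rintro u q ⟨x, k1, k2⟩ q' hq'
    exact ⟨x, hB'.dn x q k1 q' hq', hNd1 _ _ q k2 q' hq'⟩
  refine ⟨q2, hq2, mem_fex_of_mem (fun u => {q | ∃ x, q ∈ B' x ∧ q ∈ Nd x u})
    (down_fand (down_fall fun _ => down_fall fun _ => down_fimp _ _)
      (down_fall fun _ => down_fex _)) ⟨fun u v => mem_fimp.2 fun q hq hk => ?_,
      fun a => mem_fex.2 fun q hq => ?_⟩⟩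
  · obtain ⟨r1, hr1, x, k1, k2⟩ := exists_of_meets (hBd u) hk.1
    obtain ⟨r2, hr2, y, k3, k4⟩ := exists_of_meets (hBd v) (meets_dn hk.2 hr1)
    have k1' := hB'.dn x _ k1 _ hr2
    have k2' := hNd1 _ _ _ k2 _ hr2
    have hr22 : r2 ≤ q2 := hr2.trans (hr1.trans hq)
    rcases lt_trichotomy x.1 y.1 with h9 | h9 | h9
    · obtain ⟨r3, hr3, k5⟩ := exists_of_meets (hEd x y) (hB'.ch x y r2 hr22 k1' k3 h9)
      rcases k5 with ⟨l1, l2, u', v', l3, l4, l5⟩ | ⟨l1, l2⟩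
      · rw [hNd3 _ _ _ _ l3 (hNd1 _ _ _ k2' _ hr3), hNd3 _ _ _ _ l4 (hNd1 _ _ _ k4 _ hr3)] at l5
        exact ⟨r3, hr3.trans (hr2.trans hr1), for'_right (down_for' _ _)
          (for'_left (down_meets _) l5)⟩
      · exact absurd (hr3.trans (hr22.trans hq2)) (l1 r3 le_rfl)
    · have k5 := hB'.eq x y r2 hr22 k1' k3 h9
      subst k5
      exact ⟨r2, hr2.trans hr1, for'_left (down_fground _) (hNd3 _ _ _ _ k2' k4)⟩
    · obtain ⟨r3, hr3, k5⟩ := exists_of_meets (hEd y x) (hB'.ch y x r2 hr22 k3 k1' h9)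
      rcases k5 with ⟨l1, l2, u', v', l3, l4, l5⟩ | ⟨l1, l2⟩
      · rw [hNd3 _ _ _ _ l4 (hNd1 _ _ _ k2' _ hr3), hNd3 _ _ _ _ l3 (hNd1 _ _ _ k4 _ hr3)] at l5
        exact ⟨r3, hr3.trans (hr2.trans hr1), for'_right (down_for' _ _)
          (for'_right (down_meets _) l5)⟩
      · exact absurd (hr3.trans (hr22.trans hq2)) (l1 r3 le_rfl)
  · obtain ⟨r, hr, x, hx, k1⟩ := hfull (e.symm a) q hq
    obtain ⟨r', hr', u, k2⟩ := hNd2 x r (hr.trans (hq.trans hq2))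
    refine ⟨r', hr'.trans hr, u, meets_of_mem ⟨x, hB'.dn x _ k1 _ hr', k2⟩, ?_⟩
    have k3 := hNd4 _ _ _ k2
    rwa [hx, e.apply_symm_apply] at k3

end

end Run7.h898
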