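import Mathlib
import Pool.Agent.Run7.h898.Defs2

set_option autoImplicit false
set_option linter.unusedSectionVars false

/-!
# The tree property at the successors of all singular cardinals below `ℵ_{ω₁}`
-/

namespace Run7.h898

open Cardinal Pool.Agent.Helper669.Forcing

/-- In the extension: the successor cardinal `μ` of `lam` has the tree property, for all
uncountable limit cardinals `lam` with only countably many cardinals below `lam`. In other words,
the tree property holds at `ℵ_{α + 1}` for all nonzero limit ordinals `α < ω₁`. -/
def TreePropAtAllSuccessors (P : Type) [Preorder P] : Set P :=
  fall fun lam : Cardinal.{0} => fall fun μ : Cardinal.{0} =>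
    fimp (fand (IsLimitCard P lam) (fand (CountablyManyBelow P lam) (IsSuccCard P lam μ)))
      (TreeProp P μ)

end Run7.h898
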