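import Mathlib
import Pool.Agent.Run7.h898.Nsp

set_option autoImplicit false
set_option linter.unusedSectionVars false
set_option linter.unusedVariables false

/-!
# The narrow system property in the extension by a collapse of a supercompact cardinal
-/

namespace Run7.h898

open Set Cardinal Pool.Agent.Helper669.Forcing

theorem upd_le {H N : Type} [Preorder N] [DecidableEq H] {F : H → N} {h : H} {f : N}
    (hf : f ≤ F h) : Function.update F h f ≤ F := by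
  intro h'
  by_cases e : h' = h
  · subst e
    rw [Function.update_self]
    exact hf
  · rw [Function.update_of_ne e]

theorem nsp {S G : Type} [Preorder S] [Preorder G] {J : Type} {Om : Type} [LinearOrder Om]
    [WellFoundedLT Om] {lo hi : J → Cardinal.{0}} {κ lam χ : Cardinal.{0}}
    (hI : Inac κ) (hJ : #J < κ) (hlo : ∀ j, lo j < κ) (hhi : ∀ j, hi j ≤ κ)
    (hlam : κ ≤ lam) (hbd : Bd lam (La Om lam)) (hχ : ℵ₀ ≤ χ) (hχκ : Order.succ χ < κ)
    (hS : #S ≤ χ) (hG : DC κ G) (hlo' : ∀ j, χ ≤ lo j)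
    (hsc : ∀ g : G, ∃ g0 ≤ g, Nonempty (AU G κ Om g0))
    {T X : Type} (hT : #T ≤ χ) (hX : #X ≤ χ)
    {Rel : T → La Om lam × X → La Om lam × X → Set (S × Bb Om lo hi × G)}
    (hR : ∀ t, TL (Rel t)) {D : La Om lam → Set (S × Bb Om lo hi × G)} (hDd : ∀ a, Down (D a))
    (p0 : S × Bb Om lo hi × G) (hD : ∀ p ≤ p0, ∀ a, ∃ q ≤ p, ∃ α, a ≤ α ∧ q ∈ D α)
    (hpair : ∀ p ≤ p0, ∀ α β, α < β → p ∈ D α → p ∈ D β →
      ∃ q ≤ p, ∃ t ζ ζ', q ∈ Rel t (α, ζ) (β, ζ')) :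
    ∃ q ≤ p0, ∃ t b, Bch (Rel t) q b := by
  classical
  by_contra hcon
  have hneg : ∀ q ≤ p0, ∀ t b, ¬ Bch (Rel t) q b := fun q hq t b h => hcon ⟨q, hq, t, b, h⟩
  obtain ⟨s0, b0, gg⟩ := p0
  obtain ⟨g0, hg0, ⟨A⟩⟩ := hsc gg
  have h0 : ℵ₀ ≤ Order.succ χ := hχ.trans (Order.le_succ _)
  have hlam0 : ℵ₀ ≤ lam := hI.unc.le.trans hlam
  have hsl : ∀ j, Order.succ χ ≤ sl (lo j) := fun j =>
    (Order.succ_le_succ (hlo' j)).trans (le_max_right _ _)
  have hGχ : DC (Order.succ χ) G := hG.mono hχκ.le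
  have hdI := fun c y => fun x => down_In (κ := κ) (D := D) (Rel := Rel) hDd hR c y x
  let H : Type := (Order.succ χ).out
  have hH : #H = Order.succ χ := mk_out _
  have hXd : DC (Order.succ χ) (G × Bb Om lo hi × (H → Nf G Om lo hi κ)) :=
    hGχ.prod ((DC.pi fun j => dc_Cb.mono (hsl j)).prod (DC.pi fun _ => dc_Nf h0 hGχ hsl))
  have hH' : #H ≤ Order.succ χ := hH.le
  have hSχ := hS.trans (Order.le_succ χ)
  have hTχ := hT.trans (Order.le_succ χ)
  have hXχ := hX.trans (Order.le_succ χ)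
  have hJ1 : #(H × H × S × T × X) ≤ Order.succ χ := by
    simp only [mk_prod, lift_id]
    exact mul_le_of_le h0 hH' (mul_le_of_le h0 hH' (mul_le_of_le h0 hSχ
      (mul_le_of_le h0 hTχ hXχ)))
  -- first chain
  obtain ⟨⟨g1, b1, F1⟩, hq1, h1⟩ := hXd.all h0 hJ1 (g0, b0, fun _ => Nf.one)
    (fun i q => i.1 ≠ i.2.1 → i.2.2.1 ≤ s0 → ∃ s' ≤ i.2.2.1, ∃ β,
      Sep A D Rel i.2.2.2 β q.1 s' q.2.1 (q.2.2 i.1) (q.2.2 i.2.1)) (by
    rintro i p q hq h2 h3 h4
    obtain ⟨s', hs', β, h5⟩ := h2 h3 h4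
    exact ⟨s', hs', β, h5.mono A hq.1 le_rfl hq.2.1 (hq.2.2 i.1) (hq.2.2 i.2.1)⟩) (by
    rintro ⟨h, h', s, c⟩ ⟨g, b, F⟩ hp
    by_cases h2 : h ≠ h' ∧ s ≤ s0
    · obtain ⟨g', hg', s', hs', b', hb', f0, hf0, f1, hf1, β, h3⟩ := sep_claim hDd hR A hI hJ hlo
        hbd hlam0 hneg hp.1 s b ⟨h2.2, hp.2.1, hp.1.trans hg0⟩ (F h) (F h') c
      refine ⟨(g', b', Function.update (Function.update F h f0) h' f1), ⟨hg', hb', ?_⟩,
        fun _ _ => ⟨s', hs', β, ?_⟩⟩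
      · refine (upd_le ?_).trans (upd_le hf0)
        rw [Function.update_of_ne h2.1.symm]
        exact hf1
      · change Sep A D Rel c β g' s' b' _ _
        have e1 : Function.update (Function.update F h f0) h' f1 h = f0 := by
          rw [Function.update_of_ne h2.1, Function.update_self]
        have e2 : Function.update (Function.update F h f0) h' f1 h' = f1 :=
          Function.update_self _ _ _
        change Sep A D Rel c β g' s' b' (Function.update (Function.update F h f0) h' f1 h)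
          (Function.update (Function.update F h f0) h' f1 h')
        rw [e1, e2]
        exact h3
    · exact ⟨(g, b, F), le_rfl, fun h3 h4 => absurd ⟨h3, h4⟩ h2⟩)
  have hg1 : g1 ≤ g0 := hq1.1
  have hp1 : (s0, b1, g1) ≤ (s0, b0, gg) := ⟨le_rfl, hq1.2.1, hg1.trans hg0⟩
  -- bounding the levels
  have h2 : ∀ i : H × H × S × T × X, ∃ β, i.1 ≠ i.2.1 → i.2.2.1 ≤ s0 → ∃ s' ≤ i.2.2.1,
      Sep A D Rel i.2.2.2 β g1 s' b1 (F1 i.1) (F1 i.2.1) := by
    intro i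
    by_cases h3 : i.1 ≠ i.2.1 ∧ i.2.2.1 ≤ s0
    · obtain ⟨s', hs', β, h4⟩ := h1 i h3.1 h3.2
      exact ⟨β, fun _ _ => ⟨s', hs', h4⟩⟩
    · obtain ⟨b, _⟩ := hbd Empty (fun e => e.elim) (by simp)
      exact ⟨b, fun h4 h5 => absurd ⟨h4, h5⟩ h3⟩
  choose β hβ using h2
  obtain ⟨β0, hβ0⟩ := hbd _ β (hJ1.trans (hχκ.le.trans hlam))
  obtain ⟨⟨s2, b2, g2⟩, hp2, α, hα, hpα⟩ := hD (s0, b1, g1) hp1 β0
  have hp2' : (s2, b2, g2) ≤ (s0, b0, gg) := hp2.trans hp1
  have hg20 : g2 ≤ g0 := hp2.2.2.trans hg1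
  -- second chain
  obtain ⟨⟨g3, b3, F3⟩, hq3, h3⟩ := hXd.all h0 hH' (g2, b2, F1)
    (fun h q => ∃ s' ≤ s2, ∃ c : (T × X) × X,
      star A q.1 s' q.2.1 (q.2.2 h) (In D Rel c.1 (α, c.2))
      ∧ q.1 ≤ g0) (by
    rintro h p q hq ⟨s', hs', c, h4, h5⟩
    exact ⟨s', hs', c, star_mono A hI hJ hlo h5 (hdI _ _) h4 hq.1 le_rfl hq.2.1 (hq.2.2 h)
      (fun _ => Subset.rfl), hq.1.trans h5⟩) (by
    rintro h ⟨g, b, F⟩ hp
    have hgg : g ≤ g0 := hp.1.trans hg20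
    have hpp : (s2, b, g) ≤ (s2, b2, g2) := ⟨le_rfl, hp.2.1, hp.1⟩
    obtain ⟨g', hg', s', hs', b', hb', f', hf', i, hi⟩ := star_dec A hI hJ hlo hhi hG
      (hS.trans_lt ((Order.le_succ χ).trans_lt hχκ)) (I := (T × X) × X) (by
        simp only [mk_prod, lift_id]
        have hlt : χ < κ := (Order.le_succ χ).trans_lt hχκ
        exact mul_lt_of_lt hI.unc.le (mul_lt_of_lt hI.unc.le (hT.trans_lt hlt)
          (hX.trans_lt hlt)) (hX.trans_lt hlt))
      (fun i => In D Rel i.1 (α, i.2)) (fun i x => hdI _ _ x) hgg s2 b (F h)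
      {x | α.1 ∈ x.1} (A.fine g hgg α.1) (by
      intro x hx q hq
      have hq0 : q ≤ (s0, b0, gg) := hq.trans (hpp.trans hp2')
      obtain ⟨q1, hq1, γ, hγ⟩ := exists_Top hDd hbd hlam x (p := q)
        (fun r hr a => hD r (hr.trans hq0) a)
      have hαγ : α < γ := hγ.1 α.1 hx α.2
      obtain ⟨q2, hq2, t, ζ, ζ', h4⟩ := hpair q1 (hq1.trans hq0) α γ hαγ
        (hDd α _ hpα q1 (hq1.trans (hq.trans hpp))) hγ.2.1
      exact ⟨q2, hq2.trans hq1, ((t, ζ'), ζ), γ, down_Top hDd x γ _ hγ _ hq2, h4⟩)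
    refine ⟨(g', b', Function.update F h f'), ⟨hg', hb', upd_le hf'⟩, s', hs', i, ?_,
      hg'.trans hgg⟩
    change star A g' s' b' (Function.update F h f' h) _
    rw [Function.update_self]
    exact hi)
  choose s hs c hc hg30 using h3
  -- two conditions with the same data
  obtain ⟨h, h', hne, heq⟩ : ∃ h h' : H, h ≠ h' ∧ (s h, c h) = (s h', c h') := by
    by_contra hcon2
    push Not at hcon2
    have hinj : Function.Injective fun h : H => (s h, c h) := fun h h' e => by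
      by_contra hne
      exact hcon2 h h' hne e
    have h4 := mk_le_of_injective hinj
    rw [hH] at h4
    simp only [mk_prod, lift_id] at h4
    have h5 : #S * (#T * #X * #X) ≤ χ :=
      mul_le_of_le hχ hS (mul_le_of_le hχ (mul_le_of_le hχ hT hX) hX)
    exact absurd (h4.trans h5) (not_le.2 (Order.lt_succ _))
  have e1 : s h = s h' := (Prod.mk.inj heq).1
  have e2 : c h = c h' := (Prod.mk.inj heq).2
  obtain ⟨s', hs', hsep⟩ := hβ (h, h', s h, (c h).1) hne ((hs h).trans hp2'.1)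
  have hg31 : g3 ≤ g1 := hq3.1.trans hp2.2.2
  have hb31 : b3 ≤ b1 := hq3.2.1.trans hp2.2.1
  refine hsep g3 hg31 s' le_rfl b3 hb31 (F3 h) (hq3.2.2 h) (F3 h') (hq3.2.2 h') (α, (c h).2)
    ((hβ0 _).le.trans hα) ⟨?_, ?_⟩
  · exact star_mono A hI hJ hlo (hg30 h) (hdI _ _) (hc h) le_rfl hs' le_rfl le_rfl
      fun _ => Subset.rfl
  · have h4 := hc h'
    rw [← e2] at h4
    exact star_mono A hI hJ hlo (hg30 h') (hdI _ _) h4 le_rfl (e1 ▸ hs') le_rfl le_rfl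
      fun _ => Subset.rfl

end Run7.h898
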