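import Mathlib
import Pool.Agent.Run7.h898.Ev2

set_option autoImplicit false
set_option linter.unusedSectionVars false
set_option linter.unusedVariables false

/-!
# Sizes of the traces of small sets, and collapses
-/

namespace Run7.h898

open Set Cardinal Pool.Agent.Helper669.Forcing

section

variable {Om : Type} [LinearOrder Om] [WellFoundedLT Om] {lo hi : Cardinal.{0}}

/-- a new entry -/
theorem Cb.add (p : Cb Om lo hi) {ξ ε v : Om} (h1 : #(Iio ξ) < hi) (h2 : #(Iio ε) ≤ sl lo)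
    (h3 : v < ξ) (h : p.f ξ ε = none) : ∃ q ≤ p, q.f ξ ε = some v := by
  classical
  let g : Om → Om → Option Om := fun a b => if a = ξ ∧ b = ε then some v else p.f a b
  have hg : ∀ a b, g a b ≠ none → (a, b) = (ξ, ε) ∨ p.f a b ≠ none := by
    intro a b hab
    by_cases h4 : a = ξ ∧ b = ε
    · exact Or.inl (by rw [h4.1, h4.2])
    · exact Or.inr (by simpa only [g, if_neg h4] using hab)
  refine ⟨⟨g, fun a b w hw => ?_, ?_⟩, fun a b w hw => ?_, if_pos ⟨rfl, rfl⟩⟩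
  · by_cases h4 : a = ξ ∧ b = ε
    · simp only [g, if_pos h4, Option.some.injEq] at hw
      rw [h4.1, h4.2, ← hw]
      exact ⟨h1, h2, h3⟩
    · simp only [g, if_neg h4] at hw
      exact p.ok a b w hw
  · have h4 : {q : Om × Om | g q.1 q.2 ≠ none} ⊆ insert (ξ, ε) {q : Om × Om | p.f q.1 q.2 ≠ none} :=
      fun q hq => by
        rcases hg q.1 q.2 hq with h5 | h5
        · exact Or.inl h5
        · exact Or.inr h5
    refine (mk_le_mk_of_subset h4).trans (mk_insert_le.trans ?_)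
    exact add_le_of_le (aleph0_le_sl lo) p.sm (one_le_aleph0.trans (aleph0_le_sl lo))
  · change g a b = some w
    have h4 : ¬ (a = ξ ∧ b = ε) := fun h4 => by
      rw [h4.1, h4.2, h] at hw
      exact absurd hw (by simp)
    simp only [g, if_neg h4]
    exact hw

theorem Cb.fresh (p : Cb Om lo hi) (hOm : Order.succ (sl lo) ≤ #Om) (ξ : Om) :
    ∃ ε, #(Iio ε) ≤ sl lo ∧ p.f ξ ε = none := by
  by_contra hcon
  push Not at hcon
  have h1 : #{ε : Om // #(Iio ε) ≤ sl lo} ≤ sl lo :=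
    (mk_le_of_injective (f := fun ε : {ε : Om // #(Iio ε) ≤ sl lo} =>
      (⟨(ξ, ε.1), hcon ε.1 ε.2⟩ : {q : Om × Om // p.f q.1 q.2 ≠ none})) fun a b hab => by
        simp only [Subtype.mk.injEq, Prod.mk.injEq, true_and] at hab
        exact Subtype.ext hab).trans p.sm
  have h2 : #{ε : Om // #(Iio ε) ≤ sl lo} = Order.succ (sl lo) := mk_La (lt_of_lt_of_le
    (Order.lt_succ _) hOm)
  rw [h2] at h1
  exact absurd h1 (not_le.2 (Order.lt_succ _))

theorem Cb.total (p : Cb Om lo hi) {ξ ε v : Om} (h1 : #(Iio ξ) < hi) (h2 : #(Iio ε) ≤ sl lo)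
    (h3 : v < ξ) : ∃ q ≤ p, ∃ w, q.f ξ ε = some w := by
  cases h : p.f ξ ε with
  | some w => exact ⟨p, le_rfl, w, h⟩
  | none =>
    obtain ⟨q, hq, h4⟩ := p.add h1 h2 h3 h
    exact ⟨q, hq, v, h4⟩

/-- each value is taken -/
theorem Cb.onto (p : Cb Om lo hi) (hOm : Order.succ (sl lo) ≤ #Om) {ξ v : Om}
    (h1 : #(Iio ξ) < hi) (h3 : v < ξ) : ∃ q ≤ p, ∃ ε, #(Iio ε) ≤ sl lo ∧ q.f ξ ε = some v := by
  obtain ⟨ε, h2, h⟩ := p.fresh hOm ξ
  obtain ⟨q, hq, h4⟩ := p.add h1 h2 h3 h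
  exact ⟨q, hq, ε, h2, h4⟩

end

/-- the trace of `sg θ` -/
abbrev tr {K : Cardinal.{0}} {Om : Type} [LinearOrder Om] [WellFoundedLT Om] (x : PK K Om)
    (θ : Cardinal.{0}) : Type := {a : Om // a ∈ sg Om θ ∧ a ∈ x.1}

theorem tr_mono {K : Cardinal.{0}} {Om : Type} [LinearOrder Om] [WellFoundedLT Om] (x : PK K Om)
    {θ θ' : Cardinal.{0}} (h : θ ≤ θ') : #(tr x θ) ≤ #(tr x θ') :=
  mk_le_of_injective (f := fun a => ⟨a.1, sg_mono Om h a.2.1, a.2.2⟩) fun a b hab =>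
    Subtype.ext (Subtype.mk.inj hab)

theorem tr_lt {K : Cardinal.{0}} {Om : Type} [LinearOrder Om] [WellFoundedLT Om] (x : PK K Om)
    (θ : Cardinal.{0}) : #(tr x θ) < K :=
  (mk_le_of_injective (f := fun a : tr x θ => (⟨a.1, a.2.2⟩ : x.1)) fun a b hab =>
    Subtype.ext (Subtype.mk.inj hab)).trans_lt x.2

section

variable {G : Type} [Preorder G] {Om : Type} [LinearOrder Om] [WellFoundedLT Om]
  {K : Cardinal.{0}} {g0 : G} (U : AU G K Om g0)

/-- a bound for the size of a trace by the sizes of the traces of initial segments -/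
theorem tr_le {x : PK K Om} {θ : Cardinal.{0}} {c : Cardinal.{0}}
    (h : ∀ a ∈ x.1, a ∈ sg Om θ → #{b // b < a ∧ b ∈ x.1} ≤ c) : #(tr x θ) ≤ Order.succ c := by
  refine mk_le_succ_of_iio fun a => ?_
  refine (mk_le_of_injective (f := fun b : Iio a => (⟨b.1.1, b.2, b.1.2.2⟩ :
    {b // b < a.1 ∧ b ∈ x.1})) fun b b' hb => ?_).trans (h a.1 a.2.2 a.2.1)
  exact Subtype.ext (Subtype.ext (Subtype.mk.inj hb))

theorem ev_succ (hK : ℵ₀ ≤ K) {g : G} (hg : g ≤ g0) (μ : Cardinal.{0}) (hμ : μ ≤ #Om) :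
    ev U g fun x => (∀ a ∈ x.1, #(Iio a) ≤ μ → #{b // b < a ∧ b ∈ x.1} ≤ #(tr x μ)) ∧
      #(tr x (Order.succ μ)) ≤ Order.succ #(tr x μ) := by
  classical
  have h1 : ∀ a : Om, ∃ e : Om → Om, #(Iio a) ≤ μ → (∀ b < a, e b ∈ sg Om μ) ∧
      ∀ b < a, ∀ b' < a, e b = e b' → b = b' := by
    intro a
    by_cases h : #(Iio a) ≤ μ
    · rw [← mk_sg Om hμ] at h
      obtain ⟨e⟩ := h
      refine ⟨fun b => if hb : b < a then (e ⟨b, hb⟩).1 else b, fun _ => ⟨fun b hb => ?_,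
        fun b hb b' hb' hbb => ?_⟩⟩
      · simp only [dif_pos hb]
        exact (e ⟨b, hb⟩).2
      · simp only [dif_pos hb, dif_pos hb'] at hbb
        exact congrArg Subtype.val (e.injective (Subtype.ext hbb))
    · exact ⟨id, fun h' => absurd h' h⟩
  choose e he using h1
  refine ev_mono U hg (ev_clo U hK hg e) fun x hx => ?_
  have h2 : ∀ a ∈ x.1, #(Iio a) ≤ μ → #{b // b < a ∧ b ∈ x.1} ≤ #(tr x μ) := by
    intro a ha haμ
    obtain ⟨h3, h4⟩ := he a haμ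
    refine mk_le_of_injective (f := fun b => ⟨e a b.1, h3 b.1 b.2.1, hx a ha b.1 b.2.2⟩)
      fun b b' hb => Subtype.ext (h4 b.1 b.2.1 b'.1 b'.2.1 (Subtype.mk.inj hb))
  exact ⟨h2, tr_le fun a ha ha' => h2 a ha (Order.lt_succ_iff.1 ha')⟩

end

section

variable {J : Type} {Om : Type} [LinearOrder Om] [WellFoundedLT Om] {lo hi : J → Cardinal.{0}}
  {K : Cardinal.{0}} {g0 : Bb Om lo hi} (U : AU (Bb Om lo hi) K Om g0)

theorem ev_col (hK : ℵ₀ < K) (hlo : ∀ j, K ≤ lo j) (j0 : J)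
    (hOm : Order.succ (sl (lo j0)) ≤ #Om) {g : Bb Om lo hi} (hg : g ≤ g0) :
    ev U g fun x => ∀ ξ ∈ x.1, #(Iio ξ) < hi j0 →
      #{b // b < ξ ∧ b ∈ x.1} ≤ #(tr x (Order.succ (sl (lo j0)))) := by
  classical
  have hDC : DC K (Bb Om lo hi) := DC.pi fun j => dc_Cb.mono ((hlo j).trans (lt_sl _).le)
  refine ev_diag U hK.le hg fun ξ => ?_
  by_cases hξ : #(Iio ξ) < hi j0
  swap
  · exact ev_triv U hg hK.le fun x h => absurd h hξ
  -- the statement that all values in `x` are taken at arguments in `x`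
  let φ : PK K Om → Set (Bb Om lo hi) := fun x => {h | ∀ v ∈ x.1, v < ξ → ∃ ε ∈ x.1,
    #(Iio ε) ≤ sl (lo j0) ∧ (h j0).f ξ ε = some v}
  have hφ : ∀ x, Down (φ x) := by
    intro x p hp q hq v hv hvξ
    obtain ⟨ε, h1, h2, h3⟩ := hp v hv hvξ
    exact ⟨ε, h1, h2, hq j0 ξ ε v h3⟩
  have h1 : g ∈ U.al φ := by
    refine U.of_not hg hφ fun g1 hg1 h1 => ?_
    have hg10 := hg1.trans hg
    have h2 : g1 ∈ U.al fun x => {h | ∃ v ∈ x.1, h ∈ {h | v < ξ ∧ ∀ h' ≤ h, ∀ ε ∈ x.1,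
        #(Iio ε) ≤ sl (lo j0) → (h' j0).f ξ ε ≠ some v}} := by
      refine U.mono g1 hg10 _ _ (fun x => down_fnot _) h1 fun x g2 hg2 hx => ?_
      by_contra hcon
      push Not at hcon
      have hcon' : ∀ h ≤ g2, ∀ v ∈ x.1, v < ξ → ∃ h' ≤ h, ∃ ε ∈ x.1, #(Iio ε) ≤ sl (lo j0) ∧
          (h' j0).f ξ ε = some v := by
        intro h hh v hv hvξ
        by_contra h3
        push Not at h3
        refine hcon h hh ⟨v, hv, hvξ, fun h' hh' ε hε hε' => h3 h' hh' ε hε hε'⟩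
      obtain ⟨h, hh, h3⟩ := hDC.all hK.le (J := {v // v ∈ x.1 ∧ v < ξ}) (by
        refine le_trans (mk_le_of_injective (f := fun v => (⟨v.1, v.2.1⟩ : x.1)) ?_) x.2.le
        intro v v' hv
        exact Subtype.ext (Subtype.mk.inj hv)) g2
        (fun v h => ∃ ε ∈ x.1, #(Iio ε) ≤ sl (lo j0) ∧ (h j0).f ξ ε = some v.1) (by
        rintro v p q hq ⟨ε, h4, h5, h6⟩
        exact ⟨ε, h4, h5, hq j0 ξ ε _ h6⟩) fun v p hp => hcon' p hp v.1 v.2.1 v.2.2
      exact hx h hh fun v hv hvξ => h3 ⟨v, hv, hvξ⟩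
    have hd2 : ∀ v, ∀ x : PK K Om, Down {h : Bb Om lo hi | v < ξ ∧ ∀ h' ≤ h, ∀ ε ∈ x.1,
        #(Iio ε) ≤ sl (lo j0) → (h' j0).f ξ ε ≠ some v} := by
      rintro v x p ⟨h3, h4⟩ q hq
      exact ⟨h3, fun h' hh' => h4 h' (hh'.trans hq)⟩
    obtain ⟨g2, hg2, v, h3⟩ := U.normal g1 hg10 _ hd2 h2
    have hg20 := hg2.trans hg10
    obtain ⟨_, _, _, hv, _⟩ := U.ne g2 hg20 _ (hd2 v) h3
    obtain ⟨q, hq, ε, hε, hqε⟩ := (g2 j0).onto hOm hξ hv
    let g3 : Bb Om lo hi := Function.update g2 j0 q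
    have hg3 : g3 ≤ g2 := by
      intro j
      by_cases hj : j = j0
      · subst hj
        simp only [g3, Function.update_self]
        exact hq
      · simp only [g3, Function.update_of_ne hj]
        exact le_rfl
    have hg30 := hg3.trans hg20
    obtain ⟨g4, hg4, x, ⟨_, h4⟩, h5⟩ := U.ne g3 hg30 _ (fun x => by
        rintro p ⟨h4, h5⟩ q hq
        exact ⟨hd2 v x p h4 q hq, h5⟩)
      (U.and hK.le hg30 (hd2 v) (fun x => dnc _) (U.dn h3 hg3) (U.fine g3 hg30 ε))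
    refine h4 g4 le_rfl ε h5 hε (hg4 j0 ξ ε v ?_)
    simp only [g3, Function.update_self]
    exact hqε
  refine ev_of_not U hg fun g1 hg1 h2 => ?_
  have hg10 := hg1.trans hg
  obtain ⟨h, _, x, h3, h4⟩ := U.ne g1 hg10 _ (fun x => by
    rintro p ⟨h3, h4⟩ q hq
    exact ⟨hφ x p h3 q hq, h4⟩) (U.and hK.le hg10 hφ (fun x => dnc _) (U.dn h1 hg1) h2)
  refine h4 fun _ => ?_
  choose! ε h5 h6 h7 using h3
  refine mk_le_of_injective (f := fun v => ⟨ε v.1, Order.lt_succ_iff.2 (h6 v.1 v.2.2 v.2.1),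
    h5 v.1 v.2.2 v.2.1⟩) fun v v' hv => Subtype.ext ?_
  have h8 : ε v.1 = ε v'.1 := Subtype.mk.inj hv
  have h9 := h7 v.1 v.2.2 v.2.1
  rw [h8, h7 v'.1 v'.2.2 v'.2.1] at h9
  exact (Option.some.inj h9).symm

end

end Run7.h898
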