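import Mathlib
import Pool.Agent.Run7.h898.Star
import Pool.Agent.Run7.h898.Bp

set_option autoImplicit false
set_option linter.unusedSectionVars false
set_option linter.unusedVariables false

/-!
# From trees to narrow systems
-/

namespace Run7.h898

open Set Cardinal Pool.Agent.Helper669.Forcing

section

variable {Bq : Type} [Preorder Bq] {Om : Type} [LinearOrder Om] [WellFoundedLT Om]
  {K lam : Cardinal.{0}}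

/-- the elements of `x` below `lam⁺` -/
abbrev xL (lam : Cardinal.{0}) (x : PK K Om) : Type := {a : La Om lam // a.1 ∈ x.1}

/-- the set `x` can be used for the reflection of a tree -/
def Good (lam : Cardinal.{0}) {I : Type} (A E : I → Type) [∀ i, Preorder (E i)] (x : PK K Om) :
    Prop :=
  Nonempty (xL lam x) ∧
  ∃ i : I, (∃ mu, ℵ₀ ≤ mu ∧ mu ≤ K ∧ #(xL lam x) ≤ mu ∧ DC mu (E i)) ∧
    ∀ f : A i × ℕ → xL lam x, ∃ b : xL lam x, ∀ j, f j < b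

theorem dref {I W : Type} {A E : I → Type} [∀ i, Preorder (A i)] [∀ i, Preorder (E i)]
    (hK : ℵ₀ ≤ K) (hKω : ℵ₀ < K) (hKlam : K ≤ lam) (hbd : Bd lam (La Om lam)) (hB : DC K Bq) {h0 : Bq}
    (U : AU Bq K Om h0) (V : ℕ → Set W) (hV : ∀ w, ∃ n, w ∈ V n) (w0 : W)
    (rk : I → ℕ) {T : ∀ i, La Om lam × W → La Om lam × W → Set (A i × E i × Bq)}
    (hT : ∀ i, FT (T i)) (a0 : ∀ i, A i) (e0 : ∀ i, E i)
    (hgood : h0 ∈ U.al fun x => {_h | Good lam A E x}) :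
    ∃ h1 ≤ h0, ∃ m0 r0 : ℕ, ∃ D : La Om lam → Set Bq, (∀ a, Down (D a)) ∧
      (∀ h ≤ h1, ∀ a, ∃ h' ≤ h, ∃ α, a ≤ α ∧ h' ∈ D α) ∧
      ∀ h ≤ h1, ∀ α β, α < β → h ∈ D α → h ∈ D β → ∃ h' ≤ h, ∃ i, rk i = r0 ∧ ∃ a ≤ a0 i,
        ∃ e ≤ e0 i, ∃ w ∈ V m0, ∃ w' ∈ V m0, (a, e, h') ∈ T i (α, w) (β, w') := by
  classical
  -- upper bounds
  have hσ : ∀ x : PK K Om, ∃ σ : La Om lam, ∀ a : xL lam x, a.1 < σ := by
    intro x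
    obtain ⟨b, hb⟩ := hbd (xL lam x) (fun a => a.1) (by
      refine (mk_le_of_injective (f := fun a : xL lam x => (⟨a.1.1, a.2⟩ : x.1)) ?_).trans
        (x.2.le.trans hKlam)
      intro a b h
      exact Subtype.ext (Subtype.ext (Subtype.mk.inj h)))
    exact ⟨b, hb⟩
  choose σ hσ using hσ
  let DT : Type := Σ i : I, A i × E i × ℕ × Set (La Om lam)
  let Φ : PK K Om → DT → Set Bq := fun x d => {h | d.2.1 ≤ a0 d.1 ∧ d.2.2.1 ≤ e0 d.1 ∧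
    (∀ α ∈ d.2.2.2.2, α.1 ∈ x.1) ∧ (∀ b : xL lam x, ∃ α ∈ d.2.2.2.2, b.1 ≤ α) ∧
    ∀ α ∈ d.2.2.2.2, ∃ w ∈ V d.2.2.2.1,
      (d.2.1, d.2.2.1, h) ∈ T d.1 (α, w) (σ x, w0)}
  have hΦd : ∀ x d, Down (Φ x d) := by
    rintro x d h ⟨h1, h2, h3, h4, h5⟩ h' hh
    refine ⟨h1, h2, h3, h4, fun α hα => ?_⟩
    obtain ⟨w, hw, h6⟩ := h5 α hα
    exact ⟨w, hw, ((hT _).rg _ _).dn _ h6 _ ⟨le_rfl, le_rfl, hh⟩⟩
  -- the main construction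
  have hmain : ∀ x : PK K Om, Good lam A E x → ∀ h : Bq, ∃ h' ≤ h, ∃ d, h' ∈ Φ x d := by
    rintro x ⟨hne, i, ⟨mu, hmu, hmuK, hx, hE⟩, hcof⟩ h
    obtain ⟨⟨e, h'⟩, hq, h1⟩ := (hE.prod (hB.mono hmuK)).all hmu hx (e0 i, h)
      (fun α q => ∃ a ≤ a0 i, ∃ w, (a, q.1, q.2) ∈ T i (α.1, w) (σ x, w0)) (by
      rintro α p q hq ⟨a, ha, w, h2⟩
      exact ⟨a, ha, w, ((hT _).rg _ _).dn _ h2 _ ⟨le_rfl, hq.1, hq.2⟩⟩) (by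
      rintro α ⟨e, h⟩ hp
      obtain ⟨⟨a', e', h'⟩, hq, y, hy, h2⟩ := (hT i).ex (a0 i, e, h) (σ x, w0) α.1 (hσ x α)
      refine ⟨(e', h'), hq.2, a', hq.1, y.2, ?_⟩
      rw [← hy]
      exact h2)
    choose a ha w hw using h1
    choose m hm using fun α => hV (w α)
    have h2 : ∃ am : A i × ℕ, ∀ b : xL lam x, ∃ α, (a α, m α) = am ∧ b ≤ α := by
      by_contra hcon
      push Not at hcon
      choose f hf using hcon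
      obtain ⟨b, hb⟩ := hcof f
      exact absurd (hb (a b, m b)) (not_lt.2 (hf (a b, m b) b rfl).le)
    obtain ⟨⟨a1, m1⟩, h3⟩ := h2
    refine ⟨h', hq.2, ⟨i, a1, e, m1, {α | ∃ α' : xL lam x, (a α', m α') = (a1, m1) ∧
      α'.1 = α}⟩, ?_, hq.1, ?_, ?_, ?_⟩
    · obtain ⟨b⟩ := hne
      obtain ⟨α, h4, _⟩ := h3 b
      exact (Prod.mk.inj h4).1 ▸ ha α
    · rintro α ⟨α', _, rfl⟩
      exact α'.2
    · intro b
      obtain ⟨α, h4, h5⟩ := h3 b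
      exact ⟨α.1, ⟨α, h4, rfl⟩, h5⟩
    · rintro α ⟨α', h4, rfl⟩
      obtain ⟨h5, h6⟩ := Prod.mk.inj h4
      refine ⟨w α', h6 ▸ hm α', ?_⟩
      change (a1, e, h') ∈ _
      rw [← h5]
      exact hw α'
  -- names
  choose F hF1 hF2 hF3 hF4 using fun x => exists_mix (Φ x) (hΦd x)
  have h5 : h0 ∈ U.al fun x => {h | ∃ t : ℕ × ℕ, h ∈ {h | ∃ d : DT, d.2.2.2.1 = t.1 ∧
      rk d.1 = t.2 ∧ h ∈ F x d}} := by
    refine U.mono h0 le_rfl _ _ (fun x p hp q hq => hp) hgood fun x g' _ hg => ?_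
    obtain ⟨g2, hg2, d, hd⟩ := hF4 x g' (fun q _ => hmain x hg q) g' le_rfl
    exact ⟨g2, hg2, (d.2.2.2.1, rk d.1), d, rfl, rfl, hd⟩
  obtain ⟨h1, hh1, ⟨m0, r0⟩, h6⟩ := U.cover hK le_rfl (ι := ℕ × ℕ) (by
    simpa using hKω) _ (by
    rintro t x p ⟨d, hd1, hd2, hd3⟩ q hq
    exact ⟨d, hd1, hd2, hF1 x d p hd3 q hq⟩) h5
  have hdn : ∀ (α : La Om lam) (x : PK K Om), Down {h | ∃ d : DT, d.2.2.2.1 = m0 ∧
      rk d.1 = r0 ∧ h ∈ F x d ∧ α ∈ d.2.2.2.2} := by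
    rintro α x p ⟨d, hd1, hd2, hd3, hd4⟩ q hq
    exact ⟨d, hd1, hd2, hF1 x d p hd3 q hq, hd4⟩
  have hdn' : ∀ (x : PK K Om), Down {h | ∃ d : DT, d.2.2.2.1 = m0 ∧
      rk d.1 = r0 ∧ h ∈ F x d} := by
    rintro x p ⟨d, hd1, hd2, hd3⟩ q hq
    exact ⟨d, hd1, hd2, hF1 x d p hd3 q hq⟩
  refine ⟨h1, hh1, m0, r0, fun α => U.al fun x => {h | ∃ d : DT, d.2.2.2.1 = m0 ∧
      rk d.1 = r0 ∧ h ∈ F x d ∧ α ∈ d.2.2.2.2}, fun α => (U.rg _).dn, ?_, ?_⟩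
  · intro h hh a
    have hhh := hh.trans hh1
    -- almost all `x` contain `a`
    have h7 : h ∈ U.al fun x => {g | ∃ c ∈ x.1, g ∈ {g | ∃ hc : #(Iio c) ≤ lam,
        a ≤ (⟨c, hc⟩ : La Om lam) ∧ ∃ d : DT, d.2.2.2.1 = m0 ∧
        rk d.1 = r0 ∧ g ∈ F x d ∧ (⟨c, hc⟩ : La Om lam) ∈ d.2.2.2.2}} := by
      refine U.mono' hhh (fun x => ?_) (U.and hK hhh hdn' (fun x p hp q hq => hp) (U.dn h6 hh)
        (U.fine h hhh a.1)) fun x g _ hg => ?_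
      · rintro p ⟨hp, hp'⟩ q hq
        exact ⟨hdn' x p hp q hq, hp'⟩
      · obtain ⟨⟨d, hd1, hd2, hd3⟩, ha⟩ := hg
        obtain ⟨_, _, h8, h9, _⟩ := hF2 x d hd3
        obtain ⟨α, hα, hα'⟩ := h9 ⟨a, ha⟩
        exact ⟨α.1, h8 α hα, α.2, hα', d, hd1, hd2, hd3, hα⟩
    obtain ⟨h', hh', c, h8⟩ := U.normal h hhh (fun c x => {g | ∃ hc : #(Iio c) ≤ lam,
        a ≤ (⟨c, hc⟩ : La Om lam) ∧ ∃ d : DT, d.2.2.2.1 = m0 ∧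
        rk d.1 = r0 ∧ g ∈ F x d ∧ (⟨c, hc⟩ : La Om lam) ∈ d.2.2.2.2}) (by
      rintro c x p ⟨hc, h8, d, hd1, hd2, hd3, hd4⟩ q hq
      exact ⟨hc, h8, d, hd1, hd2, hF1 x d p hd3 q hq, hd4⟩) h7
    have hdn2 : ∀ x : PK K Om, Down {g : Bq | ∃ hc : #(Iio c) ≤ lam,
        a ≤ (⟨c, hc⟩ : La Om lam) ∧ ∃ d : DT, d.2.2.2.1 = m0 ∧
        rk d.1 = r0 ∧ g ∈ F x d ∧ (⟨c, hc⟩ : La Om lam) ∈ d.2.2.2.2} := by
      rintro x p ⟨hc, h8, d, hd1, hd2, hd3, hd4⟩ q hq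
      exact ⟨hc, h8, d, hd1, hd2, hF1 x d p hd3 q hq, hd4⟩
    obtain ⟨_, _, _, hc, hac, _⟩ := U.ne h' (hh'.trans hhh) _ hdn2 h8
    refine ⟨h', hh', ⟨c, hc⟩, hac, U.mono' (hh'.trans hhh) hdn2 h8 fun x g _ hg => ?_⟩
    obtain ⟨_, _, d, h9⟩ := hg
    exact ⟨d, h9⟩
  · intro h hh α β hαβ hα hβ
    have hhh := hh.trans hh1
    obtain ⟨h', hh', x, ⟨d, hd1, hd2, hd3, hd4⟩, d', hd1', hd2', hd3', hd4'⟩ := U.ne h hhh _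
      (fun x => by
        rintro p ⟨hp, hp'⟩ q hq
        exact ⟨hdn α x p hp q hq, hdn β x p hp' q hq⟩)
      (U.and hK hhh (hdn α) (hdn β) hα hβ)
    have := hF3 x d d' h' hd3 hd3'
    subst this
    obtain ⟨h7, h8, _, _, h9⟩ := hF2 x d hd3
    obtain ⟨w, hw, h10⟩ := h9 α hd4
    obtain ⟨w', hw', h11⟩ := h9 β hd4'
    rw [hd1] at hw hw'
    exact ⟨h', hh', d.1, hd2, d.2.1, h7, d.2.2.1, h8, w, hw, w', hw',
      (hT d.1).cmp _ _ _ _ h10 h11 hαβ⟩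

end

end Run7.h898
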