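import Mathlib
import Pool.Agent.Run7.h898.Col
import Pool.Agent.Run7.h898.Gr
import Pool.Agent.Run7.h898.Dref

set_option autoImplicit false
set_option linter.unusedSectionVars false
set_option linter.unusedVariables false

/-!
# Almost all small sets can be used for the reflection of trees
-/

namespace Run7.h898

open Set Cardinal Pool.Agent.Helper669.Forcing

/-- the setting: a singular limit of inaccessible cardinals above two inaccessible cardinals -/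
structure Stg (Om : Type) (K0 K lam : Cardinal.{0}) (κ : ℕ → Cardinal.{0}) : Prop where
  K0i : Inac K0
  Ki : Inac K
  K0K : K0 < K
  κi : ∀ n, Inac (κ n)
  Kκ : K < κ 0
  mono : StrictMono κ
  lt : ∀ n, κ n < lam
  sup : ∀ μ < lam, ∃ n, μ < κ n
  Om : lam < #Om

theorem Stg.Kκ' {Om : Type} {K0 K lam : Cardinal.{0}} {κ : ℕ → Cardinal.{0}}
    (S : Stg Om K0 K lam κ) (n : ℕ) : K < κ n := S.Kκ.trans_le (S.mono.monotone (Nat.zero_le n))

theorem Stg.Klam {Om : Type} {K0 K lam : Cardinal.{0}} {κ : ℕ → Cardinal.{0}}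
    (S : Stg Om K0 K lam κ) : K < lam := S.Kκ.trans (S.lt 0)

theorem Stg.lam0 {Om : Type} {K0 K lam : Cardinal.{0}} {κ : ℕ → Cardinal.{0}}
    (S : Stg Om K0 K lam κ) : ℵ₀ ≤ lam := S.Ki.unc.le.trans S.Klam.le

/-- the possible sizes of traces -/
def Idx (K0 K π : Cardinal.{0}) : Prop :=
  ∃ ν, K0 ≤ ν ∧ ν ^ ℵ₀ ≤ ν ∧ ν ≤ π ∧ π ≤ ⨆ n : ℕ, Order.succ^[n] ν ∧ π < K

/-- the exhaustion of `sg Om lam` -/
def Vs (Om : Type) [LinearOrder Om] [WellFoundedLT Om] (lam : Cardinal.{0})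
    (κ : ℕ → Cardinal.{0}) (n : ℕ) : Set (sg Om lam) := {w | sz w.1 < κ n}

section

variable {J : Type} {Om : Type} [LinearOrder Om] [WellFoundedLT Om] {lo hi : J → Cardinal.{0}}
  {K0 K lam : Cardinal.{0}} {κ : ℕ → Cardinal.{0}} (S : Stg Om K0 K lam κ)

include S in
theorem Vs_ex (w : sg Om lam) : ∃ n, w ∈ Vs Om lam κ n := S.sup _ w.2

theorem mk_Vs (n : ℕ) : #(Vs Om lam κ n) ≤ κ n :=
  (mk_le_of_injective (f := fun w : Vs Om lam κ n => (⟨w.1.1, w.2⟩ : sg Om (κ n)))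
    fun a b h => Subtype.ext (Subtype.ext (Subtype.mk.inj h))).trans (mk_sg_le Om (κ n))

include S in
theorem bd_La' : Bd lam (La Om lam) := bd_La S.lam0 S.Om

theorem succ_iter_mono {c d : Cardinal.{0}} (h : c ≤ d) (n : ℕ) :
    Order.succ^[n] c ≤ Order.succ^[n] d := by
  induction n with
  | zero => exact h
  | succ n ih =>
    rw [Function.iterate_succ_apply', Function.iterate_succ_apply']
    exact Order.succ_le_succ ih

include S in
theorem ev_good (hlo : ∀ j, κ 0 ≤ lo j) (fc : ℕ → J) (hfl : ∀ n, lo (fc n) = κ n)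
    (hfh : ∀ n, hi (fc n) = κ (n + 1)) (GR : Gr (Bb Om lo hi) κ) {h0 : Bb Om lo hi}
    (U : AU (Bb Om lo hi) K Om h0) : ev U h0 fun x => Idx K0 K #(tr x lam) ∧
      #(xL lam x) ≤ Order.succ #(tr x lam) ∧ Nonempty (xL lam x) ∧
      ∀ A : Type, #A ≤ #(tr x lam) → ∀ f : A × ℕ → xL lam x, ∃ b, ∀ j, f j < b := by
  classical
  have hK : ℵ₀ < K := S.Ki.unc
  have hK' := hK.le
  have hloK : ∀ j, K ≤ lo j := fun j => S.Kκ.le.trans (hlo j)
  have hDC : DC K (Bb Om lo hi) := DC.pi fun j => dc_Cb.mono ((hloK j).trans (lt_sl _).le)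
  have hDω : DC ℵ₀ (Bb Om lo hi) := hDC.mono hK'
  have hsl : ∀ n, sl (κ n) = Order.succ (κ n) := fun n => sl_eq (S.κi n).unc.le
  have hs2 : ∀ n, Order.succ (Order.succ (κ n)) < lam := by
    intro n
    refine lt_of_le_of_lt ?_ (S.lt (n + 1))
    have h1 : Order.succ (κ n) ≤ κ (n + 1) := Order.succ_le_of_lt (S.mono (Nat.lt_succ_self n))
    have h2 : Order.succ (κ n) < κ (n + 1) := by
      rw [← hsl n]
      exact (S.κi _).sl_lt (S.mono (Nat.lt_succ_self n))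
    exact Order.succ_le_of_lt h2
  have hOm := S.Om
  -- small ordinals
  have e1 : ev U h0 fun x => ∀ a : sg Om K0, a.1 ∈ x.1 := ev_inter U le_rfl
    ((mk_sg_le Om K0).trans_lt S.K0K) fun a => ev_fine U le_rfl a.1
  -- codes
  have h1 : #(ℕ → sg Om (κ 0)) ≤ #(sg Om (κ 0)) := by
    rw [← Cardinal.power_def, mk_nat, mk_sg Om ((S.lt 0).le.trans hOm.le)]
    exact (S.κi 0).pow_le (S.κi 0).unc
  obtain ⟨cd⟩ := h1
  have e2 := ev_code U hK hDω (fun s => if h : ∀ n, s n ∈ sg Om (κ 0) then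
    (cd fun n => ⟨s n, h n⟩).1 else s 0) (g := h0) le_rfl
  -- successors
  have e3 : ev U h0 fun x => ∀ n, #(tr x (κ (n + 1))) ≤ Order.succ^[3] #(tr x (κ n)) := by
    refine ev_inter U le_rfl (ι := ℕ) (by simpa using hK) fun n => ?_
    have k1 := ev_succ U hK' (g := h0) le_rfl (κ n) ((S.lt n).le.trans hOm.le)
    have k2 := ev_succ U hK' (g := h0) le_rfl (Order.succ (κ n))
      (((Order.le_succ _).trans (hs2 n).le).trans hOm.le)
    have k3 := ev_col U hK hloK (fc n) (by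
      rw [hfl, hsl]
      exact (hs2 n).le.trans hOm.le) (g := h0) le_rfl
    refine ev_mono U le_rfl (ev_and U hK' le_rfl (ev_and U hK' le_rfl k1 k2) k3) fun x hx => ?_
    obtain ⟨⟨⟨_, h2⟩, ⟨_, h3⟩⟩, h4⟩ := hx
    rw [hfl, hfh, hsl] at h4
    have h5 : #(tr x (κ (n + 1))) ≤ Order.succ #(tr x (Order.succ (Order.succ (κ n)))) :=
      tr_le fun a ha ha' => h4 a ha ha'
    change _ ≤ Order.succ (Order.succ (Order.succ _))
    exact h5.trans (Order.succ_le_succ (h3.trans (Order.succ_le_succ h2)))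
  have e4 := ev_succ U hK' (g := h0) le_rfl lam hOm.le
  have e5 := ev_bdd U hK' (sg Om lam) {b | #(Iio b) ≤ lam} (g := h0) le_rfl (by
    intro h hh Φ hΦ1 hΦ2 hΦ3
    obtain ⟨r', hr', b, hb⟩ := GR.reg (Z := Unit) 0 (fun k => (S.κi k).unc.le) (fun k _ => by
      rw [mk_unit]
      exact one_le_aleph0.trans (S.κi k).unc.le) (La := La Om lam) (W := sg Om lam)
      (fun ι f ⟨k, hk⟩ => bd_La' S ι f (hk.trans ((Order.le_succ _).trans (hs2 k).le)))
      (Vs Om lam κ) (Vs_ex S) (fun n => by rw [Nat.zero_add]; exact mk_Vs n)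
      (fun w a => {p | p.2 ∈ Φ w.1 a.1}) (fun w a p hp q hq => hΦ1 _ _ _ hp _ hq.2)
      (fun w a b p hp hq => Subtype.ext (hΦ2 _ _ _ _ hp hq)) ((), h)
    refine ⟨r', hr', b.1, b.2, fun w hw q hq a ha => ?_⟩
    exact hb ⟨w, hw⟩ ((), q) ⟨le_rfl, hq⟩ ⟨a, hΦ3 w a q ha⟩ ha)
  refine ev_mono U le_rfl (ev_and U hK' le_rfl (ev_and U hK' le_rfl (ev_and U hK' le_rfl
    (ev_and U hK' le_rfl e1 e2) e3) e4) e5) fun x hx => ?_
  obtain ⟨⟨⟨⟨h1, h2⟩, h3⟩, ⟨h4, _⟩⟩, h5⟩ := hx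
  have hK0 : K0 ≤ #(tr x (κ 0)) := by
    rw [← mk_sg Om (κ := K0) (((S.K0K.trans (S.Kκ.trans (S.lt 0))).trans hOm).le)]
    refine mk_le_of_injective (f := fun a => ⟨a.1, sg_mono Om (S.K0K.trans S.Kκ).le a.2, h1 a⟩)
      fun a b hab => Subtype.ext (Subtype.mk.inj hab)
  have hω : ℵ₀ ≤ #(tr x (κ 0)) := S.K0i.unc.le.trans hK0
  have hle := tr_mono x (S.lt 0).le
  have hn : ∀ n, #(tr x (κ n)) ≤ Order.succ^[3 * n] #(tr x (κ 0)) := by
    intro n
    induction n with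
    | zero => exact le_rfl
    | succ n ih =>
      refine (h3 n).trans ((succ_iter_mono ih 3).trans ?_)
      rw [← Function.iterate_add_apply]
      rw [show 3 + 3 * n = 3 * (n + 1) by ring]
  have hbdd : BddAbove (range fun n : ℕ => Order.succ^[n] #(tr x (κ 0))) :=
    Cardinal.bddAbove_of_small
  refine ⟨⟨#(tr x (κ 0)), hK0, ?_, hle, ?_, tr_lt x lam⟩, ?_, ?_, ?_⟩
  · have h6 : #(ℕ → tr x (κ 0)) ≤ #(tr x (κ 0)) := by
      refine mk_le_of_injective (f := fun s => ⟨(cd fun n => ⟨(s n).1, (s n).2.1⟩).1,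
        (cd fun n => ⟨(s n).1, (s n).2.1⟩).2, ?_⟩) fun s t hst => ?_
      · have h7 := h2 (fun n => (s n).1) fun n => (s n).2.2
        rw [dif_pos (fun n => (s n).2.1)] at h7
        exact h7
      · have h7 := cd.injective (Subtype.ext (Subtype.mk.inj hst))
        funext n
        have h8 := congrFun h7 n
        exact Subtype.ext (Subtype.mk.inj h8)
    rwa [← Cardinal.power_def, mk_nat] at h6
  · have h6 : #(tr x lam) ≤ #(Σ n : ℕ, tr x (κ n)) := by
      have h7 : ∀ a : tr x lam, ∃ n, a.1 ∈ sg Om (κ n) := fun a => S.sup _ a.2.1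
      choose n hn' using h7
      refine mk_le_of_injective (f := fun a => ⟨n a, a.1, hn' a, a.2.2⟩) fun a b hab => ?_
      simp only [Sigma.mk.injEq] at hab
      obtain ⟨h8, h9⟩ := hab
      have : ∀ {k l : ℕ} (p : tr x (κ k)) (q : tr x (κ l)), k = l → HEq p q → p.1 = q.1 := by
        intro k l p q hkl h
        subst hkl
        rw [eq_of_heq h]
      exact Subtype.ext (this _ _ h8 h9)
    refine h6.trans ?_
    rw [mk_sigma]
    refine (Cardinal.sum_le_sum _ (fun _ => ⨆ n : ℕ, Order.succ^[n] #(tr x (κ 0)))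
      fun n => (hn n).trans (le_ciSup hbdd (3 * n))).trans ?_
    rw [Cardinal.sum_const', mk_nat]
    have h7 : ℵ₀ ≤ ⨆ n : ℕ, Order.succ^[n] #(tr x (κ 0)) := hω.trans (le_ciSup hbdd 0)
    exact mul_le_of_le h7 h7 le_rfl
  · refine mk_le_succ_of_iio fun a => ?_
    refine (mk_le_of_injective (f := fun b : Iio a => (⟨b.1.1.1, b.2, b.1.2⟩ :
      {b // b < a.1.1 ∧ b ∈ x.1})) fun b b' hb => ?_).trans (h4 a.1.1 a.2 a.1.2)
    exact Subtype.ext (Subtype.ext (Subtype.ext (Subtype.mk.inj hb)))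
  · obtain ⟨b, hb, hbx, _⟩ := h5 fun w => ⟨w.1, le_of_lt (mem_sg.1 w.2.1), w.2.2⟩
    exact ⟨⟨b, hb⟩, hbx⟩
  · intro A hA f
    rcases isEmpty_or_nonempty A with hAe | hAn
    · obtain ⟨b, hb, hbx, _⟩ := h5 fun w => ⟨w.1, le_of_lt (mem_sg.1 w.2.1), w.2.2⟩
      exact ⟨⟨⟨b, hb⟩, hbx⟩, fun j => hAe.elim j.1⟩
    · have h6 : #(A × ℕ) ≤ #(tr x lam) := by
        rw [mk_prod, lift_id, lift_id, mk_nat]
        exact mul_le_of_le (hω.trans hle) hA (hω.trans hle)
      obtain ⟨e⟩ := h6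
      obtain ⟨b, hb, hbx, h7⟩ := h5 fun w => ⟨(f (Function.invFun e w)).1.1,
        (f (Function.invFun e w)).1.2, (f (Function.invFun e w)).2⟩
      refine ⟨⟨⟨b, hb⟩, hbx⟩, fun j => ?_⟩
      have h8 := h7 (e j)
      rw [Function.leftInverse_invFun e.injective j] at h8
      exact h8

end

end Run7.h898
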