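import Mathlib
import Pool.Agent.Run7.h898.Bp2
import Pool.Agent.Run7.h898.Refl

set_option autoImplicit false
set_option linter.unusedSectionVars false
set_option linter.unusedVariables false

/-!
# Decompositions of products
-/

namespace Run7.h898

open Set Cardinal Pool.Agent.Helper669.Forcing

section

variable {J J' : Type} {C : J → Type} [∀ j, Preorder (C j)]

theorem exists_ext {ι : J' → J} (hι : Function.Injective ι) (r : ∀ j, C (ι j))
    (u : ∀ j : {j // j ∉ range ι}, C j) :
    ∃ h : ∀ j, C j, (∀ j, h (ι j) = r j) ∧ ∀ j : {j // j ∉ range ι}, h j = u j := by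
  classical
  let e : J' ≃ range ι := Equiv.ofInjective ι hι
  refine ⟨fun j => if h : j ∈ range ι then
    Equiv.piCongrLeft (fun j : range ι => C j.1) e r ⟨j, h⟩ else u ⟨j, h⟩, fun j => ?_,
    fun j => ?_⟩
  · have h1 : ι j ∈ range ι := ⟨j, rfl⟩
    simp only [dif_pos h1]
    exact Equiv.piCongrLeft_apply_apply (fun j : range ι => C j.1) e r j
  · simp only [dif_neg j.2]

/-- splitting along an injection -/
noncomputable def sp {ι : J' → J} (hι : Function.Injective ι) :
    (∀ j, C j) ≃o (∀ j, C (ι j)) × (∀ j : {j // j ∉ range ι}, C j) where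
  toFun h := (fun j => h (ι j), fun j => h j.1)
  invFun p := (exists_ext hι p.1 p.2).choose
  left_inv h := by
    obtain ⟨h1, h2⟩ := (exists_ext hι (fun j => h (ι j)) fun j => h j.1).choose_spec
    funext j
    by_cases hj : j ∈ range ι
    · obtain ⟨j', rfl⟩ := hj
      exact h1 j'
    · exact h2 ⟨j, hj⟩
  right_inv p := by
    obtain ⟨h1, h2⟩ := (exists_ext hι p.1 p.2).choose_spec
    exact Prod.ext (funext h1) (funext h2)
  map_rel_iff' := by
    intro p q
    constructor
    · intro h j
      by_cases hj : j ∈ range ι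
      · obtain ⟨j', rfl⟩ := hj
        exact h.1 j'
      · exact h.2 ⟨j, hj⟩
    · intro h
      exact ⟨fun j => h _, fun j => h _⟩

/-- splitting into three parts -/
noncomputable def sp3 (lvl : J → ℕ) (k : ℕ) :
    (∀ j, C j) ≃o (∀ j : {j // lvl j < k}, C j) × (∀ j : {j // lvl j = k}, C j) ×
      (∀ j : {j // k < lvl j}, C j) where
  toFun h := (fun j => h j.1, fun j => h j.1, fun j => h j.1)
  invFun p := fun j => if h1 : lvl j < k then p.1 ⟨j, h1⟩ else
    if h2 : lvl j = k then p.2.1 ⟨j, h2⟩ else p.2.2 ⟨j, by omega⟩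
  left_inv h := by
    funext j
    by_cases h1 : lvl j < k
    · simp only [dif_pos h1]
    · by_cases h2 : lvl j = k
      · simp only [dif_neg h1, dif_pos h2]
      · simp only [dif_neg h1, dif_neg h2]
  right_inv p := by
    obtain ⟨s, b, g⟩ := p
    refine Prod.ext (funext fun j => ?_) (Prod.ext (funext fun j => ?_) (funext fun j => ?_))
    · simp only [dif_pos j.2]
    · have h1 : ¬ lvl j.1 < k := by rw [j.2]; exact lt_irrefl _
      simp only [dif_neg h1, dif_pos j.2]
    · have h1 : ¬ lvl j.1 < k := not_lt.2 j.2.le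
      have h2 : ¬ lvl j.1 = k := j.2.ne'
      simp only [dif_neg h1, dif_neg h2]
  map_rel_iff' := by
    intro p q
    constructor
    · intro h j
      rcases lt_trichotomy (lvl j) k with h1 | h1 | h1
      · exact h.1 ⟨j, h1⟩
      · exact h.2.1 ⟨j, h1⟩
      · exact h.2.2 ⟨j, h1⟩
    · intro h
      exact ⟨fun j => h _, fun j => h _, fun j => h _⟩

/-- splitting by a predicate -/
noncomputable def sp2 (p : J → Prop) :
    (∀ j, C j) ≃o (∀ j : {j // p j}, C j) × (∀ j : {j // ¬ p j}, C j) := by
  classical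
  exact {
    toEquiv := Equiv.piEquivPiSubtypeProd p C
    map_rel_iff' := by
      intro a b
      constructor
      · intro h j
        by_cases hj : p j
        · exact h.1 ⟨j, hj⟩
        · exact h.2 ⟨j, hj⟩
      · intro h
        exact ⟨fun j => h j.1, fun j => h j.1⟩ }

theorem sp2_fst (p : J → Prop) (h : ∀ j, C j) (j : {j // p j}) : (sp2 p h).1 j = h j := rfl

theorem sp2_snd (p : J → Prop) (h : ∀ j, C j) (j : {j // ¬ p j}) : (sp2 p h).2 j = h j := rfl

end

section

variable {P Q Q' : Type} [Preorder P] [Preorder Q] [Preorder Q'] {K X : Type} [LinearOrder K]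

theorem Pj.iso (e : P ≃o Q) : Pj e where
  mono q q' h := e.monotone h
  lift q p hp := ⟨e.symm p, by
    rw [OrderIso.symm_apply_le]
    exact hp, by rw [e.apply_symm_apply]⟩

theorem Pj.comp {π : P → Q} {ρ : Q → Q'} (h : Pj π) (h' : Pj ρ) : Pj fun p => ρ (π p) where
  mono q q' hq := h'.mono _ _ (h.mono _ _ hq)
  lift q p hp := by
    obtain ⟨q1, hq1, h1⟩ := h'.lift (π q) p hp
    obtain ⟨q2, hq2, h2⟩ := h.lift q q1 hq1
    exact ⟨q2, hq2, (h'.mono _ _ h2).trans h1⟩

theorem TL.pb {π : Q → P} (h : Pj π) {R : K × X → K × X → Set P} (hR : TL R) :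
    TL fun x y => π ⁻¹' R x y where
  rg x y := h.rg (hR.rg x y)
  lt x y p hp := hR.lt x y _ hp
  tr x y z p hp hp' := hR.tr x y z _ hp hp'
  cmp x y z p hp hp' := hR.cmp x y z _ hp hp'
  unq x y z p hp hp' := hR.unq x y z _ hp hp'

/-- a branch of the tree, transported by an isomorphism -/
theorem Bch.iso (e : P ≃o Q) {R : K × X → K × X → Set Q} {p : P} {B : K × X → Set P}
    (h : Bch (fun x y => e ⁻¹' R x y) p B) : Bch R (e p) fun x => {q | e.symm q ∈ B x} where
  dn x q hq q' hq' := h.dn x _ hq _ (e.symm.monotone hq')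
  ch x y q hq hx hy hxy := by
    have h1 := h.ch x y (e.symm q) (by rw [OrderIso.symm_apply_le]; exact hq) hx hy hxy
    change e (e.symm q) ∈ R x y at h1
    rwa [e.apply_symm_apply] at h1
  eq x y q hq hx hy hxy := h.eq x y (e.symm q) (by rw [OrderIso.symm_apply_le]; exact hq) hx hy hxy
  un a q hq := by
    obtain ⟨r, hr, x, hx, h1⟩ := h.un a (e.symm q) (by rw [OrderIso.symm_apply_le]; exact hq)
    refine ⟨e r, by rw [← OrderIso.le_symm_apply]; exact hr, x, hx, ?_⟩
    change e.symm (e r) ∈ B x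
    rwa [e.symm_apply_apply]

end

end Run7.h898
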