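import Mathlib
import Pool.Agent.Run7.h898.Iso

set_option autoImplicit false
set_option linter.unusedSectionVars false
set_option linter.unusedVariables false

/-!
# The tree property after a product of collapses: the family of counterexamples
-/

namespace Run7.h898

open Set Cardinal Pool.Agent.Helper669.Forcing

/-- in the extension by `P` the trees have branches -/
def TPF (Om : Type) [LinearOrder Om] [WellFoundedLT Om] (lam : Cardinal.{0}) (P : Type)
    [Preorder P] : Prop :=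
  ∀ T : La Om lam × sg Om lam → La Om lam × sg Om lam → Set P, FT T → ∀ p, ∃ q ≤ p, ∃ B,
    Bch T q B

/-- admissible families of blocks -/
structure Adm (K : Cardinal.{0}) (κ : ℕ → Cardinal.{0}) {J : Type} (lo hi : J → Cardinal.{0}) :
    Prop where
  cnt : #J ≤ ℵ₀
  kl : ∀ j, K ≤ lo j
  lh : ∀ j, lo j < hi j
  bd : ∀ j, ∃ n, hi j ≤ κ n
  ex : ∃ n0, ∀ n ≥ n0, ∀ j, hi j ≤ κ n ∨ κ n ≤ lo j

/-- a counterexample for `π` -/
structure Bad (Om : Type) [LinearOrder Om] [WellFoundedLT Om] (K lam : Cardinal.{0})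
    (κ : ℕ → Cardinal.{0}) (π : Cardinal.{0}) where
  A : Type
  [iA : Preorder A]
  hA : #A ≤ π
  J : Type
  lo : J → Cardinal.{0}
  hi : J → Cardinal.{0}
  adm : Adm K κ lo hi
  T : La Om lam × sg Om lam → La Om lam × sg Om lam → Set (A × Cb Om π K × Bb Om lo hi)
  hT : FT T
  p : A × Cb Om π K × Bb Om lo hi
  no : ∀ q ≤ p, ∀ B, ¬ Bch T q B

attribute [instance] Bad.iA

/-- `π` is good for the sequence `κ` -/
def GoodAt (Om : Type) [LinearOrder Om] [WellFoundedLT Om] (K lam : Cardinal.{0})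
    (κ : ℕ → Cardinal.{0}) (π : Cardinal.{0}) : Prop :=
  ∀ (A : Type) [Preorder A], #A ≤ π → ∀ (J : Type) (lo hi : J → Cardinal.{0}),
    Adm K κ lo hi → TPF Om lam (A × Cb Om π K × Bb Om lo hi)

theorem exists_bad {Om : Type} [LinearOrder Om] [WellFoundedLT Om] {K lam : Cardinal.{0}}
    {κ : ℕ → Cardinal.{0}} {π : Cardinal.{0}} (h : ¬ GoodAt Om K lam κ π) :
    Nonempty (Bad Om K lam κ π) := by
  unfold GoodAt TPF at h
  push Not at h
  obtain ⟨A, iA, hA, J, lo, hi, adm, T, hT, p, no⟩ := h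
  exact ⟨⟨A, hA, J, lo, hi, adm, T, hT, p, no⟩⟩

section

variable {Om : Type} [LinearOrder Om] [WellFoundedLT Om] {K0 K lam : Cardinal.{0}}
  {κ : ℕ → Cardinal.{0}}

/-- the index set -/
abbrev Ix (Om : Type) [LinearOrder Om] [WellFoundedLT Om] (K0 K : Cardinal.{0}) : Type :=
  {a : Om // Idx K0 K (sz a)}

variable (D : ∀ i : Ix Om K0 K, Bad Om K lam κ (sz i.1))

/-- the level from which on the blocks fit -/
noncomputable def Nn (i : Ix Om K0 K) : ℕ := (D i).adm.ex.choose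

theorem Nn_spec (i : Ix Om K0 K) (n : ℕ) (hn : Nn D i ≤ n) (j : (D i).J) :
    (D i).hi j ≤ κ n ∨ κ n ≤ (D i).lo j := (D i).adm.ex.choose_spec n hn j

/-- all blocks -/
abbrev Jh : Type := ℕ ⊕ Σ i, {j : (D i).J // κ (Nn D i) ≤ (D i).lo j}

/-- lower ends -/
def loh : Jh D → Cardinal.{0}
  | Sum.inl n => κ n
  | Sum.inr p => (D p.1).lo p.2.1

/-- upper ends -/
def hih : Jh D → Cardinal.{0}
  | Sum.inl n => κ (n + 1)
  | Sum.inr p => (D p.1).hi p.2.1

/-- the big product -/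
abbrev BB : Type := Bb Om (loh D) (hih D)

/-- the blocks of `i` -/
def iot (i : Ix Om K0 K) (j : {j : (D i).J // κ (Nn D i) ≤ (D i).lo j}) : Jh D := Sum.inr ⟨i, j⟩

theorem iot_inj (i : Ix Om K0 K) : Function.Injective (iot D i) := by
  intro j j' h
  have h1 := Sum.inr.inj h
  exact eq_of_heq (Sigma.mk.inj h1).2

/-- the lower blocks of `i` -/
abbrev Lw (i : Ix Om K0 K) : Type :=
  ∀ j : {j : (D i).J // ¬ κ (Nn D i) ≤ (D i).lo j}, Cb Om ((D i).lo j.1) ((D i).hi j.1)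

/-- the upper blocks of `i` -/
abbrev Hg (i : Ix Om K0 K) : Type :=
  ∀ j : {j : (D i).J // κ (Nn D i) ≤ (D i).lo j}, Cb Om ((D i).lo j.1) ((D i).hi j.1)

/-- the forcing below the critical point -/
abbrev Eh (i : Ix Om K0 K) : Type := Cb Om (sz i.1) K × Lw D i

/-- the rest of the blocks -/
abbrev Rs (i : Ix Om K0 K) : Type :=
  ∀ j : {j : Jh D // j ∉ range (iot D i)}, Cb Om (loh D j.1) (hih D j.1)

/-- the decomposition of the big product -/
noncomputable def spl (i : Ix Om K0 K) : BB D ≃o Hg D i × Rs D i :=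
  sp (C := fun j => Cb Om (loh D j) (hih D j)) (iot_inj D i)

/-- the decomposition of the forcing of `i` -/
noncomputable def flat (i : Ix Om K0 K) : (((D i).A × Eh D i) × Hg D i) ≃o
    ((D i).A × Cb Om (sz i.1) K × Bb Om (D i).lo (D i).hi) where
  toFun p := (p.1.1, p.1.2.1, (sp2 (C := fun j => Cb Om ((D i).lo j) ((D i).hi j))
    (fun j => κ (Nn D i) ≤ (D i).lo j)).symm (p.2, p.1.2.2))
  invFun p := ((p.1, p.2.1, (sp2 (C := fun j => Cb Om ((D i).lo j) ((D i).hi j))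
    (fun j => κ (Nn D i) ≤ (D i).lo j) p.2.2).2),
    (sp2 (C := fun j => Cb Om ((D i).lo j) ((D i).hi j))
    (fun j => κ (Nn D i) ≤ (D i).lo j) p.2.2).1)
  left_inv p := by
    simp
  right_inv p := by
    simp
  map_rel_iff' := by
    intro p q
    simp only [Equiv.coe_fn_mk, Prod.mk_le_mk, OrderIso.le_iff_le]
    constructor
    · rintro ⟨h1, h2, h3, h4⟩
      exact ⟨⟨h1, h2, h4⟩, h3⟩
    · rintro ⟨⟨h1, h2, h4⟩, h3⟩
      exact ⟨h1, h2, h3, h4⟩

/-- the projection to the forcing of `i` -/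
noncomputable def prj (i : Ix Om K0 K) (p : (D i).A × Eh D i × BB D) :
    (D i).A × Cb Om (sz i.1) K × Bb Om (D i).lo (D i).hi :=
  flat D i ((p.1, p.2.1), (spl D i p.2.2).1)

theorem Pj_prj (i : Ix Om K0 K) : Pj (prj D i) := by
  have h : Pj fun p : (D i).A × Eh D i × BB D => ((p.1, p.2.1), (spl D i p.2.2).1) := by
    refine ⟨fun q q' hq => ⟨⟨hq.1, hq.2.1⟩, ((spl D i).monotone hq.2.2).1⟩, fun q p hp => ?_⟩
    refine ⟨(p.1.1, p.1.2, (spl D i).symm (p.2, (spl D i q.2.2).2)), ⟨hp.1.1, hp.1.2, ?_⟩, ?_⟩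
    · change (spl D i).symm (p.2, (spl D i q.2.2).2) ≤ q.2.2
      rw [OrderIso.symm_apply_le]
      exact ⟨hp.2, le_rfl⟩
    · simp only [OrderIso.apply_symm_apply]
      exact le_rfl
  exact h.comp (Pj.iso (flat D i))

variable (S : Stg Om K0 K lam κ)

include S in
theorem mk_Ix : #(Ix Om K0 K) ≤ K := by
  refine (mk_le_of_injective (f := fun a : Ix Om K0 K => (⟨a.1, ?_⟩ : sg Om K))
    fun a b h => Subtype.ext (Subtype.mk.inj h)).trans (mk_sg_le Om K)
  obtain ⟨_, _, _, _, _, h⟩ := a.2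
  exact h

include S in
theorem mk_Jh : #(Jh D) ≤ K := by
  have hK := S.Ki.unc.le
  rw [mk_sum, lift_id, lift_id, mk_nat, mk_sigma]
  refine add_le_of_le hK hK ?_
  refine (Cardinal.sum_le_sum _ (fun _ => ℵ₀) fun i => (mk_subtype_le _).trans
    (D i).adm.cnt).trans ?_
  rw [Cardinal.sum_const']
  exact mul_le_of_le hK (mk_Ix S) hK

include S in
theorem exists_lvl (j : Jh D) : ∃ k, κ k ≤ loh D j ∧ hih D j ≤ κ (k + 1) := by
  classical
  rcases j with n | ⟨i, j, hj⟩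
  · exact ⟨n, le_rfl, le_rfl⟩
  · have hex := (D i).adm.bd j
    have h1 := Nat.find_spec hex
    have h2 : Nn D i < Nat.find hex := by
      by_contra hcon
      push Not at hcon
      have h3 := h1.trans (S.mono.monotone hcon)
      exact absurd ((D i).adm.lh j) (not_lt.2 (h3.trans hj))
    obtain ⟨k, hk⟩ : ∃ k, Nat.find hex = k + 1 := ⟨Nat.find hex - 1, by omega⟩
    refine ⟨k, ?_, hk ▸ h1⟩
    have h3 : ¬ (D i).hi j ≤ κ k := Nat.find_min hex (by omega)
    exact (Nn_spec D i k (by omega) j).resolve_left h3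

include S in
theorem loh_lt (j : Jh D) : loh D j < hih D j := by
  rcases j with n | ⟨i, j, hj⟩
  · exact S.mono (Nat.lt_succ_self n)
  · exact (D i).adm.lh j

include S in
theorem mk_blocks {J' : Type} (lo hi : J' → Cardinal.{0}) (k : ℕ) (hJ : #J' < κ k)
    (h1 : ∀ j, lo j < hi j) (h2 : ∀ j, hi j ≤ κ k) : #(Bb Om lo hi) ≤ κ k :=
  mk_pi_le (S.κi k) hJ fun j => mk_Cb_le (S.κi k) ((h1 j).trans_le (h2 j)) (h2 j)

include S in
theorem mk_AE (i : Ix Om K0 K) : #((D i).A × Eh D i) ≤ κ (Nn D i) := by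
  have h0 := (S.κi (Nn D i)).unc.le
  obtain ⟨_, _, _, _, _, hπ⟩ := i.2
  rw [mk_prod, lift_id, lift_id]
  refine mul_le_of_le h0 (((D i).hA.trans hπ.le).trans (S.Kκ' _).le) ?_
  rw [mk_prod, lift_id, lift_id]
  refine mul_le_of_le h0 ((mk_Cb_le S.Ki hπ le_rfl).trans (S.Kκ' _).le) ?_
  exact mk_blocks S (fun j : {j : (D i).J // ¬ κ (Nn D i) ≤ (D i).lo j} => (D i).lo j.1)
    (fun j => (D i).hi j.1) (Nn D i) (((mk_subtype_le _).trans (D i).adm.cnt).trans_lt
      (S.κi _).unc) (fun j => (D i).adm.lh j.1)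
    fun j => (Nn_spec D i _ le_rfl j.1).resolve_right j.2

end

end Run7.h898
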