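import Mathlib
import Pool.Agent.Run7.h898.Clm

set_option autoImplicit false
set_option linter.unusedSectionVars false
set_option linter.unusedVariables false

/-!
# The tree property after a product of collapses
-/

namespace Run7.h898

open Set Cardinal Pool.Agent.Helper669.Forcing

theorem TL.fix {A E B K W X : Type} [Preorder A] [Preorder E] [Preorder B] [LinearOrder K]
    {T : K × W → K × W → Set (A × E × B)} (hT : TL T) (a : A) (e : E) {j : X → W}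
    (hj : Function.Injective j) :
    TL fun x y : K × X => {h : B | (a, e, h) ∈ T (x.1, j x.2) (y.1, j y.2)} where
  rg x y := ⟨fun h hh h' hh' => (hT.rg _ _).dn _ hh _ ⟨le_rfl, le_rfl, hh'⟩, fun h hh =>
    (hT.rg _ _).ds _ fun q hq => by
      obtain ⟨r, hr, h1⟩ := hh q.2.2 hq.2.2
      exact ⟨(q.1, q.2.1, r), ⟨le_rfl, le_rfl, hr⟩, (hT.rg _ _).dn _ h1 _ ⟨hq.1, hq.2.1, le_rfl⟩⟩⟩
  lt x y p hp := hT.lt _ _ _ hp
  tr x y z p hp hp' := hT.tr _ _ _ _ hp hp'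
  cmp x y z p hp hp' h := hT.cmp _ _ _ _ hp hp' h
  unq x y z p hp hp' h := by
    have h1 := hT.unq _ _ _ _ hp hp' h
    exact Prod.ext h (hj (congrArg Prod.snd h1))

section

variable {Om : Type} [LinearOrder Om] [WellFoundedLT Om] {K0 K lam : Cardinal.{0}}
  {κ : ℕ → Cardinal.{0}}

/-- the index set of the narrow system -/
abbrev TTy (D : ∀ i : Ix Om K0 K, Bad Om K lam κ (sz i.1)) (e0 : ∀ i, Eh D i) (r0 : ℕ) : Type :=
  Σ i : {i : Ix Om K0 K // Nn D i = r0},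
    {ae : (D i.1).A × Eh D i.1 // ae.1 ≤ (D i.1).p.1 ∧ ae.2 ≤ e0 i.1}

theorem mk_TTy (D : ∀ i : Ix Om K0 K, Bad Om K lam κ (sz i.1)) (e0 : ∀ i, Eh D i)
    (S : Stg Om K0 K lam κ) {r0 k : ℕ} (hk : r0 ≤ k) : #(TTy D e0 r0) ≤ κ k := by
  have hk0 := (S.κi k).unc.le
  rw [mk_sigma]
  have h1 : ∀ i : {i : Ix Om K0 K // Nn D i = r0},
      #{ae : (D i.1).A × Eh D i.1 // ae.1 ≤ (D i.1).p.1 ∧ ae.2 ≤ e0 i.1} ≤ κ k := by
    intro i
    refine (mk_subtype_le _).trans ((mk_AE D S i.1).trans (S.mono.monotone ?_))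
    rw [i.2]
    exact hk
  refine (Cardinal.sum_le_sum _ (fun _ => κ k) h1).trans ?_
  rw [Cardinal.sum_const']
  exact mul_le_of_le hk0 (((mk_subtype_le _).trans (mk_Ix S)).trans (S.Kκ' k).le) le_rfl

theorem claim (S : Stg Om K0 K lam κ) (hK : IndestructiblySupercompact K)
    (hκ : ∀ n, IndestructiblySupercompact (κ n)) :
    ∃ π, Idx K0 K π ∧ GoodAt Om K lam κ π := by
  classical
  by_contra hcon
  push Not at hcon
  let D : ∀ i : Ix Om K0 K, Bad Om K lam κ (sz i.1) := fun i => (exists_bad (hcon (sz i.1) i.2)).some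
  have hKa := S.Ki.unc.le
  choose lvl hl1 hl2 using exists_lvl D S
  have hlo : ∀ j, κ 0 ≤ loh D j := fun j => (S.mono.monotone (Nat.zero_le _)).trans (hl1 j)
  have hDC : DC K (BB D) := DC.pi fun j =>
    dc_Cb.mono ((S.Kκ.le.trans (hlo j)).trans (lt_sl _).le)
  have hJ : ∀ k, #(Jh D) < κ k := fun k => (mk_Jh D S).trans_lt (S.Kκ' k)
  have hsz : ∀ k j, lvl j < k → hih D j ≤ κ k := fun k j hj =>
    (hl2 j).trans (S.mono.monotone hj)
  have hdc : ∀ k j, ¬ lvl j < k → DC (Order.succ (κ k)) (Cb Om (loh D j) (hih D j)) := fun k j hj =>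
    dc_Cb.mono ((Order.succ_le_succ ((S.mono.monotone (not_lt.1 hj)).trans (hl1 j))).trans
      (le_max_right _ _))
  let GR : Gr (BB D) κ := Gr.pi (C := fun j => Cb Om (loh D j) (hih D j)) lvl
    (fun k => mk_blocks S (fun j : {j // lvl j < k} => loh D j.1) (fun j => hih D j.1) k
      ((mk_subtype_le _).trans_lt (hJ k)) (fun j => loh_lt D S j.1) fun j => hsz k j.1 j.2) hdc
  let h0 : BB D := fun j => match j with
    | Sum.inl n => ⊤
    | Sum.inr p => (D p.1).p.2.2 p.2.1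
  obtain ⟨g0, hg0, ⟨U⟩⟩ := exists_au hK hDC.dcl Om h0
  have hgood := ev_good S hlo Sum.inl (fun n => rfl) (fun n => rfl) GR U
  have hG : g0 ∈ U.al fun x => {_h | Good lam (fun i => (D i).A) (Eh D) x} := by
    refine ev_mono U le_rfl hgood fun x hx => ?_
    obtain ⟨hI, hx1, hne, hb⟩ := hx
    have hπK : #(tr x lam) < K := tr_lt x lam
    obtain ⟨a, ha, _⟩ := exists_iio (hπK.trans (S.Klam.trans S.Om))
    have ha' : sz a = #(tr x lam) := ha
    refine ⟨hne, ⟨a, ha' ▸ hI⟩, ⟨Order.succ (sz a), ?_, ?_, ?_, ?_⟩, ?_⟩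
    · obtain ⟨ν, h1, _, h2, _⟩ := hI
      rw [ha']
      exact (S.K0i.unc.le.trans (h1.trans h2)).trans (Order.le_succ _)
    · rw [ha']
      exact Order.succ_le_of_lt hπK
    · rw [ha']
      exact hx1
    · refine DC.prod (dc_Cb.mono (le_max_right _ _)) (DC.pi fun j => dc_Cb.mono ?_)
      refine le_trans ?_ ((((D ⟨a, ha' ▸ hI⟩).adm.kl j.1).trans (lt_sl _).le))
      rw [ha']
      exact Order.succ_le_of_lt hπK
    · exact hb (D ⟨a, ha' ▸ hI⟩).A ((D ⟨a, ha' ▸ hI⟩).hA.trans ha'.le)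
  have hbd := bd_La' S
  let e0 : ∀ i, Eh D i := fun i => ((D i).p.2.1, (sp2 (C := fun j => Cb Om ((D i).lo j)
    ((D i).hi j)) (fun j => κ (Nn D i) ≤ (D i).lo j) (D i).p.2.2).2)
  have hw0 : Nonempty (sg Om lam) := by
    rw [← mk_ne_zero_iff, mk_sg Om S.Om.le]
    exact (aleph0_pos.trans_le S.lam0).ne'
  obtain ⟨h1, hh1, m0, r0, Dn, hDd, hDu, hDp⟩ := dref hKa S.Ki.unc S.Klam.le hbd hDC U
    (Vs Om lam κ) (Vs_ex S) hw0.some (Nn D) (fun i => FT.pb (Pj_prj D i) (D i).hT)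
    (fun i => (D i).p.1) e0 hG
  let k := max r0 m0
  let e := sp3 (C := fun j => Cb Om (loh D j) (hih D j)) lvl k
  have hk0 := (S.κi k).unc.le
  have hTT : #(TTy D e0 r0) ≤ κ k := mk_TTy D e0 S (le_max_left _ _)
  have hVX : #(Vs Om lam κ m0) ≤ κ k := (mk_Vs m0).trans (S.mono.monotone (le_max_right _ _))
  let Rb : ∀ t : TTy D e0 r0, La Om lam × Vs Om lam κ m0 → La Om lam × Vs Om lam κ m0 → Set (BB D) :=
    fun t x y => {h | (t.2.1.1, t.2.1.2, h) ∈ prj D t.1.1 ⁻¹' (D t.1.1).T (x.1, x.2.1)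
      (y.1, y.2.1)}
  have hRb : ∀ t, TL (Rb t) := fun t => TL.fix (FT.pb (Pj_prj D t.1.1) (D t.1.1).hT).toTL
    t.2.1.1 t.2.1.2 Subtype.val_injective
  have hlt1 : Order.succ (κ k) < κ (k + 1) := by
    have h2 := (S.κi (k + 1)).sl_lt (S.mono (Nat.lt_succ_self k))
    rwa [sl_eq hk0] at h2
  have hGk : DC (κ (k + 1)) (∀ j : {j // k < lvl j}, Cb Om (loh D j.1) (hih D j.1)) :=
    DC.pi fun j => (hdc (k + 1) j.1 (not_lt.2 j.2)).mono (Order.le_succ _)
  obtain ⟨q, hq, t, b, hb⟩ := nsp (S := ∀ j : {j // lvl j < k}, Cb Om (loh D j.1) (hih D j.1))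
    (G := ∀ j : {j // k < lvl j}, Cb Om (loh D j.1) (hih D j.1))
    (lo := fun j : {j // lvl j = k} => loh D j.1) (hi := fun j : {j // lvl j = k} => hih D j.1)
    (κ := κ (k + 1)) (χ := κ k) (S.κi (k + 1)) ((mk_subtype_le _).trans_lt (hJ (k + 1)))
    (fun j => (loh_lt D S j.1).trans_le (hsz _ _ (j.2.trans_lt (Nat.lt_succ_self k))))
    (fun j => hsz _ _ (j.2.trans_lt (Nat.lt_succ_self k))) (S.lt (k + 1)).le hbd hk0 hlt1
    (mk_blocks S (fun j : {j // lvl j < k} => loh D j.1) (fun j => hih D j.1) k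
      ((mk_subtype_le _).trans_lt (hJ k)) (fun j => loh_lt D S j.1) fun j => hsz k j.1 j.2)
    hGk (fun j => by
      have := hl1 j.1
      rwa [j.2] at this) (fun g => exists_au (hκ (k + 1)) hGk.dcl Om g) hTT hVX
    (Rel := fun t x y => e.symm ⁻¹' Rb t x y) (fun t => TL.pb (Pj.iso e.symm) (hRb t))
    (D := fun a => e.symm ⁻¹' Dn a) (fun a p hp p' hp' => hDd a _ hp _ (e.symm.monotone hp'))
    (e h1) (fun p hp a => by
      obtain ⟨h', hh', α, hα, h2⟩ := hDu (e.symm p) (by rw [OrderIso.symm_apply_le]; exact hp) a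
      refine ⟨e h', by rw [← OrderIso.le_symm_apply]; exact hh', α, hα, ?_⟩
      change e.symm (e h') ∈ Dn α
      rwa [e.symm_apply_apply]) (fun p hp α β hαβ hα hβ => by
      obtain ⟨h', hh', i, hi, a, ha, e1, he1, w, hw, w', hw', h2⟩ := hDp (e.symm p)
        (by rw [OrderIso.symm_apply_le]; exact hp) α β hαβ hα hβ
      refine ⟨e h', by rw [← OrderIso.le_symm_apply]; exact hh', ⟨⟨i, hi⟩, (a, e1), ha, he1⟩,
        ⟨w, hw⟩, ⟨w', hw'⟩, ?_⟩
      change e.symm (e h') ∈ Rb _ _ _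
      rw [e.symm_apply_apply]
      exact h2)
  have hb1 := Bch.iso e.symm hb
  set q1 : BB D := e.symm q with hq1
  have hq1h : q1 ≤ h0 := (by
    rw [hq1, OrderIso.symm_apply_le]
    exact hq : q1 ≤ h1).trans (hh1.trans hg0)
  obtain ⟨⟨i, hi⟩, ⟨a, e1⟩, ha, he1⟩ := t
  have hcnt : ∀ (p : {j : (D i).J // κ (Nn D i) ≤ (D i).lo j} → Prop) k, #{j // p j} < κ k :=
    fun p k => ((mk_subtype_le _).trans ((mk_subtype_le _).trans (D i).adm.cnt)).trans_lt
      (S.κi k).unc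
  let GH : Gr (Hg D i) κ := Gr.pi (C := fun j : {j : (D i).J // κ (Nn D i) ≤ (D i).lo j} =>
    Cb Om ((D i).lo j.1) ((D i).hi j.1)) (fun j => lvl (iot D i j))
    (fun k => mk_blocks S (fun j : {j // lvl (iot D i j) < k} => (D i).lo j.1.1)
      (fun j => (D i).hi j.1.1) k (hcnt _ k)
      (fun j => (D i).adm.lh j.1.1) fun j => hsz k (iot D i j.1) j.2)
    fun k j hj => hdc k (iot D i j) hj
  let GU : Gr (Rs D i) κ := Gr.pi (C := fun j : {j : Jh D // j ∉ range (iot D i)} =>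
    Cb Om (loh D j.1) (hih D j.1)) (fun j => lvl j.1)
    (fun k => mk_blocks S (fun j : {j : {j : Jh D // j ∉ range (iot D i)} // lvl j.1 < k} =>
      loh D j.1.1) (fun j => hih D j.1.1) k
      (((mk_subtype_le _).trans (mk_subtype_le _)).trans_lt (hJ k))
      (fun j => loh_lt D S j.1.1) fun j => hsz k j.1.1 j.2)
    fun k j hj => hdc k j.1 hj
  obtain ⟨q2, hq2, b2, hb2⟩ := bp GH GU (T := fun x y => flat D i ⁻¹' (D i).T x y)
    (FT.pb (Pj.iso (flat D i)) (D i).hT) hbd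
    (fun k => by
      refine (Order.succ_le_of_lt (S.mono (Nat.lt_succ_self k))).trans (S.lt (k + 1)).le)
    (fun k => (S.κi k).unc.le) S.mono (fun μ hμ => by
      obtain ⟨n, hn⟩ := S.sup μ hμ
      exact ⟨n, hn.le⟩) (mk_La S.Om).le (Nn D i) (mk_AE D S i) (Vs Om lam κ) (Vs_ex S) mk_Vs
    (z1 := (a, e1)) (r1 := (spl D i q1).1) (u1 := (spl D i q1).2)
    (B := fun x => {p | p.1 ≤ (a, e1) ∧ ∃ hx : x.2 ∈ Vs Om lam κ m0,
      e.symm.symm ((spl D i).symm p.2) ∈ b (x.1, ⟨x.2, hx⟩)}) (by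
    refine ⟨?_, ?_, ?_, ?_⟩
    · rintro x p ⟨h2, hx, h3⟩ p' hp'
      exact ⟨hp'.1.trans h2, hx, hb1.dn _ _ h3 _ ((spl D i).symm.monotone hp'.2)⟩
    · rintro x y p hp ⟨h2, hx, h3⟩ ⟨_, hy, h4⟩ hxy
      have h5 := hb1.ch (x.1, ⟨x.2, hx⟩) (y.1, ⟨y.2, hy⟩) ((spl D i).symm p.2) (by
        rw [OrderIso.symm_apply_le]
        exact hp.2) h3 h4 hxy
      have h6 : prj D i (a, e1, (spl D i).symm p.2) ∈ (D i).T x y := h5
      have h7 : flat D i (p.1, p.2.1) ≤ prj D i (a, e1, (spl D i).symm p.2) := by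
        refine (flat D i).monotone ⟨h2, ?_⟩
        change p.2.1 ≤ (spl D i ((spl D i).symm p.2)).1
        rw [OrderIso.apply_symm_apply]
      exact ((D i).hT.rg x y).dn _ h6 _ h7
    · rintro x y p hp ⟨h2, hx, h3⟩ ⟨_, hy, h4⟩ hxy
      have h5 := hb1.eq (x.1, ⟨x.2, hx⟩) (y.1, ⟨y.2, hy⟩) ((spl D i).symm p.2) (by
        rw [OrderIso.symm_apply_le]
        exact hp.2) h3 h4 hxy
      simp only [Prod.mk.injEq, Subtype.mk.injEq] at h5
      exact Prod.ext h5.1 h5.2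
    · intro α p hp
      obtain ⟨r, hr, x, hx, h2⟩ := hb1.un α ((spl D i).symm p.2) (by
        rw [OrderIso.symm_apply_le]
        exact hp.2)
      refine ⟨(p.1, (spl D i) r), ⟨le_rfl, ?_⟩, (x.1, x.2.1), hx, hp.1, x.2.2, ?_⟩
      · rw [← OrderIso.le_symm_apply]
        exact hr
      · rw [OrderIso.symm_apply_apply]
        exact h2)
  refine (D i).no (flat D i q2) ?_ _ (Bch.iso (flat D i) hb2)
  rw [← OrderIso.le_symm_apply]
  refine hq2.trans ⟨⟨ha, he1⟩, fun j => ?_⟩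
  exact hq1h (iot D i j)

end

end Run7.h898
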