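import Mathlib
import Pool.Agent.Run7.h898.Clm2

set_option autoImplicit false
set_option linter.unusedSectionVars false
set_option linter.unusedVariables false

/-!
# Stationary sets of indices
-/

namespace Run7.h898

open Set Cardinal Pool.Agent.Helper669.Forcing

section

variable {I0 : Type} [LinearOrder I0] [WellFoundedLT I0] {K : Cardinal.{0}}

theorem mk_iic {κ : Cardinal.{0}} (h0 : ℵ₀ ≤ κ) {X : Type} [LinearOrder X] {a : X}
    (h : #(Iio a) ≤ κ) : #(Iic a) ≤ κ := by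
  have e1 : Iic a = insert a (Iio a) := Iio_insert.symm
  rw [e1]
  exact mk_insert_le.trans (add_le_of_le h0 h (one_le_aleph0.trans h0))

/-- the least strict upper bound -/
theorem exists_lub (hK : ℵ₀ ≤ K) (h1 : ∀ a : I0, #(Iio a) ≤ K) (h2 : K < #I0) {ι : Type}
    (hι : #ι ≤ K) (f : ι → I0) : ∃ e : I0, (∀ i, f i < e) ∧ ∀ a < e, ∃ i, a ≤ f i := by
  have h3 : #(⋃ i, Iic (f i) : Set I0) ≤ K := by
    refine (mk_iUnion_le_sum_mk).trans ?_
    refine (Cardinal.sum_le_sum _ (fun _ => K) fun i => mk_iic hK (h1 _)).trans ?_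
    rw [Cardinal.sum_const']
    exact mul_le_of_le hK hι le_rfl
  have h4 : ∃ b : I0, b ∉ (⋃ i, Iic (f i) : Set I0) := by
    by_contra h5
    push Not at h5
    rw [eq_univ_iff_forall.2 h5, mk_univ] at h3
    exact absurd h2 (not_lt.2 h3)
  obtain ⟨b, hb, hmin⟩ := WellFounded.has_min (wellFounded_lt (α := I0))
    {b | b ∉ (⋃ i, Iic (f i) : Set I0)} h4
  refine ⟨b, fun i => ?_, fun a ha => ?_⟩
  · have h5 : b ∉ Iic (f i) := fun h6 => hb (mem_iUnion.2 ⟨i, h6⟩)
    exact not_le.1 h5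
  · by_contra h5
    push Not at h5
    refine hmin a (fun h6 => ?_) ha
    obtain ⟨i, hi⟩ := mem_iUnion.1 h6
    exact absurd hi (not_le.2 (h5 i))

/-- the sequence `c` converges to `i` -/
structure Lim (c : ℕ → I0) (i : I0) : Prop where
  mono : StrictMono c
  lt : ∀ n, c n < i
  cof : ∀ a < i, ∃ n, a < c n

/-- closed points of a function on finite sequences -/
def Clp (F : List (Option I0) → I0) (e : I0) : Prop :=
  ∀ L : List (Option I0), (∀ o ∈ L, ∀ a ∈ o, a < e) → F L < e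

/-- stationary sets -/
def Stat (S : Set I0) : Prop :=
  ∀ F : List (Option I0) → I0, ∃ i ∈ S, ∀ a < i, ∃ e, a < e ∧ e < i ∧ Clp F e

theorem exists_clp (hK : ℵ₀ ≤ K) (h1 : ∀ a : I0, #(Iio a) ≤ K) (h2 : K < #I0)
    (F : List (Option I0) → I0) (a : I0) : ∃ e, a < e ∧ Clp F e := by
  classical
  have h3 : ∀ b : I0, ∃ b', b < b' ∧ ∀ L : List (Option I0), (∀ o ∈ L, ∀ a ∈ o, a ≤ b) →
      F L < b' := by
    intro b
    obtain ⟨e, he, _⟩ := exists_lub hK h1 h2 (ι := Option (List (Option (Iic b)))) (by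
      rw [mk_option]
      refine add_le_of_le hK ?_ (one_le_aleph0.trans hK)
      refine (mk_list_le_max _).trans (max_le hK ?_)
      rw [mk_option]
      exact add_le_of_le hK (mk_iic hK (h1 b)) (one_le_aleph0.trans hK))
      (fun o => o.elim b fun L => F (L.map (Option.map Subtype.val)))
    refine ⟨e, he none, fun L hL => ?_⟩
    have h4 : ∀ L : List (Option I0), (∀ o ∈ L, ∀ a ∈ o, a ≤ b) →
        ∃ L' : List (Option (Iic b)), L'.map (Option.map Subtype.val) = L := by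
      intro L
      induction L with
      | nil => exact fun _ => ⟨[], rfl⟩
      | cons o L ih =>
        intro hL
        obtain ⟨L', hL'⟩ := ih fun o' ho' => hL o' (List.mem_cons_of_mem _ ho')
        cases o with
        | none => exact ⟨none :: L', by simp [hL']⟩
        | some c =>
          have hc : c ≤ b := hL (some c) (List.mem_cons_self) c rfl
          exact ⟨some ⟨c, hc⟩ :: L', by simp [hL']⟩
    obtain ⟨L', hL'⟩ := h4 L hL
    rw [← hL']
    exact he (some L')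
  choose nx hn1 hn2 using h3
  let b : ℕ → I0 := fun n => nx^[n] a
  have hb : ∀ n, b (n + 1) = nx (b n) := fun n => Function.iterate_succ_apply' nx n a
  have hm : StrictMono b := strictMono_nat_of_lt_succ fun n => by
    rw [hb]
    exact hn1 _
  obtain ⟨e, he, he'⟩ := exists_lub hK h1 h2 (ι := ℕ) (by rw [mk_nat]; exact hK) b
  refine ⟨e, he 0, fun L hL => ?_⟩
  have h4 : ∃ n, ∀ o ∈ L, ∀ a ∈ o, a ≤ b n := by
    clear_value b
    induction L with
    | nil => exact ⟨0, fun o ho => by simp at ho⟩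
    | cons o L ih =>
      obtain ⟨n, hn⟩ := ih fun o' ho' => hL o' (List.mem_cons_of_mem _ ho')
      cases o with
      | none =>
        refine ⟨n, fun o ho => ?_⟩
        rcases List.mem_cons.1 ho with rfl | ho
        · intro a ha
          simp at ha
        · exact hn o ho
      | some c =>
        obtain ⟨k, hk⟩ := he' c (hL (some c) (List.mem_cons_self) c rfl)
        refine ⟨max n k, fun o ho a ha => ?_⟩
        rcases List.mem_cons.1 ho with rfl | ho
        · rw [Option.mem_some_iff] at ha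
          exact ha ▸ hk.trans (hm.monotone (le_max_right _ _))
        · exact (hn o ho a ha).trans (hm.monotone (le_max_left _ _))
  obtain ⟨n, hn⟩ := h4
  refine (hn2 (b n) L hn).trans ?_
  rw [← hb]
  exact he _

theorem exists_lim_clp (hK : ℵ₀ ≤ K) (h1 : ∀ a : I0, #(Iio a) ≤ K) (h2 : K < #I0)
    (F : List (Option I0) → I0) : ∃ (i : I0) (e : ℕ → I0), Lim e i ∧ ∀ n, Clp F (e n) := by
  choose nx hn1 hn2 using exists_clp hK h1 h2 F
  have hne : Nonempty I0 := by
    rw [← mk_ne_zero_iff]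
    exact (zero_le.trans_lt h2).ne'
  let b : ℕ → I0 := fun n => nx^[n + 1] hne.some
  have hb : ∀ n, b (n + 1) = nx (b n) := fun n => Function.iterate_succ_apply' nx (n + 1) _
  have hm : StrictMono b := strictMono_nat_of_lt_succ fun n => by
    rw [hb]
    exact hn1 _
  obtain ⟨i, hi, hi'⟩ := exists_lub hK h1 h2 (ι := ℕ) (by rw [mk_nat]; exact hK) b
  refine ⟨i, b, ⟨hm, hi, fun a ha => ?_⟩, fun n => ?_⟩
  · obtain ⟨n, hn⟩ := hi' a ha
    exact ⟨n + 1, hn.trans_lt (hm (Nat.lt_succ_self n))⟩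
  · change Clp F (nx^[n + 1] hne.some)
    rw [Function.iterate_succ_apply']
    exact hn2 _

/-- the pigeonhole principle -/
theorem exists_stat (hK : ℵ₀ ≤ K) (h1 : ∀ a : I0, #(Iio a) ≤ K) (h2 : K < #I0) {Pt : Type}
    (hPt : #Pt ≤ K) (S : Pt → Set I0) (hS : ∀ i, (∃ c, Lim c i) → ∃ π, i ∈ S π) :
    ∃ π, Stat (S π) := by
  by_contra hcon
  unfold Stat at hcon
  push Not at hcon
  choose F hF using hcon
  choose G hG _ using fun L => exists_lub hK h1 h2 hPt fun π => F π L
  obtain ⟨i, e, hi, he⟩ := exists_lim_clp hK h1 h2 G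
  obtain ⟨π, hπ⟩ := hS i ⟨e, hi⟩
  obtain ⟨a, ha, h3⟩ := hF π i hπ
  obtain ⟨n, hn⟩ := hi.cof a ha
  exact h3 (e n) hn (hi.lt n) fun L hL => (hG L π).trans (he n L hL)

end

section

variable {I0 Om : Type} [LinearOrder I0] [WellFoundedLT I0] [LinearOrder Om] [WellFoundedLT Om]
  {K0 K : Cardinal.{0}}

/-- the supremum of the cardinals with smaller index -/
noncomputable def lm (κ : I0 → Cardinal.{0}) (i : I0) : Cardinal.{0} := ⨆ a : Iio i, κ a

theorem le_lm (κ : I0 → Cardinal.{0}) {a i : I0} (h : a < i) : κ a ≤ lm κ i :=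
  le_ciSup (f := fun a : Iio i => κ a) Cardinal.bddAbove_of_small ⟨a, h⟩

theorem lm_le {κ : I0 → Cardinal.{0}} {i : I0} {c : Cardinal.{0}} (h : ∀ a < i, κ a ≤ c) :
    lm κ i ≤ c := by
  rcases isEmpty_or_nonempty (Iio i) with he | hn
  · unfold lm
    rw [Cardinal.iSup_of_empty]
    exact zero_le
  · exact ciSup_le fun a => h a.1 a.2

theorem stg_of_lim {κ : I0 → Cardinal.{0}} (hκ : StrictMono κ) (hK0 : Inac K0) (hK : Inac K)
    (h01 : K0 < K) (hκi : ∀ i, Inac (κ i)) (hKκ : ∀ i, K < κ i) (hOm : ∀ i, κ i < #Om) {c : ℕ → I0}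
    {i : I0} (h : Lim c i) : Stg Om K0 K (lm κ i) (fun n => κ (c n)) where
  K0i := hK0
  Ki := hK
  K0K := h01
  κi n := hκi _
  Kκ := hKκ _
  mono := fun a b hab => hκ (h.mono hab)
  lt n := (hκ (h.mono (Nat.lt_succ_self n))).trans_le (le_lm κ (h.lt _))
  sup μ hμ := by
    by_contra hcon
    push Not at hcon
    refine absurd hμ (not_lt.2 (lm_le fun a ha => ?_))
    obtain ⟨n, hn⟩ := h.cof a ha
    exact (hκ hn).le.trans (hcon n)
  Om := (lm_le fun a ha => (hκ ha).le).trans_lt (hOm i)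

theorem exists_pi {κ : I0 → Cardinal.{0}} (hκ : StrictMono κ) (hK0 : IndestructiblySupercompact K0)
    (hK : IndestructiblySupercompact K) (h01 : K0 < K)
    (hκi : ∀ i, IndestructiblySupercompact (κ i)) (hKκ : ∀ i, K < κ i) (hOm : ∀ i, κ i < #Om)
    (h1 : ∀ a : I0, #(Iio a) ≤ K) (h2 : K < #I0) :
    ∃ (π : Cardinal.{0}) (cs : I0 → ℕ → I0), Idx K0 K π ∧
      Stat {i | Lim (cs i) i ∧ GoodAt Om K (lm κ i) (fun n => κ (cs i n)) π} := by
  classical
  have hKa := inac_of_sc hK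
  have hK0a := inac_of_sc hK0
  have h3 : ∀ i : I0, ∃ c : ℕ → I0, (∃ c, Lim c i) → Lim c i := by
    intro i
    by_cases h : ∃ c, Lim c i
    · obtain ⟨c, hc⟩ := h
      exact ⟨c, fun _ => hc⟩
    · exact ⟨fun _ => i, fun h' => absurd h' h⟩
  choose cs hcs using h3
  have hne : Nonempty I0 := by
    rw [← mk_ne_zero_iff]
    exact (zero_le.trans_lt h2).ne'
  obtain ⟨a, ha⟩ := exists_stat hKa.unc.le h1 h2 (Pt := Ix Om K0 K) (by
      refine (mk_le_of_injective (f := fun a : Ix Om K0 K => (⟨a.1, ?_⟩ : sg Om K))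
        fun a b h => Subtype.ext (Subtype.mk.inj h)).trans (mk_sg_le Om K)
      obtain ⟨_, _, _, _, _, h⟩ := a.2
      exact h)
    (fun a => {i | Lim (cs i) i ∧ GoodAt Om K (lm κ i) (fun n => κ (cs i n)) (sz a.1)}) (by
    intro i hi
    have S := stg_of_lim (Om := Om) hκ hK0a hKa h01 (fun i => inac_of_sc (hκi i)) hKκ hOm
      (hcs i hi)
    obtain ⟨π, h4, h5⟩ := claim S hK fun n => hκi _
    have h4' := h4
    obtain ⟨_, _, _, _, _, h6⟩ := h4'
    obtain ⟨a, ha, _⟩ := exists_iio (h6.trans ((hKκ hne.some).trans (hOm _)))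
    have ha' : sz a = π := ha
    refine ⟨⟨a, ha' ▸ h4⟩, hcs i hi, ?_⟩
    rw [ha']
    exact h5)
  exact ⟨sz a.1, cs, a.2, ha⟩

end

end Run7.h898
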