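import Mathlib
import Pool.Agent.Run7.h898.Comb

set_option autoImplicit false
set_option linter.unusedSectionVars false
set_option linter.unusedVariables false

/-!
# The final forcing
-/

namespace Run7.h898

open Set Cardinal Pool.Agent.Helper669.Forcing

section

variable {I0 : Type} [LinearOrder I0] [WellFoundedLT I0]

/-- `i` is a limit point of `s` -/
def Lp (s : Set I0) (i : I0) : Prop := (∃ a, a < i) ∧ ∀ a < i, ∃ c ∈ s, a < c ∧ c < i

/-- countable closed sets of nodes -/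
structure Cn (x S : Set I0) (cs : I0 → ℕ → I0) where
  s : Set I0
  m : I0
  ms : m ∈ s
  le : ∀ c ∈ s, c ≤ m
  cnt : s.Countable
  sub : s ⊆ x
  lim : ∀ i, Lp s i → i ∈ s ∧ i ∈ S ∧ ∃ n0, ∀ n ≥ n0, cs i n ∈ s

variable {x S : Set I0} {cs : I0 → ℕ → I0}

instance : Preorder (Cn x S cs) where
  le q p := p.s ⊆ q.s ∧ ∀ c ∈ q.s, c ≤ p.m → c ∈ p.s
  le_refl p := ⟨Subset.rfl, fun c hc _ => hc⟩
  le_trans r q p h h' := ⟨h'.1.trans h.1, fun c hc hcm => h'.2 c (h.2 c hc
    (hcm.trans (q.le _ (h'.1 p.ms)))) hcm⟩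

theorem Cn.le_m {p q : Cn x S cs} (h : q ≤ p) : p.m ≤ q.m := q.le _ (h.1 p.ms)

/-- the indices of the blocks -/
inductive Bx (I0 : Type) : Type
  | bot : Bx I0
  | mid : Bx I0
  | ini (c : I0) : Bx I0
  | blk (c c' : I0) : Bx I0

/-- the parameters -/
structure Pa (I0 : Type) where
  K : Cardinal.{0}
  π : Cardinal.{0}
  ν : Cardinal.{0}
  κ : I0 → Cardinal.{0}

/-- lower ends -/
noncomputable def lob (P : Pa I0) : Bx I0 → Cardinal.{0}
  | .bot => 0
  | .mid => P.π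
  | .ini _ => P.K
  | .blk c c' => if c < c' then P.κ c else Order.succ (lm P.κ c')

/-- upper ends -/
def hib (P : Pa I0) : Bx I0 → Cardinal.{0}
  | .bot => P.ν
  | .mid => P.K
  | .ini c => P.κ c
  | .blk _ c' => P.κ c'

/-- the blocks of a set of nodes -/
def ac (s : Set I0) : Bx I0 → Prop
  | .bot => True
  | .mid => True
  | .ini c => c ∈ s ∧ ∀ d ∈ s, c ≤ d
  | .blk c c' => c' ∈ s ∧ ((c < c' ∧ c ∈ s ∧ ∀ d ∈ s, d ≤ c ∨ c' ≤ d) ∨ (c = c' ∧ Lp s c'))

/-- the blocks which can appear above `m` -/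
def fut (m : I0) : Bx I0 → Prop
  | .bot => False
  | .mid => False
  | .ini _ => False
  | .blk c c' => m < c' ∧ m ≤ c ∧ c ≤ c'

/-- the blocks which are possible -/
def pos (p : Cn x S cs) (b : Bx I0) : Prop := ac p.s b ∨ fut p.m b

theorem Lp_mono {s t : Set I0} {i : I0} (h : s ⊆ t) (hi : Lp s i) : Lp t i :=
  ⟨hi.1, fun a ha => by
    obtain ⟨c, hc, h1⟩ := hi.2 a ha
    exact ⟨c, h hc, h1⟩⟩

theorem Lp_low {p q : Cn x S cs} (h : q ≤ p) {i : I0} (hi : i ≤ p.m) (hl : Lp q.s i) : Lp p.s i :=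
  ⟨hl.1, fun a ha => by
    obtain ⟨c, hc, h1, h2⟩ := hl.2 a ha
    exact ⟨c, h.2 c hc (h2.le.trans hi), h1, h2⟩⟩

theorem ac_mono {p q : Cn x S cs} (h : q ≤ p) {b : Bx I0} (hb : ac p.s b) : ac q.s b := by
  cases b with
  | bot => trivial
  | mid => trivial
  | ini c =>
    obtain ⟨h1, h2⟩ := hb
    refine ⟨h.1 h1, fun d hd => ?_⟩
    rcases le_total d p.m with h3 | h3
    · exact h2 d (h.2 d hd h3)
    · exact (p.le c h1).trans h3
  | blk c c' =>
    obtain ⟨h1, h2⟩ := hb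
    refine ⟨h.1 h1, ?_⟩
    rcases h2 with ⟨h2, h3, h4⟩ | ⟨h2, h3⟩
    · refine Or.inl ⟨h2, h.1 h3, fun d hd => ?_⟩
      rcases le_total d p.m with h5 | h5
      · exact h4 d (h.2 d hd h5)
      · exact Or.inr ((p.le c' h1).trans h5)
    · exact Or.inr ⟨h2, Lp_mono h.1 h3⟩

theorem pos_mono {p q : Cn x S cs} (h : q ≤ p) {b : Bx I0} (hb : pos q b) : pos p b := by
  cases b with
  | bot => exact Or.inl trivial
  | mid => exact Or.inl trivial
  | ini c =>
    rcases hb with ⟨h1, h2⟩ | h1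
    · have h3 : c ≤ p.m := h2 _ (h.1 p.ms)
      exact Or.inl ⟨h.2 c h1 h3, fun d hd => h2 d (h.1 hd)⟩
    · exact h1.elim
  | blk c c' =>
    rcases hb with ⟨h1, h2⟩ | ⟨h1, h2, h3⟩
    · rcases le_or_gt c' p.m with h4 | h4
      · refine Or.inl ⟨h.2 c' h1 h4, ?_⟩
        rcases h2 with ⟨h2, h3, h5⟩ | ⟨h2, h3⟩
        · exact Or.inl ⟨h2, h.2 c h3 (h2.le.trans h4), fun d hd => h5 d (h.1 hd)⟩
        · exact Or.inr ⟨h2, Lp_low h h4 h3⟩
      · refine Or.inr ⟨h4, ?_, ?_⟩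
        · rcases h2 with ⟨h2, h3, h5⟩ | ⟨h2, h3⟩
          · exact (h5 _ (h.1 p.ms)).resolve_right (not_le.2 h4)
          · rw [h2]
            exact h4.le
        · rcases h2 with ⟨h2, h3, h5⟩ | ⟨h2, h3⟩
          · exact h2.le
          · exact h2.le
    · have h4 := Cn.le_m h
      exact Or.inr ⟨h4.trans_lt h1, h4.trans h2, h3⟩

variable (Om : Type) [LinearOrder Om] [WellFoundedLT Om] (P : Pa I0) (x S cs)

/-- the final forcing -/
structure Fp where
  c : Cn x S cs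
  f : ∀ b : Bx I0, Cb Om (lob P b) (hib P b)

instance : Preorder (Fp x S cs Om P) where
  le q p := q.c ≤ p.c ∧ ∀ b, pos q.c b → q.f b ≤ p.f b
  le_refl p := ⟨le_rfl, fun _ _ => le_rfl⟩
  le_trans r q p h h' := ⟨h.1.trans h'.1, fun b hb => (h.2 b hb).trans (h'.2 b (pos_mono h.1 hb))⟩

variable {Om P x S cs}

theorem Fp.upd (q : Fp x S cs Om P) (b : Bx I0) (u : Cb Om (lob P b) (hib P b)) (hu : u ≤ q.f b) :
    ∃ q' ≤ q, q'.c = q.c ∧ q'.f b = u := by
  classical
  refine ⟨⟨q.c, Function.update q.f b u⟩, ⟨le_rfl, fun b' _ => ?_⟩, rfl, by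
    change Function.update q.f b u b = u
    exact Function.update_self _ _ _⟩
  by_cases h : b' = b
  · subst h
    simp only [Function.update_self]
    exact hu
  · simp only [Function.update_of_ne h]
    exact le_rfl

theorem Fp.fixf {q q' : Fp x S cs Om P} (h : q' ≤ q) :
    ∃ q'' ≤ q', q' ≤ q'' ∧ q''.c = q'.c ∧ ∀ b, q''.f b ≤ q.f b := by
  classical
  refine ⟨⟨q'.c, fun b => if pos q'.c b then q'.f b else q.f b⟩, ⟨le_rfl, fun b hb => ?_⟩,
    ⟨le_rfl, fun b hb => ?_⟩, rfl, fun b => ?_⟩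
  · have hb' : pos q'.c b := hb
    simp only [if_pos hb']
    exact le_rfl
  · have hb' : pos q'.c b := hb
    simp only [if_pos hb']
    exact le_rfl
  · simp only
    split_ifs with hb
    · exact h.2 b hb
    · exact le_rfl

theorem Cn.addn (p : Cn x S cs) {a : I0} (ha : a ∈ x) (hpa : p.m < a) :
    ∃ q ≤ p, q.m = a ∧ q.s = insert a p.s := by
  have hlt : ∀ c ∈ p.s, c < a := fun c hc => (p.le c hc).trans_lt hpa
  refine ⟨⟨insert a p.s, a, mem_insert _ _, ?_, p.cnt.insert a, ?_, ?_⟩, ⟨subset_insert _ _, ?_⟩,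
    rfl, rfl⟩
  · rintro c (rfl | hc)
    · exact le_rfl
    · exact (hlt c hc).le
  · rintro c (rfl | hc)
    · exact ha
    · exact p.sub hc
  · intro i hi
    have hia : i ≤ a := by
      by_contra h
      push Not at h
      obtain ⟨c, hc, h1, h2⟩ := hi.2 a h
      rcases hc with rfl | hc
      · exact lt_irrefl _ h1
      · exact lt_asymm h1 (hlt c hc)
    have h1 : Lp p.s i := ⟨hi.1, fun b hb => by
      obtain ⟨c, hc, h1, h2⟩ := hi.2 b hb
      rcases hc with rfl | hc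
      · exact absurd (h2.trans_le hia) (lt_irrefl _)
      · exact ⟨c, hc, h1, h2⟩⟩
    obtain ⟨h2, h3, n0, h4⟩ := p.lim i h1
    exact ⟨Or.inr h2, h3, n0, fun n hn => Or.inr (h4 n hn)⟩
  · rintro c (rfl | hc) h
    · exact absurd hpa (not_lt.2 h)
    · exact hc

theorem Fp.addn (p : Fp x S cs Om P) {a : I0} (ha : a ∈ x) (hpa : p.c.m < a) :
    ∃ q ≤ p, q.c.m = a ∧ ∀ b, q.f b ≤ p.f b := by
  obtain ⟨q, hq, h1, _⟩ := p.c.addn ha hpa
  exact ⟨⟨q, p.f⟩, ⟨hq, fun _ _ => le_rfl⟩, h1, fun _ => le_rfl⟩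

variable (x S cs Om P)

/-- the intersection of countably many dense open sets is dense, with new limit points -/
def Dist : Prop := ∀ (q0 : Fp x S cs Om P) (D : ℕ → Set (Fp x S cs Om P)), (∀ n, Down (D n)) →
  (∀ n, ∀ q ≤ q0, ∃ q' ≤ q, q' ∈ D n) →
    ∃ q ≤ q0, (∀ n, q ∈ D n) ∧ q0.c.m < q.c.m ∧ Lp q.c.s q.c.m

variable {x S cs Om P}

theorem lemA (h : ¬ Dist x S cs Om P) : ∃ h : List (Option I0) → I0, (∀ L, h L ∈ x) ∧
    (∀ L c, c ∈ x → h L < c → h (some c :: L) = c) ∧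
    ∀ i ∈ S, i ∈ x → (∀ n, cs i n ∈ x) → Lim (cs i) i → ∀ m0, ∀ Ls : ℕ → List (Option I0),
      Ls 0 = [] → (∀ m, Ls (m + 1) = some (cs i (m0 + m)) :: Ls m ∨
        Ls (m + 1) = none :: some (cs i (m0 + m)) :: Ls m) →
      (∀ m, h (Ls m) < cs i (m0 + m)) →
      (∀ N, ∃ m ≥ N, Ls (m + 1) = none :: some (cs i (m0 + m)) :: Ls m) → False := by
  classical
  unfold Dist at h
  push Not at h
  obtain ⟨q0, D, hD, hdense, hno⟩ := h
  have hext : ∀ n, ∀ q ≤ q0, ∃ q' ≤ q, q' ∈ D n ∧ ∀ b, q'.f b ≤ q.f b := by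
    intro n q hq
    obtain ⟨q1, h1, h2⟩ := hdense n q hq
    obtain ⟨q2, h3, _, _, h4⟩ := Fp.fixf h1
    exact ⟨q2, h3.trans h1, hD n _ h2 _ h3, h4⟩
  choose! nx nx1 nx2 nx3 using hext
  have hadd : ∀ (q : Fp x S cs Om P) (a : I0), a ∈ x → q.c.m < a →
      ∃ q' ≤ q, q'.c.m = a ∧ ∀ b, q'.f b ≤ q.f b := fun q a ha hqa => q.addn ha hqa
  choose! ad ad1 ad2 ad3 using hadd
  let stp : Option I0 → Fp x S cs Om P × ℕ → Fp x S cs Om P × ℕ := fun o p => match o with
    | some a => (if a ∈ x ∧ p.1.c.m < a then ad p.1 a else p.1, p.2)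
    | none => (nx p.2 p.1, p.2 + 1)
  let st : List (Option I0) → Fp x S cs Om P × ℕ := fun L => L.foldr stp (q0, 0)
  have hs1 : ∀ a L, a ∈ x → (st L).1.c.m < a → st (some a :: L) = (ad (st L).1 a, (st L).2) := by
    intro a L h1 h2
    change (if a ∈ x ∧ (st L).1.c.m < a then ad (st L).1 a else (st L).1, (st L).2) = _
    rw [if_pos ⟨h1, h2⟩]
  have hs2 : ∀ L, st (none :: L) = (nx (st L).2 (st L).1, (st L).2 + 1) := fun L => rfl
  have hst : ∀ L, (st L).1 ≤ q0 := by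
    intro L
    induction L with
    | nil => exact le_rfl
    | cons o L ih =>
      cases o with
      | none => exact (nx1 _ _ ih).trans ih
      | some a =>
        change (if a ∈ x ∧ (st L).1.c.m < a then ad (st L).1 a else (st L).1) ≤ q0
        split_ifs with h1
        · exact (ad1 _ _ h1.1 h1.2).trans ih
        · exact ih
  refine ⟨fun L => (st L).1.c.m, fun L => (st L).1.c.sub (st L).1.c.ms, fun L c hc hLc => ?_,
    ?_⟩
  · change (st (some c :: L)).1.c.m = c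
    rw [hs1 c L hc hLc]
    exact ad2 _ _ hc hLc
  intro i hiS hix hcx hlim m0 Ls hL0 hLs hlt hinf
  let q : ℕ → Fp x S cs Om P := fun m => (st (Ls m)).1
  let k : ℕ → ℕ := fun m => (st (Ls m)).2
  have hq0 : ∀ m, q m ≤ q0 := fun m => hst _
  have hlt' : ∀ m, (q m).c.m < cs i (m0 + m) := hlt
  -- one step
  have hstep : ∀ m, q (m + 1) ≤ q m ∧ (∀ b, (q (m + 1)).f b ≤ (q m).f b) ∧
      cs i (m0 + m) ∈ (q (m + 1)).c.s ∧
      ((Ls (m + 1) = some (cs i (m0 + m)) :: Ls m → k (m + 1) = k m) ∧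
      (Ls (m + 1) = none :: some (cs i (m0 + m)) :: Ls m →
        k (m + 1) = k m + 1 ∧ q (m + 1) ∈ D (k m))) := by
    intro m
    set a := cs i (m0 + m) with ha
    have hax : a ∈ x := hcx _
    have h1 := hs1 a (Ls m) hax (hlt m)
    have e1 : ad (q m) a ≤ q m := ad1 _ _ hax (hlt m)
    have e2 : a ∈ (ad (q m) a).c.s := by
      have h2 := (ad (q m) a).c.ms
      rwa [ad2 _ _ hax (hlt m)] at h2
    have e3 := ad3 (q m) a hax (hlt m)
    have e0 : ad (q m) a ≤ q0 := e1.trans (hq0 m)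
    rcases hLs m with h2 | h2
    · have h3 : q (m + 1) = ad (q m) a := by
        change (st (Ls (m + 1))).1 = _
        rw [h2, h1]
      rw [h3]
      refine ⟨e1, e3, e2, fun _ => ?_, fun h4 => ?_⟩
      · change (st (Ls (m + 1))).2 = _
        rw [h2, h1]
      · rw [h2] at h4
        simp at h4
    · have h3 : q (m + 1) = nx (k m) (ad (q m) a) := by
        change (st (Ls (m + 1))).1 = _
        rw [h2, hs2, h1]
      have h4 : k (m + 1) = k m + 1 := by
        change (st (Ls (m + 1))).2 = _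
        rw [h2, hs2, h1]
      rw [h3]
      refine ⟨(nx1 _ _ e0).trans e1, fun b => (nx3 _ _ e0 b).trans (e3 b),
        (nx1 _ _ e0).1.1 e2, fun h5 => ?_, fun _ => ⟨h4, nx2 _ _ e0⟩⟩
      rw [h2] at h5
      simp at h5
  have hmono : ∀ m n, m ≤ n → q n ≤ q m := by
    intro m n hmn
    induction n, hmn using Nat.le_induction with
    | base => exact le_rfl
    | succ n _ ih => exact (hstep n).1.trans ih
  have hfmono : ∀ b m n, m ≤ n → (q n).f b ≤ (q m).f b := by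
    intro b m n hmn
    induction n, hmn using Nat.le_induction with
    | base => exact le_rfl
    | succ n _ ih => exact ((hstep n).2.1 b).trans ih
  have hkm : ∀ m, k m ≤ k (m + 1) := by
    intro m
    rcases hLs m with h2 | h2
    · exact ((hstep m).2.2.2.1 h2).ge
    · rw [((hstep m).2.2.2.2 h2).1]
      exact Nat.le_succ _
  have hkm' : Monotone k := monotone_nat_of_le_succ hkm
  have hk1 : ∀ n m, n < k m → ∃ m', q m' ∈ D n := by
    intro n m
    induction m with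
    | zero =>
      intro h1
      have h2 : k 0 = 0 := by
        change (st (Ls 0)).2 = 0
        rw [hL0]
        rfl
      rw [h2] at h1
      exact absurd h1 (Nat.not_lt_zero _)
    | succ m ih =>
      intro h1
      rcases hLs m with h2 | h2
      · rw [(hstep m).2.2.2.1 h2] at h1
        exact ih h1
      · obtain ⟨h3, h4⟩ := (hstep m).2.2.2.2 h2
        rw [h3] at h1
        rcases Nat.lt_succ_iff_lt_or_eq.1 h1 with h5 | h5
        · exact ih h5
        · exact ⟨m + 1, h5 ▸ h4⟩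
  have hk2 : ∀ n, ∃ m, n < k m := by
    intro n
    induction n with
    | zero =>
      obtain ⟨m, _, h1⟩ := hinf 0
      exact ⟨m + 1, by rw [((hstep m).2.2.2.2 h1).1]; exact Nat.succ_pos _⟩
    | succ n ih =>
      obtain ⟨m, hm⟩ := ih
      obtain ⟨m', hm', h1⟩ := hinf m
      refine ⟨m' + 1, ?_⟩
      rw [((hstep m').2.2.2.2 h1).1]
      exact Nat.succ_lt_succ (hm.trans_le (hkm' hm'))
  have hDn : ∀ n, ∃ m, q m ∈ D n := fun n => by
    obtain ⟨m, hm⟩ := hk2 n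
    exact hk1 n m hm
  -- the limit
  have hsi : ∀ m, ∀ c ∈ (q m).c.s, c < i := fun m c hc =>
    ((q m).c.le c hc).trans_lt ((hlt' m).trans (hlim.lt _))
  let s : Set I0 := insert i (⋃ m, (q m).c.s)
  have hsm : ∀ m, (q m).c.s ⊆ s := fun m c hc => Or.inr (mem_iUnion.2 ⟨m, hc⟩)
  have hend : ∀ m, ∀ c ∈ s, c ≤ (q m).c.m → c ∈ (q m).c.s := by
    rintro m c (rfl | hc) hcm
    · exact absurd (hsi m _ (q m).c.ms) (not_lt.2 hcm)
    · obtain ⟨n, hn⟩ := mem_iUnion.1 hc
      rcases le_total m n with h1 | h1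
      · exact (hmono m n h1).1.2 c hn hcm
      · exact (hmono n m h1).1.1 hn
  have hcsn : ∀ n ≥ m0, cs i n ∈ s := by
    intro n hn
    have h1 := (hstep (n - m0)).2.2.1
    rw [Nat.add_sub_cancel' hn] at h1
    exact hsm _ h1
  have hLpi : Lp s i := by
    refine ⟨⟨_, hlim.lt 0⟩, fun a ha => ?_⟩
    obtain ⟨n, hn⟩ := hlim.cof a ha
    exact ⟨cs i (max n m0), hcsn _ (le_max_right _ _),
      hn.trans_le (hlim.mono.monotone (le_max_left _ _)), hlim.lt _⟩
  let c : Cn x S cs := {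
    s := s
    m := i
    ms := mem_insert _ _
    le := by
      rintro c (rfl | hc)
      · exact le_rfl
      · obtain ⟨n, hn⟩ := mem_iUnion.1 hc
        exact (hsi n c hn).le
    cnt := (countable_iUnion fun m => (q m).c.cnt).insert i
    sub := by
      rintro c (rfl | hc)
      · exact hix
      · obtain ⟨n, hn⟩ := mem_iUnion.1 hc
        exact (q n).c.sub hn
    lim := by
      intro j hj
      rcases lt_trichotomy j i with h1 | h1 | h1
      · obtain ⟨n, hn⟩ := hlim.cof j h1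
        have h2 : j < cs i (m0 + n) := hn.trans_le (hlim.mono.monotone (Nat.le_add_left _ _))
        have h3 : j ≤ (q (n + 1)).c.m := h2.le.trans ((q (n + 1)).c.le _ (hstep n).2.2.1)
        have h4 : Lp (q (n + 1)).c.s j := ⟨hj.1, fun a ha => by
          obtain ⟨c, hc, h4, h5⟩ := hj.2 a ha
          exact ⟨c, hend (n + 1) c hc (h5.le.trans h3), h4, h5⟩⟩
        obtain ⟨h5, h6, n0, h7⟩ := (q (n + 1)).c.lim j h4
        exact ⟨hsm _ h5, h6, n0, fun n hn => hsm _ (h7 n hn)⟩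
      · rw [h1]
        exact ⟨mem_insert _ _, hiS, m0, hcsn⟩
      · obtain ⟨c, hc, h2, _⟩ := hj.2 i h1
        rcases hc with rfl | hc
        · exact absurd h2 (lt_irrefl _)
        · obtain ⟨n, hn⟩ := mem_iUnion.1 hc
          exact absurd h2 (lt_asymm (hsi n c hn)) }
  have hf : ∀ b, ∃ u : Cb Om (lob P b) (hib P b), ∀ m, u ≤ (q m).f b := by
    intro b
    refine dc_Cb ℕ (fun m => (q m).f b) (by rw [mk_nat]; exact aleph0_le_sl _) inferInstance
      fun m n => ⟨max m n, hfmono b _ _ (le_max_left _ _), hfmono b _ _ (le_max_right _ _)⟩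
  choose f hf using hf
  let qq : Fp x S cs Om P := ⟨c, f⟩
  have hqq : ∀ m, qq ≤ q m := fun m => ⟨⟨hsm m, hend m⟩, fun b _ => hf b m⟩
  refine hno qq ((hqq 0).trans (hq0 0)) (fun n => ?_) ?_ hLpi
  · obtain ⟨m, hm⟩ := hDn n
    exact hD n _ hm _ (hqq m)
  · exact (Cn.le_m ((hqq 0).trans (hq0 0)).1).lt_of_ne fun h1 => by
      have h2 : q0.c.m < i := by
        have h3 : q0.c.m ≤ (q 0).c.m := Cn.le_m (hq0 0).1
        exact h3.trans_lt ((hlt' 0).trans (hlim.lt _))
      exact absurd h1 h2.ne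

end

end Run7.h898
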