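import Mathlib
import Pool.Agent.Run7.h898.Fp

set_option autoImplicit false
set_option linter.unusedSectionVars false
set_option linter.unusedVariables false

/-!
# Distributivity of the final forcing
-/

namespace Run7.h898

open Set Cardinal Pool.Agent.Helper669.Forcing

section

variable {I0 : Type} [LinearOrder I0] [WellFoundedLT I0] {S : Set I0} {cs : I0 → ℕ → I0}
  {Om : Type} [LinearOrder Om] [WellFoundedLT Om] {P : Pa I0} {K0 : Cardinal.{0}}

theorem ev_dist [Nonempty I0] (hK : ℵ₀ < K0) (W : AU Unit K0 I0 ()) (hS : Stat S)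
    (hlim : ∀ i ∈ S, Lim (cs i) i) : ev W () fun x => Dist x.1 S cs Om P := by
  classical
  refine ev_of_not W le_rfl fun _ _ hno => ?_
  have h1 : ∀ x : PK K0 I0, ∃ h : List (Option I0) → I0, ¬ Dist x.1 S cs Om P →
      (∀ L, h L ∈ x.1) ∧
      (∀ L c, c ∈ x.1 → h L < c → h (some c :: L) = c) ∧
      ∀ i ∈ S, i ∈ x.1 → (∀ n, cs i n ∈ x.1) → Lim (cs i) i → ∀ m0,
        ∀ Ls : ℕ → List (Option I0),
        Ls 0 = [] → (∀ m, Ls (m + 1) = some (cs i (m0 + m)) :: Ls m ∨
          Ls (m + 1) = none :: some (cs i (m0 + m)) :: Ls m) →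
        (∀ m, h (Ls m) < cs i (m0 + m)) →
        (∀ N, ∃ m ≥ N, Ls (m + 1) = none :: some (cs i (m0 + m)) :: Ls m) → False := by
    intro x
    by_cases h : Dist x.1 S cs Om P
    · exact ⟨fun _ => Classical.arbitrary I0, fun h' => absurd h h'⟩
    · obtain ⟨f, hf⟩ := lemA h
      exact ⟨f, fun _ => hf⟩
  choose h hh using h1
  have h2 : ∀ L, ∃ a, ev W () fun x => h x L = a := fun L =>
    evu_normal W (ev_mono W le_rfl hno fun x hx => ⟨_, (hh x hx).1 L, rfl⟩)
  choose F hF using h2
  obtain ⟨i, hiS, hi⟩ := hS F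
  have hl := hlim i hiS
  set c := cs i with hc
  -- a good set
  let tr' : List (Option ℕ) → List (Option I0) := fun L => L.map (Option.map c)
  have h3 : ev W () fun x => ∀ L : List (Option ℕ), h x (tr' L) = F (tr' L) :=
    ev_inter W le_rfl (mk_le_aleph0.trans_lt hK) fun L => hF _
  have h4 : ev W () fun x => ∀ n : ℕ, c n ∈ x.1 :=
    ev_inter W le_rfl (by simpa using hK) fun n => ev_fine W le_rfl (c n)
  obtain ⟨x, ⟨⟨h5, h6⟩, h7⟩, h8⟩ := ev_ne W le_rfl (ev_and W hK.le le_rfl (ev_and W hK.le le_rfl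
    (ev_and W hK.le le_rfl h3 h4) (ev_fine W le_rfl i)) hno)
  obtain ⟨k1, k2, k3⟩ := hh x h8
  -- the start
  obtain ⟨m0, hm0⟩ : ∃ m0, F [] < c m0 := by
    obtain ⟨e, _, he, hF'⟩ := hi (c 0) (hl.lt 0)
    obtain ⟨m0, hm0⟩ := hl.cof e he
    exact ⟨m0, (hF' [] (by simp)).trans hm0⟩
  let stp : ℕ → List (Option ℕ) → List (Option ℕ) := fun m L =>
    if F (tr' (none :: some (m0 + m) :: L)) < c (m0 + m + 1) then none :: some (m0 + m) :: L
    else some (m0 + m) :: L
  let Ls : ℕ → List (Option ℕ) := fun m => Nat.rec [] (fun m L => stp m L) m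
  have hLs : ∀ m, Ls (m + 1) = stp m (Ls m) := fun m => rfl
  have hcons : ∀ (o : Option ℕ) L, tr' (o :: L) = o.map c :: tr' L := fun o L => rfl
  have hent : ∀ m, ∀ o ∈ Ls m, ∀ j ∈ o, j < m0 + m := by
    intro m
    induction m with
    | zero => intro o ho; simp [Ls] at ho
    | succ m ih =>
      intro o ho j hj
      rw [hLs] at ho
      have h9 : o = none ∨ o = some (m0 + m) ∨ o ∈ Ls m := by
        simp only [stp] at ho
        split_ifs at ho
        · rcases List.mem_cons.1 ho with h9 | ho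
          · exact Or.inl h9
          · exact Or.inr (List.mem_cons.1 ho)
        · exact Or.inr (List.mem_cons.1 ho)
      rcases h9 with rfl | rfl | h9
      · simp at hj
      · rw [Option.mem_some_iff] at hj
        omega
      · have := ih o h9 j hj
        omega
  have hlt : ∀ m, h x (tr' (Ls m)) < c (m0 + m) := by
    intro m
    induction m with
    | zero =>
      rw [h5]
      exact hm0
    | succ m ih =>
      rw [hLs]
      simp only [stp]
      split_ifs with h9
      · rw [h5]
        exact h9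
      · have h10 : h x (tr' (some (m0 + m) :: Ls m)) = c (m0 + m) :=
          k2 _ (c (m0 + m)) (h6 _) ih
        rw [h10]
        exact hl.mono (Nat.lt_succ_self _)
  refine k3 i hiS h7 h6 hl m0 (fun m => tr' (Ls m)) rfl (fun m => ?_) hlt fun N => ?_
  · change tr' (Ls (m + 1)) = _ ∨ tr' (Ls (m + 1)) = _
    rw [hLs]
    simp only [stp]
    split_ifs with h9
    · exact Or.inr rfl
    · exact Or.inl rfl
  · obtain ⟨e, he1, he2, he3⟩ := hi (c (m0 + N)) (hl.lt _)
    obtain ⟨n, hn⟩ := hl.cof e he2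
    have hex : ∃ n, e ≤ c (m0 + n) := ⟨n, hn.le.trans (hl.mono.monotone (Nat.le_add_left _ _))⟩
    have h9 := Nat.find_spec hex
    have h10 : N < Nat.find hex := by
      by_contra hcon
      push Not at hcon
      exact absurd he1 (not_lt.2 (h9.trans (hl.mono.monotone (Nat.add_le_add_left hcon _))))
    obtain ⟨m, hm⟩ : ∃ m, Nat.find hex = m + 1 := ⟨Nat.find hex - 1, by omega⟩
    have h11 : c (m0 + m) < e := not_le.1 (Nat.find_min hex (by omega))
    refine ⟨m, by omega, ?_⟩
    change tr' (Ls (m + 1)) = _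
    rw [hLs]
    simp only [stp]
    rw [if_pos]
    · rfl
    · rw [hm] at h9
      refine (he3 _ ?_).trans_le h9
      intro o ho a ha
      rw [hcons, hcons] at ho
      rcases List.mem_cons.1 ho with rfl | ho
      · simp at ha
      · rcases List.mem_cons.1 ho with rfl | ho
        · simp only [Option.map_some, Option.mem_some_iff] at ha
          exact ha ▸ h11
        · obtain ⟨o', ho', rfl⟩ := List.mem_map.1 ho
          rw [Option.mem_map] at ha
          obtain ⟨j, hj, rfl⟩ := ha
          exact (hl.mono (hent m o' ho' j hj)).trans h11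

end

end Run7.h898
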