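import Mathlib
import Pool.Agent.Run7.h898.Dist

set_option autoImplicit false
set_option linter.unusedSectionVars false
set_option linter.unusedVariables false

/-!
# The final forcing at a limit node
-/

namespace Run7.h898

open Set Cardinal Pool.Agent.Helper669.Forcing

/-! ### Reduction of names to the lower part of a product -/

section

variable {P1 G1 : Type} [Preorder P1] [Preorder G1]

theorem red {mu : Cardinal.{0}} (hmu : ℵ₀ ≤ mu) (hG : DC mu G1) (hP : #P1 ≤ mu) {Jx : Type}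
    (hJ : #Jx ≤ mu) (N : Jx → Set (P1 × G1)) (hN : ∀ j, Down (N j)) (g : G1) :
    ∃ g' ≤ g, ∀ j p, ∃ p' ≤ p, (p', g') ∈ N j ∨ (p', g') ∈ fnot (N j) := by
  obtain ⟨g', hg', h⟩ := hG.all hmu (J := Jx × P1) (by
      rw [mk_prod, lift_id, lift_id]
      exact mul_le_of_le hmu hJ hP) g
    (fun j g => ∃ p' ≤ j.2, (p', g) ∈ N j.1 ∨ (p', g) ∈ fnot (N j.1)) (by
    rintro j p q hq ⟨p', hp', h | h⟩
    · exact ⟨p', hp', Or.inl (hN _ _ h _ ⟨le_rfl, hq⟩)⟩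
    · exact ⟨p', hp', Or.inr (down_fnot _ _ h _ ⟨le_rfl, hq⟩)⟩) fun j g _ => by
      by_cases h : ∃ q ≤ (j.2, g), q ∈ N j.1
      · obtain ⟨q, hq, h⟩ := h
        exact ⟨q.2, hq.2, q.1, hq.1, Or.inl h⟩
      · push Not at h
        exact ⟨g, le_rfl, j.2, le_rfl, Or.inr h⟩
  exact ⟨g', hg', fun j p => h (j, p)⟩

/-- the statement is decided by the lower part -/
def Dcd (N : Set (P1 × G1)) (g : G1) : Prop := ∀ p, ∃ p' ≤ p, (p', g) ∈ N ∨ (p', g) ∈ fnot N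

theorem Dcd.dense {N : Set (P1 × G1)} {g : G1} (h : Dcd N g) (hN : Down N) {p : P1} {g1 : G1}
    (hg : g1 ≤ g) (hp : (p, g1) ∈ N) : ∃ p' ≤ p, (p', g) ∈ N := by
  obtain ⟨p', hp', h1 | h1⟩ := h p
  · exact ⟨p', hp', h1⟩
  · exact absurd (hN _ hp (p', g1) ⟨hp', le_rfl⟩) (h1 (p', g1) ⟨le_rfl, hg⟩)

theorem Dcd.rg {N : Set (P1 × G1)} {g : G1} (hN : Rg N) : Rg {p | (p, g) ∈ N} where
  dn p hp q hq := hN.dn _ hp _ ⟨hq, le_rfl⟩
  ds p hp := hN.ds _ fun q hq => by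
    obtain ⟨r, hr, h1⟩ := hp q.1 hq.1
    exact ⟨(r, q.2), ⟨hr, le_rfl⟩, hN.dn _ h1 _ ⟨le_rfl, hq.2⟩⟩

theorem FT.slice {K X : Type} [LinearOrder K] {T : K × X → K × X → Set (P1 × G1)} (hT : FT T)
    {g : G1} (h : ∀ x y, Dcd (T x y) g) : FT fun x y => {p | (p, g) ∈ T x y} where
  rg x y := Dcd.rg (hT.rg x y)
  lt x y p hp := hT.lt _ _ _ hp
  tr x y z p hp hp' := hT.tr _ _ _ _ hp hp'
  cmp x y z p hp hp' hxy := hT.cmp _ _ _ _ hp hp' hxy
  unq x y z p hp hp' hxy := hT.unq _ _ _ _ hp hp' hxy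
  ex p y a ha := by
    obtain ⟨q, hq, x, hx, h1⟩ := hT.ex (p, g) y a ha
    obtain ⟨p', hp', h2⟩ := (h x y).dense (hT.rg x y).dn hq.2 h1
    exact ⟨p', hp'.trans hq.1, x, hx, h2⟩

end

/-! ### Boundedness of functions for admissible families -/

section

variable {Om : Type} [LinearOrder Om] [WellFoundedLT Om] {K0 K lam : Cardinal.{0}}
  {κ : ℕ → Cardinal.{0}}

theorem reg_adm (S : Stg Om K0 K lam κ) {A E : Type} [Preorder A] [Preorder E] (hA : #A ≤ K)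
    (hE : #E ≤ K) {J : Type} {lo hi : J → Cardinal.{0}} (adm : Adm K κ lo hi)
    (Φ : sg Om lam → La Om lam → Set (A × E × Bb Om lo hi)) (hd : ∀ w a, Down (Φ w a))
    (hu : ∀ w a b p, p ∈ Φ w a → p ∈ Φ w b → a = b) (p : A × E × Bb Om lo hi) :
    ∃ r ≤ p, ∃ b, ∀ w, ∀ q ≤ r, ∀ a, q ∈ Φ w a → a < b := by
  classical
  obtain ⟨n0, hn0⟩ := adm.ex
  let pr : J → Prop := fun j => κ n0 ≤ lo j
  have hlv : ∀ j : {j // pr j}, ∃ k, κ k ≤ lo j.1 ∧ hi j.1 ≤ κ (k + 1) := by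
    rintro ⟨j, hj⟩
    have hex := adm.bd j
    have h1 := Nat.find_spec hex
    have h2 : n0 < Nat.find hex := by
      by_contra hcon
      push Not at hcon
      have h3 := h1.trans (S.mono.monotone hcon)
      exact absurd (adm.lh j) (not_lt.2 (h3.trans hj))
    obtain ⟨k, hk⟩ : ∃ k, Nat.find hex = k + 1 := ⟨Nat.find hex - 1, by omega⟩
    refine ⟨k, ?_, hk ▸ h1⟩
    have h3 : ¬ hi j ≤ κ k := Nat.find_min hex (by omega)
    exact (hn0 k (by omega) j).resolve_left h3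
  choose lvl hl1 hl2 using hlv
  have hcnt : ∀ (X : Type), #X ≤ #J → ∀ k, #X < κ k := fun X hX k =>
    (hX.trans adm.cnt).trans_lt (S.κi k).unc
  let GR : Gr (∀ j : {j // pr j}, Cb Om (lo j.1) (hi j.1)) κ :=
    Gr.pi (C := fun j : {j // pr j} => Cb Om (lo j.1) (hi j.1)) lvl
      (fun k => mk_blocks S (fun j : {j // lvl j < k} => lo j.1.1) (fun j => hi j.1.1) k
        (hcnt _ ((mk_subtype_le _).trans (mk_subtype_le _)) k) (fun j => adm.lh j.1.1)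
        fun j => (hl2 j.1).trans (S.mono.monotone j.2))
      fun k j hj => dc_Cb.mono ((Order.succ_le_succ ((S.mono.monotone (not_lt.1 hj)).trans
        (hl1 j))).trans (le_max_right _ _))
  let sp := sp2 (C := fun j => Cb Om (lo j) (hi j)) pr
  have hZ : ∀ k, n0 ≤ k → #(A × E × (∀ j : {j // ¬ pr j}, Cb Om (lo j.1) (hi j.1))) ≤ κ k := by
    intro k hk
    have h0 := (S.κi k).unc.le
    simp only [mk_prod, lift_id]
    refine mul_le_of_le h0 (hA.trans (S.Kκ' k).le) (mul_le_of_le h0 (hE.trans (S.Kκ' k).le) ?_)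
    refine (mk_blocks S (fun j : {j // ¬ pr j} => lo j.1) (fun j => hi j.1) n0
      (hcnt _ (mk_subtype_le _) n0) (fun j => adm.lh j.1)
      fun j => (hn0 n0 le_rfl j.1).resolve_right j.2).trans (S.mono.monotone hk)
  obtain ⟨r', hr', b, hb⟩ := GR.reg (Z := A × E × (∀ j : {j // ¬ pr j}, Cb Om (lo j.1) (hi j.1)))
    n0 (fun k => (S.κi k).unc.le) hZ (La := La Om lam) (W := sg Om lam)
    (fun ι f ⟨k, hk⟩ => bd_La' S ι f (hk.trans
      ((Order.succ_le_of_lt (S.mono (Nat.lt_succ_self k))).trans (S.lt (k + 1)).le)))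
    (Vs Om lam κ) (Vs_ex S) (fun n => (mk_Vs n).trans (S.mono.monotone (Nat.le_add_left _ _)))
    (fun w a => {q | (q.1.1, q.1.2.1, sp.symm (q.2, q.1.2.2)) ∈ Φ w a})
    (by
      intro w a q hq q' hq'
      obtain ⟨⟨h1, h2, h3⟩, h4⟩ := hq'
      exact hd w a _ hq _ ⟨h1, h2, sp.symm.monotone ⟨h4, h3⟩⟩) (fun w a b q hq hq' => hu w a b _ hq hq')
    ((p.1, p.2.1, (sp p.2.2).2), (sp p.2.2).1)
  refine ⟨(p.1, p.2.1, sp.symm (r', (sp p.2.2).2)), ⟨le_rfl, le_rfl, ?_⟩, b, fun w q hq a ha => ?_⟩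
  · change sp.symm (r', (sp p.2.2).2) ≤ p.2.2
    rw [OrderIso.symm_apply_le]
    exact ⟨hr', le_rfl⟩
  · have h1 : sp q.2.2 ≤ (r', (sp p.2.2).2) := by
      rw [← OrderIso.le_symm_apply]
      exact hq.2.2
    refine hb w ((q.1, q.2.1, (sp q.2.2).2), (sp q.2.2).1) ⟨⟨hq.1, hq.2.1, h1.2⟩, h1.1⟩ a ?_
    change (q.1, q.2.1, sp.symm ((sp q.2.2).1, (sp q.2.2).2)) ∈ Φ w a
    rw [Prod.mk.eta, OrderIso.symm_apply_apply]
    exact ha

theorem mk_adm (S : Stg Om K0 K lam κ) (hsol : lam ^ ℵ₀ ≤ Order.succ lam) {A E : Type}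
    (hA : #A ≤ K) (hE : #E ≤ K) {J : Type} {lo hi : J → Cardinal.{0}} (adm : Adm K κ lo hi) :
    #(A × E × Bb Om lo hi) ≤ Order.succ lam := by
  have h0 := S.lam0
  have h1 := h0.trans (Order.le_succ lam)
  have h2 := S.Klam.le.trans (Order.le_succ lam)
  simp only [mk_prod, lift_id]
  refine mul_le_of_le h1 (hA.trans h2) (mul_le_of_le h1 (hE.trans h2) ?_)
  rw [mk_pi]
  refine (Cardinal.prod_le_prod _ (fun _ => lam) fun j => ?_).trans ?_
  · obtain ⟨n, hn⟩ := adm.bd j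
    exact (mk_Cb_le (S.κi n) ((adm.lh j).trans_le hn) hn).trans (S.lt n).le
  · rw [Cardinal.prod_const']
    exact (Cardinal.power_le_power_left (aleph0_pos.trans_le h0).ne' adm.cnt).trans hsol

end

end Run7.h898
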