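import Mathlib
import Pool.Agent.Run7.h898.Red

set_option autoImplicit false
set_option linter.unusedSectionVars false
set_option linter.unusedVariables false

/-!
# The decomposition of the final forcing at a limit node
-/

namespace Run7.h898

open Set Cardinal Pool.Agent.Helper669.Forcing

section

variable {I0 : Type} [LinearOrder I0] [WellFoundedLT I0] {x S : Set I0} {cs : I0 → ℕ → I0}
  {Om : Type} [LinearOrder Om] [WellFoundedLT Om] {P : Pa I0}

/-- blocks below `i` -/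
def bel (i : I0) : Bx I0 → Prop
  | .bot => False
  | .mid => False
  | .ini c => c < i
  | .blk _ c' => c' < i

/-- blocks above `i` -/
def abv (i : I0) : Bx I0 → Prop
  | .bot => False
  | .mid => False
  | .ini _ => False
  | .blk c c' => i ≤ c ∧ c ≤ c'

theorem bel_abv {i : I0} {b : Bx I0} (h : bel i b) : ¬ abv i b := by
  cases b with
  | bot => exact h.elim
  | mid => exact h.elim
  | ini c => exact fun h' => h'
  | blk c c' => exact fun h' => absurd (h'.1.trans h'.2) (not_le.2 h)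

/-- the blocks below `i` of the condition `p` -/
abbrev Jq (p : Cn x S cs) (i : I0) : Type := {b : Bx I0 // ac p.s b ∧ bel i b}

/-- the blocks above `i` -/
abbrev Ja (i : I0) : Type := {b : Bx I0 // abv i b}

/-- nodes above the condition `p` -/
abbrev Nq (p : Cn x S cs) : Type := {c : Cn x S cs // c ≤ p}

variable (Om P) in
/-- the lower part -/
abbrev P1q (p : Cn x S cs) (i : I0) : Type :=
  (Nq p × Cb Om 0 P.ν) × Cb Om P.π P.K × Bb Om (fun j : Jq p i => lob P j.1) (fun j => hib P j.1)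

variable (Om P) in
/-- the upper part -/
abbrev Gq (i : I0) : Type := Bb Om (fun j : Ja i => lob P j.1) (fun j => hib P j.1)

/-- the values at the bottom -/
noncomputable def btm (t : Cb Om 0 P.ν) (z : Cb Om P.π P.K) : ∀ b : Bx I0, Cb Om (lob P b) (hib P b)
  | .bot => t
  | .mid => z
  | .ini _ => ⊤
  | .blk _ _ => ⊤

open Classical in
/-- the conditions of the final forcing given by the parts -/
noncomputable def psi (p : Cn x S cs) (i : I0) (y : P1q Om P p i × Gq Om P i) : Fp x S cs Om P where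
  c := y.1.1.1.1
  f b := if h : ac p.s b ∧ bel i b then y.1.2.2 ⟨b, h⟩ else if h2 : abv i b then y.2 ⟨b, h2⟩ else
    btm y.1.1.2 y.1.2.1 b

variable {p : Cn x S cs} {i : I0}

theorem psi_bel (y : P1q Om P p i × Gq Om P i) (b : Jq p i) : (psi p i y).f b.1 = y.1.2.2 b :=
  dif_pos b.2

theorem psi_abv (y : P1q Om P p i × Gq Om P i) (b : Ja i) : (psi p i y).f b.1 = y.2 b := by
  classical
  have h : ¬ (ac p.s b.1 ∧ bel i b.1) := fun h => bel_abv h.2 b.2
  have h1 : (psi p i y).f b.1 = if h2 : abv i b.1 then y.2 ⟨b.1, h2⟩ else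
    btm y.1.1.2 y.1.2.1 b.1 := dif_neg h
  rw [h1, dif_pos b.2]

theorem psi_bot (y : P1q Om P p i × Gq Om P i) : (psi p i y).f .bot = y.1.1.2 := by
  classical
  have h : ¬ (ac p.s .bot ∧ bel i .bot) := fun h => h.2
  have h1 : (psi p i y).f .bot = btm y.1.1.2 y.1.2.1 .bot :=
    (dif_neg h).trans (dif_neg (fun h : abv i .bot => h))
  exact h1

theorem psi_mid (y : P1q Om P p i × Gq Om P i) : (psi p i y).f .mid = y.1.2.1 := by
  classical
  have h : ¬ (ac p.s .mid ∧ bel i .mid) := fun h => h.2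
  have h1 : (psi p i y).f .mid = btm y.1.1.2 y.1.2.1 .mid :=
    (dif_neg h).trans (dif_neg (fun h : abv i .mid => h))
  exact h1

theorem pos_cases (hi : i ∈ p.s) (hLp : Lp p.s i) {c : Cn x S cs} (hc : c ≤ p) {b : Bx I0}
    (hb : pos c b) : b = .bot ∨ b = .mid ∨ (ac p.s b ∧ bel i b) ∨ abv i b := by
  cases b with
  | bot => exact Or.inl rfl
  | mid => exact Or.inr (Or.inl rfl)
  | ini c1 =>
    rcases hb with ⟨h1, h2⟩ | h1
    · obtain ⟨a, ha⟩ := hLp.1
      obtain ⟨d, hd, _, hdi⟩ := hLp.2 a ha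
      have h3 : c1 < i := (h2 d (hc.1 hd)).trans_lt hdi
      exact Or.inr (Or.inr (Or.inl ⟨⟨hc.2 c1 h1 (h3.le.trans (p.le i hi)),
        fun d hd => h2 d (hc.1 hd)⟩, h3⟩))
    · exact h1.elim
  | blk c1 c2 =>
    rcases pos_mono hc hb with ⟨h1, h2⟩ | ⟨h1, h2, h3⟩
    · rcases h2 with ⟨h2, h3, h4⟩ | ⟨h2, h3⟩
      · rcases lt_trichotomy c2 i with h5 | h5 | h5
        · exact Or.inr (Or.inr (Or.inl ⟨⟨h1, Or.inl ⟨h2, h3, h4⟩⟩, h5⟩))
        · obtain ⟨d, hd, hd1, hd2⟩ := hLp.2 c1 (h5 ▸ h2)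
          rcases h4 d hd with h6 | h6
          · exact absurd h6 (not_le.2 hd1)
          · exact absurd hd2 (not_lt.2 (h5 ▸ h6))
        · exact Or.inr (Or.inr (Or.inr ⟨(h4 i hi).resolve_right (not_le.2 h5), h2.le⟩))
      · rcases lt_or_ge c2 i with h5 | h5
        · exact Or.inr (Or.inr (Or.inl ⟨⟨h1, Or.inr ⟨h2, h3⟩⟩, h5⟩))
        · exact Or.inr (Or.inr (Or.inr ⟨h2 ▸ h5, h2.le⟩))
    · exact Or.inr (Or.inr (Or.inr ⟨(p.le i hi).trans h2, h3⟩))

theorem psi_mono {y y' : P1q Om P p i × Gq Om P i} (h : y' ≤ y) : psi p i y' ≤ psi p i y := by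
  classical
  obtain ⟨⟨⟨h1, h2⟩, h3, h4⟩, h5⟩ := h
  refine ⟨h1, fun b _ => ?_⟩
  by_cases hb : ac p.s b ∧ bel i b
  · rw [psi_bel y ⟨b, hb⟩, psi_bel y' ⟨b, hb⟩]
    exact h4 _
  · by_cases hb2 : abv i b
    · rw [psi_abv y ⟨b, hb2⟩, psi_abv y' ⟨b, hb2⟩]
      exact h5 _
    · have e1 : ∀ y : P1q Om P p i × Gq Om P i, (psi p i y).f b = btm y.1.1.2 y.1.2.1 b := by
        intro y
        have h1 : (psi p i y).f b = if h2 : abv i b then y.2 ⟨b, h2⟩ else
          btm y.1.1.2 y.1.2.1 b := dif_neg hb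
        rw [h1, dif_neg hb2]
      rw [e1, e1]
      cases b with
      | bot => exact h2
      | mid => exact h3
      | ini c => exact le_rfl
      | blk c c' => exact le_rfl

variable (p i) in
/-- the lower part of a condition -/
noncomputable def lowp (q : Fp x S cs Om P) (hq : q.c ≤ p) : P1q Om P p i :=
  ((⟨q.c, hq⟩, q.f .bot), q.f .mid, fun j => q.f j.1)

/-- each condition with the right nodes is equivalent to one of the given form -/
theorem psi_ex (hi : i ∈ p.s) (hLp : Lp p.s i) (q : Fp x S cs Om P) (hq : q.c ≤ p)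
    (g : Gq Om P i) : ∃ y : P1q Om P p i × Gq Om P i, psi p i y ≤ q ∧
      y.1 = lowp p i q hq ∧
      ∀ b : Ja i, (pos q.c b.1 → y.2 b = q.f b.1) ∧ (¬ pos q.c b.1 → y.2 b = g b) := by
  classical
  let y : P1q Om P p i × Gq Om P i := (lowp p i q hq,
    fun b => if pos q.c b.1 then q.f b.1 else g b)
  refine ⟨y, ⟨le_rfl, fun b hb => ?_⟩, rfl, fun b => ⟨fun h => if_pos h, fun h => if_neg h⟩⟩
  rcases pos_cases hi hLp hq hb with rfl | rfl | h | h
  · rw [psi_bot]
    exact le_rfl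
  · rw [psi_mid]
    exact le_rfl
  · rw [psi_bel y ⟨b, h⟩]
    exact le_rfl
  · rw [psi_abv y ⟨b, h⟩]
    have hb' : pos q.c b := hb
    change (if pos q.c b then q.f b else g ⟨b, h⟩) ≤ q.f b
    rw [if_pos hb']

theorem Pj_psi (hi : i ∈ p.s) (hLp : Lp p.s i) :
    Pj (psi p i : P1q Om P p i × Gq Om P i → Fp x S cs Om P) where
  mono y y' h := psi_mono h
  lift y q hq := by
    have hqc : q.c ≤ p := hq.1.trans y.1.1.1.2
    obtain ⟨y', h1, h2, h3⟩ := psi_ex hi hLp q hqc y.2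
    refine ⟨y', ?_, h1⟩
    have h4 : ∀ b, pos q.c b → q.f b ≤ (psi p i y).f b := hq.2
    refine ⟨?_, fun b => ?_⟩
    · rw [h2]
      refine ⟨⟨hq.1, ?_⟩, ?_, fun j => ?_⟩
      · have := h4 .bot (Or.inl trivial)
        rwa [psi_bot] at this
      · have := h4 .mid (Or.inl trivial)
        rwa [psi_mid] at this
      · have := h4 j.1 (Or.inl (ac_mono hqc j.2.1))
        rwa [psi_bel] at this
    · by_cases hb : pos q.c b.1
      · rw [(h3 b).1 hb]
        have := h4 b.1 hb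
        rwa [psi_abv] at this
      · rw [(h3 b).2 hb]

/-- the order of the lower part -/
theorem psi_low {y y' : P1q Om P p i × Gq Om P i} (h : psi p i y' ≤ psi p i y) : y'.1 ≤ y.1 := by
  have h4 : ∀ b, pos y'.1.1.1.1 b → (psi p i y').f b ≤ (psi p i y).f b := h.2
  refine ⟨⟨h.1, ?_⟩, ?_, fun j => ?_⟩
  · have := h4 .bot (Or.inl trivial)
    rwa [psi_bot, psi_bot] at this
  · have := h4 .mid (Or.inl trivial)
    rwa [psi_mid, psi_mid] at this
  · have := h4 j.1 (Or.inl (ac_mono y'.1.1.1.2 j.2.1))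
    rwa [psi_bel, psi_bel] at this

end

end Run7.h898
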