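import Mathlib
import Pool.Agent.Run7.h898.Psi

set_option autoImplicit false
set_option linter.unusedSectionVars false
set_option linter.unusedVariables false

/-!
# Sizes and closure of the parts of the final forcing
-/

namespace Run7.h898

open Set Cardinal Pool.Agent.Helper669.Forcing

/-- the properties of the parameters of the final forcing -/
structure Env {I0 : Type} [LinearOrder I0] [WellFoundedLT I0] {Om : Type} [LinearOrder Om]
    [WellFoundedLT Om] (x S : Set I0) (cs : I0 → ℕ → I0) (P : Pa I0) (K0 : Cardinal.{0}) :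
    Prop where
  K0i : Inac K0
  Ki : Inac P.K
  K0K : K0 < P.K
  K0ν : K0 ≤ P.ν
  νω : P.ν ^ ℵ₀ ≤ P.ν
  νπ : P.ν ≤ P.π
  πs : P.π ≤ ⨆ n : ℕ, Order.succ^[n] P.ν
  πK : P.π < P.K
  mono : StrictMono P.κ
  κi : ∀ i, Inac (P.κ i)
  Kκ : ∀ i, P.K < P.κ i
  hOm : ∀ i, P.κ i < #Om
  iio : ∀ a : I0, #(Iio a) ≤ P.K
  xK : #x < K0
  lim : ∀ i ∈ S, Lim (cs i) i
  good : ∀ i ∈ S, GoodAt Om P.K (lm P.κ i) (fun n => P.κ (cs i n)) P.π
  sol : ∀ i ∈ S, lm P.κ i ^ ℵ₀ ≤ Order.succ (lm P.κ i)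
  dist : Dist x S cs Om P

section

variable {Om : Type} [LinearOrder Om] [WellFoundedLT Om]

theorem mk_Cb_small {lo κ : Cardinal.{0}} (hκ : ℵ₀ ≤ κ) (hlo : sl lo < κ)
    (hp : κ ^ sl lo ≤ κ) : #(Cb Om lo κ) ≤ κ := by
  classical
  have hX : #(sg Om κ × sg Om κ × sg Om κ) ≤ κ := by
    simp only [mk_prod, lift_id]
    exact mul_le_of_le hκ (mk_sg_le Om κ) (mul_le_of_le hκ (mk_sg_le Om κ) (mk_sg_le Om κ))
  have h1 := (mk_bounded_set_le (sg Om κ × sg Om κ × sg Om κ) (sl lo)).trans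
    ((Cardinal.power_le_power_right (max_le hX hκ)).trans hp)
  refine le_trans ?_ h1
  have hin : ∀ (p : Cb Om lo κ) ξ ε v, p.f ξ ε = some v → ξ ∈ sg Om κ ∧ ε ∈ sg Om κ ∧
      v ∈ sg Om κ := by
    intro p ξ ε v hv
    obtain ⟨h1, h2, h3⟩ := p.ok ξ ε v hv
    have h4 : ξ ∈ sg Om κ := h1
    exact ⟨h4, lt_of_le_of_lt h2 hlo, sg_low h3.le h4⟩
  refine mk_le_of_injective (f := fun p : Cb Om lo κ =>
    (⟨{t | p.f t.1 t.2.1 = some t.2.2.1}, ?_⟩ : {s : Set (sg Om κ × sg Om κ × sg Om κ) //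
      #s ≤ sl lo})) ?_
  · refine le_trans (mk_le_of_injective (f := fun t : {t : sg Om κ × sg Om κ × sg Om κ //
      p.f t.1 t.2.1 = some t.2.2.1} => (⟨(t.1.1.1, t.1.2.1.1), by
        change p.f t.1.1 t.1.2.1 ≠ none
        rw [t.2]
        simp⟩ : {q : Om × Om // p.f q.1 q.2 ≠ none})) ?_) p.sm
    rintro ⟨⟨a, b, c⟩, h1⟩ ⟨⟨a', b', c'⟩, h2⟩ h3
    obtain ⟨h4, h5⟩ := Prod.mk.inj (Subtype.mk.inj h3)
    have h6 : a = a' := Subtype.ext h4
    have h7 : b = b' := Subtype.ext h5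
    subst h6
    subst h7
    have h8 : c = c' := Subtype.ext (Option.some.inj (h1.symm.trans h2))
    subst h8
    rfl
  · intro p q hpq
    have h1 := Subtype.mk.inj hpq
    have key : ∀ p q : Cb Om lo κ, {t : sg Om κ × sg Om κ × sg Om κ |
        p.f t.1 t.2.1 = some t.2.2.1} = {t | q.f t.1 t.2.1 = some t.2.2.1} → q ≤ p := by
      intro p q h1 ξ ε v hv
      obtain ⟨h2, h3, h4⟩ := hin p ξ ε v hv
      have h5 : ((⟨ξ, h2⟩, ⟨ε, h3⟩, ⟨v, h4⟩) : sg Om κ × sg Om κ × sg Om κ) ∈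
          {t : sg Om κ × sg Om κ × sg Om κ | p.f t.1 t.2.1 = some t.2.2.1} := hv
      rw [h1] at h5
      exact h5
    exact Cb.le_antisymm (key q p h1.symm) (key p q h1)

end

section

variable {I0 : Type} [LinearOrder I0] [WellFoundedLT I0] {x S : Set I0} {cs : I0 → ℕ → I0}
  {Om : Type} [LinearOrder Om] [WellFoundedLT Om] {P : Pa I0} {K0 : Cardinal.{0}}
  (E : Env (Om := Om) x S cs P K0)

include E

theorem Env.stg {i : I0} (hi : i ∈ S) :
    Stg Om K0 P.K (lm P.κ i) (fun n => P.κ (cs i n)) :=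
  stg_of_lim E.mono E.K0i E.Ki E.K0K E.κi E.Kκ E.hOm (E.lim i hi)

theorem Env.lm_lt (c : I0) : lm P.κ c < P.κ c := by
  rcases isEmpty_or_nonempty (Iio c) with he | hn
  · unfold lm
    rw [Cardinal.iSup_of_empty]
    exact (aleph0_pos.trans (E.κi c).unc)
  · exact iSup_lt_of_isRegular (E.κi c).reg ((E.iio c).trans_lt (E.Kκ c)) fun a => E.mono a.2

theorem Env.succ_lm_lt (c : I0) : Order.succ (lm P.κ c) < P.κ c :=
  (Order.succ_le_of_lt (cantor _)).trans_lt ((E.κi c).lim _ (E.lm_lt c))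

theorem Env.lob_lt {c c' : I0} (h : c ≤ c') : lob P (.blk c c') < hib P (.blk c c') := by
  change (if c < c' then P.κ c else Order.succ (lm P.κ c')) < P.κ c'
  split_ifs with h1
  · exact E.mono h1
  · exact E.succ_lm_lt c'

theorem Env.adm {p : Cn x S cs} {i : I0} (hi : i ∈ p.s) (hLp : Lp p.s i) :
    Adm P.K (fun n => P.κ (cs i n)) (fun j : Jq p i => lob P j.1) (fun j => hib P j.1) := by
  classical
  obtain ⟨_, hiS, n0, hn0⟩ := p.lim i hLp
  have hl := E.lim i hiS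
  refine ⟨?_, ?_, ?_, ?_, ⟨n0, ?_⟩⟩
  · have hs : #p.s ≤ ℵ₀ := le_aleph0_iff_set_countable.2 p.cnt
    have h1 : ∀ j : Jq p i, ∃ t : Bool × p.s × p.s, j.1 = if t.1 then .ini t.2.1.1 else
        .blk t.2.1.1 t.2.2.1 := by
      rintro ⟨b, hb, hb'⟩
      cases b with
      | bot => exact hb'.elim
      | mid => exact hb'.elim
      | ini c => exact ⟨(true, ⟨c, hb.1⟩, ⟨c, hb.1⟩), rfl⟩
      | blk c c' =>
        have hc : c ∈ p.s := by
          rcases hb.2 with h | h
          · exact h.2.1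
          · exact h.1 ▸ hb.1
        exact ⟨(false, ⟨c, hc⟩, ⟨c', hb.1⟩), rfl⟩
    choose t ht using h1
    refine (mk_le_of_injective (f := t) fun a b hab => ?_).trans ?_
    · exact Subtype.ext ((ht a).trans (by rw [hab]; exact (ht b).symm))
    · simp only [mk_prod, lift_id]
      refine mul_le_of_le le_rfl (lt_aleph0_of_finite _).le (mul_le_of_le le_rfl hs hs)
  · rintro ⟨b, hb, hb'⟩
    cases b with
    | bot => exact hb'.elim
    | mid => exact hb'.elim
    | ini c => exact le_rfl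
    | blk c c' =>
      change P.K ≤ if c < c' then P.κ c else Order.succ (lm P.κ c')
      split_ifs with h
      · exact (E.Kκ c).le
      · rcases hb.2 with h1 | ⟨_, h1⟩
        · exact absurd h1.1 h
        · obtain ⟨a, ha⟩ := h1.1
          exact ((E.Kκ a).le.trans (le_lm P.κ ha)).trans (Order.le_succ _)
  · rintro ⟨b, hb, hb'⟩
    cases b with
    | bot => exact hb'.elim
    | mid => exact hb'.elim
    | ini c => exact E.Kκ c
    | blk c c' =>
      refine E.lob_lt ?_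
      rcases hb.2 with h1 | h1
      · exact h1.1.le
      · exact h1.1.le
  · rintro ⟨b, hb, hb'⟩
    cases b with
    | bot => exact hb'.elim
    | mid => exact hb'.elim
    | ini c =>
      obtain ⟨n, hn⟩ := hl.cof c hb'
      exact ⟨n, (E.mono hn).le⟩
    | blk c c' =>
      obtain ⟨n, hn⟩ := hl.cof c' hb'
      exact ⟨n, (E.mono hn).le⟩
  · rintro n hn ⟨b, hb, hb'⟩
    have hd := hn0 n hn
    cases b with
    | bot => exact hb'.elim
    | mid => exact hb'.elim
    | ini c => exact Or.inl (E.mono.monotone (hb.2 _ hd))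
    | blk c c' =>
      change P.κ c' ≤ P.κ (cs i n) ∨ P.κ (cs i n) ≤ if c < c' then P.κ c else
        Order.succ (lm P.κ c')
      rcases hb.2 with ⟨h1, _, h2⟩ | ⟨h1, _⟩
      · rw [if_pos h1]
        rcases h2 _ hd with h3 | h3
        · exact Or.inr (E.mono.monotone h3)
        · exact Or.inl (E.mono.monotone h3)
      · rw [if_neg (by rw [h1]; exact lt_irrefl _)]
        rcases lt_or_ge (cs i n) c' with h3 | h3
        · exact Or.inr ((le_lm P.κ h3).trans (Order.le_succ _))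
        · exact Or.inl (E.mono.monotone h3)

theorem Env.ν0 : ℵ₀ < P.ν := E.K0i.unc.trans_le E.K0ν

theorem Env.mk_A (p : Cn x S cs) : #(Nq p × Cb Om 0 P.ν) ≤ P.π := by
  classical
  have hν := E.ν0.le
  have hsl : sl 0 = ℵ₀ := by
    refine max_eq_left ?_
    exact Order.succ_le_of_lt aleph0_pos
  rw [mk_prod, lift_id, lift_id]
  refine (mul_le_of_le hν ?_ ?_).trans E.νπ
  · have h1 : #(Nq p) ≤ #{t : Set I0 // t ⊆ x ∧ #t ≤ ℵ₀} := by
      refine mk_le_of_injective (f := fun c : Nq p => ⟨c.1.s, c.1.sub,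
        le_aleph0_iff_set_countable.2 c.1.cnt⟩) fun c d hcd => Subtype.ext ?_
      have h2 : c.1.s = d.1.s := Subtype.mk.inj hcd
      obtain ⟨c, hc⟩ := c
      obtain ⟨d, hd⟩ := d
      obtain ⟨s, m, ms, le, cnt, sub, lim⟩ := c
      obtain ⟨s', m', ms', le', cnt', sub', lim'⟩ := d
      simp only at h2
      subst h2
      have h3 : m = m' := le_antisymm (le' m ms) (le m' ms')
      subst h3
      rfl
    refine h1.trans ((mk_bounded_subset_le x ℵ₀).trans ?_)
    exact (E.K0i.pow_lt (max_lt E.xK E.K0i.unc) E.K0i.unc).le.trans E.K0ν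
  · refine mk_Cb_small hν ?_ ?_
    · rw [hsl]
      exact E.ν0
    · rw [hsl]
      exact E.νω

theorem Env.mk_P1 {p : Cn x S cs} {i : I0} (hi : i ∈ p.s) (hLp : Lp p.s i) :
    #(P1q Om P p i) ≤ Order.succ (lm P.κ i) := by
  obtain ⟨_, hiS, _⟩ := p.lim i hLp
  exact mk_adm (E.stg hiS) (E.sol i hiS) ((E.mk_A p).trans E.πK.le)
    (mk_Cb_le E.Ki E.πK le_rfl) (E.adm hi hLp)

theorem Env.dc_G (i : I0) : DC (Order.succ (lm P.κ i)) (Gq Om P i) := by
  refine DC.pi fun j => dc_Cb.mono ?_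
  obtain ⟨b, hb⟩ := j
  cases b with
  | bot => exact hb.elim
  | mid => exact hb.elim
  | ini c => exact hb.elim
  | blk c c' =>
    refine le_trans ?_ (lt_sl _).le
    change Order.succ (lm P.κ i) ≤ if c < c' then P.κ c else Order.succ (lm P.κ c')
    obtain ⟨h1, h2⟩ := hb
    split_ifs with h3
    · exact (E.succ_lm_lt i).le.trans (E.mono.monotone h1)
    · refine Order.succ_le_succ (lm_le fun a ha => le_lm P.κ ?_)
      exact ha.trans_le (h1.trans h2)

end

end Run7.h898
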