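import Mathlib
import Pool.Agent.Run7.h898.Env
import Pool.Agent.Run7.h898.Defs2

set_option autoImplicit false
set_option linter.unusedSectionVars false
set_option linter.unusedVariables false

/-!
# Cardinals in the final extension
-/

namespace Run7.h898

open Set Cardinal Pool.Agent.Helper669.Forcing

section

variable {I0 : Type} [LinearOrder I0] [WellFoundedLT I0] {x S : Set I0} {cs : I0 → ℕ → I0}
  {Om : Type} [LinearOrder Om] [WellFoundedLT Om] {P : Pa I0} {K0 : Cardinal.{0}}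

theorem down_IsCard {Q : Type} [Preorder Q] (μ : Cardinal.{0}) : Down (IsCard Q μ) :=
  down_fall fun _ => down_fall fun _ => down_fnot _

/-- successors of the singular cardinals at limit nodes are preserved -/
theorem Env.card (E : Env (Om := Om) x S cs P K0) {q0 : Fp x S cs Om P} {i : I0}
    (hi : i ∈ q0.c.s) (hLp : Lp q0.c.s i) :
    q0 ∈ IsCard (Fp x S cs Om P) (Order.succ (lm P.κ i)) := by
  classical
  intro θ hθ q1 hq1 hF
  obtain ⟨q2, hq2, F, hF1, hF2⟩ := mem_fex.1 hF q1 le_rfl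
  have hq20 := hq2.trans hq1
  have hi2 : i ∈ q2.c.s := hq20.1.1 hi
  have hL2 : Lp q2.c.s i := Lp_mono hq20.1.1 hLp
  obtain ⟨_, hiS, _⟩ := q2.c.lim i hL2
  have St := E.stg hiS
  have h0 := St.lam0
  have h0' := h0.trans (Order.le_succ (lm P.κ i))
  obtain ⟨e1⟩ : Nonempty ((Order.succ (lm P.κ i)).out ≃ La Om (lm P.κ i)) := by
    rw [← Cardinal.eq, mk_out, mk_La St.Om]
  obtain ⟨j1⟩ : Nonempty (θ.out ↪ sg Om (lm P.κ i)) := by
    rw [← Cardinal.le_def, mk_out, mk_sg Om St.Om.le]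
    exact Order.lt_succ_iff.1 hθ
  obtain ⟨y0, hy0, _, _⟩ := psi_ex hi2 hL2 q2 le_rfl (⊤ : Gq Om P i)
  let N : θ.out × La Om (lm P.κ i) → Set (P1q Om P q2.c i × Gq Om P i) := fun j =>
    psi q2.c i ⁻¹' meets (F j.1 (e1.symm j.2))
  have hN : ∀ j, Rg (N j) := fun j => (Pj_psi hi2 hL2).rg (Rg.meets _)
  obtain ⟨g', hg', hdec⟩ := red h0' (E.dc_G i) (E.mk_P1 hi2 hL2) (by
    rw [mk_prod, lift_id, lift_id, mk_out, mk_La St.Om]
    exact mul_le_of_le h0' ((Order.lt_succ_iff.1 hθ).trans (Order.le_succ _)) le_rfl) N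
    (fun j => (hN j).dn) y0.2
  have hle : psi q2.c i (y0.1, g') ≤ q2 := (psi_mono (y := y0) (y' := (y0.1, g'))
    ⟨le_rfl, hg'⟩).trans hy0
  have hadm := E.adm hi2 hL2
  obtain ⟨r, hr, b, hb⟩ := reg_adm St ((E.mk_A q2.c).trans E.πK.le) (mk_Cb_le E.Ki E.πK le_rfl)
    hadm (fun w a => {p : P1q Om P q2.c i | p ≤ y0.1 ∧ ∃ t, j1 t = w ∧ (p, g') ∈ N (t, a)})
    (fun w a p hp p' hp' => ⟨hp'.trans hp.1, by
      obtain ⟨t, h1, h2⟩ := hp.2
      exact ⟨t, h1, (hN _).dn _ h2 _ ⟨hp', le_rfl⟩⟩⟩) (by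
    rintro w a b p ⟨h1, t, h2, h3⟩ ⟨_, t', h4, h5⟩
    have h6 : t = t' := j1.injective (h2.trans h4.symm)
    subst h6
    have h7 : psi q2.c i (p, g') ≤ q2 := (psi_mono (y := (y0.1, g'))
      (y' := (p, g')) ⟨h1, le_rfl⟩).trans hle
    exact e1.symm.injective (IsFun.unique (down_IsFun F _ hF1 _ h7) h3 h5)) y0.1
  have hrle : psi q2.c i (r, g') ≤ q2 := (psi_mono (y := (y0.1, g')) (y' := (r, g'))
    ⟨hr, le_rfl⟩).trans hle
  obtain ⟨q4, hq4, t, ht⟩ := mem_fex.1 (hF2 (e1.symm b)) _ hrle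
  obtain ⟨y2, hy2, hy2'⟩ := (Pj_psi hi2 hL2).lift (r, g') q4 hq4
  have h1 : y2 ∈ N (t, b) := down_meets _ _ ht _ hy2'
  obtain ⟨p', hp', h2⟩ := Dcd.dense (N := N (t, b)) (hdec (t, b)) (hN _).dn hy2.2 h1
  exact absurd (hb (j1 t) p' (hp'.trans hy2.1) b ⟨(hp'.trans hy2.1).trans hr, t, rfl, h2⟩)
    (lt_irrefl _)

/-- the cardinals strictly between the ends of a block are collapsed -/
theorem coll {q : Fp x S cs Om P} {b : Bx I0} (hb : ac q.c.s b) {θ : Cardinal.{0}}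
    (h1 : Order.succ (sl (lob P b)) < θ) (h2 : θ < hib P b) (hOm : θ < #Om) :
    q ∉ IsCard (Fp x S cs Om P) θ := by
  classical
  intro hcard
  obtain ⟨ξ, hξ, _⟩ := exists_iio hOm
  obtain ⟨e1⟩ : Nonempty ((Order.succ (sl (lob P b))).out ≃ La Om (sl (lob P b))) := by
    rw [← Cardinal.eq, mk_out, mk_La ((Order.lt_succ _).trans (h1.trans hOm))]
  obtain ⟨e2⟩ : Nonempty (θ.out ≃ Iio ξ) := by
    rw [← Cardinal.eq, mk_out, hξ]
  have hξ2 : #(Iio ξ) < hib P b := by rw [hξ]; exact h2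
  let F : (Order.succ (sl (lob P b))).out → θ.out → Set (Fp x S cs Om P) := fun w v =>
    {r | ac r.c.s b ∧ (r.f b).f ξ (e1 w).1 = some (e2 v).1}
  have hFd : ∀ w v, Down (F w v) := by
    rintro w v r ⟨h3, h4⟩ r' hr'
    have h5 := ac_mono hr'.1 h3
    exact ⟨h5, hr'.2 b (Or.inl h5) _ _ _ h4⟩
  refine hcard _ h1 q le_rfl (mem_fex_of_mem F (down_fand (down_IsFun _) (down_IsOnto _))
    ⟨⟨fun w => mem_fex.2 fun q' hq' => ?_, fun w v v' => mem_fimp.2 fun q' hq' h => ?_⟩,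
      fun v => mem_fex.2 fun q' hq' => ?_⟩)
  · have hne : Nonempty θ.out := by
      rw [← mk_ne_zero_iff, mk_out]
      exact (zero_le.trans_lt h1).ne'
    obtain ⟨u, hu, v, hv⟩ := (q'.f b).total hξ2 (e1 w).2 (e2 hne.some).2
    obtain ⟨q'', hq'', h3, h4⟩ := Fp.upd q' b u hu
    have h5 := u.ok _ _ _ hv
    refine ⟨q'', hq'', e2.symm ⟨v, h5.2.2⟩, meets_of_mem ⟨?_, ?_⟩⟩
    · rw [h3]
      exact ac_mono hq'.1 hb
    · rw [h4, hv, e2.apply_symm_apply]
  · obtain ⟨r, hr, h3⟩ := exists_of_meets (hFd w v) h.1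
    obtain ⟨r', hr', h4⟩ := exists_of_meets (hFd w v') (down_meets _ _ h.2 _ hr)
    have h5 := (hFd w v _ h3 _ hr').2
    rw [h4.2] at h5
    exact ⟨q', le_rfl, (e2.injective (Subtype.ext (Option.some.inj h5))).symm⟩
  · obtain ⟨u, hu, ε, hε, hv⟩ := (q'.f b).onto (h1.trans hOm).le hξ2 (e2 v).2
    obtain ⟨q'', hq'', h3, h4⟩ := Fp.upd q' b u hu
    refine ⟨q'', hq'', e1.symm ⟨ε, hε⟩, meets_of_mem ⟨?_, ?_⟩⟩
    · rw [h3]
      exact ac_mono hq'.1 hb
    · rw [h4, e1.apply_symm_apply]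
      exact hv

/-- there are no limit cardinals between the ends of a block -/
theorem not_limit {q : Fp x S cs Om P} {b : Bx I0} (hb : ac q.c.s b) {lam : Cardinal.{0}}
    (h1 : lob P b < lam) (h2 : lam ≤ hib P b) (hOm : lam ≤ #Om) :
    q ∉ IsLimitCard (Fp x S cs Om P) lam := by
  rintro ⟨h0, _, h⟩
  have h0' : ℵ₀ < lam := h0
  rcases le_or_gt lam (sl (lob P b)) with h3 | h3
  · have h4 : lam ≤ Order.succ (lob P b) := by
      rcases le_max_iff.1 h3 with h4 | h4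
      · exact absurd h0' (not_lt.2 h4)
      · exact h4
    obtain ⟨_, _, θ', ⟨h5, h6⟩, _⟩ := mem_fex.1 (h (lob P b) h1) q le_rfl
    exact absurd (Order.succ_le_of_lt h5) (not_le.2 (h6.trans_le h4))
  · rcases le_or_gt lam (Order.succ (sl (lob P b))) with h4 | h4
    · obtain ⟨_, _, θ', ⟨h5, h6⟩, _⟩ := mem_fex.1 (h _ h3) q le_rfl
      exact absurd (Order.succ_le_of_lt h5) (not_le.2 (h6.trans_le h4))
    · obtain ⟨r, hr, θ', ⟨h5, h6⟩, h7⟩ := mem_fex.1 (h _ h4) q le_rfl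
      exact coll (ac_mono hr.1 hb) h5 (h6.trans_le h2) (h6.trans_le hOm) h7

/-- successor cardinals of the ground model are not limit cardinals -/
theorem not_limit_succ {Q : Type} [Preorder Q] {q : Q} (μ : Cardinal.{0}) :
    q ∉ IsLimitCard Q (Order.succ μ) := by
  rintro ⟨_, _, h⟩
  obtain ⟨_, _, θ', ⟨h5, h6⟩, _⟩ := mem_fex.1 (h μ (Order.lt_succ μ)) q le_rfl
  exact absurd (Order.succ_le_of_lt h5) (not_le.2 h6)

theorem down_IsLimitCard {Q : Type} [Preorder Q] (μ : Cardinal.{0}) : Down (IsLimitCard Q μ) :=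
  down_fand (down_fground _) (down_fand (down_IsCard _) (down_fall fun _ => down_fall fun _ =>
    down_fex _))

/-- limit cardinals up to the first node -/
theorem Env.low (E : Env (Om := Om) x S cs P K0) {q : Fp x S cs Om P} {lam : Cardinal.{0}}
    (hq : q ∈ IsLimitCard (Fp x S cs Om P) lam) (h : lam ≤ P.K) : lam = P.π := by
  have h0 : ℵ₀ < lam := hq.1
  have hne : Nonempty I0 := ⟨q.c.m⟩
  have hOm : lam ≤ #Om := (h.trans (E.Kκ q.c.m).le).trans (E.hOm q.c.m).le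
  rcases lt_trichotomy lam P.π with h1 | h1 | h1
  · rcases le_or_gt lam P.ν with h2 | h2
    · exact absurd hq (not_limit (b := .bot) trivial (aleph0_pos.trans h0) h2 hOm)
    · obtain ⟨n, hn⟩ : ∃ n : ℕ, lam < Order.succ^[n] P.ν := by
        by_contra hcon
        push Not at hcon
        exact absurd (h1.trans_le (E.πs.trans (ciSup_le hcon))) (lt_irrefl _)
      exfalso
      induction n with
      | zero => exact lt_asymm hn h2
      | succ n ih =>
        rw [Function.iterate_succ_apply'] at hn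
        rcases (Order.lt_succ_iff.1 hn).lt_or_eq with h3 | h3
        · exact ih h3
        · cases n with
          | zero => exact absurd h2 (not_lt.2 h3.le)
          | succ n =>
            rw [Function.iterate_succ_apply'] at h3
            rw [h3] at hq
            exact not_limit_succ _ hq
  · exact h1
  · exact absurd hq (not_limit (b := .mid) trivial h1 h hOm)

/-- limit cardinals below the last node -/
theorem Env.high (E : Env (Om := Om) x S cs P K0) {q : Fp x S cs Om P} {lam : Cardinal.{0}}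
    (hq : q ∈ IsLimitCard (Fp x S cs Om P) lam) (h1 : P.K < lam) (h2 : lam ≤ P.κ q.c.m) :
    ∃ i ∈ q.c.s, Lp q.c.s i ∧ lam = lm P.κ i := by
  classical
  have hOm : lam ≤ #Om := h2.trans (E.hOm q.c.m).le
  obtain ⟨c, ⟨hc, hlc⟩, hmin⟩ := WellFounded.has_min (wellFounded_lt (α := I0))
    {c | c ∈ q.c.s ∧ lam ≤ P.κ c} ⟨q.c.m, q.c.ms, h2⟩
  have hlt : ∀ d ∈ q.c.s, d < c → P.κ d < lam := fun d hd hdc => by
    by_contra h3
    exact hmin d ⟨hd, not_lt.1 h3⟩ hdc
  by_cases hfirst : ∀ d ∈ q.c.s, c ≤ d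
  · exact absurd hq (not_limit (b := .ini c) ⟨hc, hfirst⟩ h1 hlc hOm)
  push Not at hfirst
  obtain ⟨d0, hd0, hd0c⟩ := hfirst
  by_cases hL : Lp q.c.s c
  · refine ⟨c, hc, hL, ?_⟩
    have h3 : lm P.κ c ≤ lam := lm_le fun a ha => by
      obtain ⟨d, hd, had, hdc⟩ := hL.2 a ha
      exact (E.mono had).le.trans (hlt d hd hdc).le
    rcases h3.lt_or_eq with h4 | h4
    · exfalso
      rcases (Order.succ_le_of_lt h4).lt_or_eq with h5 | h5
      · refine not_limit (b := .blk c c) (q := q) (lam := lam) ⟨hc, Or.inr ⟨rfl, hL⟩⟩ ?_ hlc hOm hq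
        change (if c < c then P.κ c else Order.succ (lm P.κ c)) < lam
        rw [if_neg (lt_irrefl c)]
        exact h5
      · rw [← h5] at hq
        exact not_limit_succ _ hq
    · exact h4.symm
  · exfalso
    -- the predecessor
    have h3 : ∃ a < c, ∀ d ∈ q.c.s, d < c → d ≤ a := by
      by_contra hcon
      push Not at hcon
      refine hL ⟨⟨d0, hd0c⟩, fun a ha => ?_⟩
      obtain ⟨d, hd, hdc, had⟩ := hcon a ha
      exact ⟨d, hd, had, hdc⟩
    obtain ⟨e, ⟨hec, he⟩, hemin⟩ := WellFounded.has_min (wellFounded_lt (α := I0))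
      {a | a < c ∧ ∀ d ∈ q.c.s, d < c → d ≤ a} h3
    have hes : e ∈ q.c.s := by
      by_contra hes
      refine hes (q.c.lim e ⟨⟨d0, (he d0 hd0 hd0c).lt_of_ne fun h => hes (h ▸ hd0)⟩,
        fun a ha => ?_⟩).1
      by_contra hcon
      push Not at hcon
      refine hemin a ⟨ha.trans hec, fun d hd hdc => ?_⟩ ha
      by_contra h4
      push Not at h4
      exact absurd (hcon d hd h4) (not_le.2 ((he d hd hdc).lt_of_ne fun h => hes (h ▸ hd)))
    refine not_limit (b := .blk e c) (q := q) (lam := lam) ⟨hc, Or.inl ⟨hec, hes, fun d hd => ?_⟩⟩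
      ?_ hlc hOm hq
    · rcases lt_or_ge d c with h4 | h4
      · exact Or.inl (he d hd h4)
      · exact Or.inr h4
    · change (if e < c then P.κ e else Order.succ (lm P.κ c)) < lam
      rw [if_pos hec]
      exact hlt e hes hec

end

end Run7.h898
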