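import Mathlib
import Pool.Agent.Run7.h898.Iso

set_option autoImplicit false
set_option linter.unusedSectionVars false
set_option linter.unusedVariables false

/-!
# Restricted products and a chain condition
-/

namespace Run7.h898

open Set Cardinal Pool.Agent.Helper669.Forcing

/-- restricted products: the first coordinate determines which of the other coordinates matter -/
structure Rp {A J : Type} [Preorder A] (X : A →o Set J) (C : J → Type) where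
  a : A
  f : ∀ j, C j

section

variable {A J : Type} [Preorder A] {X : A →o Set J} {C : J → Type} [∀ j, Preorder (C j)]

instance : Preorder (Rp X C) where
  le q p := q.a ≤ p.a ∧ ∀ j ∈ X q.a, q.f j ≤ p.f j
  le_refl p := ⟨le_rfl, fun _ _ => le_rfl⟩
  le_trans r q p h h' := ⟨h.1.trans h'.1, fun j hj => (h.2 j hj).trans (h'.2 j (X.monotone h.1 hj))⟩

theorem Rp.le_def {q p : Rp X C} : q ≤ p ↔ q.a ≤ p.a ∧ ∀ j ∈ X q.a, q.f j ≤ p.f j := Iff.rfl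

variable (X C) in
/-- conditions of the full product -/
def rpi (p : A × (∀ j, C j)) : Rp X C := ⟨p.1, p.2⟩

theorem rpi_mono {p q : A × (∀ j, C j)} (h : p ≤ q) : rpi X C p ≤ rpi X C q :=
  ⟨h.1, fun j _ => h.2 j⟩

/-- changing a condition outside of the coordinates which matter -/
theorem Rp.fix {p q : Rp X C} (h : p ≤ q) : ∃ f : ∀ j, C j, (∀ j, f j ≤ q.f j) ∧
    (∀ j ∈ X p.a, f j = p.f j) ∧ (⟨p.a, f⟩ : Rp X C) ≤ p := by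
  classical
  refine ⟨fun j => if j ∈ X p.a then p.f j else q.f j, fun j => ?_, fun j hj => if_pos hj,
    le_rfl, fun j hj => ?_⟩
  · beta_reduce
    split_ifs with h1
    · exact h.2 j h1
    · exact le_rfl
  · have hj' : j ∈ X p.a := hj
    change (if j ∈ X p.a then p.f j else q.f j) ≤ p.f j
    rw [if_pos hj']

theorem Pj_rpi : Pj (rpi X C) where
  mono q q' h := rpi_mono h
  lift q p hp := by
    obtain ⟨f, h1, _, h3⟩ := Rp.fix hp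
    exact ⟨(p.a, f), ⟨hp.1, h1⟩, h3⟩

end

/-! ### A chain condition -/

/-- a strong form of the Knaster condition -/
def Kn (π : Cardinal.{0}) (A : Type) [Preorder A] : Prop :=
  ∀ (R : Type) [Preorder R], DC π R → ∀ (Θ : Type) [LinearOrder Θ] [WellFoundedLT Θ],
    (∀ θ : Θ, #(Iio θ) ≤ π) → ∀ (L : Type) [LinearOrder L], Bd π L →
    ∀ (G : Θ → L) (B : A × R → L) (D : L → Set (A × R)), (∀ l, Down (D l)) → ∀ q0 : A × R,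
    (∀ l, ∀ q ≤ q0, ∃ q' ≤ q, q' ∈ D l) →
    ∃ (t : Θ → L) (q : Θ → A × R), (∀ θ, q θ ≤ q0 ∧ q θ ∈ D (t θ) ∧ G θ ≤ t θ) ∧
      ∀ θ θ', θ < θ' → B (q θ) < t θ' ∧ t θ < t θ' ∧ (q θ').2 ≤ (q θ).2 ∧
        ∃ c, c ≤ (q θ).1 ∧ c ≤ (q θ').1

section

variable {A J : Type} [Preorder A] {X : A →o Set J} {C : J → Type} [∀ j, Preorder (C j)]
  {π : Cardinal.{0}}

theorem Kn.sub (h : Kn π A) (p : A) : Kn π {a : A // a ≤ p} := by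
  classical
  intro R _ hR Θ _ _ hΘ L _ hL G B D hD q0 hq0
  obtain ⟨t, q, h1, h2⟩ := h R hR Θ hΘ L hL G
    (fun x => if h : x.1 ≤ p then B (⟨x.1, h⟩, x.2) else B q0)
    (fun l => {x | ∃ h : x.1 ≤ p, ((⟨x.1, h⟩ : {a : A // a ≤ p}), x.2) ∈ D l}) (by
      rintro l x ⟨h1, h2⟩ y hy
      exact ⟨hy.1.trans h1, hD l _ h2 _ ⟨hy.1, hy.2⟩⟩) (q0.1.1, q0.2) (by
      intro l x hx
      obtain ⟨q', hq', h1⟩ := hq0 l (⟨x.1, hx.1.trans q0.1.2⟩, x.2) ⟨hx.1, hx.2⟩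
      exact ⟨(q'.1.1, q'.2), ⟨hq'.1, hq'.2⟩, q'.1.2, h1⟩)
  refine ⟨t, fun θ => (⟨(q θ).1, (h1 θ).1.1.trans q0.1.2⟩, (q θ).2), fun θ => ?_,
    fun θ θ' hθ => ?_⟩
  · obtain ⟨h3, ⟨h4, h5⟩, h6⟩ := h1 θ
    exact ⟨⟨h3.1, h3.2⟩, h5, h6⟩
  · obtain ⟨h3, h4, h5, c, h6, h7⟩ := h2 θ θ' hθ
    rw [dif_pos ((h1 θ).1.1.trans q0.1.2)] at h3
    exact ⟨h3, h4, h5, ⟨c, h6.trans ((h1 θ).1.1.trans q0.1.2)⟩, h6, h7⟩

theorem Kn.rp (h : Kn π A) (hC : ∀ j, DC π (C j)) : Kn π (Rp X C) := by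
  classical
  intro R _ hR Θ _ _ hΘ L _ hL G B D hD q0 hq0
  obtain ⟨t, q, h1, h2⟩ := h ((∀ j, C j) × R) ((DC.pi hC).prod hR) Θ hΘ L hL G
    (fun x => B (⟨x.1, x.2.1⟩, x.2.2))
    (fun l => {x | ((⟨x.1, x.2.1⟩ : Rp X C), x.2.2) ∈ D l}) (by
      rintro l x h1 y hy
      exact hD l _ h1 _ ⟨⟨hy.1, fun j _ => hy.2.1 j⟩, hy.2.2⟩) (q0.1.a, q0.1.f, q0.2) (by
      intro l x hx
      obtain ⟨q', hq', h1⟩ := hq0 l (⟨x.1, x.2.1⟩, x.2.2) ⟨⟨hx.1, fun j _ => hx.2.1 j⟩, hx.2.2⟩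
      obtain ⟨f, h2, _, h3⟩ := Rp.fix hq'.1
      exact ⟨(q'.1.a, f, q'.2), ⟨hq'.1.1, h2, hq'.2⟩, hD l _ h1 _ ⟨h3, le_rfl⟩⟩)
  refine ⟨t, fun θ => (⟨(q θ).1, (q θ).2.1⟩, (q θ).2.2), fun θ => ?_, fun θ θ' hθ => ?_⟩
  · obtain ⟨h3, h4, h5⟩ := h1 θ
    exact ⟨⟨⟨h3.1, fun j _ => h3.2.1 j⟩, h3.2.2⟩, h4, h5⟩
  · obtain ⟨h3, h4, h5, c, h6, h7⟩ := h2 θ θ' hθ
    exact ⟨h3, h4, h5.2, ⟨c, (q θ').2.1⟩, ⟨h6, fun j _ => h5.1 j⟩, ⟨h7, fun j _ => le_rfl⟩⟩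

end

end Run7.h898
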