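import Mathlib
import Pool.Agent.Run7.h898.Bp2
import Pool.Agent.Run7.h898.Rp

set_option autoImplicit false
set_option linter.unusedSectionVars false
set_option linter.unusedVariables false

/-!
# Branches added by graded forcing do not split
-/

namespace Run7.h898

open Set Cardinal Pool.Agent.Helper669.Forcing

section

variable {P : Type} [Preorder P] {K X : Type} [LinearOrder K]

/-- the downward closure of a branch meets all levels -/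
theorem Bch.full2 {R : K × X → K × X → Set P} (hR : FT R) {p : P} {B : K × X → Set P}
    (hB : Bch R p B) : ∃ B' : K × X → Set P, Bch R p B' ∧ (∀ x, B x ⊆ B' x) ∧
      ∀ a, ∀ q ≤ p, ∃ r ≤ q, ∃ x : K × X, x.1 = a ∧ r ∈ B' x := by
  refine ⟨fun x => {q | ∃ y, q ∈ B y ∧ (x = y ∨ q ∈ R x y)}, ⟨?_, ?_, ?_, ?_⟩,
    fun x q hq => ⟨x, hq, Or.inl rfl⟩, ?_⟩
  · rintro x q ⟨y, h1, h2⟩ q' hq'
    exact ⟨y, hB.dn y q h1 q' hq', h2.imp id fun h => (hR.rg x y).dn _ h _ hq'⟩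
  · rintro x x' q hq ⟨y, h1, h2⟩ ⟨y', h3, h4⟩ hx
    have key : ∀ y y', q ∈ B y → q ∈ B y' → (x = y ∨ q ∈ R x y) → (x' = y' ∨ q ∈ R x' y') →
        y.1 ≤ y'.1 → q ∈ R x x' := by
      intro y y' h1 h3 h2 h4 hyy
      have h5 : x = y' ∨ q ∈ R x y' := by
        rcases hyy.lt_or_eq with h6 | h6
        · have h7 := hB.ch y y' q hq h1 h3 h6
          rcases h2 with rfl | h2
          · exact Or.inr h7
          · exact Or.inr (hR.tr _ _ _ _ h2 h7)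
        · rw [← hB.eq y y' q hq h1 h3 h6]
          exact h2
      rcases h5 with rfl | h5
      · rcases h4 with rfl | h4
        · exact absurd hx (lt_irrefl _)
        · exact absurd (hR.lt _ _ _ h4) (not_lt.2 hx.le)
      · rcases h4 with rfl | h4
        · exact h5
        · exact hR.cmp _ _ _ _ h5 h4 hx
    rcases le_total y.1 y'.1 with h5 | h5
    · exact key y y' h1 h3 h2 h4 h5
    · have h6 : x' = y ∨ q ∈ R x' y := by
        rcases h5.lt_or_eq with h6 | h6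
        · have h7 := hB.ch y' y q hq h3 h1 h6
          rcases h4 with rfl | h4
          · exact Or.inr h7
          · exact Or.inr (hR.tr _ _ _ _ h4 h7)
        · rw [← hB.eq y' y q hq h3 h1 h6]
          exact h4
      rcases h6 with rfl | h6
      · rcases h2 with rfl | h2
        · exact absurd hx (lt_irrefl _)
        · exact h2
      · rcases h2 with rfl | h2
        · exact absurd (hR.lt _ _ _ h6) (not_lt.2 hx.le)
        · exact hR.cmp _ _ _ _ h2 h6 hx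
  · rintro x x' q hq ⟨y, h1, h2⟩ ⟨y', h3, h4⟩ hx
    have key : ∀ x x' y y', q ∈ B y → q ∈ B y' → (x = y ∨ q ∈ R x y) →
        (x' = y' ∨ q ∈ R x' y') → x.1 = x'.1 → y.1 ≤ y'.1 → x = x' := by
      intro x x' y y' h1 h3 h2 h4 hx hyy
      have h5 : x = y' ∨ q ∈ R x y' := by
        rcases hyy.lt_or_eq with h6 | h6
        · have h7 := hB.ch y y' q hq h1 h3 h6
          rcases h2 with rfl | h2
          · exact Or.inr h7
          · exact Or.inr (hR.tr _ _ _ _ h2 h7)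
        · rw [← hB.eq y y' q hq h1 h3 h6]
          exact h2
      rcases h5 with h5 | h5
      · rcases h4 with h4 | h4
        · rw [h5, h4]
        · have h7 := hR.lt _ _ _ h4
          rw [← hx, h5] at h7
          exact absurd h7 (lt_irrefl _)
      · rcases h4 with h4 | h4
        · have h7 := hR.lt _ _ _ h5
          rw [hx, h4] at h7
          exact absurd h7 (lt_irrefl _)
        · exact hR.unq _ _ _ _ h5 h4 hx
    rcases le_total y.1 y'.1 with h5 | h5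
    · exact key x x' y y' h1 h3 h2 h4 hx h5
    · exact (key x' x y' y h3 h1 h4 h2 hx.symm h5).symm
  · intro a q hq
    obtain ⟨r, hr, x, hx, h⟩ := hB.un a q hq
    exact ⟨r, hr, x, hx, x, h, Or.inl rfl⟩
  · intro a q hq
    obtain ⟨r, hr, y, hy, h⟩ := hB.un a q hq
    obtain ⟨r', hr', x, hx, h'⟩ := hR.ex r y a hy
    exact ⟨r', hr'.trans hr, x, hx, y, hB.dn y r h r' hr', Or.inr h'⟩

end

section

variable {Z R U : Type} [Preorder Z] [Preorder R] [Preorder U] {K X : Type} [LinearOrder K]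

/-- the branch does not split -/
def NS (T : K × X → K × X → Set (Z × R)) (B : K × X → Set (Z × R × U)) (z : Z) (r : R) (u : U) :
    Prop :=
  ∀ z2 ≤ z, ∀ r2 ≤ r, ∀ f ≤ u, ∀ f' ≤ u, ∀ y y' : K × X,
    (z2, r2, f) ∈ B y → (z2, r2, f') ∈ B y' → y.1 ≤ y'.1 →
    ∃ z5 ≤ z2, ∃ r5 ≤ r2, ∃ y2, (z5, r5) ∈ T y y2 ∧ (z5, r5) ∈ T y' y2

/-- the branch splits everywhere -/
def Spl (B : K × X → Set (Z × R × U)) (z1 : Z) (r1 : R) (u1 : U) : Prop :=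
  ∀ z ≤ z1, ∀ r ≤ r1, ∀ w0 ≤ u1, ∀ w1 ≤ u1,
    ∃ z' ≤ z, ∃ r' ≤ r, ∃ w0' ≤ w0, ∃ w1' ≤ w1, ∃ β, SepB B β z' r' w0' w1'

theorem split_or {T : K × X → K × X → Set (Z × R)} (hT : TL T) (hK : ∀ a : K, ∃ b, a < b)
    {z1 : Z} {r1 : R} {u1 : U} {B : K × X → Set (Z × R × U)}
    (hB : Bch (fun x y => {p : Z × R × U | (p.1, p.2.1) ∈ T x y}) (z1, r1, u1) B)
    (h : ¬ Spl B z1 r1 u1) : ∃ z ≤ z1, ∃ r ≤ r1, ∃ u ≤ u1, NS T B z r u := by
  unfold Spl at h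
  push Not at h
  obtain ⟨z, hz, r, hr, w0, hw0, w1, hw1, hcon⟩ := h
  have H1 : ∀ z' ≤ z, ∀ r' ≤ r, ∀ w0' ≤ w0, ∀ w1' ≤ w1, ∀ β,
      ∃ z'' ≤ z', ∃ r'' ≤ r', ∃ w0'' ≤ w0', ∃ w1'' ≤ w1', ∃ y : K × X,
        β ≤ y.1 ∧ (z'', r'', w0'') ∈ B y ∧ (z'', r'', w1'') ∈ B y := by
    intro z' hz' r' hr' w0' hw0' w1' hw1' β
    by_contra h1
    refine hcon z' hz' r' hr' w0' hw0' w1' hw1' β ?_
    intro z'' h2 r'' h3 w0'' h4 w1'' h5 y h7 h8
    exact h1 ⟨z'', h2, r'', h3, w0'', h4, w1'', h5, y, h7, h8.1, h8.2⟩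
  refine ⟨z, hz, r, hr, w1, hw1, ?_⟩
  intro z2 hz2 r2 hr2 f hf f' hf' y y' hy hy' hyy
  obtain ⟨β, hβ⟩ := hK y'.1
  obtain ⟨z3, hz3, r3, hr3, f3, hf3, f4, hf4, y1, hy1, h5, h6⟩ :=
    H1 z2 hz2 r2 hr2 w0 le_rfl f hf β
  obtain ⟨β', hβ'⟩ := hK y1.1
  obtain ⟨z5, hz5, r5, hr5, f5, hf5, f6, hf6, y2, hy2, h7, h8⟩ :=
    H1 z3 (hz3.trans hz2) r3 (hr3.trans hr2) f3 hf3 f' hf' β'
  have hz51 : z5 ≤ z1 := hz5.trans (hz3.trans (hz2.trans hz))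
  have hr51 : r5 ≤ r1 := hr5.trans (hr3.trans (hr2.trans hr))
  have k1 : (z5, r5, f4) ∈ B y := hB.dn _ _ hy _ ⟨hz5.trans hz3, hr5.trans hr3, hf4⟩
  have k2 : (z5, r5, f4) ∈ B y1 := hB.dn _ _ h6 _ ⟨hz5, hr5, le_rfl⟩
  have k3 : (z5, r5, f5) ∈ B y1 := hB.dn _ _ h5 _ ⟨hz5, hr5, hf5⟩
  have k4 : (z5, r5, f6) ∈ B y' := hB.dn _ _ hy' _ ⟨hz5.trans hz3, hr5.trans hr3, hf6⟩
  have l1 := hB.ch y y1 _ ⟨hz51, hr51, (hf4.trans hf).trans hw1⟩ k1 k2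
    (hyy.trans_lt (hβ.trans_le hy1))
  have l2 := hB.ch y1 y2 _ ⟨hz51, hr51, (hf5.trans hf3).trans hw0⟩ k3 h7 (hβ'.trans_le hy2)
  have l3 := hB.ch y' y2 _ ⟨hz51, hr51, (hf6.trans hf').trans hw1⟩ k4 h8
    ((hβ.trans_le hy1).trans (hβ'.trans_le hy2))
  exact ⟨z5, hz5.trans hz3, r5, hr5.trans hr3, y2, hT.tr _ _ _ _ l1 l2, l3⟩

end

section

variable {Z R U : Type} [Preorder Z] [Preorder R] [Preorder U] {K X : Type} [LinearOrder K]
  {κ : ℕ → Cardinal.{0}} (GR : Gr R κ) (GU : Gr U κ)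

theorem stage2 {z1 : Z} {r1 : R} {u1 : U} {B : K × X → Set (Z × R × U)}
    (hspl : Spl B z1 r1 u1) (k : ℕ) (hκ : ℵ₀ ≤ κ k) (hZ : #Z ≤ κ k)
    (hbd : ∀ (ι : Type) (f : ι → K), #ι ≤ Order.succ (κ k) → ∃ b, ∀ i, f i < b)
    {r : R} (hr : r ≤ r1) {I : Type} (hI : #I ≤ Order.succ (κ k)) (w : I → U)
    (hw : ∀ i, w i ≤ u1) :
    ∃ r' ≤ r, (GR.e k r').1 = (GR.e k r).1 ∧ ∃ w' : I → U, (∀ i, w' i ≤ w i ∧
      (GU.e k (w' i)).1 = (GU.e k (w i)).1) ∧ ∃ β, ∀ i i', i ≠ i' →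
        SepK GR GU B k z1 β r' (w' i) (w' i') := by
  classical
  have h0 : ℵ₀ ≤ Order.succ (κ k) := hκ.trans (Order.le_succ _)
  let lr := (GR.e k r).1
  let lw : I → GU.Lo k := fun i => (GU.e k (w i)).1
  have hXd : DC (Order.succ (κ k)) (GR.Up k × (I → GU.Up k)) :=
    (GR.dc k).prod (DC.pi fun _ => GU.dc k)
  have hJ : #(I × I × Z × GR.Lo k × GU.Lo k × GU.Lo k) ≤ Order.succ (κ k) := by
    simp only [mk_prod, lift_id]
    exact mul_le_of_le h0 hI (mul_le_of_le h0 hI (mul_le_of_le h0 (hZ.trans (Order.le_succ _))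
      (mul_le_of_le h0 ((GR.card k).trans (Order.le_succ _)) (mul_le_of_le h0
        ((GU.card k).trans (Order.le_succ _)) ((GU.card k).trans (Order.le_succ _))))))
  obtain ⟨⟨a, F⟩, hq, h1⟩ := hXd.all h0 hJ ((GR.e k r).2, fun i => (GU.e k (w i)).2)
    (fun i q => i.1 ≠ i.2.1 → i.2.2.1 ≤ z1 → i.2.2.2.1 ≤ lr → i.2.2.2.2.1 ≤ lw i.1 →
      i.2.2.2.2.2 ≤ lw i.2.1 → ∃ β, ∃ z' ≤ i.2.2.1, ∃ l' ≤ i.2.2.2.1, ∃ m2 ≤ i.2.2.2.2.1,
        ∃ m2' ≤ i.2.2.2.2.2, SepB B β z' (GR.gl k l' q.1) (GU.gl k m2 (q.2 i.1))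
          (GU.gl k m2' (q.2 i.2.1))) (by
    rintro i p q hq h2 h3 h4 h5 h6 h7
    obtain ⟨β, z', h8, l', h9, m2, h10, m2', h11, h12⟩ := h2 h3 h4 h5 h6 h7
    exact ⟨β, z', h8, l', h9, m2, h10, m2', h11, h12.mono le_rfl (GR.gl_le le_rfl hq.1)
      (GU.gl_le le_rfl (hq.2 _)) (GU.gl_le le_rfl (hq.2 _))⟩) (by
    rintro ⟨i, i', z, l, m, m'⟩ ⟨a, F⟩ hp
    by_cases h2 : i ≠ i' ∧ z ≤ z1 ∧ l ≤ lr ∧ m ≤ lw i ∧ m' ≤ lw i'
    · obtain ⟨h3, h4, h5, h6, h7⟩ := h2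
      have e1 : GR.gl k l a ≤ r1 := by
        refine le_trans ?_ hr
        conv_rhs => rw [← GR.gl_e k r]
        exact GR.gl_le h5 hp.1
      have e2 : ∀ i, ∀ m ≤ lw i, GU.gl k m (F i) ≤ u1 := by
        intro i m hm
        refine le_trans ?_ (hw i)
        conv_rhs => rw [← GU.gl_e k (w i)]
        exact GU.gl_le hm (hp.2 i)
      obtain ⟨z', hz', r', hr', w0, hw0, w1, hw1, β, h8⟩ := hspl z h4 _ e1 _
        (e2 i m h6) _ (e2 i' m' h7)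
      have k1 := GR.le_gl hr'
      have k2 := GU.le_gl hw0
      have k3 := GU.le_gl hw1
      refine ⟨((GR.e k r').2, Function.update (Function.update F i (GU.e k w0).2) i'
        (GU.e k w1).2), ⟨k1.2, ?_⟩, fun _ _ _ _ _ => ⟨β, z', hz', (GR.e k r').1, k1.1,
        (GU.e k w0).1, k2.1, (GU.e k w1).1, k3.1, ?_⟩⟩
      · refine (upd_le ?_).trans (upd_le k2.2)
        rw [Function.update_of_ne h3.symm]
        exact k3.2
      · have e3 : Function.update (Function.update F i (GU.e k w0).2) i' (GU.e k w1).2 i =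
            (GU.e k w0).2 := by
          rw [Function.update_of_ne h3, Function.update_self]
        have e4 : Function.update (Function.update F i (GU.e k w0).2) i' (GU.e k w1).2 i' =
            (GU.e k w1).2 := Function.update_self _ _ _
        change SepB B β z' (GR.gl k (GR.e k r').1 (GR.e k r').2)
          (GU.gl k (GU.e k w0).1 (Function.update (Function.update F i (GU.e k w0).2) i'
            (GU.e k w1).2 i)) (GU.gl k (GU.e k w1).1 (Function.update (Function.update F i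
            (GU.e k w0).2) i' (GU.e k w1).2 i'))
        rw [e3, e4, GR.gl_e, GU.gl_e, GU.gl_e]
        exact h8
    · exact ⟨(a, F), le_rfl, fun h3 h4 h5 h6 h7 => absurd ⟨h3, h4, h5, h6, h7⟩ h2⟩)
  -- bound
  have h2 : ∀ i : I × I × Z × GR.Lo k × GU.Lo k × GU.Lo k, ∃ β : K, i.1 ≠ i.2.1 →
      i.2.2.1 ≤ z1 → i.2.2.2.1 ≤ lr → i.2.2.2.2.1 ≤ lw i.1 →
      i.2.2.2.2.2 ≤ lw i.2.1 → ∃ z' ≤ i.2.2.1, ∃ l' ≤ i.2.2.2.1, ∃ m2 ≤ i.2.2.2.2.1,
        ∃ m2' ≤ i.2.2.2.2.2, SepB B β z' (GR.gl k l' a) (GU.gl k m2 (F i.1))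
          (GU.gl k m2' (F i.2.1)) := by
    intro i
    by_cases h3 : i.1 ≠ i.2.1 ∧ i.2.2.1 ≤ z1 ∧ i.2.2.2.1 ≤ lr ∧ i.2.2.2.2.1 ≤ lw i.1 ∧
      i.2.2.2.2.2 ≤ lw i.2.1
    · obtain ⟨β, h4⟩ := h1 i h3.1 h3.2.1 h3.2.2.1 h3.2.2.2.1 h3.2.2.2.2
      exact ⟨β, fun _ _ _ _ _ => h4⟩
    · obtain ⟨b, _⟩ := hbd Empty (fun e => e.elim) (by simp)
      exact ⟨b, fun h4 h5 h6 h7 h8 => absurd ⟨h4, h5, h6, h7, h8⟩ h3⟩
  choose β hβ using h2
  obtain ⟨β0, hβ0⟩ := hbd _ β hJ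
  refine ⟨GR.gl k lr a, ?_, ?_, fun i => GU.gl k (lw i) (F i), fun i => ⟨?_, ?_⟩, β0,
    fun i i' hne => ?_⟩
  · conv_rhs => rw [← GR.gl_e k r]
    exact GR.gl_le le_rfl hq.1
  · rw [GR.e_gl]
  · conv_rhs => rw [← GU.gl_e k (w i)]
    exact GU.gl_le le_rfl (hq.2 i)
  · rw [GU.e_gl]
  · intro z hz l hl m hm m' hm'
    rw [GR.e_gl] at hl
    rw [GU.e_gl] at hm hm'
    obtain ⟨z', h3, l', h4, m2, h5, m2', h6, h7⟩ := hβ (i, i', z, l, m, m') hne hz hl hm hm'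
    refine ⟨z', h3, l', h4, m2, h5, m2', h6, ?_⟩
    rw [GR.e_gl, GU.e_gl, GU.e_gl]
    intro z2 hz2 r2 hr2 a2 ha2 a3 ha3 y hy
    exact h7 z2 hz2 r2 hr2 a2 ha2 a3 ha3 y ((hβ0 _).le.trans hy)

include GR GU in
/-- The main theorem: the branch does not split below some condition. -/
theorem nb {T : K × X → K × X → Set (Z × R)} (hT : FT T) [WellFoundedLT K]
    {lam : Cardinal.{0}} (hbd : Bd lam K) (hlam : ∀ k, Order.succ (κ k) ≤ lam)
    (hκ : ∀ k, ℵ₀ ≤ κ k) (hmono : StrictMono κ) (hsup : ∀ μ < lam, ∃ k, μ ≤ κ k)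
    (hKcard : #K ≤ Order.succ lam)
    (k0 : ℕ) (hZ : #Z ≤ κ k0) (V : ℕ → Set X) (hV : ∀ x, ∃ n, x ∈ V n)
    (hV' : ∀ n, #(V n) ≤ κ n)
    {z1 : Z} {r1 : R} {u1 : U} {B : K × X → Set (Z × R × U)}
    (hB : Bch (fun x y => {p : Z × R × U | (p.1, p.2.1) ∈ T x y}) (z1, r1, u1) B) :
    ∃ z ≤ z1, ∃ r ≤ r1, ∃ u ≤ u1, NS T B z r u := by
  classical
  by_contra hcon
  have hlam0 : ℵ₀ ≤ lam := (hκ 0).trans ((Order.le_succ _).trans (hlam 0))
  have hK : ∀ a : K, ∃ b, a < b := fun a => by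
    obtain ⟨b, hb⟩ := hbd Unit (fun _ => a) (by rw [mk_unit]; exact one_le_aleph0.trans hlam0)
    exact ⟨b, hb ()⟩
  have hbd' : ∀ k, ∀ (ι : Type) (f : ι → K), #ι ≤ Order.succ (κ k) → ∃ b, ∀ i, f i < b :=
    fun k ι f hι => hbd ι f (hι.trans (hlam k))
  -- all levels
  let π : Z × R × U → Z × R := fun p => (p.1, p.2.1)
  have hπ : Pj π := ⟨fun q q' h => ⟨h.1, h.2.1⟩, fun q p hp => ⟨(p.1, p.2, q.2.2),
    ⟨hp.1, hp.2, le_rfl⟩, le_rfl⟩⟩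
  obtain ⟨B', hB', hBB, hfull⟩ := Bch.full2 (hT.pb hπ) hB
  have hspl : Spl B' z1 r1 u1 := by
    by_contra h
    obtain ⟨z, hz, r, hr, u, hu, h1⟩ := split_or hT.toTL hK hB' h
    exact hcon ⟨z, hz, r, hr, u, hu, fun z2 hz2 r2 hr2 f hf f' hf' y y' hy hy' hyy =>
      h1 z2 hz2 r2 hr2 f hf f' hf' y y' (hBB _ hy) (hBB _ hy') hyy⟩
  -- index sets
  let Tn : ℕ → Type := fun n => (Order.succ (κ (k0 + n))).out
  have hTn : ∀ n, #(Tn n) = Order.succ (κ (k0 + n)) := fun n => mk_out _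
  have hTne : ∀ n, Nonempty (Tn n) := fun n => by
    rw [← mk_ne_zero_iff, hTn]
    exact (lt_of_le_of_lt zero_le (Order.lt_succ _)).ne'
  let H : Type := ∀ n, Tn n
  have hIn : ∀ n, #(∀ i : Fin (n + 1), Tn i) ≤ Order.succ (κ (k0 + n)) := by
    intro n
    rw [mk_pi]
    refine (Cardinal.prod_le_prod _ (fun _ => Order.succ (κ (k0 + n))) fun i => ?_).trans ?_
    · rw [hTn]
      exact Order.succ_le_succ (hmono.monotone (Nat.add_le_add_left (Nat.lt_succ_iff.1 i.2) _))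
    · rw [Cardinal.prod_const']
      rw [mk_fin]
      exact Cardinal.power_nat_le ((hκ _).trans (Order.le_succ _))
  -- one step
  have step : ∀ n, ∀ s : R × (H → U), s.1 ≤ r1 → (∀ h, s.2 h ≤ u1) →
      (∀ h h' : H, (∀ i < n, h i = h' i) → s.2 h = s.2 h') →
      ∃ s' : R × (H → U), s'.1 ≤ s.1 ∧ (GR.e (k0 + n) s'.1).1 = (GR.e (k0 + n) s.1).1 ∧
        (∀ h, s'.2 h ≤ s.2 h ∧ (GU.e (k0 + n) (s'.2 h)).1 = (GU.e (k0 + n) (s.2 h)).1) ∧
        (∀ h h' : H, (∀ i < n + 1, h i = h' i) → s'.2 h = s'.2 h') ∧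
        ∃ β, ∀ h h' : H, h n ≠ h' n → SepK GR GU B' (k0 + n) z1 β s'.1 (s'.2 h) (s'.2 h') := by
    intro n s hs1 hs2 hs3
    let rst : H → ∀ i : Fin (n + 1), Tn i := fun h i => h i
    let ext : (∀ i : Fin (n + 1), Tn i) → H := fun σ i =>
      if h : i < n + 1 then σ ⟨i, h⟩ else (hTne i).some
    have hext : ∀ h : H, ∀ i < n, ext (rst h) i = h i := by
      intro h i hi
      simp only [ext, rst, dif_pos (hi.trans (Nat.lt_succ_self n))]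
    obtain ⟨r', h1, h2, w', h3, β, h4⟩ := stage2 GR GU hspl (k0 + n) (hκ _)
      (hZ.trans (hmono.monotone (Nat.le_add_right _ _))) (hbd' _) hs1 (hIn n)
      (fun σ => s.2 (ext σ)) (fun σ => hs2 _)
    refine ⟨(r', fun h => w' (rst h)), h1, h2, fun h => ?_, fun h h' hh => ?_, β,
      fun h h' hne => ?_⟩
    · have := h3 (rst h)
      rw [hs3 (ext (rst h)) h (hext h)] at this
      exact this
    · have : rst h = rst h' := funext fun i => hh i i.2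
      change w' (rst h) = w' (rst h')
      rw [this]
    · refine h4 (rst h) (rst h') fun e => hne ?_
      exact congrFun e ⟨n, Nat.lt_succ_self n⟩
  choose! nx hn1 hn2 hn3 hn4 hn5 using step
  let st : ℕ → R × (H → U) := fun n => Nat.rec (r1, fun _ => u1) (fun n s => nx n s) n
  have hst : ∀ n, st (n + 1) = nx n (st n) := fun n => rfl
  have inv : ∀ n, (st n).1 ≤ r1 ∧ (∀ h, (st n).2 h ≤ u1) ∧
      ∀ h h' : H, (∀ i < n, h i = h' i) → (st n).2 h = (st n).2 h' := by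
    intro n
    induction n with
    | zero => exact ⟨le_rfl, fun _ => le_rfl, fun _ _ _ => rfl⟩
    | succ n ih =>
      obtain ⟨i1, i2, i3⟩ := ih
      rw [hst]
      exact ⟨(hn1 n _ i1 i2 i3).trans i1, fun h => (hn3 n _ i1 i2 i3 h).1.trans (i2 h),
        hn4 n _ i1 i2 i3⟩
  have f1 : ∀ n, (st (n + 1)).1 ≤ (st n).1 := fun n => hn1 n _ (inv n).1 (inv n).2.1 (inv n).2.2
  have f2 : ∀ n, (GR.e (k0 + n) (st (n + 1)).1).1 = (GR.e (k0 + n) (st n).1).1 := fun n =>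
    hn2 n _ (inv n).1 (inv n).2.1 (inv n).2.2
  have f3 : ∀ n h, (st (n + 1)).2 h ≤ (st n).2 h ∧
      (GU.e (k0 + n) ((st (n + 1)).2 h)).1 = (GU.e (k0 + n) ((st n).2 h)).1 := fun n =>
    hn3 n _ (inv n).1 (inv n).2.1 (inv n).2.2
  have f5 : ∀ n, ∃ β, ∀ h h' : H, h n ≠ h' n →
      SepK GR GU B' (k0 + n) z1 β (st (n + 1)).1 ((st (n + 1)).2 h) ((st (n + 1)).2 h') :=
    fun n => hn5 n _ (inv n).1 (inv n).2.1 (inv n).2.2
  choose β hβ using f5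
  obtain ⟨βs, hβs⟩ := hbd ℕ β (by rw [mk_nat]; exact hlam0)
  obtain ⟨r', hr'⟩ := GR.fus k0 (fun n => (st n).1) f1 f2
  have hwf : ∀ h, ∃ w : U, ∀ n, w ≤ (st n).2 h := fun h =>
    GU.fus k0 (fun n => (st n).2 h) (fun n => (f3 n h).1) fun n => (f3 n h).2
  choose w hw using hwf
  -- many functions
  have hHK : #K ≤ #H := by
    refine hKcard.trans (Order.succ_le_of_lt ?_)
    have h1 : lam ≤ Cardinal.sum fun n => κ (k0 + n) := by
      by_contra h1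
      push Not at h1
      obtain ⟨k, hk⟩ := hsup _ h1
      have h2 : κ (k + 1) ≤ Cardinal.sum fun n => κ (k0 + n) :=
        (hmono.monotone (Nat.le_add_left (k + 1) k0)).trans
          (Cardinal.le_sum (fun n => κ (k0 + n)) (k + 1))
      exact absurd (h2.trans hk) (not_le.2 (hmono (Nat.lt_succ_self k)))
    refine h1.trans_lt ?_
    change _ < #(∀ n, Tn n)
    rw [mk_pi]
    refine (Cardinal.sum_lt_prod _ (fun n => Order.succ (κ (k0 + n)))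
      fun n => Order.lt_succ _).trans_le (Cardinal.prod_le_prod _ _ fun n => ?_)
    rw [hTn]
  obtain ⟨ι⟩ := hHK
  -- the nodes on the level `βs`
  let Φ : X → K → Set (Z × R) := fun ζ a => {p | p ≤ (z1, r') ∧ ∃ u ≤ w (ι a),
    (p.1, p.2, u) ∈ B' (βs, ζ)}
  have hΦd : ∀ ζ a, Down (Φ ζ a) := by
    rintro ζ a p ⟨h1, u, h2, h3⟩ q hq
    exact ⟨hq.trans h1, u, h2, hB'.dn _ _ h3 _ ⟨hq.1, hq.2, le_rfl⟩⟩
  have hΦu : ∀ ζ a b p, p ∈ Φ ζ a → p ∈ Φ ζ b → a = b := by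
    rintro ζ a b p ⟨h1, u, h2, h3⟩ ⟨_, u', h4, h5⟩
    by_contra hab
    have hne : ι a ≠ ι b := fun e => hab (ι.injective e)
    obtain ⟨n, hn⟩ : ∃ n, ι a n ≠ ι b n := by
      by_contra h6
      push Not at h6
      exact hne (funext h6)
    obtain ⟨z', h7, l', h8, m2, h9, m2', h10, h11⟩ := hβ n (ι a) (ι b) hn p.1 h1.1
      (GR.e (k0 + n) p.2).1 (GR.e_mono _ (h1.2.trans (hr' (n + 1)))).1
      (GU.e (k0 + n) u).1 (GU.e_mono _ (h2.trans (hw (ι a) (n + 1)))).1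
      (GU.e (k0 + n) u').1 (GU.e_mono _ (h4.trans (hw (ι b) (n + 1)))).1
    have k1 : GR.gl (k0 + n) l' (GR.e (k0 + n) p.2).2 ≤ p.2 := by
      conv_rhs => rw [← GR.gl_e (k0 + n) p.2]
      exact GR.gl_le h8 le_rfl
    have k2 : GU.gl (k0 + n) m2 (GU.e (k0 + n) u).2 ≤ u := by
      conv_rhs => rw [← GU.gl_e (k0 + n) u]
      exact GU.gl_le h9 le_rfl
    have k3 : GU.gl (k0 + n) m2' (GU.e (k0 + n) u').2 ≤ u' := by
      conv_rhs => rw [← GU.gl_e (k0 + n) u']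
      exact GU.gl_le h10 le_rfl
    refine h11 z' le_rfl (GR.gl (k0 + n) l' (GR.e (k0 + n) p.2).2)
      (GR.gl_le le_rfl (GR.e_mono _ (h1.2.trans (hr' (n + 1)))).2)
      (GU.gl (k0 + n) m2 (GU.e (k0 + n) u).2)
      (GU.gl_le le_rfl (GU.e_mono _ (h2.trans (hw (ι a) (n + 1)))).2)
      (GU.gl (k0 + n) m2' (GU.e (k0 + n) u').2)
      (GU.gl_le le_rfl (GU.e_mono _ (h4.trans (hw (ι b) (n + 1)))).2) (βs, ζ) (hβs n).le
      ⟨hB'.dn _ _ h3 _ ⟨h7, k1, k2⟩, hB'.dn _ _ h5 _ ⟨h7, k1, k3⟩⟩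
  obtain ⟨r'', h1, b, h2⟩ := GR.reg (Z := Z) k0 hκ (fun k hk => hZ.trans (hmono.monotone hk))
    (La := K) (fun ι f ⟨k, hk⟩ => hbd' k ι f hk) V hV (fun n => (hV' n).trans
      (hmono.monotone (Nat.le_add_left _ _))) Φ hΦd hΦu (z1, r')
  obtain ⟨q, hq, x, hx, h3⟩ := hfull βs (z1, r'', w (ι b)) ⟨le_rfl, h1.trans (hr' 0),
    hw (ι b) 0⟩
  have h4 : (q.1, q.2.1) ∈ Φ x.2 b := by
    refine ⟨⟨hq.1, hq.2.1.trans h1⟩, q.2.2, hq.2.2, ?_⟩
    rw [← hx]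
    exact h3
  exact absurd (h2 x.2 (q.1, q.2.1) ⟨hq.1, hq.2.1⟩ b h4) (lt_irrefl _)

end

end Run7.h898
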