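import Mathlib
import Pool.Agent.Run7.h898.Nb

set_option autoImplicit false
set_option linter.unusedSectionVars false
set_option linter.unusedVariables false

/-!
# Branches of trees in extensions by restricted products
-/

namespace Run7.h898

open Set Cardinal Pool.Agent.Helper669.Forcing

/-- fixing the small part of the conditions -/
theorem fixlow {Lo Up K X : Type} [Preorder Lo] [Preorder Up] [LinearOrder K]
    {mu : Cardinal.{0}} (h0 : ℵ₀ ≤ mu) (hLo : #Lo ≤ mu) (hUp : DC mu Up) (hbd : Bd mu K)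
    (b : K × X → Set (Lo × Up)) (hb : ∀ y, Down (b y)) (l0 : Lo) (u0 : Up)
    (hun : ∀ a, ∀ q ≤ (l0, u0), ∃ r ≤ q, ∃ y : K × X, a < y.1 ∧ r ∈ b y) :
    ∃ l ≤ l0, ∃ u ≤ u0, ∀ u' ≤ u, ∀ a, ∃ u'' ≤ u', ∃ y : K × X, a < y.1 ∧ (l, u'') ∈ b y := by
  classical
  by_contra hcon
  push Not at hcon
  obtain ⟨us, hus, h1⟩ := hUp.all h0 hLo u0
    (fun l u => l ≤ l0 → ∃ a, ∀ u'' ≤ u, ∀ y : K × X, a < y.1 → (l, u'') ∉ b y)
    (fun l u u' hu h hl => by
      obtain ⟨a, ha⟩ := h hl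
      exact ⟨a, fun u'' hu'' => ha u'' (hu''.trans hu)⟩) (by
      intro l u hu
      by_cases hl : l ≤ l0
      · obtain ⟨u', hu', a, ha⟩ := hcon l hl u hu
        exact ⟨u', hu', fun _ => ⟨a, ha⟩⟩
      · exact ⟨u, le_rfl, fun h => absurd h hl⟩)
  have h2 : ∀ l : Lo, ∃ a : K, l ≤ l0 → ∀ u'' ≤ us, ∀ y : K × X, a < y.1 → (l, u'') ∉ b y := by
    intro l
    by_cases hl : l ≤ l0
    · obtain ⟨a, ha⟩ := h1 l hl
      exact ⟨a, fun _ => ha⟩
    · obtain ⟨c, _⟩ := hbd Empty (fun e => e.elim) (by simp)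
      exact ⟨c, fun h => absurd h hl⟩
  choose a ha using h2
  obtain ⟨c, hc⟩ := hbd Lo a hLo
  obtain ⟨r, hr, y, hy, h3⟩ := hun c (l0, us) ⟨le_rfl, hus⟩
  exact ha r.1 hr.1 r.2 hr.2 y ((hc r.1).trans hy) h3

section

variable {A J Jw : Type} [Preorder A] {X : A →o Set J} {C : Jw → Type} [∀ j, Preorder (C j)]
  {ι : J → Jw} {κ : ℕ → Cardinal.{0}} {K W : Type} [LinearOrder K]

variable (X C ι) in
/-- the coordinates of a restricted product in a larger product -/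
def rco (a : A) (h : ∀ j, C j) : Rp X fun j => C (ι j) := ⟨a, fun j => h (ι j)⟩

/-- the branch does not split, uniformly in the lower part -/
def NSW (T : K × W → K × W → Set (Rp X fun j => C (ι j))) (b : K × W → Set (∀ j, C j))
    (z' z'' : A) (w : ∀ j, C j) : Prop :=
  ∀ z2 ≤ z'', ∀ h ≤ w, ∀ h' ≤ w, (∀ j ∈ X z', h (ι j) = h' (ι j)) → ∀ y y' : K × W,
    h ∈ b y → h' ∈ b y' → y.1 ≤ y'.1 → ∃ p ≤ rco X C ι z2 h, ∃ y2, p ∈ T y y2 ∧ p ∈ T y' y2

theorem NSW.mono {T : K × W → K × W → Set (Rp X fun j => C (ι j))} {b : K × W → Set (∀ j, C j)}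
    {z' z'' : A} {w w' : ∀ j, C j} (h : NSW T b z' z'' w) (hw : w' ≤ w) : NSW T b z' z'' w' :=
  fun z2 hz2 h1 hh1 h2 hh2 => h z2 hz2 h1 (hh1.trans hw) h2 (hh2.trans hw)

theorem sp_fst {J J' : Type} {C : J → Type} [∀ j, Preorder (C j)] {ι : J' → J}
    (hι : Function.Injective ι) (r : ∀ j, C (ι j)) (u : ∀ j : {j // j ∉ range ι}, C j) (j : J') :
    (sp hι).symm (r, u) (ι j) = r j :=
  congrFun (congrArg Prod.fst ((sp (C := C) hι).apply_symm_apply (r, u))) j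

theorem pull_ns (hι : Function.Injective ι) (lvl : Jw → ℕ) (N : ℕ)
    (hcard : ∀ (k : ℕ) (J' : Type) (g : J' → Jw), Function.Injective g → (∀ j', lvl (g j') < k) →
      #(∀ j', C (g j')) ≤ κ k)
    (hdc : ∀ k j, ¬ lvl j < k → DC (Order.succ (κ k)) (C j))
    [WellFoundedLT K] {T : K × W → K × W → Set (Rp X fun j => C (ι j))} (hT : FT T)
    {lam : Cardinal.{0}} (hbd : Bd lam K) (hlam : ∀ k, Order.succ (κ k) ≤ lam)
    (hκ : ∀ k, ℵ₀ ≤ κ k) (hmono : StrictMono κ) (hsup : ∀ μ < lam, ∃ k, μ ≤ κ k)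
    (hKcard : #K ≤ Order.succ lam) (hA : #A ≤ κ N) (V : ℕ → Set W) (hV : ∀ x, ∃ n, x ∈ V n)
    (hV' : ∀ n, #(V n) ≤ κ n) {a : A} {h1 : ∀ j, C j} {b : K × W → Set (∀ j, C j)}
    (hb : Bch (fun x y => {h | rco X C ι a h ∈ T x y}) h1 b) {z' z : A} (hz' : z' ≤ a)
    (hz : z ≤ z') {w : ∀ j, C j} (hw : w ≤ h1) : ∃ z'' ≤ z, ∃ w' ≤ w, NSW T b z' z'' w' := by
  classical
  let ιz : {j : J // j ∈ X z'} → Jw := fun j => ι j.1
  have hιz : Function.Injective ιz := fun i j h => Subtype.ext (hι h)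
  let e := sp (C := C) hιz
  let gT : {z : A // z ≤ z'} × (∀ j : {j : J // j ∈ X z'}, C (ιz j)) → Rp X fun j => C (ι j) :=
    fun p => ⟨p.1.1, fun j => if h : j ∈ X z' then p.2 ⟨j, h⟩ else h1 (ι j)⟩
  have hgf : ∀ (p : {z : A // z ≤ z'} × (∀ j : {j : J // j ∈ X z'}, C (ιz j))) (j : J)
      (h : j ∈ X z'), (gT p).f j = p.2 ⟨j, h⟩ := fun p j h => dif_pos h
  have hX : ∀ y : {z : A // z ≤ z'}, ∀ j ∈ X y.1, j ∈ X z' := fun y j hj => X.monotone y.2 hj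
  have hPj : Pj gT := by
    refine ⟨fun q q' h => ⟨h.1, fun j hj => ?_⟩, fun q p hp => ?_⟩
    · have hj' := hX _ j hj
      rw [hgf q j hj', hgf q' j hj']
      exact h.2 _
    · have hpz : p.a ≤ z' := hp.1.trans q.1.2
      refine ⟨(⟨p.a, hpz⟩, fun j => if j.1 ∈ X p.a then p.f j.1 else q.2 j), ⟨hp.1, fun j => ?_⟩,
        le_rfl, fun j hj => ?_⟩
      · by_cases hj : j.1 ∈ X p.a
        · have h2 := hp.2 j.1 hj
          rw [hgf q j.1 j.2] at h2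
          change (if j.1 ∈ X p.a then p.f j.1 else q.2 j) ≤ q.2 j
          rw [if_pos hj]
          exact h2
        · change (if j.1 ∈ X p.a then p.f j.1 else q.2 j) ≤ q.2 j
          rw [if_neg hj]
      · have hj1 : j ∈ X p.a := hj
        have hj' : j ∈ X z' := X.monotone hpz hj1
        rw [hgf _ j hj']
        change (if j ∈ X p.a then p.f j else q.2 ⟨j, hj'⟩) ≤ p.f j
        rw [if_pos hj1]
  let GR : Gr (∀ j : {j : J // j ∈ X z'}, C (ιz j)) κ := Gr.pi (C := fun j => C (ιz j))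
    (fun j => lvl (ιz j)) (fun k => hcard k {j // lvl (ιz j) < k} (fun j => ιz j.1)
      (fun i j h => Subtype.ext (hιz h)) fun j => j.2) fun k j hj => hdc k _ hj
  let GU : Gr (∀ j : {j : Jw // j ∉ range ιz}, C j.1) κ := Gr.pi
    (C := fun j : {j : Jw // j ∉ range ιz} => C j.1)
    (fun j => lvl j.1) (fun k => hcard k {j : {j : Jw // j ∉ range ιz} // lvl j.1 < k}
      (fun j => j.1.1) (fun i j h => Subtype.ext (Subtype.ext h)) fun j => j.2)
    fun k j hj => hdc k _ hj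
  obtain ⟨z5, hz5, r, hr, u, hu, h5⟩ := nb GR GU (T := fun x y => gT ⁻¹' T x y) (hT.pb hPj) hbd
    hlam hκ hmono hsup hKcard N ((mk_subtype_le _).trans hA) V hV hV' (z1 := ⟨z, hz⟩)
    (r1 := (e w).1) (u1 := (e w).2) (B := fun y => {p | e.symm (p.2.1, p.2.2) ∈ b y}) (by
    have key : ∀ p : {z : A // z ≤ z'} × (∀ j : {j : J // j ∈ X z'}, C (ιz j)) ×
        (∀ j : {j : Jw // j ∉ range ιz}, C j.1), p ≤ (⟨z, hz⟩, (e w).1, (e w).2) →
        e.symm (p.2.1, p.2.2) ≤ h1 := by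
      intro p hp
      refine le_trans ?_ hw
      rw [OrderIso.symm_apply_le]
      exact hp.2
    refine ⟨?_, ?_, ?_, ?_⟩
    · intro y p hp p' hp'
      exact hb.dn y _ hp _ (e.symm.monotone ⟨hp'.2.1, hp'.2.2⟩)
    · intro x y p hp hx hy hxy
      have h2 := hb.ch x y _ (key p hp) hx hy hxy
      have h3 : rco X C ι a (e.symm (p.2.1, p.2.2)) ∈ T x y := h2
      refine (hT.rg x y).dn _ h3 (gT (p.1, p.2.1)) ⟨p.1.2.trans hz', fun j hj => ?_⟩
      have hj' := hX _ j hj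
      rw [hgf _ j hj']
      exact (sp_fst hιz p.2.1 p.2.2 ⟨j, hj'⟩).ge
    · intro x y p hp hx hy hxy
      exact hb.eq x y _ (key p hp) hx hy hxy
    · intro α p hp
      obtain ⟨h2, hh2, x, hx, h3⟩ := hb.un α _ (key p hp)
      refine ⟨(p.1, (e h2).1, (e h2).2), ⟨le_rfl, ?_⟩, x, hx, ?_⟩
      · change e h2 ≤ p.2
        rw [← OrderIso.le_symm_apply]
        exact hh2
      · change e.symm (e h2) ∈ b x
        rw [OrderIso.symm_apply_apply]
        exact h3)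
  have hwe : e.symm (r, u) ≤ w := by
    rw [OrderIso.symm_apply_le]
    exact ⟨hr, hu⟩
  refine ⟨z5.1, hz5, e.symm (r, u), hwe, ?_⟩
  intro z2 hz2 h hh h' hh' hag y y' hy hy' hyy
  have k1 : e h ≤ (r, u) := by
    rw [← OrderIso.le_symm_apply]
    exact hh
  have k2 : e h' ≤ (r, u) := by
    rw [← OrderIso.le_symm_apply]
    exact hh'
  have k3 : (e h).1 = (e h').1 := funext fun j => hag j.1 j.2
  obtain ⟨z6, hz6, r6, hr6, y2, h6, h7⟩ := h5 ⟨z2, hz2.trans z5.2⟩ hz2 (e h).1 k1.1 (e h).2 k1.2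
    (e h').2 k2.2 y y' (by
      change e.symm (e h) ∈ b y
      rw [OrderIso.symm_apply_apply]
      exact hy) (by
      change e.symm ((e h).1, (e h').2) ∈ b y'
      rw [k3]
      change e.symm (e h') ∈ b y'
      rw [OrderIso.symm_apply_apply]
      exact hy') hyy
  refine ⟨gT (z6, r6), ⟨hz6, fun j hj => ?_⟩, y2, h6, h7⟩
  have hj' := hX _ j hj
  rw [hgf _ j hj']
  exact hr6 ⟨j, hj'⟩

/-- a branch named by the big product gives a branch in the extension by the restricted product -/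
theorem pull1 (hι : Function.Injective ι) (lvl : Jw → ℕ) (N : ℕ)
    (hcard : ∀ (k : ℕ) (J' : Type) (g : J' → Jw), Function.Injective g → (∀ j', lvl (g j') < k) →
      #(∀ j', C (g j')) ≤ κ k)
    (hdc : ∀ k j, ¬ lvl j < k → DC (Order.succ (κ k)) (C j)) (hN : ∀ j, ¬ lvl j < N)
    [WellFoundedLT K] {T : K × W → K × W → Set (Rp X fun j => C (ι j))} (hT : FT T)
    {lam : Cardinal.{0}} (hbd : Bd lam K) (hlam : ∀ k, Order.succ (κ k) ≤ lam)
    (hκ : ∀ k, ℵ₀ ≤ κ k) (hmono : StrictMono κ) (hsup : ∀ μ < lam, ∃ k, μ ≤ κ k)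
    (hKcard : #K ≤ Order.succ lam) (hA : #A ≤ κ N) (V : ℕ → Set W) (hV : ∀ x, ∃ n, x ∈ V n)
    (hV' : ∀ n, #(V n) ≤ κ n) {a : A} {h1 : ∀ j, C j} {b : K × W → Set (∀ j, C j)}
    (hb : Bch (fun x y => {h | rco X C ι a h ∈ T x y}) h1 b) :
    ∃ q ≤ rco X C ι a h1, ∃ B, Bch T q B := by
  classical
  have hdcW : DC (Order.succ (κ N)) (∀ j, C j) := DC.pi fun j => hdc N j (hN j)
  have h0 : ℵ₀ ≤ Order.succ (κ N) := (hκ N).trans (Order.le_succ _)
  have hA' := hA.trans (Order.le_succ _)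
  obtain ⟨ws, hws, hns⟩ := hdcW.all h0 (J := A × A) (by
      rw [mk_prod, lift_id]
      exact mul_le_of_le h0 hA' hA') h1
    (fun j w => j.1 ≤ a → j.2 ≤ j.1 → ∃ z'' ≤ j.2, NSW T b j.1 z'' w)
    (fun j w w' hw h h2 h3 => by
      obtain ⟨z'', hz'', h4⟩ := h h2 h3
      exact ⟨z'', hz'', h4.mono hw⟩) (by
    rintro ⟨z', z⟩ w hw
    by_cases hj : z' ≤ a ∧ z ≤ z'
    · obtain ⟨z'', hz'', w', hw', h⟩ := pull_ns hι lvl N hcard hdc hT hbd hlam hκ hmono hsup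
        hKcard hA V hV hV' hb hj.1 hj.2 hw
      exact ⟨w', hw', fun _ _ => ⟨z'', hz'', h⟩⟩
    · exact ⟨w, le_rfl, fun h2 h3 => absurd ⟨h2, h3⟩ hj⟩)
  have hns' : ∀ z' ≤ a, ∃ z'' ≤ z', NSW T b z' z'' ws := fun z' hz' => hns (z', z') hz' le_rfl
  -- changing a condition on the coordinates which matter
  have hmod : ∀ (z : A) (f : ∀ j, C (ι j)) (w : ∀ j, C j), (∀ j ∈ X z, f j ≤ w (ι j)) →
      ∃ h ≤ w, ∀ j ∈ X z, h (ι j) = f j := by
    intro z f w hf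
    let ιz : {j : J // j ∈ X z} → Jw := fun j => ι j.1
    have hιz : Function.Injective ιz := fun i j h => Subtype.ext (hι h)
    let e := sp (C := C) hιz
    refine ⟨e.symm (fun j => f j.1, (e w).2), ?_, fun j hj => sp_fst hιz _ _ ⟨j, hj⟩⟩
    rw [OrderIso.symm_apply_le]
    exact ⟨fun j => hf j.1 j.2, le_rfl⟩
  -- common nodes
  have main : ∀ (p : Rp X fun j => C (ι j)), p.a ≤ a → ∀ w ≤ ws, ∀ w' ≤ ws,
      (∀ j ∈ X p.a, p.f j ≤ w (ι j)) → (∀ j ∈ X p.a, p.f j ≤ w' (ι j)) → ∀ y y', w ∈ b y →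
      w' ∈ b y' → y.1 ≤ y'.1 → ∃ r ≤ p, ∃ y2, r ∈ T y y2 ∧ r ∈ T y' y2 := by
    intro p hp w hw w' hw' h2 h3 y y' hy hy' hyy
    obtain ⟨z'', hz'', h4⟩ := hns' p.a hp
    obtain ⟨h, hh, h5⟩ := hmod p.a p.f w h2
    obtain ⟨h', hh', h6⟩ := hmod p.a p.f w' h3
    obtain ⟨r, hr, y2, h7, h8⟩ := h4 z'' le_rfl h (hh.trans hw) h' (hh'.trans hw')
      (fun j hj => (h5 j hj).trans (h6 j hj).symm) y y' (hb.dn _ _ hy _ hh) (hb.dn _ _ hy' _ hh')
      hyy
    refine ⟨r, hr.trans ⟨hz'', fun j hj => ?_⟩, y2, h7, h8⟩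
    exact (h5 j (X.monotone hz'' hj)).le
  refine ⟨rco X C ι a ws, ⟨le_rfl, fun j _ => hws (ι j)⟩,
    fun y => {p | p.a ≤ a ∧ ∃ w ≤ ws, (∀ j ∈ X p.a, p.f j ≤ w (ι j)) ∧ w ∈ b y}, ⟨?_, ?_, ?_, ?_⟩⟩
  · rintro y p ⟨h2, w, h3, h4, h5⟩ q hq
    exact ⟨hq.1.trans h2, w, h3, fun j hj => (hq.2 j hj).trans (h4 j (X.monotone hq.1 hj)), h5⟩
  · rintro y y' p hp ⟨h2, w, h3, h4, h5⟩ ⟨_, w', h6, h7, h8⟩ hyy
    refine (hT.rg y y').ds p fun q hq => ?_
    obtain ⟨r, hr, y2, h9, h10⟩ := main q (hq.1.trans h2) w h3 w' h6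
      (fun j hj => (hq.2 j hj).trans (h4 j (X.monotone hq.1 hj)))
      (fun j hj => (hq.2 j hj).trans (h7 j (X.monotone hq.1 hj))) y y' h5 h8 hyy.le
    exact ⟨r, hr, hT.cmp _ _ _ _ h9 h10 hyy⟩
  · rintro y y' p hp ⟨h2, w, h3, h4, h5⟩ ⟨_, w', h6, h7, h8⟩ hyy
    obtain ⟨r, hr, y2, h9, h10⟩ := main p h2 w h3 w' h6 h4 h7 y y' h5 h8 hyy.le
    exact hT.unq _ _ _ _ h9 h10 hyy
  · intro α p hp
    obtain ⟨w, hw, h2⟩ := hmod p.a p.f ws hp.2
    obtain ⟨w', hw', y, hy, h3⟩ := hb.un α w (hw.trans hws)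
    refine ⟨⟨p.a, fun j => w' (ι j)⟩, ⟨le_rfl, fun j hj => ?_⟩, y, hy, hp.1, w', hw'.trans hw,
      fun j _ => le_rfl, h3⟩
    exact (hw' (ι j)).trans (h2 j hj).le

/-- a branch named by the big product gives a branch in the extension by the restricted product -/
theorem pull (hι : Function.Injective ι) (lvl : Jw → ℕ) (N : ℕ) (hlvl : ∀ j, N ≤ lvl (ι j))
    (hcard : ∀ (k : ℕ) (J' : Type) (g : J' → Jw), Function.Injective g → (∀ j', lvl (g j') < k) →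
      #(∀ j', C (g j')) ≤ κ k)
    (hdc : ∀ k j, ¬ lvl j < k → DC (Order.succ (κ k)) (C j))
    [WellFoundedLT K] {T : K × W → K × W → Set (Rp X fun j => C (ι j))} (hT : FT T)
    {lam : Cardinal.{0}} (hbd : Bd lam K) (hlam : ∀ k, Order.succ (κ k) ≤ lam)
    (hκ : ∀ k, ℵ₀ ≤ κ k) (hmono : StrictMono κ) (hsup : ∀ μ < lam, ∃ k, μ ≤ κ k)
    (hKcard : #K ≤ Order.succ lam) (hA : #A ≤ κ N) (V : ℕ → Set W) (hV : ∀ x, ∃ n, x ∈ V n)
    (hV' : ∀ n, #(V n) ≤ κ n) {a : A} {h1 : ∀ j, C j} {b : K × W → Set (∀ j, C j)}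
    (hb : Bch (fun x y => {h | rco X C ι a h ∈ T x y}) h1 b) :
    ∃ q ≤ rco X C ι a h1, ∃ B, Bch T q B := by
  classical
  let e := sp2 (C := C) fun j => lvl j < N
  have hUp : DC (Order.succ (κ N)) (∀ j : {j // ¬ lvl j < N}, C j.1) :=
    DC.pi fun j => hdc N j.1 j.2
  have h0 : ℵ₀ ≤ Order.succ (κ N) := (hκ N).trans (Order.le_succ _)
  have hLo : #(∀ j : {j // lvl j < N}, C j.1) ≤ Order.succ (κ N) :=
    (hcard N {j // lvl j < N} (fun j => j.1) Subtype.val_injective fun j => j.2).trans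
      (Order.le_succ _)
  obtain ⟨l, hl, u, hu, h2⟩ := fixlow h0 hLo hUp (fun ι f hι => hbd ι f (hι.trans (hlam N)))
    (fun y => {p | e.symm p ∈ b y}) (fun y p hp p' hp' => hb.dn y _ hp _ (e.symm.monotone hp'))
    (e h1).1 (e h1).2 (by
      intro α q hq
      obtain ⟨r, hr, y, hy, h3⟩ := hb.un α (e.symm q) (by
        rw [OrderIso.symm_apply_le]
        exact hq)
      refine ⟨e r, ?_, y, hy, ?_⟩
      · rw [← OrderIso.le_symm_apply]
        exact hr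
      · change e.symm (e r) ∈ b y
        rw [OrderIso.symm_apply_apply]
        exact h3)
  let ι' : J → {j // ¬ lvl j < N} := fun j => ⟨ι j, not_lt.2 (hlvl j)⟩
  have hι' : Function.Injective ι' := fun i j h => hι (congrArg Subtype.val h)
  have key : ∀ u' ≤ u, e.symm (l, u') ≤ h1 := by
    intro u' hu'
    rw [OrderIso.symm_apply_le]
    exact ⟨hl, hu'.trans hu⟩
  have hsnd : ∀ (u' : ∀ j : {j // ¬ lvl j < N}, C j.1) (j : J),
      e.symm (l, u') (ι j) = u' (ι' j) := fun u' j =>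
    congrFun (congrArg Prod.snd (e.apply_symm_apply (l, u'))) (ι' j)
  obtain ⟨q, hq, B, hB⟩ := pull1 (C := fun j : {j // ¬ lvl j < N} => C j.1) (X := X) (ι := ι')
    hι' (fun j => lvl j.1) N (fun k J' g hg h3 => hcard k J' (fun j => (g j).1)
      (fun i j h => hg (Subtype.ext h)) h3) (fun k j hj => hdc k j.1 hj) (fun j => j.2) hT hbd
    hlam hκ hmono hsup hKcard hA V hV hV' (a := a) (h1 := u)
    (b := fun y => {u' | e.symm (l, u') ∈ b y}) (by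
    refine ⟨?_, ?_, ?_, ?_⟩
    · intro y p hp p' hp'
      exact hb.dn y _ hp _ (e.symm.monotone ⟨le_rfl, hp'⟩)
    · intro x y p hp hx hy hxy
      have h3 : rco X C ι a (e.symm (l, p)) ∈ T x y := hb.ch x y _ (key p hp) hx hy hxy
      have h4 : rco X C ι a (e.symm (l, p)) =
          rco X (fun j : {j // ¬ lvl j < N} => C j.1) ι' a p := by
        unfold rco
        congr 1
        funext j
        exact hsnd p j
      change rco X (fun j : {j // ¬ lvl j < N} => C j.1) ι' a p ∈ T x y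
      rw [← h4]
      exact h3
    · intro x y p hp hx hy hxy
      exact hb.eq x y _ (key p hp) hx hy hxy
    · intro α p hp
      obtain ⟨u'', hu'', y, hy, h3⟩ := h2 p hp α
      exact ⟨u'', hu'', y, hy, h3⟩)
  refine ⟨q, hq.trans ⟨le_rfl, fun j _ => ?_⟩, B, hB⟩
  exact hu (ι' j)

end

end Run7.h898
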