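import Mathlib
import Pool.Agent.Run7.h898.Col
import Pool.Agent.Run7.h898.Gr
import Pool.Agent.Run7.h898.Dref
import Pool.Agent.Run7.h898.Refl
import Pool.Agent.Run7.h898.Rp

set_option autoImplicit false
set_option linter.unusedSectionVars false
set_option linter.unusedVariables false

/-!
# Reflection of trees to small sets and narrow systems, second version
-/

namespace Run7.h898

open Set Cardinal Pool.Agent.Helper669.Forcing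

/-- the setting: a singular limit of inaccessible cardinals above an inaccessible cardinal -/
structure Stp (Om : Type) (K lam : Cardinal.{0}) (κ : ℕ → Cardinal.{0}) : Prop where
  Ki : Inac K
  κi : ∀ n, Inac (κ n)
  Kκ : K < κ 0
  mono : StrictMono κ
  lt : ∀ n, κ n < lam
  sup : ∀ μ < lam, ∃ n, μ < κ n
  Om : lam < #Om

section

variable {Om : Type} {K lam : Cardinal.{0}} {κ : ℕ → Cardinal.{0}} (S : Stp Om K lam κ)

include S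

theorem Stp.Kκ' (n : ℕ) : K < κ n := S.Kκ.trans_le (S.mono.monotone (Nat.zero_le n))

theorem Stp.Klam : K < lam := S.Kκ.trans (S.lt 0)

theorem Stp.lam0 : ℵ₀ ≤ lam := S.Ki.unc.le.trans S.Klam.le

theorem Stp.succ_le (n : ℕ) : Order.succ (κ n) ≤ lam :=
  (Order.succ_le_of_lt (S.mono (Nat.lt_succ_self n))).trans (S.lt (n + 1)).le

theorem Stp.blocks [LinearOrder Om] [WellFoundedLT Om] {J' : Type} (lo hi : J' → Cardinal.{0})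
    (k : ℕ) (hJ : #J' < κ k) (h1 : ∀ j, lo j < hi j) (h2 : ∀ j, hi j ≤ κ k) :
    #(Bb Om lo hi) ≤ κ k :=
  mk_pi_le (S.κi k) hJ fun j => mk_Cb_le (S.κi k) ((h1 j).trans_le (h2 j)) (h2 j)

end

section

variable {J : Type} {Om : Type} [LinearOrder Om] [WellFoundedLT Om] {lo hi : J → Cardinal.{0}}
  {K lam : Cardinal.{0}} {κ : ℕ → Cardinal.{0}} (S : Stp Om K lam κ)

include S in
theorem Stp.Vs (w : sg Om lam) : ∃ n, w ∈ Vs Om lam κ n := S.sup _ w.2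

include S in
theorem Stp.bd : Bd lam (La Om lam) := bd_La S.lam0 S.Om

include S in
theorem ev_good2 (hlo : ∀ j, K ≤ lo j) (GR : Gr (Bb Om lo hi) κ) {h0 : Bb Om lo hi}
    (U : AU (Bb Om lo hi) K Om h0) : ev U h0 fun x => ℵ₀ ≤ #(tr x lam) ∧
      (∀ a : xL lam x, #(Iio a) ≤ #(tr x lam)) ∧ Nonempty (xL lam x) ∧
      Bd #(tr x lam) (xL lam x) := by
  classical
  have hK : ℵ₀ < K := S.Ki.unc
  have hK' := hK.le
  have hOm := S.Om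
  have e1 : ev U h0 fun x => ∀ a : sg Om ℵ₀, a.1 ∈ x.1 := ev_inter U le_rfl
    ((mk_sg_le Om ℵ₀).trans_lt hK) fun a => ev_fine U le_rfl a.1
  have e4 := ev_succ U hK' (g := h0) le_rfl lam hOm.le
  have e5 := ev_bdd U hK' (sg Om lam) {b | #(Iio b) ≤ lam} (g := h0) le_rfl (by
    intro h hh Φ hΦ1 hΦ2 hΦ3
    obtain ⟨r', hr', b, hb⟩ := GR.reg (Z := Unit) 0 (fun k => (S.κi k).unc.le) (fun k _ => by
      rw [mk_unit]
      exact one_le_aleph0.trans (S.κi k).unc.le) (La := La Om lam) (W := sg Om lam)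
      (fun ι f ⟨k, hk⟩ => S.bd ι f (hk.trans (S.succ_le k)))
      (Vs Om lam κ) (S.Vs) (fun n => by rw [Nat.zero_add]; exact mk_Vs n)
      (fun w a => {p | p.2 ∈ Φ w.1 a.1}) (fun w a p hp q hq => hΦ1 _ _ _ hp _ hq.2)
      (fun w a b p hp hq => Subtype.ext (hΦ2 _ _ _ _ hp hq)) ((), h)
    refine ⟨r', hr', b.1, b.2, fun w hw q hq a ha => ?_⟩
    exact hb ⟨w, hw⟩ ((), q) ⟨le_rfl, hq⟩ ⟨a, hΦ3 w a q ha⟩ ha)
  refine ev_mono U le_rfl (ev_and U hK' le_rfl (ev_and U hK' le_rfl e1 e4) e5) fun x hx => ?_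
  obtain ⟨⟨h1, ⟨h4, _⟩⟩, h5⟩ := hx
  have hω : ℵ₀ ≤ #(tr x lam) := by
    rw [← mk_sg Om (κ := ℵ₀) (S.lam0.trans hOm.le)]
    refine mk_le_of_injective (f := fun a => ⟨a.1, sg_mono Om S.lam0 a.2, h1 a⟩)
      fun a b hab => Subtype.ext (Subtype.mk.inj hab)
  refine ⟨hω, fun a => ?_, ?_, ?_⟩
  · refine (mk_le_of_injective (f := fun b : Iio a => (⟨b.1.1.1, b.2, b.1.2⟩ :
      {b // b < a.1.1 ∧ b ∈ x.1})) fun b b' hb => ?_).trans (h4 a.1.1 a.2 a.1.2)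
    exact Subtype.ext (Subtype.ext (Subtype.ext (Subtype.mk.inj hb)))
  · obtain ⟨b, hb, hbx, _⟩ := h5 fun w => ⟨w.1, le_of_lt (mem_sg.1 w.2.1), w.2.2⟩
    exact ⟨⟨b, hb⟩, hbx⟩
  · intro A f hA
    rcases isEmpty_or_nonempty A with hAe | hAn
    · obtain ⟨b, hb, hbx, _⟩ := h5 fun w => ⟨w.1, le_of_lt (mem_sg.1 w.2.1), w.2.2⟩
      exact ⟨⟨⟨b, hb⟩, hbx⟩, fun j => hAe.elim j⟩
    · obtain ⟨e⟩ := hA
      obtain ⟨b, hb, hbx, h7⟩ := h5 fun w => ⟨(f (Function.invFun e w)).1.1,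
        (f (Function.invFun e w)).1.2, (f (Function.invFun e w)).2⟩
      refine ⟨⟨⟨b, hb⟩, hbx⟩, fun j => ?_⟩
      have h8 := h7 (e j)
      rw [Function.leftInverse_invFun e.injective j] at h8
      exact h8

end

section

variable {Bq : Type} [Preorder Bq] {Om : Type} [LinearOrder Om] [WellFoundedLT Om]
  {K lam : Cardinal.{0}}

/-- the set `x` can be used for the reflection of a tree -/
def Good2 (lam : Cardinal.{0}) {I : Type} (A : I → Type) [∀ i, Preorder (A i)] (x : PK K Om) :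
    Prop :=
  Nonempty (xL lam x) ∧ ∃ (i : I) (π : Cardinal.{0}), ℵ₀ ≤ π ∧ Order.succ π ≤ K ∧ Kn π (A i) ∧
    (∀ a : xL lam x, #(Iio a) ≤ π) ∧ Bd π (xL lam x)

theorem dref2 {I W : Type} {A : I → Type} [∀ i, Preorder (A i)]
    (hK : ℵ₀ ≤ K) (hKω : ℵ₀ < K) (hKlam : K ≤ lam) (hbd : Bd lam (La Om lam)) (hB : DC K Bq)
    {h0 : Bq} (U : AU Bq K Om h0) (V : ℕ → Set W) (hV : ∀ w, ∃ n, w ∈ V n) (w0 : W)
    (rk : I → ℕ) {T : ∀ i, La Om lam × W → La Om lam × W → Set (A i × Bq)}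
    (hT : ∀ i, FT (T i)) (a0 : ∀ i, A i)
    (hgood : h0 ∈ U.al fun x => {_h | Good2 lam A x}) :
    ∃ h1 ≤ h0, ∃ m0 r0 : ℕ, ∃ D : La Om lam → Set Bq, (∀ a, Down (D a)) ∧
      (∀ h ≤ h1, ∀ a, ∃ h' ≤ h, ∃ α, a ≤ α ∧ h' ∈ D α) ∧
      ∀ h ≤ h1, ∀ α β, α < β → h ∈ D α → h ∈ D β → ∃ h' ≤ h, ∃ i, rk i = r0 ∧ ∃ a ≤ a0 i,
        ∃ w ∈ V m0, ∃ w' ∈ V m0, (a, h') ∈ T i (α, w) (β, w') := by
  classical
  -- upper bounds
  have hσ : ∀ x : PK K Om, ∃ σ : La Om lam, ∀ a : xL lam x, a.1 < σ := by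
    intro x
    obtain ⟨b, hb⟩ := hbd (xL lam x) (fun a => a.1) (by
      refine (mk_le_of_injective (f := fun a : xL lam x => (⟨a.1.1, a.2⟩ : x.1)) ?_).trans
        (x.2.le.trans hKlam)
      intro a b h
      exact Subtype.ext (Subtype.ext (Subtype.mk.inj h)))
    exact ⟨b, hb⟩
  choose σ hσ using hσ
  let DT : Type := Σ i : I, (La Om lam → A i) × ℕ × Set (La Om lam)
  let Φ : PK K Om → DT → Set Bq := fun x d => {h | (∀ α ∈ d.2.2.2, d.2.1 α ≤ a0 d.1) ∧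
    (∀ α ∈ d.2.2.2, α.1 ∈ x.1) ∧ (∀ b : xL lam x, ∃ α ∈ d.2.2.2, b.1 ≤ α) ∧
    (∀ α ∈ d.2.2.2, ∀ β ∈ d.2.2.2, α < β → ∃ c, c ≤ d.2.1 α ∧ c ≤ d.2.1 β) ∧
    ∀ α ∈ d.2.2.2, ∃ w ∈ V d.2.2.1, (d.2.1 α, h) ∈ T d.1 (α, w) (σ x, w0)}
  have hΦd : ∀ x d, Down (Φ x d) := by
    rintro x d h ⟨h1, h2, h3, h4, h5⟩ h' hh
    refine ⟨h1, h2, h3, h4, fun α hα => ?_⟩
    obtain ⟨w, hw, h6⟩ := h5 α hα
    exact ⟨w, hw, ((hT _).rg _ _).dn _ h6 _ ⟨le_rfl, hh⟩⟩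
  -- the main construction
  have hmain : ∀ x : PK K Om, Good2 lam A x → ∀ h : Bq, ∃ h' ≤ h, ∃ d, h' ∈ Φ x d := by
    rintro x ⟨hne, i, π, hπ, hπK, hKn, hiio, hbdx⟩ h
    obtain ⟨t, q, h1, h2⟩ := hKn Bq (hB.mono ((Order.le_succ π).trans hπK)) (xL lam x) hiio
      (xL lam x) hbdx id (fun _ => hne.some)
      (fun l => {p | p.1 ≤ a0 i ∧ ∃ w, p ∈ T i (l.1, w) (σ x, w0)}) (by
      rintro l p ⟨h1, w, h2⟩ p' hp'
      exact ⟨hp'.1.trans h1, w, ((hT _).rg _ _).dn _ h2 _ hp'⟩) (a0 i, h) (by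
      intro l q hq
      obtain ⟨q', hq', y, hy, h2⟩ := (hT i).ex q (σ x, w0) l.1 (hσ x l)
      refine ⟨q', hq', hq'.1.trans hq.1, y.2, ?_⟩
      rw [← hy]
      exact h2)
    have hcard : #(xL lam x) ≤ Order.succ π := mk_le_succ_of_iio hiio
    obtain ⟨h', hh'⟩ := (hB.mono hπK).lb hcard (fun θ => (q θ).2) fun θ θ' hθ => (h2 θ θ' hθ).2.2.1
    choose h3 h4 h5 using h1
    choose h6 w hw using h4
    choose m hm using fun θ => hV (w θ)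
    have htm : StrictMono t := fun θ θ' hθ => (h2 θ θ' hθ).2.1
    have h7 : ∃ m1 : ℕ, ∀ b : xL lam x, ∃ θ, m θ = m1 ∧ b ≤ θ := by
      by_contra hcon
      push Not at hcon
      choose f hf using hcon
      obtain ⟨b, hb⟩ := hbdx ℕ f (by rw [mk_nat]; exact hπ)
      exact absurd (hb (m b)) (not_lt.2 (hf (m b) b rfl).le)
    obtain ⟨m1, h8⟩ := h7
    have h9 : ∀ α : La Om lam, ∃ a : A i, ∀ θ, (t θ).1 = α → a = (q θ).1 := by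
      intro α
      by_cases hex : ∃ θ, (t θ).1 = α
      · obtain ⟨θ, hθ⟩ := hex
        refine ⟨(q θ).1, fun θ' hθ' => ?_⟩
        rw [htm.injective (Subtype.ext (hθ.trans hθ'.symm))]
      · exact ⟨a0 i, fun θ hθ => absurd ⟨θ, hθ⟩ hex⟩
    choose a ha using h9
    refine ⟨h', (hh' hne.some).trans (h3 _).2, ⟨i, a, m1, {α | ∃ θ : xL lam x, m θ = m1 ∧
      (t θ).1 = α}⟩, ?_, ?_, ?_, ?_, ?_⟩
    · rintro α ⟨θ, _, hθ⟩
      change a α ≤ a0 i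
      rw [ha α θ hθ]
      exact h6 θ
    · rintro α ⟨θ, _, rfl⟩
      exact (t θ).2
    · intro b
      obtain ⟨θ, h10, h11⟩ := h8 b
      exact ⟨(t θ).1, ⟨θ, h10, rfl⟩, h11.trans (h5 θ)⟩
    · rintro α ⟨θ, _, hθ⟩ β ⟨θ', _, hθ'⟩ hαβ
      change ∃ c, c ≤ a α ∧ c ≤ a β
      rw [ha α θ hθ, ha β θ' hθ']
      have hlt : θ < θ' := by
        rw [← htm.lt_iff_lt]
        change (t θ).1 < (t θ').1
        rw [hθ, hθ']
        exact hαβ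
      exact (h2 θ θ' hlt).2.2.2
    · rintro α ⟨θ, h10, hθ⟩
      refine ⟨w θ, h10 ▸ hm θ, ?_⟩
      change (a α, h') ∈ T i (α, w θ) (σ x, w0)
      rw [ha α θ hθ]
      refine ((hT i).rg _ _).dn _ ?_ _ (show ((q θ).1, h') ≤ q θ from ⟨le_rfl, hh' θ⟩)
      rw [← hθ]
      exact hw θ
  -- names
  choose F hF1 hF2 hF3 hF4 using fun x => exists_mix (Φ x) (hΦd x)
  have h5 : h0 ∈ U.al fun x => {h | ∃ t : ℕ × ℕ, h ∈ {h | ∃ d : DT, d.2.2.1 = t.1 ∧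
      rk d.1 = t.2 ∧ h ∈ F x d}} := by
    refine U.mono h0 le_rfl _ _ (fun x p hp q hq => hp) hgood fun x g' _ hg => ?_
    obtain ⟨g2, hg2, d, hd⟩ := hF4 x g' (fun q _ => hmain x hg q) g' le_rfl
    exact ⟨g2, hg2, (d.2.2.1, rk d.1), d, rfl, rfl, hd⟩
  obtain ⟨h1, hh1, ⟨m0, r0⟩, h6⟩ := U.cover hK le_rfl (ι := ℕ × ℕ) (by
    simpa using hKω) _ (by
    rintro t x p ⟨d, hd1, hd2, hd3⟩ q hq
    exact ⟨d, hd1, hd2, hF1 x d p hd3 q hq⟩) h5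
  have hdn : ∀ (α : La Om lam) (x : PK K Om), Down {h | ∃ d : DT, d.2.2.1 = m0 ∧
      rk d.1 = r0 ∧ h ∈ F x d ∧ α ∈ d.2.2.2} := by
    rintro α x p ⟨d, hd1, hd2, hd3, hd4⟩ q hq
    exact ⟨d, hd1, hd2, hF1 x d p hd3 q hq, hd4⟩
  have hdn' : ∀ (x : PK K Om), Down {h | ∃ d : DT, d.2.2.1 = m0 ∧
      rk d.1 = r0 ∧ h ∈ F x d} := by
    rintro x p ⟨d, hd1, hd2, hd3⟩ q hq
    exact ⟨d, hd1, hd2, hF1 x d p hd3 q hq⟩
  refine ⟨h1, hh1, m0, r0, fun α => U.al fun x => {h | ∃ d : DT, d.2.2.1 = m0 ∧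
      rk d.1 = r0 ∧ h ∈ F x d ∧ α ∈ d.2.2.2}, fun α => (U.rg _).dn, ?_, ?_⟩
  · intro h hh a
    have hhh := hh.trans hh1
    -- almost all `x` contain `a`
    have h7 : h ∈ U.al fun x => {g | ∃ c ∈ x.1, g ∈ {g | ∃ hc : #(Iio c) ≤ lam,
        a ≤ (⟨c, hc⟩ : La Om lam) ∧ ∃ d : DT, d.2.2.1 = m0 ∧
        rk d.1 = r0 ∧ g ∈ F x d ∧ (⟨c, hc⟩ : La Om lam) ∈ d.2.2.2}} := by
      refine U.mono' hhh (fun x => ?_) (U.and hK hhh hdn' (fun x p hp q hq => hp) (U.dn h6 hh)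
        (U.fine h hhh a.1)) fun x g _ hg => ?_
      · rintro p ⟨hp, hp'⟩ q hq
        exact ⟨hdn' x p hp q hq, hp'⟩
      · obtain ⟨⟨d, hd1, hd2, hd3⟩, ha⟩ := hg
        obtain ⟨_, h8, h9, _⟩ := hF2 x d hd3
        obtain ⟨α, hα, hα'⟩ := h9 ⟨a, ha⟩
        exact ⟨α.1, h8 α hα, α.2, hα', d, hd1, hd2, hd3, hα⟩
    have hdn2 : ∀ (c : Om) (x : PK K Om), Down {g : Bq | ∃ hc : #(Iio c) ≤ lam,
        a ≤ (⟨c, hc⟩ : La Om lam) ∧ ∃ d : DT, d.2.2.1 = m0 ∧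
        rk d.1 = r0 ∧ g ∈ F x d ∧ (⟨c, hc⟩ : La Om lam) ∈ d.2.2.2} := by
      rintro c x p ⟨hc, h8, d, hd1, hd2, hd3, hd4⟩ q hq
      exact ⟨hc, h8, d, hd1, hd2, hF1 x d p hd3 q hq, hd4⟩
    obtain ⟨h', hh', c, h8⟩ := U.normal h hhh (fun c x => {g | ∃ hc : #(Iio c) ≤ lam,
        a ≤ (⟨c, hc⟩ : La Om lam) ∧ ∃ d : DT, d.2.2.1 = m0 ∧
        rk d.1 = r0 ∧ g ∈ F x d ∧ (⟨c, hc⟩ : La Om lam) ∈ d.2.2.2}) hdn2 h7
    obtain ⟨_, _, _, hc, hac, _⟩ := U.ne h' (hh'.trans hhh) _ (hdn2 c) h8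
    refine ⟨h', hh', ⟨c, hc⟩, hac, U.mono' (hh'.trans hhh) (hdn2 c) h8 fun x g _ hg => ?_⟩
    obtain ⟨_, _, d, h9⟩ := hg
    exact ⟨d, h9⟩
  · intro h hh α β hαβ hα hβ
    have hhh := hh.trans hh1
    obtain ⟨h', hh', x, ⟨d, hd1, hd2, hd3, hd4⟩, d', hd1', hd2', hd3', hd4'⟩ := U.ne h hhh _
      (fun x => by
        rintro p ⟨hp, hp'⟩ q hq
        exact ⟨hdn α x p hp q hq, hdn β x p hp' q hq⟩)
      (U.and hK hhh (hdn α) (hdn β) hα hβ)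
    have := hF3 x d d' h' hd3 hd3'
    subst this
    obtain ⟨h7, _, _, h8, h9⟩ := hF2 x d hd3
    obtain ⟨w, hw, h10⟩ := h9 α hd4
    obtain ⟨w', hw', h11⟩ := h9 β hd4'
    obtain ⟨c, hc1, hc2⟩ := h8 α hd4 β hd4' hαβ
    rw [hd1] at hw hw'
    exact ⟨h', hh', d.1, hd2, c, hc1.trans (h7 α hd4), w, hw, w', hw',
      (hT d.1).cmp _ _ _ _ (((hT d.1).rg _ _).dn _ h10 _ ⟨hc1, le_rfl⟩)
        (((hT d.1).rg _ _).dn _ h11 _ ⟨hc2, le_rfl⟩) hαβ⟩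

end

end Run7.h898
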