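import Mathlib
import Pool.Agent.Run7.h898.Pull
import Pool.Agent.Run7.h898.Refl2
import Pool.Agent.Run7.h898.Clm

set_option autoImplicit false
set_option linter.unusedSectionVars false
set_option linter.unusedVariables false

/-!
# The tree property after a restricted product of collapses
-/

namespace Run7.h898

open Set Cardinal Pool.Agent.Helper669.Forcing

theorem TL.fix2 {A B K W X : Type} [Preorder A] [Preorder B] [LinearOrder K]
    {T : K × W → K × W → Set (A × B)} (hT : TL T) (a : A) {j : X → W}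
    (hj : Function.Injective j) :
    TL fun x y : K × X => {h : B | (a, h) ∈ T (x.1, j x.2) (y.1, j y.2)} where
  rg x y := ⟨fun h hh h' hh' => (hT.rg _ _).dn _ hh _ ⟨le_rfl, hh'⟩, fun h hh =>
    (hT.rg _ _).ds _ fun q hq => by
      obtain ⟨r, hr, h1⟩ := hh q.2 hq.2
      exact ⟨(q.1, r), ⟨le_rfl, hr⟩, (hT.rg _ _).dn _ h1 _ ⟨hq.1, le_rfl⟩⟩⟩
  lt x y p hp := hT.lt _ _ _ hp
  tr x y z p hp hp' := hT.tr _ _ _ _ hp hp'
  cmp x y z p hp hp' h := hT.cmp _ _ _ _ hp hp' h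
  unq x y z p hp hp' h := by
    have h1 := hT.unq _ _ _ _ hp hp' h
    exact Prod.ext h (hj (congrArg Prod.snd h1))

theorem Pj_rco {A J Jw : Type} [Preorder A] {X : A →o Set J} {C : Jw → Type}
    [∀ j, Preorder (C j)] {ι : J → Jw} (hι : Function.Injective ι) :
    Pj fun p : A × (∀ j, C j) => rco X C ι p.1 p.2 where
  mono q q' h := ⟨h.1, fun j _ => h.2 _⟩
  lift q p hp := by
    classical
    let e := sp (C := C) hι
    refine ⟨(p.a, e.symm (fun j => if j ∈ X p.a then p.f j else q.2 (ι j), (e q.2).2)),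
      ⟨hp.1, ?_⟩, le_rfl, fun j hj => ?_⟩
    · rw [OrderIso.symm_apply_le]
      refine ⟨fun j => ?_, le_rfl⟩
      change (if j ∈ X p.a then p.f j else q.2 (ι j)) ≤ q.2 (ι j)
      split_ifs with h
      · exact hp.2 j h
      · exact le_rfl
    · have hj' : j ∈ X p.a := hj
      have h1 := sp_fst hι (fun j => if j ∈ X p.a then p.f j else q.2 (ι j)) (e q.2).2 j
      change e.symm (fun j => if j ∈ X p.a then p.f j else q.2 (ι j), (e q.2).2) (ι j) ≤ p.f j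
      rw [h1]
      simp only [if_pos hj']
      exact le_rfl

/-- `π` can be used at `lam` -/
def GoodAt2 (Om : Type) [LinearOrder Om] [WellFoundedLT Om] (K lam : Cardinal.{0})
    (κ : ℕ → Cardinal.{0}) (π : Cardinal.{0}) : Prop :=
  ∀ (A : Type) [Preorder A] (N : ℕ), Kn π A → #A ≤ κ N → ∀ (J : Type) (lo hi : J → Cardinal.{0})
    (lvl : J → ℕ), #J ≤ K → (∀ j, κ (lvl j) ≤ lo j) → (∀ j, lo j < hi j) →
    (∀ j, hi j ≤ κ (lvl j + 1)) → (∀ j, N ≤ lvl j) → ∀ (X : A →o Set J),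
    TPF Om lam (Rp X fun j => Cb Om (lo j) (hi j))

/-- a counterexample for `π` -/
structure Bad2 (Om : Type) [LinearOrder Om] [WellFoundedLT Om] (K lam : Cardinal.{0})
    (κ : ℕ → Cardinal.{0}) (π : Cardinal.{0}) where
  A : Type
  [iA : Preorder A]
  N : ℕ
  kn : Kn π A
  hA : #A ≤ κ N
  J : Type
  lo : J → Cardinal.{0}
  hi : J → Cardinal.{0}
  lvl : J → ℕ
  hJ : #J ≤ K
  l1 : ∀ j, κ (lvl j) ≤ lo j
  l2 : ∀ j, lo j < hi j
  l3 : ∀ j, hi j ≤ κ (lvl j + 1)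
  l4 : ∀ j, N ≤ lvl j
  X : A →o Set J
  T : La Om lam × sg Om lam → La Om lam × sg Om lam → Set (Rp X fun j => Cb Om (lo j) (hi j))
  hT : FT T
  p : Rp X fun j => Cb Om (lo j) (hi j)
  no : ∀ q ≤ p, ∀ B, ¬ Bch T q B

attribute [instance] Bad2.iA

section

variable {Om : Type} [LinearOrder Om] [WellFoundedLT Om] {K lam : Cardinal.{0}}
  {κ : ℕ → Cardinal.{0}}

theorem exists_bad2 {π : Cardinal.{0}} (h : ¬ GoodAt2 Om K lam κ π) :
    Nonempty (Bad2 Om K lam κ π) := by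
  unfold GoodAt2 TPF at h
  push Not at h
  obtain ⟨A, iA, N, kn, hA, J, lo, hi, lvl, hJ, l1, l2, l3, l4, X, T, hT, p, no⟩ := h
  exact ⟨⟨A, N, kn, hA, J, lo, hi, lvl, hJ, l1, l2, l3, l4, X, T, hT, p, no⟩⟩

/-- the possible values of `π` -/
abbrev Iy (Om : Type) [LinearOrder Om] [WellFoundedLT Om] (K : Cardinal.{0}) : Type :=
  {a : Om // ℵ₀ ≤ sz a ∧ sz a < K}

theorem mk_Iy : #(Iy Om K) ≤ K :=
  (mk_le_of_injective (f := fun a : Iy Om K => (⟨a.1, a.2.2⟩ : sg Om K))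
    fun a b h => Subtype.ext (Subtype.mk.inj h)).trans (mk_sg_le Om K)

variable (D : ∀ i : Iy Om K, Bad2 Om K lam κ (sz i.1))

/-- all blocks -/
abbrev Jg : Type := Σ i : Iy Om K, (D i).J

/-- lower ends -/
def lg (j : Jg D) : Cardinal.{0} := (D j.1).lo j.2

/-- upper ends -/
def hg (j : Jg D) : Cardinal.{0} := (D j.1).hi j.2

/-- levels -/
def vg (j : Jg D) : ℕ := (D j.1).lvl j.2

/-- the blocks of `i` -/
def itg (i : Iy Om K) (j : (D i).J) : Jg D := ⟨i, j⟩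

theorem itg_inj (i : Iy Om K) : Function.Injective (itg D i) := fun j j' h =>
  eq_of_heq (Sigma.mk.inj h).2

/-- the projection to the forcing of `i` -/
def pg (i : Iy Om K) (p : (D i).A × Bb Om (lg D) (hg D)) :
    Rp (D i).X fun j => Cb Om ((D i).lo j) ((D i).hi j) :=
  rco (D i).X (fun j : Jg D => Cb Om (lg D j) (hg D j)) (itg D i) p.1 p.2

theorem Pj_pg (i : Iy Om K) : Pj (pg D i) :=
  Pj_rco (X := (D i).X) (C := fun j : Jg D => Cb Om (lg D j) (hg D j)) (itg_inj D i)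

/-- the index set of the narrow system -/
abbrev TTg (r0 : ℕ) : Type :=
  Σ i : {i : Iy Om K // (D i).N = r0}, {a : (D i.1).A // a ≤ (D i.1).p.a}

theorem mk_Jg (S : Stp Om K lam κ) : #(Jg D) ≤ K := by
  have hK := S.Ki.unc.le
  rw [mk_sigma]
  refine (Cardinal.sum_le_sum _ (fun _ => K) fun i => (D i).hJ).trans ?_
  rw [Cardinal.sum_const']
  exact mul_le_of_le hK mk_Iy le_rfl

theorem mk_TTg (S : Stp Om K lam κ) {r0 k : ℕ} (hk : r0 ≤ k) : #(TTg D r0) ≤ κ k := by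
  have hk0 := (S.κi k).unc.le
  rw [mk_sigma]
  have h1 : ∀ i : {i : Iy Om K // (D i).N = r0}, #{a : (D i.1).A // a ≤ (D i.1).p.a} ≤ κ k := by
    intro i
    refine (mk_subtype_le _).trans ((D i.1).hA.trans (S.mono.monotone ?_))
    rw [i.2]
    exact hk
  refine (Cardinal.sum_le_sum _ (fun _ => κ k) h1).trans ?_
  rw [Cardinal.sum_const']
  exact mul_le_of_le hk0 (((mk_subtype_le _).trans mk_Iy).trans (S.Kκ' k).le) le_rfl

theorem claim2 (S : Stp Om K lam κ) (hK : IndestructiblySupercompact K)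
    (hκ : ∀ n, IndestructiblySupercompact (κ n)) :
    ∃ π, ℵ₀ ≤ π ∧ π < K ∧ GoodAt2 Om K lam κ π := by
  classical
  by_contra hcon
  push Not at hcon
  let D : ∀ i : Iy Om K, Bad2 Om K lam κ (sz i.1) := fun i =>
    (exists_bad2 (hcon (sz i.1) i.2.1 i.2.2)).some
  have hKa := S.Ki.unc.le
  have hl1 : ∀ j, κ (vg D j) ≤ lg D j := fun j => (D j.1).l1 j.2
  have hl2 : ∀ j, lg D j < hg D j := fun j => (D j.1).l2 j.2
  have hl3 : ∀ j, hg D j ≤ κ (vg D j + 1) := fun j => (D j.1).l3 j.2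
  have hlo : ∀ j, K ≤ lg D j := fun j => (S.Kκ' _).le.trans (hl1 j)
  have hDC : DC K (Bb Om (lg D) (hg D)) := DC.pi fun j => dc_Cb.mono ((hlo j).trans (lt_sl _).le)
  have hJ : ∀ k, #(Jg D) < κ k := fun k => (mk_Jg D S).trans_lt (S.Kκ' k)
  have hsz : ∀ k j, vg D j < k → hg D j ≤ κ k := fun k j hj =>
    (hl3 j).trans (S.mono.monotone hj)
  have hdc : ∀ k j, ¬ vg D j < k → DC (Order.succ (κ k)) (Cb Om (lg D j) (hg D j)) :=
    fun k j hj => dc_Cb.mono ((Order.succ_le_succ ((S.mono.monotone (not_lt.1 hj)).trans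
      (hl1 j))).trans (le_max_right _ _))
  have hcard : ∀ (k : ℕ) (J' : Type) (g : J' → Jg D), Function.Injective g →
      (∀ j', vg D (g j') < k) → #(∀ j', Cb Om (lg D (g j')) (hg D (g j'))) ≤ κ k :=
    fun k J' g hg' h => S.blocks (fun j => lg D (g j)) (fun j => hg D (g j)) k
      ((mk_le_of_injective hg').trans_lt (hJ k)) (fun j => hl2 _) fun j => hsz k _ (h j)
  let GR : Gr (Bb Om (lg D) (hg D)) κ := Gr.pi (C := fun j => Cb Om (lg D j) (hg D j)) (vg D)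
    (fun k => hcard k {j // vg D j < k} (fun j => j.1) Subtype.val_injective fun j => j.2) hdc
  let h0 : Bb Om (lg D) (hg D) := fun j => (D j.1).p.f j.2
  obtain ⟨g0, hg0, ⟨U⟩⟩ := exists_au hK hDC.dcl Om h0
  have hG : g0 ∈ U.al fun x => {_h | Good2 lam (fun i => (D i).A) x} := by
    refine ev_mono U le_rfl (ev_good2 S hlo GR U) fun x hx => ?_
    obtain ⟨hI, hx1, hne, hb⟩ := hx
    have hπK : #(tr x lam) < K := tr_lt x lam
    obtain ⟨a, ha, _⟩ := exists_iio (hπK.trans (S.Klam.trans S.Om))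
    have ha' : sz a = #(tr x lam) := ha
    rw [← ha'] at hI hx1 hb hπK
    exact ⟨hne, ⟨a, hI, hπK⟩, sz a, hI, Order.succ_le_of_lt hπK, (D ⟨a, hI, hπK⟩).kn, hx1, hb⟩
  have hbd := S.bd
  have hw0 : Nonempty (sg Om lam) := by
    rw [← mk_ne_zero_iff, mk_sg Om S.Om.le]
    exact (aleph0_pos.trans_le S.lam0).ne'
  obtain ⟨h1, hh1, m0, r0, Dn, hDd, hDu, hDp⟩ := dref2 hKa S.Ki.unc S.Klam.le hbd hDC U
    (Vs Om lam κ) S.Vs hw0.some (fun i => (D i).N) (fun i => FT.pb (Pj_pg D i) (D i).hT)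
    (fun i => (D i).p.a) hG
  let k := max r0 m0
  let e := sp3 (C := fun j => Cb Om (lg D j) (hg D j)) (vg D) k
  have hk0 := (S.κi k).unc.le
  have hTT : #(TTg D r0) ≤ κ k := mk_TTg D S (le_max_left _ _)
  have hVX : #(Vs Om lam κ m0) ≤ κ k := (mk_Vs m0).trans (S.mono.monotone (le_max_right _ _))
  let Rb : ∀ t : TTg D r0, La Om lam × Vs Om lam κ m0 → La Om lam × Vs Om lam κ m0 →
      Set (Bb Om (lg D) (hg D)) :=
    fun t x y => {h | (t.2.1, h) ∈ pg D t.1.1 ⁻¹' (D t.1.1).T (x.1, x.2.1) (y.1, y.2.1)}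
  have hRb : ∀ t, TL (Rb t) := fun t => TL.fix2 (FT.pb (Pj_pg D t.1.1) (D t.1.1).hT).toTL
    t.2.1 Subtype.val_injective
  have hlt1 : Order.succ (κ k) < κ (k + 1) := by
    have h2 := (S.κi (k + 1)).sl_lt (S.mono (Nat.lt_succ_self k))
    rwa [sl_eq hk0] at h2
  have hGk : DC (κ (k + 1)) (∀ j : {j // k < vg D j}, Cb Om (lg D j.1) (hg D j.1)) :=
    DC.pi fun j => (hdc (k + 1) j.1 (not_lt.2 j.2)).mono (Order.le_succ _)
  obtain ⟨q, hq, t, b, hb⟩ := nsp (S := ∀ j : {j // vg D j < k}, Cb Om (lg D j.1) (hg D j.1))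
    (G := ∀ j : {j // k < vg D j}, Cb Om (lg D j.1) (hg D j.1))
    (lo := fun j : {j // vg D j = k} => lg D j.1) (hi := fun j : {j // vg D j = k} => hg D j.1)
    (κ := κ (k + 1)) (χ := κ k) (S.κi (k + 1)) ((mk_subtype_le _).trans_lt (hJ (k + 1)))
    (fun j => (hl2 j.1).trans_le (hsz _ _ (j.2.trans_lt (Nat.lt_succ_self k))))
    (fun j => hsz _ _ (j.2.trans_lt (Nat.lt_succ_self k))) (S.lt (k + 1)).le hbd hk0 hlt1
    (hcard k {j // vg D j < k} (fun j => j.1) Subtype.val_injective fun j => j.2)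
    hGk (fun j => by
      have := hl1 j.1
      rwa [j.2] at this) (fun g => exists_au (hκ (k + 1)) hGk.dcl Om g) hTT hVX
    (Rel := fun t x y => e.symm ⁻¹' Rb t x y) (fun t => TL.pb (Pj.iso e.symm) (hRb t))
    (D := fun a => e.symm ⁻¹' Dn a) (fun a p hp p' hp' => hDd a _ hp _ (e.symm.monotone hp'))
    (e h1) (fun p hp a => by
      obtain ⟨h', hh', α, hα, h2⟩ := hDu (e.symm p) (by rw [OrderIso.symm_apply_le]; exact hp) a
      refine ⟨e h', by rw [← OrderIso.le_symm_apply]; exact hh', α, hα, ?_⟩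
      change e.symm (e h') ∈ Dn α
      rwa [e.symm_apply_apply]) (fun p hp α β hαβ hα hβ => by
      obtain ⟨h', hh', i, hi, a, ha, w, hw, w', hw', h2⟩ := hDp (e.symm p)
        (by rw [OrderIso.symm_apply_le]; exact hp) α β hαβ hα hβ
      refine ⟨e h', by rw [← OrderIso.le_symm_apply]; exact hh', ⟨⟨i, hi⟩, a, ha⟩,
        ⟨w, hw⟩, ⟨w', hw'⟩, ?_⟩
      change e.symm (e h') ∈ Rb _ _ _
      rw [e.symm_apply_apply]
      exact h2)
  have hb1 := Bch.iso e.symm hb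
  set q1 : Bb Om (lg D) (hg D) := e.symm q with hq1
  have hq1h : q1 ≤ h0 := (by
    rw [hq1, OrderIso.symm_apply_le]
    exact hq : q1 ≤ h1).trans (hh1.trans hg0)
  obtain ⟨⟨i, hi⟩, ⟨a, ha⟩⟩ := t
  obtain ⟨q2, hq2, b2, hb2⟩ := pull (C := fun j : Jg D => Cb Om (lg D j) (hg D j))
    (X := (D i).X) (ι := itg D i) (itg_inj D i) (vg D) (D i).N (fun j => (D i).l4 j) hcard hdc
    (T := (D i).T) (D i).hT hbd S.succ_le
    (fun k => (S.κi k).unc.le) S.mono (fun μ hμ => by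
      obtain ⟨n, hn⟩ := S.sup μ hμ
      exact ⟨n, hn.le⟩) (mk_La S.Om).le (D i).hA (Vs Om lam κ) S.Vs mk_Vs
    (a := a) (h1 := q1)
    (b := fun x => {p | ∃ hx : x.2 ∈ Vs Om lam κ m0, e.symm.symm p ∈ b (x.1, ⟨x.2, hx⟩)}) (by
    refine ⟨?_, ?_, ?_, ?_⟩
    · rintro x p ⟨hx, h3⟩ p' hp'
      exact ⟨hx, hb1.dn _ _ h3 _ hp'⟩
    · rintro x y p hp ⟨hx, h3⟩ ⟨hy, h4⟩ hxy
      exact hb1.ch (x.1, ⟨x.2, hx⟩) (y.1, ⟨y.2, hy⟩) p hp h3 h4 hxy
    · rintro x y p hp ⟨hx, h3⟩ ⟨hy, h4⟩ hxy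
      have h5 := hb1.eq (x.1, ⟨x.2, hx⟩) (y.1, ⟨y.2, hy⟩) p hp h3 h4 hxy
      simp only [Prod.mk.injEq, Subtype.mk.injEq] at h5
      exact Prod.ext h5.1 h5.2
    · intro α p hp
      obtain ⟨r, hr, x, hx, h2⟩ := hb1.un α p hp
      exact ⟨r, hr, (x.1, x.2.1), hx, x.2.2, h2⟩)
  refine (D i).no q2 (hq2.trans ⟨ha, fun j _ => ?_⟩) b2 hb2
  exact hq1h (itg D i j)

end

end Run7.h898
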