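import Mathlib
import Pool.Agent.Run7.h898.Rp
import Pool.Agent.Run7.h898.Comb

set_option autoImplicit false
set_option linter.unusedSectionVars false
set_option linter.unusedVariables false

/-!
# Shooting a closed unbounded set with finite conditions and side sets
-/

namespace Run7.h898

open Set Cardinal Pool.Agent.Helper669.Forcing

/-! ### Finite data -/

/-- finite data: points, ladders and gaps -/
structure Dt (I0 : Type) where
  pts : Finset I0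
  lad : Finset (I0 × ℕ)
  ex : Finset (I0 × I0)

section

variable {I0 : Type} (cs : I0 → ℕ → I0)

/-- the points of the data -/
def Dt.P (d : Dt I0) : Set I0 :=
  {c | c ∈ d.pts ∨ ∃ u ∈ d.lad, c = u.1 ∨ ∃ k, u.2 ≤ k ∧ c = cs u.1 k}

/-- the limit points of the data -/
def Dt.Lam (d : Dt I0) : Set I0 := {i | ∃ n, (i, n) ∈ d.lad}

open Classical in
/-- union of data -/
noncomputable def Dt.un (d e : Dt I0) : Dt I0 := ⟨d.pts ∪ e.pts, d.lad ∪ e.lad, d.ex ∪ e.ex⟩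

theorem Dt.P_un (d e : Dt I0) : (d.un e).P cs = d.P cs ∪ e.P cs := by
  classical
  ext c
  simp only [Dt.P, Dt.un, Finset.mem_union, Set.mem_ofPred_eq, Set.mem_union]
  constructor
  · rintro ((h | h) | ⟨u, h | h, h'⟩)
    · exact Or.inl (Or.inl h)
    · exact Or.inr (Or.inl h)
    · exact Or.inl (Or.inr ⟨u, h, h'⟩)
    · exact Or.inr (Or.inr ⟨u, h, h'⟩)
  · rintro ((h | ⟨u, h, h'⟩) | (h | ⟨u, h, h'⟩))
    · exact Or.inl (Or.inl h)
    · exact Or.inr ⟨u, Or.inl h, h'⟩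
    · exact Or.inl (Or.inr h)
    · exact Or.inr ⟨u, Or.inr h, h'⟩

theorem Dt.Lam_un (d e : Dt I0) : (d.un e).Lam = d.Lam ∪ e.Lam := by
  classical
  ext c
  simp only [Dt.Lam, Dt.un, Finset.mem_union, Set.mem_ofPred_eq, Set.mem_union]
  constructor
  · rintro ⟨n, h | h⟩
    · exact Or.inl ⟨n, h⟩
    · exact Or.inr ⟨n, h⟩
  · rintro (⟨n, h⟩ | ⟨n, h⟩)
    · exact ⟨n, Or.inl h⟩
    · exact ⟨n, Or.inr h⟩

theorem Dt.mem_ex_un {d e : Dt I0} {u : I0 × I0} : u ∈ (d.un e).ex ↔ u ∈ d.ex ∨ u ∈ e.ex := by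
  classical
  simp only [Dt.un, Finset.mem_union]

theorem Dt.Lam_P {d : Dt I0} {i : I0} (h : i ∈ d.Lam) : i ∈ d.P cs := by
  obtain ⟨n, hn⟩ := h
  exact Or.inr ⟨(i, n), hn, Or.inl rfl⟩

/-- the points of a ladder -/
theorem Dt.lad_P {d : Dt I0} {i : I0} (h : i ∈ d.Lam) : ∃ n, ∀ k ≥ n, cs i k ∈ d.P cs := by
  obtain ⟨n, hn⟩ := h
  exact ⟨n, fun k hk => Or.inr ⟨(i, n), hn, Or.inr ⟨k, hk, rfl⟩⟩⟩

variable [LinearOrder I0] (S : Set I0) (o : I0)

/-- admissible data -/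
structure Dt.Ok (z : Set I0) (d : Dt I0) : Prop where
  pz : d.P cs ⊆ z
  exz : ∀ u ∈ d.ex, u.1 ∈ z ∧ u.2 ∈ z
  exl : ∀ u ∈ d.ex, u.1 < u.2
  lam : ∀ i ∈ d.Lam, i ∈ S
  sep : ∀ u ∈ d.ex, ∀ c ∈ d.P cs, c ≤ u.1 ∨ u.2 ≤ c
  bot : o ∈ d.P cs

/-- all parts of the data are above `m` -/
def Dt.Ab (m : I0) (d : Dt I0) : Prop := (∀ c ∈ d.P cs, m < c) ∧ ∀ u ∈ d.ex, m < u.1

variable {cs S o}

theorem Dt.Ab.mono {m m' : I0} {d : Dt I0} (h : d.Ab cs m) (hm : m' ≤ m) : d.Ab cs m' :=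
  ⟨fun c hc => hm.trans_lt (h.1 c hc), fun u hu => hm.trans_lt (h.2 u hu)⟩

/-- the union of the data of compatible conditions -/
theorem Dt.Ok.un {z z' : Set I0} {m : I0} {q d d' : Dt I0} (h : (q.un d).Ok cs S o z)
    (h' : (q.un d').Ok cs S o z') (hz : z ⊆ z') (hm : ∀ c ∈ z, c ≤ m) (hd : d'.Ab cs m) :
    ((q.un d).un d').Ok cs S o z' := by
  have e1 : ∀ c, c ∈ ((q.un d).un d').P cs → c ∈ (q.un d).P cs ∨ c ∈ d'.P cs := by
    intro c hc
    rw [Dt.P_un cs (q.un d)] at hc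
    exact hc
  have e2 : ∀ c, c ∈ d'.P cs → c ∈ (q.un d').P cs := by
    intro c hc
    rw [Dt.P_un]
    exact Or.inr hc
  have e3 : ∀ u, u ∈ d'.ex → u ∈ (q.un d').ex := fun u hu => Dt.mem_ex_un.2 (Or.inr hu)
  refine ⟨?_, ?_, ?_, ?_, ?_, ?_⟩
  · intro c hc
    rcases e1 c hc with h1 | h1
    · exact hz (h.pz h1)
    · exact h'.pz (e2 c h1)
  · intro u hu
    rcases Dt.mem_ex_un.1 hu with h1 | h1
    · exact ⟨hz (h.exz u h1).1, hz (h.exz u h1).2⟩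
    · exact h'.exz u (e3 u h1)
  · intro u hu
    rcases Dt.mem_ex_un.1 hu with h1 | h1
    · exact h.exl u h1
    · exact h'.exl u (e3 u h1)
  · intro i hi
    rw [Dt.Lam_un] at hi
    rcases hi with h1 | h1
    · exact h.lam i h1
    · refine h'.lam i ?_
      rw [Dt.Lam_un]
      exact Or.inr h1
  · intro u hu c hc
    rcases Dt.mem_ex_un.1 hu with h1 | h1
    · rcases e1 c hc with h2 | h2
      · exact h.sep u h1 c h2
      · exact Or.inr ((hm _ (h.exz u h1).2).trans (hd.1 c h2).le)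
    · rcases e1 c hc with h2 | h2
      · exact Or.inl ((hm _ (h.pz h2)).trans (hd.2 u h1).le)
      · exact h'.sep u (e3 u h1) c (e2 c h2)
  · rw [Dt.P_un]
    exact Or.inl h.bot

end

/-! ### Decomposition of data -/

section

variable {I0 : Type} [LinearOrder I0] {cs : I0 → ℕ → I0}

theorem Lim.cut {c : ℕ → I0} {i a : I0} (h : Lim c i) (ha : a < i) :
    ∃ K, ∀ k, k < K ∨ a < c k := by
  obtain ⟨K, hK⟩ := h.cof a ha
  exact ⟨K, fun k => (lt_or_ge k K).imp id fun hk => hK.trans_le (h.mono.monotone hk)⟩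

theorem Lim.cut' {c : ℕ → I0} {i a : I0} (h : Lim c i) (ha : a < i) :
    ∃ K, ∀ k, (K ≤ k ↔ a < c k) := by
  classical
  have hex := h.cof a ha
  refine ⟨Nat.find hex, fun k => ⟨fun hk => (Nat.find_spec hex).trans_le (h.mono.monotone hk),
    fun hk => Nat.find_min' hex hk⟩⟩

/-- the decomposition of data at `c` -/
theorem Dt.dec (d : Dt I0) (c : I0) (hl : ∀ i ∈ d.Lam, Lim (cs i) i)
    (hex : ∀ u ∈ d.ex, u.2 ≤ c ∨ c < u.1) : ∃ d1 d2 : Dt I0,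
      d1.P cs = d.P cs ∩ Iic c ∧ d2.P cs = d.P cs ∩ Ioi c ∧ (d1.un d2).P cs = d.P cs ∧
      (d1.un d2).Lam = d.Lam ∧ d1.Lam = d.Lam ∩ Iic c ∧ (d1.un d2).ex = d.ex ∧
      (∀ u ∈ d1.ex, u ∈ d.ex ∧ u.2 ≤ c) ∧ (∀ u ∈ d2.ex, u ∈ d.ex ∧ c < u.1) ∧
      (∀ u ∈ d1.lad, u.1 ≤ c) := by
  classical
  have h1 : ∀ i : I0, ∃ K, i ∈ d.Lam → c < i → ∀ k, (K ≤ k ↔ c < cs i k) := by
    intro i
    by_cases h : i ∈ d.Lam ∧ c < i
    · obtain ⟨K, hK⟩ := (hl i h.1).cut' h.2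
      exact ⟨K, fun _ _ => hK⟩
    · exact ⟨0, fun h2 h3 => absurd ⟨h2, h3⟩ h⟩
  choose K hK using h1
  let d1 : Dt I0 := ⟨d.pts.filter (· ≤ c) ∪ (d.lad.filter fun u => c < u.1).biUnion fun u =>
      ((Finset.range (K u.1)).filter fun k => u.2 ≤ k).image (cs u.1),
    d.lad.filter fun u => u.1 ≤ c, d.ex.filter fun u => u.2 ≤ c⟩
  let d2 : Dt I0 := ⟨d.pts.filter (c < ·),
    (d.lad.filter fun u => c < u.1).image fun u => (u.1, max u.2 (K u.1)),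
    d.ex.filter fun u => c < u.1⟩
  have hLam : ∀ u ∈ d.lad, u.1 ∈ d.Lam := fun u hu => ⟨u.2, hu⟩
  have e1 : d1.P cs = d.P cs ∩ Iic c := by
    ext x
    constructor
    · rintro (h | ⟨u, hu, h⟩)
      · rcases Finset.mem_union.1 h with h | h
        · rw [Finset.mem_filter] at h
          exact ⟨Or.inl h.1, h.2⟩
        · obtain ⟨u, hu, h⟩ := Finset.mem_biUnion.1 h
          obtain ⟨k, hk, rfl⟩ := Finset.mem_image.1 h
          rw [Finset.mem_filter] at hu hk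
          rw [Finset.mem_range] at hk
          refine ⟨Or.inr ⟨u, hu.1, Or.inr ⟨k, hk.2, rfl⟩⟩, ?_⟩
          exact not_lt.1 fun h2 => absurd ((hK u.1 (hLam u hu.1) hu.2 k).2 h2) (not_le.2 hk.1)
      · have hu' := (Finset.mem_filter.1 hu)
        rcases h with rfl | ⟨k, hk, rfl⟩
        · exact ⟨Or.inr ⟨u, hu'.1, Or.inl rfl⟩, hu'.2⟩
        · exact ⟨Or.inr ⟨u, hu'.1, Or.inr ⟨k, hk, rfl⟩⟩,
            ((hl u.1 (hLam u hu'.1)).lt k).le.trans hu'.2⟩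
    · rintro ⟨h | ⟨u, hu, h⟩, hx⟩
      · exact Or.inl (Finset.mem_union_left _ (Finset.mem_filter.2 ⟨h, hx⟩))
      · rcases le_or_gt u.1 c with h2 | h2
        · exact Or.inr ⟨u, Finset.mem_filter.2 ⟨hu, h2⟩, h⟩
        · rcases h with rfl | ⟨k, hk, rfl⟩
          · exact absurd hx (not_le.2 h2)
          · refine Or.inl (Finset.mem_union_right _ (Finset.mem_biUnion.2 ⟨u,
              Finset.mem_filter.2 ⟨hu, h2⟩, Finset.mem_image.2 ⟨k, ?_, rfl⟩⟩))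
            rw [Finset.mem_filter, Finset.mem_range]
            refine ⟨not_le.1 fun h3 => ?_, hk⟩
            exact absurd ((hK u.1 (hLam u hu) h2 k).1 h3) (not_lt.2 hx)
  have e2 : d2.P cs = d.P cs ∩ Ioi c := by
    ext x
    constructor
    · rintro (h | ⟨u, hu, h⟩)
      · rw [Finset.mem_filter] at h
        exact ⟨Or.inl h.1, h.2⟩
      · obtain ⟨v, hv, rfl⟩ := Finset.mem_image.1 hu
        rw [Finset.mem_filter] at hv
        rcases h with rfl | ⟨k, hk, rfl⟩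
        · exact ⟨Or.inr ⟨v, hv.1, Or.inl rfl⟩, hv.2⟩
        · refine ⟨Or.inr ⟨v, hv.1, Or.inr ⟨k, (le_max_left _ _).trans hk, rfl⟩⟩, ?_⟩
          exact (hK v.1 (hLam v hv.1) hv.2 k).1 ((le_max_right _ _).trans hk)
    · rintro ⟨h | ⟨u, hu, h⟩, hx⟩
      · exact Or.inl (Finset.mem_filter.2 ⟨h, hx⟩)
      · have hx' : c < x := hx
        have h2 : c < u.1 := by
          rcases h with rfl | ⟨k, hk, rfl⟩
          · exact hx'
          · exact hx'.trans ((hl u.1 (hLam u hu)).lt k)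
        refine Or.inr ⟨(u.1, max u.2 (K u.1)), Finset.mem_image.2 ⟨u,
          Finset.mem_filter.2 ⟨hu, h2⟩, rfl⟩, ?_⟩
        rcases h with rfl | ⟨k, hk, rfl⟩
        · exact Or.inl rfl
        · exact Or.inr ⟨k, max_le hk ((hK u.1 (hLam u hu) h2 k).2 hx'), rfl⟩
  refine ⟨d1, d2, e1, e2, ?_, ?_, ?_, ?_, ?_, ?_, ?_⟩
  · rw [Dt.P_un, e1, e2, ← Set.inter_union_distrib_left, Set.Iic_union_Ioi, Set.inter_univ]
  · rw [Dt.Lam_un]
    ext i
    constructor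
    · rintro (⟨n, h⟩ | ⟨n, h⟩)
      · exact ⟨n, (Finset.mem_filter.1 h).1⟩
      · obtain ⟨v, hv, h2⟩ := Finset.mem_image.1 h
        rw [Prod.mk.injEq] at h2
        rw [← h2.1]
        exact ⟨v.2, (Finset.mem_filter.1 hv).1⟩
    · rintro ⟨n, h⟩
      rcases le_or_gt i c with h2 | h2
      · exact Or.inl ⟨n, Finset.mem_filter.2 ⟨h, h2⟩⟩
      · exact Or.inr ⟨_, Finset.mem_image.2 ⟨(i, n), Finset.mem_filter.2 ⟨h, h2⟩, rfl⟩⟩
  · ext i
    constructor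
    · rintro ⟨n, h⟩
      exact ⟨⟨n, (Finset.mem_filter.1 h).1⟩, (Finset.mem_filter.1 h).2⟩
    · rintro ⟨⟨n, h⟩, h2⟩
      exact ⟨n, Finset.mem_filter.2 ⟨h, h2⟩⟩
  · ext u
    rw [Dt.mem_ex_un]
    constructor
    · rintro (h | h)
      · exact (Finset.mem_filter.1 h).1
      · exact (Finset.mem_filter.1 h).1
    · intro h
      rcases hex u h with h2 | h2
      · exact Or.inl (Finset.mem_filter.2 ⟨h, h2⟩)
      · exact Or.inr (Finset.mem_filter.2 ⟨h, h2⟩)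
  · intro u hu
    exact ⟨(Finset.mem_filter.1 hu).1, (Finset.mem_filter.1 hu).2⟩
  · intro u hu
    exact ⟨(Finset.mem_filter.1 hu).1, (Finset.mem_filter.1 hu).2⟩
  · intro u hu
    exact (Finset.mem_filter.1 hu).2

/-- below `i` all points of the data are bounded or belong to the ladder of `i` -/
theorem Dt.ev_pts (d : Dt I0) (hl : ∀ i ∈ d.Lam, Lim (cs i) i) {i : I0} (hi : Lim (cs i) i) :
    ∀ᶠ n in Filter.atTop, ∀ x ∈ d.P cs, x < i → x ≤ cs i n ∨ ∃ k, x = cs i k := by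
  have h0 : ∀ x : I0, ∀ᶠ n in Filter.atTop, x < i → x ≤ cs i n := by
    intro x
    by_cases h : x < i
    · obtain ⟨n, hn⟩ := hi.cof x h
      filter_upwards [Filter.eventually_ge_atTop n] with m hm _
      exact hn.le.trans (hi.mono.monotone hm)
    · exact Filter.Eventually.of_forall fun n h' => absurd h' h
  have h1 : ∀ᶠ n in Filter.atTop, ∀ x ∈ d.pts, x < i → x ≤ cs i n :=
    (Filter.eventually_all_finset d.pts).2 fun x _ => h0 x
  have h2 : ∀ u : I0 × ℕ, u ∈ d.lad → ∀ᶠ n in Filter.atTop, (u.1 < i → u.1 ≤ cs i n) ∧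
      (i < u.1 → ∀ k, cs u.1 k < i → cs u.1 k ≤ cs i n) := by
    intro u hu
    refine (h0 u.1).and ?_
    by_cases h : i < u.1
    · obtain ⟨K, hK⟩ := (hl u.1 ⟨u.2, hu⟩).cut h
      have h3 : ∀ᶠ n in Filter.atTop, ∀ k ∈ Finset.range K, cs u.1 k < i → cs u.1 k ≤ cs i n :=
        (Filter.eventually_all_finset _).2 fun k _ => h0 _
      filter_upwards [h3] with n hn _ k hk
      rcases hK k with h4 | h4
      · exact hn k (Finset.mem_range.2 h4) hk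
      · exact absurd hk (lt_asymm h4)
    · exact Filter.Eventually.of_forall fun n h' => absurd h' h
  have h3 : ∀ᶠ n in Filter.atTop, ∀ u ∈ d.lad, (u.1 < i → u.1 ≤ cs i n) ∧
      (i < u.1 → ∀ k, cs u.1 k < i → cs u.1 k ≤ cs i n) :=
    (Filter.eventually_all_finset d.lad).2 fun u hu => h2 u hu
  filter_upwards [h1, h3] with n hn1 hn2 x hx hxi
  rcases hx with hx | ⟨u, hu, rfl | ⟨k, hk, rfl⟩⟩
  · exact Or.inl (hn1 x hx hxi)
  · exact Or.inl ((hn2 u hu).1 hxi)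
  · rcases lt_trichotomy u.1 i with h4 | h4 | h4
    · exact Or.inl (((hl u.1 ⟨u.2, hu⟩).lt k).le.trans ((hn2 u hu).1 h4))
    · exact Or.inr ⟨k, by rw [h4]⟩
    · exact Or.inl ((hn2 u hu).2 h4 k hxi)

end

/-! ### Side sets -/

section

variable {I0 : Type} [LinearOrder I0] {π : Cardinal.{0}}

/-- side sets -/
structure Sd (I0 : Type) [LinearOrder I0] (π : Cardinal.{0}) where
  z : Set I0
  m : I0
  hz : #z ≤ π
  hm : ∀ c ∈ z, c ≤ m

instance : Preorder (Sd I0 π) where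
  le s' s := s.z ⊆ s'.z ∧ (∀ c ∈ s'.z, c ≤ s.m → c ∈ s.z) ∧ s.m ≤ s'.m
  le_refl s := ⟨Subset.rfl, fun c hc _ => hc, le_rfl⟩
  le_trans r q p h h' := ⟨h'.1.trans h.1, fun c hc hcm => h'.2.1 c (h.2.1 c hc
    (hcm.trans h'.2.2)) hcm, h'.2.2.trans h.2.2⟩

theorem dc_Sd [WellFoundedLT I0] {K : Cardinal.{0}} (h0 : ℵ₀ ≤ π) (hπ : π ≤ K)
    (h1 : ∀ a : I0, #(Iio a) ≤ K) (h2 : K < #I0) : DC π (Sd I0 π) := by
  intro ι D hι _ hd
  obtain ⟨e, he, _⟩ := exists_lub (h0.trans hπ) h1 h2 (hι.trans hπ) fun i => (D i).m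
  refine ⟨⟨⋃ i, (D i).z, e, ?_, ?_⟩, fun i => ⟨?_, ?_, (he i).le⟩⟩
  · refine mk_iUnion_le_sum_mk.trans ?_
    refine (Cardinal.sum_le_sum _ (fun _ => π) fun i => (D i).hz).trans ?_
    rw [Cardinal.sum_const']
    exact mul_le_of_le h0 hι le_rfl
  · intro c hc
    obtain ⟨i, hi⟩ := mem_iUnion.1 hc
    exact ((D i).hm c hi).trans (he i).le
  · intro c hc
    exact mem_iUnion.2 ⟨i, hc⟩
  · intro c hc hcm
    obtain ⟨j, hj⟩ := mem_iUnion.1 hc
    obtain ⟨k, hk1, hk2⟩ := hd i j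
    exact hk1.2.1 c (hk2.1 hj) hcm

/-- adding a point to the side set -/
theorem Sd.add (h0 : ℵ₀ ≤ π) (s : Sd I0 π) {a : I0} (ha : s.m < a) :
    ∃ s' ≤ s, s'.m = a ∧ s'.z = insert a s.z := by
  refine ⟨⟨insert a s.z, a, mk_insert_le.trans (add_le_of_le h0 s.hz (one_le_aleph0.trans h0)),
    ?_⟩, ⟨subset_insert _ _, ?_, ha.le⟩, rfl, rfl⟩
  · rintro c (rfl | hc)
    · exact le_rfl
    · exact (s.hm c hc).trans ha.le
  · rintro c (rfl | hc) h
    · exact absurd h (not_le.2 ha)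
    · exact hc

/-- the forcing for the closed unbounded set -/
structure Cd (π : Cardinal.{0}) (S : Set I0) (cs : I0 → ℕ → I0) (o : I0) where
  s : Sd I0 π
  d : Dt I0
  ok : d.Ok cs S o s.z

variable {S : Set I0} {cs : I0 → ℕ → I0} {o : I0}

instance : Preorder (Cd π S cs o) where
  le q p := q.s ≤ p.s ∧ p.d.P cs ⊆ q.d.P cs ∧ p.d.Lam ⊆ q.d.Lam ∧ p.d.ex ⊆ q.d.ex
  le_refl p := ⟨le_rfl, Subset.rfl, Subset.rfl, Finset.Subset.refl _⟩
  le_trans r q p h h' := ⟨h.1.trans h'.1, h'.2.1.trans h.2.1, h'.2.2.1.trans h.2.2.1,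
    Finset.Subset.trans h'.2.2.2 h.2.2.2⟩

/-- roots over a set -/
abbrev Rt (z : Set I0) : Type := {d : Dt I0 // (∀ c ∈ d.pts, c ∈ z) ∧ (∀ u ∈ d.lad, u.1 ∈ z) ∧
  ∀ u ∈ d.ex, u.1 ∈ z ∧ u.2 ∈ z}

theorem mk_fin_le {X : Type} (h0 : ℵ₀ ≤ π) (hX : #X ≤ π) : #(Finset X) ≤ π := by
  classical
  refine (mk_le_of_surjective (f := fun l : List X => l.toFinset) ?_).trans
    ((mk_list_le_max X).trans (max_le h0 hX))
  intro s
  exact ⟨s.toList, Finset.toList_toFinset s⟩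

theorem mk_Rt (h0 : ℵ₀ ≤ π) {z : Set I0} (hz : #z ≤ π) : #(Rt z) ≤ π := by
  classical
  have h1 : #(Finset z × Finset (z × ℕ) × Finset (z × z)) ≤ π := by
    simp only [mk_prod, lift_id]
    refine mul_le_of_le h0 (mk_fin_le h0 hz) (mul_le_of_le h0 (mk_fin_le h0 ?_)
      (mk_fin_le h0 ?_))
    · simp only [mk_prod, lift_id, mk_nat]
      exact mul_le_of_le h0 hz h0
    · simp only [mk_prod, lift_id]
      exact mul_le_of_le h0 hz hz
  refine le_trans ?_ h1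
  refine mk_le_of_surjective (f := fun t => (⟨⟨t.1.image Subtype.val,
    t.2.1.image fun u => (u.1.1, u.2), t.2.2.image fun u => (u.1.1, u.2.1)⟩, ?_, ?_, ?_⟩ : Rt z)) ?_
  · intro c hc
    obtain ⟨a, _, rfl⟩ := Finset.mem_image.1 hc
    exact a.2
  · intro c hc
    obtain ⟨a, _, rfl⟩ := Finset.mem_image.1 hc
    exact a.1.2
  · intro c hc
    obtain ⟨a, _, rfl⟩ := Finset.mem_image.1 hc
    exact ⟨a.1.2, a.2.2⟩
  · rintro ⟨⟨p, l, e⟩, h2, h3, h4⟩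
    refine ⟨(p.attach.image fun c => ⟨c.1, h2 c.1 c.2⟩,
      l.attach.image fun u => (⟨u.1.1, h3 u.1 u.2⟩, u.1.2),
      e.attach.image fun u => (⟨u.1.1, (h4 u.1 u.2).1⟩, ⟨u.1.2, (h4 u.1 u.2).2⟩)), ?_⟩
    refine Subtype.ext ?_
    simp only [Dt.mk.injEq, Finset.image_image]
    refine ⟨?_, ?_, ?_⟩
    · ext x
      simp [Finset.mem_image]
    · ext x
      simp [Finset.mem_image]
    · ext x
      simp [Finset.mem_image]

end

end Run7.h898
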