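import Mathlib
import Pool.Agent.Run7.h898.Cd

set_option autoImplicit false
set_option linter.unusedSectionVars false
set_option linter.unusedVariables false

/-!
# The chain condition for the club shooting forcing
-/

namespace Run7.h898

open Set Cardinal Pool.Agent.Helper669.Forcing

section

variable {I0 : Type} [LinearOrder I0] [WellFoundedLT I0] {S : Set I0} {cs : I0 → ℕ → I0}

/-- a run along a ladder with infinitely many additional steps -/
theorem stat_seq (hS : Stat S) (hlim : ∀ i ∈ S, Lim (cs i) i) (F : List (Option I0) → I0)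
    (hF : ∀ L c, F L < c → F (some c :: L) = c) :
    ∃ i ∈ S, ∃ (m0 : ℕ) (Ls : ℕ → List (Option I0)), Ls 0 = [] ∧
      (∀ m, Ls (m + 1) = some (cs i (m0 + m)) :: Ls m ∨
        Ls (m + 1) = none :: some (cs i (m0 + m)) :: Ls m) ∧
      (∀ m, F (Ls m) < cs i (m0 + m)) ∧
      ∀ N, ∃ m ≥ N, Ls (m + 1) = none :: some (cs i (m0 + m)) :: Ls m := by
  classical
  obtain ⟨i, hiS, hi⟩ := hS F
  have hl := hlim i hiS
  set c := cs i with hc
  obtain ⟨m0, hm0⟩ : ∃ m0, F [] < c m0 := by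
    obtain ⟨e, _, he, hF'⟩ := hi (c 0) (hl.lt 0)
    obtain ⟨m0, hm0⟩ := hl.cof e he
    exact ⟨m0, (hF' [] (by simp)).trans hm0⟩
  let stp : ℕ → List (Option I0) → List (Option I0) := fun m L =>
    if F (none :: some (c (m0 + m)) :: L) < c (m0 + m + 1) then none :: some (c (m0 + m)) :: L
    else some (c (m0 + m)) :: L
  let Ls : ℕ → List (Option I0) := fun m => Nat.rec [] (fun m L => stp m L) m
  have hLs : ∀ m, Ls (m + 1) = stp m (Ls m) := fun m => rfl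
  have hent : ∀ m, ∀ o ∈ Ls m, ∀ a ∈ o, ∃ j < m0 + m, a = c j := by
    intro m
    induction m with
    | zero => intro o ho; simp [Ls] at ho
    | succ m ih =>
      intro o ho a ha
      rw [hLs] at ho
      have h9 : o = none ∨ o = some (c (m0 + m)) ∨ o ∈ Ls m := by
        simp only [stp] at ho
        split_ifs at ho
        · rcases List.mem_cons.1 ho with h9 | ho
          · exact Or.inl h9
          · exact Or.inr (List.mem_cons.1 ho)
        · exact Or.inr (List.mem_cons.1 ho)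
      rcases h9 with rfl | rfl | h9
      · simp at ha
      · rw [Option.mem_some_iff] at ha
        exact ⟨m0 + m, by omega, ha.symm⟩
      · obtain ⟨j, hj, h10⟩ := ih o h9 a ha
        exact ⟨j, by omega, h10⟩
  have hlt : ∀ m, F (Ls m) < c (m0 + m) := by
    intro m
    induction m with
    | zero => exact hm0
    | succ m ih =>
      rw [hLs]
      simp only [stp]
      split_ifs with h9
      · exact h9
      · rw [hF _ _ ih]
        exact hl.mono (Nat.lt_succ_self _)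
  refine ⟨i, hiS, m0, Ls, rfl, fun m => ?_, hlt, fun N => ?_⟩
  · rw [hLs]
    simp only [stp]
    split_ifs with h9
    · exact Or.inr rfl
    · exact Or.inl rfl
  · obtain ⟨e, he1, he2, he3⟩ := hi (c (m0 + N)) (hl.lt _)
    obtain ⟨n, hn⟩ := hl.cof e he2
    have hex : ∃ n, e ≤ c (m0 + n) := ⟨n, hn.le.trans (hl.mono.monotone (Nat.le_add_left _ _))⟩
    have h9 := Nat.find_spec hex
    have h10 : N < Nat.find hex := by
      by_contra hcon
      push Not at hcon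
      exact absurd he1 (not_lt.2 (h9.trans (hl.mono.monotone (Nat.add_le_add_left hcon _))))
    obtain ⟨m, hm⟩ : ∃ m, Nat.find hex = m + 1 := ⟨Nat.find hex - 1, by omega⟩
    have h11 : c (m0 + m) < e := not_le.1 (Nat.find_min hex (by omega))
    refine ⟨m, by omega, ?_⟩
    rw [hLs]
    simp only [stp]
    rw [if_pos]
    rw [hm] at h9
    refine (he3 _ ?_).trans_le h9
    intro o ho a ha
    rcases List.mem_cons.1 ho with rfl | ho
    · simp at ha
    · rcases List.mem_cons.1 ho with rfl | ho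
      · rw [Option.mem_some_iff] at ha
        exact ha ▸ h11
      · obtain ⟨j, hj, rfl⟩ := hent m o ho a ha
        exact (hl.mono hj).trans h11

end

section

variable {I0 : Type} [LinearOrder I0] [WellFoundedLT I0] {S : Set I0} {cs : I0 → ℕ → I0}
  {o : I0} {π K : Cardinal.{0}} {A0 R L : Type} [Preorder A0] [Preorder R] [LinearOrder L]

/-- the condition with side set `s` and data `d` is in `D` -/
def InD (D : Set ((Cd π S cs o × A0) × R)) (s : Sd I0 π) (d : Dt I0) (a : A0) (r : R) : Prop :=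
  ∃ ok : d.Ok cs S o s.z, (((⟨s, d, ok⟩ : Cd π S cs o), a), r) ∈ D

/-- the root can be used everywhere -/
def Ever (D : L → Set ((Cd π S cs o × A0) × R)) (d : Dt I0) (a : A0) (s : Sd I0 π × R) : Prop :=
  ∀ s' ≤ s, ∀ l, ∃ l' ≥ l, ∃ s'' ≤ s', ∃ d' : Dt I0, d'.Ab cs s'.1.m ∧
    InD (D l') s''.1 (d.un d') a s''.2

/-- the root cannot be used -/
def Kill (D : L → Set ((Cd π S cs o × A0) × R)) (d : Dt I0) (a : A0) (s : Sd I0 π × R) (l : L) :
    Prop :=
  ∀ l' ≥ l, ∀ s' ≤ s, ∀ d' : Dt I0, d'.Ab cs s.1.m → ¬ InD (D l') s'.1 (d.un d') a s'.2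

theorem Kill.mono {D : L → Set ((Cd π S cs o × A0) × R)} {d : Dt I0} {a : A0}
    {s s' : Sd I0 π × R} {l l' : L} (h : Kill D d a s l) (hs : s' ≤ s) (hl : l ≤ l') :
    Kill D d a s' l' :=
  fun l2 hl2 s2 hs2 d' hd' => h l2 (hl.trans hl2) s2 (hs2.trans hs) d' (hd'.mono hs.1.2.2)

theorem kill_of_not_ever {D : L → Set ((Cd π S cs o × A0) × R)} {d : Dt I0} {a : A0}
    {s : Sd I0 π × R} (h : ¬ Ever D d a s) : ∃ s' ≤ s, ∃ l, Kill D d a s' l := by
  unfold Ever at h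
  push Not at h
  obtain ⟨s', hs', l, h1⟩ := h
  exact ⟨s', hs', l, fun l' hl' s'' hs'' d' hd' => h1 l' hl' s'' hs'' d' hd'⟩

/-- the main step: some root can be used everywhere -/
theorem exists_ever (h0 : ℵ₀ ≤ π) (hπ : π ≤ K) (h1 : ∀ a : I0, #(Iio a) ≤ K) (h2 : K < #I0)
    (hS : Stat S) (hlim : ∀ i ∈ S, Lim (cs i) i) (hA0 : #A0 ≤ π) (hR : DC π R) (hL : Bd π L)
    (D : L → Set ((Cd π S cs o × A0) × R)) (hD : ∀ l, Down (D l)) (q0 : (Cd π S cs o × A0) × R)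
    (hq0 : ∀ l, ∀ q ≤ q0, ∃ q' ≤ q, q' ∈ D l) :
    ∃ (d : Dt I0) (a : A0) (s : Sd I0 π × R), s ≤ (q0.1.1.s, q0.2) ∧ Ever D d a s := by
  classical
  by_contra hcon
  push Not at hcon
  have hSt : DC π (Sd I0 π × R) := (dc_Sd h0 hπ h1 h2).prod hR
  set s0 : Sd I0 π × R := (q0.1.1.s, q0.2) with hs0
  -- killing all roots
  have hkill : ∀ s ≤ s0, ∃ s' ≤ s, ∀ d : Rt s.1.z, ∀ a, ∃ l, Kill D d.1 a s' l := by
    intro s hs
    obtain ⟨s', hs', h3⟩ := hSt.all h0 (J := Rt s.1.z × A0) (by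
        simp only [mk_prod, lift_id]
        exact mul_le_of_le h0 (mk_Rt h0 s.1.hz) hA0) s
      (fun j s' => ∃ l, Kill D j.1.1 j.2 s' l) (fun j p q hq ⟨l, h⟩ => ⟨l, h.mono hq le_rfl⟩)
      fun j p hp => kill_of_not_ever (hcon _ _ p (hp.trans hs))
    exact ⟨s', hs', fun d a => h3 (d, a)⟩
  choose! nx nx1 nx2 using hkill
  have hadd : ∀ (s : Sd I0 π × R) (a : I0), s.1.m < a → ∃ s' ≤ s, s'.1.m = a ∧
      s'.1.z = insert a s.1.z := by
    intro s a ha
    obtain ⟨t, h3, h4, h5⟩ := s.1.add h0 ha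
    exact ⟨(t, s.2), ⟨h3, le_rfl⟩, h4, h5⟩
  choose! ad ad1 ad2 ad3 using hadd
  let stp : Option I0 → Sd I0 π × R → Sd I0 π × R := fun o p => match o with
    | some a => if p.1.m < a then ad p a else p
    | none => nx p
  let st : List (Option I0) → Sd I0 π × R := fun L => L.foldr stp s0
  have hs1 : ∀ a L, (st L).1.m < a → st (some a :: L) = ad (st L) a := by
    intro a L h2
    change (if (st L).1.m < a then ad (st L) a else st L) = _
    rw [if_pos h2]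
  have hs2 : ∀ L, st (none :: L) = nx (st L) := fun L => rfl
  have hst : ∀ L, st L ≤ s0 := by
    intro L
    induction L with
    | nil => exact le_rfl
    | cons o L ih =>
      cases o with
      | none => exact (nx1 _ ih).trans ih
      | some a =>
        change (if (st L).1.m < a then ad (st L) a else st L) ≤ s0
        split_ifs with h1
        · exact (ad1 _ _ h1).trans ih
        · exact ih
  obtain ⟨i, hiS, m0, Ls, hL0, hLs, hlt, hinf⟩ := stat_seq hS hlim (fun L => (st L).1.m)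
    (fun L c hc => by
      rw [hs1 c L hc]
      exact ad2 _ _ hc)
  have hl := hlim i hiS
  set c := cs i with hc
  let q : ℕ → Sd I0 π × R := fun m => st (Ls m)
  let t : ℕ → Sd I0 π × R := fun m => ad (q m) (c (m0 + m))
  have htq : ∀ m, t m ≤ q m := fun m => ad1 _ _ (hlt m)
  have htm : ∀ m, (t m).1.m = c (m0 + m) := fun m => ad2 _ _ (hlt m)
  have htz : ∀ m, (t m).1.z = insert (c (m0 + m)) (q m).1.z := fun m => ad3 _ _ (hlt m)
  have ht0 : ∀ m, t m ≤ s0 := fun m => (htq m).trans (hst _)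
  have hq1 : ∀ m, q (m + 1) ≤ t m := by
    intro m
    have e1 : st (some (c (m0 + m)) :: Ls m) = t m := hs1 _ _ (hlt m)
    rcases hLs m with h3 | h3
    · change st (Ls (m + 1)) ≤ t m
      rw [h3, e1]
    · change st (Ls (m + 1)) ≤ t m
      rw [h3, hs2, e1]
      exact nx1 _ (ht0 m)
  have hq2 : ∀ m, Ls (m + 1) = none :: some (c (m0 + m)) :: Ls m → q (m + 1) = nx (t m) := by
    intro m h3
    have e1 : st (some (c (m0 + m)) :: Ls m) = t m := hs1 _ _ (hlt m)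
    change st (Ls (m + 1)) = _
    rw [h3, hs2, e1]
  have hqm : ∀ m, (q m).1.m < c (m0 + m) := hlt
  have hstep : ∀ m, q (m + 1) ≤ q m := fun m => (hq1 m).trans (htq m)
  have hmono : ∀ m n, m ≤ n → q n ≤ q m := by
    intro m n hmn
    induction n, hmn using Nat.le_induction with
    | base => exact le_rfl
    | succ n _ ih => exact (hstep n).trans ih
  -- the limit
  obtain ⟨rω, hrω⟩ := hR ℕ (fun n => (q n).2) (by rw [mk_nat]; exact h0) inferInstance fun m n =>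
    ⟨max m n, (hmono _ _ (le_max_left _ _)).2, (hmono _ _ (le_max_right _ _)).2⟩
  have hqi : ∀ m, ∀ x ∈ (q m).1.z, x < i := fun m x hx =>
    ((q m).1.hm x hx).trans_lt ((hqm m).trans (hl.lt _))
  let sω : Sd I0 π := {
    z := insert i (⋃ m, (q m).1.z)
    m := i
    hz := by
      refine mk_insert_le.trans (add_le_of_le h0 ?_ (one_le_aleph0.trans h0))
      refine mk_iUnion_le_sum_mk.trans ?_
      refine (Cardinal.sum_le_sum _ (fun _ => π) fun i => (q i).1.hz).trans ?_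
      rw [Cardinal.sum_const', mk_nat]
      exact mul_le_of_le h0 h0 le_rfl
    hm := by
      rintro x (rfl | hx)
      · exact le_rfl
      · obtain ⟨n, hn⟩ := mem_iUnion.1 hx
        exact (hqi n x hn).le }
  have hωq : ∀ m, (sω, rω) ≤ q m := by
    intro m
    refine ⟨⟨fun x hx => Or.inr (mem_iUnion.2 ⟨m, hx⟩), ?_, ((hqm m).trans (hl.lt _)).le⟩, hrω m⟩
    rintro x (rfl | hx) hxm
    · exact absurd hxm (not_le.2 ((hqm m).trans (hl.lt _)))
    · obtain ⟨n, hn⟩ := mem_iUnion.1 hx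
      rcases le_total m n with h3 | h3
      · exact (hmono m n h3).1.2.1 x hn hxm
      · exact (hmono n m h3).1.1 hn
  have hωt : ∀ m, (sω, rω) ≤ t m := fun m => (hωq (m + 1)).trans (hq1 m)
  have hq0s : q 0 = s0 := by
    change st (Ls 0) = s0
    rw [hL0]
    rfl
  -- bounding the indices
  have hlx : ∀ j : ℕ × Rt sω.z × A0, ∃ l : L, ∀ l', Kill D j.2.1.1 j.2.2 (q (j.1 + 1)) l' →
      Kill D j.2.1.1 j.2.2 (q (j.1 + 1)) l := by
    intro j
    by_cases h3 : ∃ l', Kill D j.2.1.1 j.2.2 (q (j.1 + 1)) l'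
    · obtain ⟨l', h4⟩ := h3
      exact ⟨l', fun _ _ => h4⟩
    · obtain ⟨b, _⟩ := hL Empty (fun e => e.elim) (by simp)
      exact ⟨b, fun l' h4 => absurd ⟨l', h4⟩ h3⟩
  choose lx hlx using hlx
  obtain ⟨l1, hl1⟩ := hL _ lx (by
    simp only [mk_prod, lift_id, mk_nat]
    exact mul_le_of_le h0 h0 (mul_le_of_le h0 (mk_Rt h0 sω.hz) hA0))
  -- the condition with the new limit point
  have hd0 := q0.1.1.ok
  have hz0 : ∀ x ∈ q0.1.1.s.z, x < c m0 ∧ x ∈ (q 0).1.z := by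
    intro x hx
    have h3 : x ∈ (q 0).1.z := by
      rw [hq0s]
      exact hx
    refine ⟨?_, h3⟩
    have h4 := hqm 0
    rw [Nat.add_zero] at h4
    exact ((q 0).1.hm x h3).trans_lt h4
  let dl : Dt I0 := ⟨∅, {(i, m0)}, ∅⟩
  have hdlP : ∀ x, x ∈ dl.P cs ↔ x = i ∨ ∃ k, x = c (m0 + k) := by
    intro x
    constructor
    · rintro (h3 | ⟨u, hu, h3⟩)
      · exact absurd h3 (Finset.notMem_empty _)
      · have hu' := Finset.mem_singleton.1 hu
        subst hu'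
        rcases h3 with h3 | ⟨k, hk, h3⟩
        · exact Or.inl h3
        · refine Or.inr ⟨k - m0, ?_⟩
          rw [Nat.add_sub_cancel' hk]
          exact h3
    · rintro (h3 | ⟨k, h3⟩)
      · exact Or.inr ⟨(i, m0), Finset.mem_singleton_self _, Or.inl h3⟩
      · exact Or.inr ⟨(i, m0), Finset.mem_singleton_self _, Or.inr ⟨m0 + k, Nat.le_add_right _ _,
          h3⟩⟩
  have hok1 : (q0.1.1.d.un dl).Ok cs S o sω.z := by
    refine ⟨?_, ?_, ?_, ?_, ?_, ?_⟩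
    · intro x hx
      rw [Dt.P_un] at hx
      rcases hx with hx | hx
      · exact Or.inr (mem_iUnion.2 ⟨0, (hz0 x (hd0.pz hx)).2⟩)
      · rcases (hdlP x).1 hx with rfl | ⟨k, rfl⟩
        · exact Or.inl rfl
        · refine Or.inr (mem_iUnion.2 ⟨k + 1, (hq1 k).1.1 ?_⟩)
          rw [htz]
          exact Or.inl rfl
    · intro u hu
      rcases Dt.mem_ex_un.1 hu with hu | hu
      · exact ⟨Or.inr (mem_iUnion.2 ⟨0, (hz0 _ (hd0.exz u hu).1).2⟩),
          Or.inr (mem_iUnion.2 ⟨0, (hz0 _ (hd0.exz u hu).2).2⟩)⟩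
      · exact absurd hu (Finset.notMem_empty _)
    · intro u hu
      rcases Dt.mem_ex_un.1 hu with hu | hu
      · exact hd0.exl u hu
      · exact absurd hu (Finset.notMem_empty _)
    · intro j hj
      rw [Dt.Lam_un] at hj
      rcases hj with hj | ⟨n, hn⟩
      · exact hd0.lam j hj
      · have h3 := Finset.mem_singleton.1 hn
        rw [Prod.mk.injEq] at h3
        rw [h3.1]
        exact hiS
    · intro u hu x hx
      rcases Dt.mem_ex_un.1 hu with hu | hu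
      · rw [Dt.P_un] at hx
        rcases hx with hx | hx
        · exact hd0.sep u hu x hx
        · right
          have h3 := (hz0 _ (hd0.exz u hu).2).1
          rcases (hdlP x).1 hx with rfl | ⟨k, rfl⟩
          · exact (h3.trans (hl.lt _)).le
          · exact h3.le.trans (hl.mono.monotone (Nat.le_add_right _ _))
      · exact absurd hu (Finset.notMem_empty _)
    · rw [Dt.P_un]
      exact Or.inl hd0.bot
  let p1 : (Cd π S cs o × A0) × R := ((⟨sω, q0.1.1.d.un dl, hok1⟩, q0.1.2), rω)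
  have hp1 : p1 ≤ q0 := by
    have h3 : (sω, rω) ≤ s0 := by
      rw [← hq0s]
      exact hωq 0
    refine ⟨⟨⟨h3.1, ?_, ?_, ?_⟩, le_rfl⟩, h3.2⟩
    · change _ ⊆ (q0.1.1.d.un dl).P cs
      rw [Dt.P_un]
      exact Set.subset_union_left
    · change _ ⊆ (q0.1.1.d.un dl).Lam
      rw [Dt.Lam_un]
      exact Set.subset_union_left
    · intro u hu
      exact Dt.mem_ex_un.2 (Or.inl hu)
  obtain ⟨⟨⟨⟨s2, d2, ok2⟩, a2⟩, r2⟩, hp2, hin⟩ := hq0 l1 p1 hp1
  have hs2ω : s2 ≤ sω := hp2.1.1.1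
  have hP2 : (q0.1.1.d.un dl).P cs ⊆ d2.P cs := hp2.1.1.2.1
  have hLam2 : (q0.1.1.d.un dl).Lam ⊆ d2.Lam := hp2.1.1.2.2.1
  have hiP : i ∈ d2.P cs := hP2 (by
    rw [Dt.P_un]
    exact Or.inr ((hdlP i).2 (Or.inl rfl)))
  have hcP : ∀ k, c (m0 + k) ∈ d2.P cs := fun k => hP2 (by
    rw [Dt.P_un]
    exact Or.inr ((hdlP _).2 (Or.inr ⟨k, rfl⟩)))
  have hl2 : ∀ j ∈ d2.Lam, Lim (cs j) j := fun j hj => hlim j (ok2.lam j hj)
  -- gaps do not contain `i`
  have hex2 : ∀ u ∈ d2.ex, ∀ᶠ n in Filter.atTop, u.2 ≤ c n ∨ i ≤ u.1 := by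
    intro u hu
    rcases ok2.sep u hu i hiP with h3 | h3
    · exact Filter.Eventually.of_forall fun n => Or.inr h3
    · have h4 : u.1 < i := (ok2.exl u hu).trans_le h3
      obtain ⟨n, hn⟩ := hl.cof _ h4
      have h5 : u.1 < c (m0 + n) := hn.trans_le (hl.mono.monotone (Nat.le_add_left _ _))
      rcases ok2.sep u hu _ (hcP n) with h6 | h6
      · exact absurd h6 (not_le.2 h5)
      · filter_upwards [Filter.eventually_ge_atTop (m0 + n)] with k hk
        exact Or.inl (h6.trans (hl.mono.monotone hk))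
  have hev : ∀ᶠ n in Filter.atTop, (∀ x ∈ d2.P cs, x < i → x ≤ c n ∨ ∃ k, x = c k) ∧
      ∀ u ∈ d2.ex, u.2 ≤ c n ∨ i ≤ u.1 :=
    (Dt.ev_pts d2 hl2 hl).and ((Filter.eventually_all_finset _).2 hex2)
  obtain ⟨n0, hn0⟩ := Filter.eventually_atTop.1 hev
  obtain ⟨n, hn, hnk⟩ := hinf n0
  obtain ⟨hb1, hb2⟩ := hn0 (m0 + n) (hn.trans (Nat.le_add_left _ _))
  have hcni : c (m0 + n) < i := hl.lt _
  obtain ⟨e1, e2, f1, f2, f3, f4, f5, f6, f7, f8, f9⟩ := Dt.dec (cs := cs) d2 (c (m0 + n)) hl2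
    (fun u hu => (hb2 u hu).imp id fun h3 => hcni.trans_le h3)
  have hqn : (q (n + 1)).1.m < c (m0 + n + 1) := hqm (n + 1)
  -- the second part is above
  have hAb : e2.Ab cs (q (n + 1)).1.m := by
    constructor
    · intro x hx
      rw [f2] at hx
      obtain ⟨hx1, hx2⟩ := hx
      rcases lt_or_ge x i with h3 | h3
      · rcases hb1 x hx1 h3 with h4 | ⟨k, rfl⟩
        · exact absurd h4 (not_le.2 hx2)
        · refine hqn.trans_le (hl.mono.monotone ?_)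
          exact (hl.mono.lt_iff_lt.1 hx2 : m0 + n < k)
      · exact (hqn.trans (hl.lt _)).trans_le h3
    · intro u hu
      obtain ⟨h3, h4⟩ := f8 u hu
      rcases hb2 u h3 with h5 | h5
      · exact absurd ((ok2.exl u h3).trans_le h5) (lt_asymm h4)
      · exact (hqn.trans (hl.lt _)).trans_le h5
  -- the first part is a root
  have hz2 : ∀ x ∈ s2.z, x ≤ c (m0 + n) → x ∈ (t n).1.z := by
    intro x hx hxc
    have h3 : x ∈ sω.z := hs2ω.2.1 x hx (hxc.trans hcni.le)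
    refine (hωt n).1.2.1 x h3 ?_
    rw [htm]
    exact hxc
  have he1 : ∀ x ∈ e1.P cs, x ∈ (t n).1.z := by
    intro x hx
    rw [f1] at hx
    exact hz2 x (ok2.pz hx.1) hx.2
  have hRt : (∀ x ∈ e1.pts, x ∈ (t n).1.z) ∧ (∀ u ∈ e1.lad, u.1 ∈ (t n).1.z) ∧
      ∀ u ∈ e1.ex, u.1 ∈ (t n).1.z ∧ u.2 ∈ (t n).1.z := by
    refine ⟨fun x hx => he1 x (Or.inl hx), fun u hu => he1 _ (Or.inr ⟨u, hu, Or.inl rfl⟩),
      fun u hu => ?_⟩
    obtain ⟨h3, h4⟩ := f7 u hu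
    have h5 := ok2.exz u h3
    exact ⟨hz2 _ h5.1 ((ok2.exl u h3).le.trans h4), hz2 _ h5.2 h4⟩
  have htω : (t n).1.z ⊆ sω.z := (hωt n).1.1
  have hRt' : (∀ x ∈ e1.pts, x ∈ sω.z) ∧ (∀ u ∈ e1.lad, u.1 ∈ sω.z) ∧
      ∀ u ∈ e1.ex, u.1 ∈ sω.z ∧ u.2 ∈ sω.z :=
    ⟨fun x hx => htω (hRt.1 x hx), fun u hu => htω (hRt.2.1 u hu),
      fun u hu => ⟨htω (hRt.2.2 u hu).1, htω (hRt.2.2 u hu).2⟩⟩
  obtain ⟨l', hl'⟩ := nx2 (t n) (ht0 n) ⟨e1, hRt⟩ a2
  rw [← hq2 n hnk] at hl'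
  have hk := hlx (n, ⟨e1, hRt'⟩, a2) l' hl'
  have h3 := hl1 (n, ⟨e1, hRt'⟩, a2)
  refine hk l1 h3.le (s2, r2) (le_trans (b := (sω, rω)) ⟨hs2ω, hp2.2⟩ (hωq (n + 1))) e2 hAb ?_
  have ok3 : (e1.un e2).Ok cs S o s2.z := by
    refine ⟨?_, ?_, ?_, ?_, ?_, ?_⟩
    · rw [f3]
      exact ok2.pz
    · rw [f6]
      exact ok2.exz
    · rw [f6]
      exact ok2.exl
    · rw [f4]
      exact ok2.lam
    · rw [f3, f6]
      exact ok2.sep
    · rw [f3]
      exact ok2.bot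
  refine ⟨ok3, hD l1 _ hin _ ⟨⟨⟨le_rfl, ?_, ?_, ?_⟩, le_rfl⟩, le_rfl⟩⟩
  · change d2.P cs ⊆ (e1.un e2).P cs
    rw [f3]
  · change d2.Lam ⊆ (e1.un e2).Lam
    rw [f4]
  · change d2.ex ⊆ (e1.un e2).ex
    rw [f6]

/-- the chain condition -/
theorem kn_Cd (h0 : ℵ₀ ≤ π) (hπ : π ≤ K) (h1 : ∀ a : I0, #(Iio a) ≤ K) (h2 : K < #I0)
    (hS : Stat S) (hlim : ∀ i ∈ S, Lim (cs i) i) (hA0 : #A0 ≤ π) :
    Kn π (Cd π S cs o × A0) := by
  classical
  intro R _ hR Θ _ _ hΘ L _ hL G B D hD q0 hq0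
  let D' : L → Set ((Cd π S cs o × A0) × R) := fun l => {q | q ∈ D l ∧ q ≤ q0}
  have hD' : ∀ l, Down (D' l) := fun l p hp q hq => ⟨hD l p hp.1 q hq, hq.trans hp.2⟩
  obtain ⟨d, a, s, hs, hev⟩ := exists_ever h0 hπ h1 h2 hS hlim hA0 hR hL D' hD' q0 (by
    intro l q hq
    obtain ⟨q', hq', h3⟩ := hq0 l q hq
    exact ⟨q', hq', h3, hq'.trans hq⟩)
  have hSt : DC π (Sd I0 π × R) := (dc_Sd h0 hπ h1 h2).prod hR
  have hLd : DC π Lᵒᵈ := by
    intro ι f hι _ _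
    obtain ⟨b, hb⟩ := hL ι f hι
    exact ⟨b, fun i => (hb i).le⟩
  -- one step
  let Φ : Θ → (Sd I0 π × R) × Lᵒᵈ → (Sd I0 π × R) × Lᵒᵈ → Prop := fun θ m m' =>
    ∃ (t : L) (d' : Dt I0) (ok : (d.un d').Ok cs S o m'.1.1.z), d'.Ab cs m.1.1.m ∧
      (((⟨m'.1.1, d.un d', ok⟩ : Cd π S cs o), a), m'.1.2) ∈ D' t ∧ G θ ≤ t ∧
      OrderDual.ofDual m.2 ≤ t ∧ t < OrderDual.ofDual m'.2 ∧
      B (((⟨m'.1.1, d.un d', ok⟩ : Cd π S cs o), a), m'.1.2) < OrderDual.ofDual m'.2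
  have hb2 : ∀ x y : L, ∃ b, x < b ∧ y < b := by
    intro x y
    obtain ⟨b, hb⟩ := hL Bool (fun i => if i then x else y) ((lt_aleph0_of_finite _).le.trans h0)
    exact ⟨b, hb true, hb false⟩
  obtain ⟨l0, _⟩ := hL Empty (fun e => e.elim) (by simp)
  obtain ⟨M, hM1, hM2, hM3⟩ := exists_chain h0 (hSt.prod hLd) hΘ (s, OrderDual.toDual l0) Φ (by
    rintro θ ⟨s', l'⟩ hm
    obtain ⟨l1, hl1, hl1'⟩ := hb2 (G θ) (OrderDual.ofDual l')
    obtain ⟨t, ht, s'', hs'', d', hd', ok, hin⟩ := hev s' hm.1 l1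
    obtain ⟨l2, hl2, hl2'⟩ := hb2 t (B (((⟨s''.1, d.un d', ok⟩ : Cd π S cs o), a), s''.2))
    refine ⟨(s'', OrderDual.toDual l2), ⟨hs'', ?_⟩, t, d', ok, hd', hin, hl1.le.trans ht,
      hl1'.le.trans ht, hl2, hl2'⟩
    change OrderDual.ofDual l' ≤ l2
    exact (hl1'.le.trans ht).trans hl2.le)
  choose m hm1 hm2 hm3 hm4 using hM3
  choose t d' ok k1 k2 k3 k4 k5 k6 using hm4
  refine ⟨t, fun θ => ((⟨(M θ).1.1, d.un (d' θ), ok θ⟩, a), (M θ).1.2), fun θ =>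
    ⟨(k2 θ).2, (k2 θ).1, k3 θ⟩, fun θ θ' hθ => ?_⟩
  have e1 : m θ' ≤ M θ := hm2 θ' θ hθ
  have e2 : OrderDual.ofDual (M θ).2 ≤ OrderDual.ofDual (m θ').2 := e1.2
  have e3 : M θ' ≤ M θ := hM2 θ θ' hθ
  refine ⟨(k6 θ).trans_le (e2.trans (k4 θ')), (k5 θ).trans_le (e2.trans (k4 θ')), e3.1.2, ?_⟩
  have hok := (ok θ).un (ok θ') e3.1.1.1 (m := (M θ).1.1.m) (M θ).1.1.hm
    ((k1 θ').mono e1.1.1.2.2)
  refine ⟨((⟨(M θ').1.1, (d.un (d' θ)).un (d' θ'), hok⟩ : Cd π S cs o), a), ⟨⟨e3.1.1, ?_, ?_, ?_⟩,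
    le_rfl⟩, ⟨⟨le_rfl, ?_, ?_, ?_⟩, le_rfl⟩⟩
  · change (d.un (d' θ)).P cs ⊆ ((d.un (d' θ)).un (d' θ')).P cs
    rw [Dt.P_un cs (d.un (d' θ))]
    exact Set.subset_union_left
  · change (d.un (d' θ)).Lam ⊆ ((d.un (d' θ)).un (d' θ')).Lam
    rw [Dt.Lam_un (d.un (d' θ))]
    exact Set.subset_union_left
  · intro u hu
    exact Dt.mem_ex_un.2 (Or.inl hu)
  · change (d.un (d' θ')).P cs ⊆ ((d.un (d' θ)).un (d' θ')).P cs
    rw [Dt.P_un cs (d.un (d' θ)), Dt.P_un cs d (d' θ'), Dt.P_un cs d (d' θ)]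
    exact Set.union_subset_union_left _ Set.subset_union_left
  · change (d.un (d' θ')).Lam ⊆ ((d.un (d' θ)).un (d' θ')).Lam
    rw [Dt.Lam_un (d.un (d' θ)), Dt.Lam_un d (d' θ'), Dt.Lam_un d (d' θ)]
    exact Set.union_subset_union_left _ Set.subset_union_left
  · intro u hu
    rcases Dt.mem_ex_un.1 hu with h3 | h3
    · exact Dt.mem_ex_un.2 (Or.inl (Dt.mem_ex_un.2 (Or.inl h3)))
    · exact Dt.mem_ex_un.2 (Or.inr h3)

end

end Run7.h898
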