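import Mathlib
import Pool.Agent.Run7.h898.Ml
import Pool.Agent.Run7.h898.Clm3
import Pool.Agent.Run7.h898.Red

set_option autoImplicit false
set_option linter.unusedSectionVars false
set_option linter.unusedVariables false

/-!
# The final forcing, second version
-/

namespace Run7.h898

open Set Cardinal Pool.Agent.Helper669.Forcing

/-! ### The choice of `π` -/

section

variable {I0 Om : Type} [LinearOrder I0] [WellFoundedLT I0] [LinearOrder Om] [WellFoundedLT Om]
  {K : Cardinal.{0}}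

theorem stp_of_lim {κ : I0 → Cardinal.{0}} (hκ : StrictMono κ) (hK : Inac K)
    (hκi : ∀ i, Inac (κ i)) (hKκ : ∀ i, K < κ i) (hOm : ∀ i, κ i < #Om) {c : ℕ → I0}
    {i : I0} (h : Lim c i) : Stp Om K (lm κ i) (fun n => κ (c n)) where
  Ki := hK
  κi n := hκi _
  Kκ := hKκ _
  mono := fun a b hab => hκ (h.mono hab)
  lt n := (hκ (h.mono (Nat.lt_succ_self n))).trans_le (le_lm κ (h.lt _))
  sup μ hμ := by
    by_contra hcon
    push Not at hcon
    refine absurd hμ (not_lt.2 (lm_le fun a ha => ?_))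
    obtain ⟨n, hn⟩ := h.cof a ha
    exact (hκ hn).le.trans (hcon n)
  Om := (lm_le fun a ha => (hκ ha).le).trans_lt (hOm i)

theorem exists_pi2 {κ : I0 → Cardinal.{0}} (hκ : StrictMono κ)
    (hK : IndestructiblySupercompact K) (hκi : ∀ i, IndestructiblySupercompact (κ i))
    (hKκ : ∀ i, K < κ i) (hOm : ∀ i, κ i < #Om) (h1 : ∀ a : I0, #(Iio a) ≤ K) (h2 : K < #I0) :
    ∃ (π : Cardinal.{0}) (cs : I0 → ℕ → I0), ℵ₀ ≤ π ∧ π < K ∧
      Stat {i | Lim (cs i) i ∧ GoodAt2 Om K (lm κ i) (fun n => κ (cs i n)) π} := by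
  classical
  have hKa := inac_of_sc hK
  have h3 : ∀ i : I0, ∃ c : ℕ → I0, (∃ c, Lim c i) → Lim c i := by
    intro i
    by_cases h : ∃ c, Lim c i
    · obtain ⟨c, hc⟩ := h
      exact ⟨c, fun _ => hc⟩
    · exact ⟨fun _ => i, fun h' => absurd h' h⟩
  choose cs hcs using h3
  have hne : Nonempty I0 := by
    rw [← mk_ne_zero_iff]
    exact (zero_le.trans_lt h2).ne'
  obtain ⟨a, ha⟩ := exists_stat hKa.unc.le h1 h2 (Pt := Iy Om K) mk_Iy
    (fun a => {i | Lim (cs i) i ∧ GoodAt2 Om K (lm κ i) (fun n => κ (cs i n)) (sz a.1)}) (by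
    intro i hi
    have S := stp_of_lim (Om := Om) hκ hKa (fun i => inac_of_sc (hκi i)) hKκ hOm (hcs i hi)
    obtain ⟨π, h4, h5, h6⟩ := claim2 S hK fun n => hκi _
    obtain ⟨a, ha, _⟩ := exists_iio (h5.trans ((hKκ hne.some).trans (hOm _)))
    have ha' : sz a = π := ha
    refine ⟨⟨a, ha'.ge.trans' h4, ha'.le.trans_lt h5⟩, hcs i hi, ?_⟩
    rw [ha']
    exact h6)
  exact ⟨sz a.1, cs, a.2.1, a.2.2, ha⟩

end

/-! ### Blocks -/

/-- the indices of the blocks -/
inductive By (I0 : Type) : Type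
  | mid : By I0
  | blk (c c' : I0) : By I0

/-- the parameters -/
structure Pb (I0 : Type) where
  K : Cardinal.{0}
  π : Cardinal.{0}
  κ : I0 → Cardinal.{0}
  o : I0

/-- finite sequences, ordered by extension -/
def Ls (X : Type) : Type := List X

instance (X : Type) : Preorder (Ls X) where
  le l' l := List.IsPrefix (α := X) l l'
  le_refl l := List.prefix_refl _
  le_trans l1 l2 l3 h h' := List.IsPrefix.trans h' h

section

variable {I0 : Type} [LinearOrder I0] [WellFoundedLT I0]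

/-- lower ends -/
noncomputable def lby (P : Pb I0) : By I0 → Cardinal.{0}
  | .mid => P.π
  | .blk c c' => if c < c' then P.κ c else max P.K (Order.succ (lm P.κ c'))

/-- upper ends -/
def hby (P : Pb I0) : By I0 → Cardinal.{0}
  | .mid => P.κ P.o
  | .blk _ c' => P.κ c'

/-- the blocks without points of `s` inside -/
def act (s : Set I0) : By I0 → Prop
  | .mid => True
  | .blk c c' => c ≤ c' ∧ ∀ d ∈ s, d ≤ c ∨ c' ≤ d

/-- the order of the ends -/
def gd : By I0 → Prop
  | .mid => True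
  | .blk c c' => c ≤ c'

theorem act_mono {s t : Set I0} (h : s ⊆ t) {b : By I0} (hb : act t b) : act s b := by
  cases b with
  | mid => trivial
  | blk c c' => exact ⟨hb.1, fun d hd => hb.2 d (h hd)⟩

theorem act_gd {s : Set I0} {b : By I0} (hb : act s b) : gd b := by
  cases b with
  | mid => trivial
  | blk c c' => exact hb.1

variable (S : Set I0) (cs : I0 → ℕ → I0) (P : Pb I0)

/-- the first part of the final forcing -/
abbrev Af : Type := Cd P.π S cs P.o × Ls P.π.out

/-- the relevant blocks -/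
def XA : Af S cs P →o Set (By I0) where
  toFun a := {b | act (a.1.d.P cs) b}
  monotone' a a' h b hb := act_mono h.1.2.1 hb

variable (Om : Type) [LinearOrder Om] [WellFoundedLT Om]

/-- the final forcing -/
abbrev Fq : Type := Rp (XA S cs P) fun b => Cb Om (lby P b) (hby P b)

/-- the properties of the parameters -/
structure Env2 : Prop where
  Ki : Inac P.K
  π0 : ℵ₀ ≤ P.π
  πK : P.π < P.K
  mono : StrictMono P.κ
  κi : ∀ i, Inac (P.κ i)
  Kκ : ∀ i, P.K < P.κ i
  hOm : ∀ i, P.κ i < #Om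
  iio : ∀ a : I0, #(Iio a) ≤ P.K
  big : P.K < #I0
  bot : ∀ a, P.o ≤ a
  stat : Stat S
  lim : ∀ i ∈ S, Lim (cs i) i
  good : ∀ i ∈ S, GoodAt2 Om P.K (lm P.κ i) (fun n => P.κ (cs i n)) P.π
  sol : ∀ i ∈ S, lm P.κ i ^ ℵ₀ ≤ Order.succ (lm P.κ i)

end

section

variable {I0 : Type} [LinearOrder I0] [WellFoundedLT I0] {S : Set I0} {cs : I0 → ℕ → I0}
  {P : Pb I0} {Om : Type} [LinearOrder Om] [WellFoundedLT Om] (E : Env2 S cs P Om)

include E

theorem Env2.stp {i : I0} (hi : i ∈ S) : Stp Om P.K (lm P.κ i) (fun n => P.κ (cs i n)) :=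
  stp_of_lim E.mono E.Ki E.κi E.Kκ E.hOm (E.lim i hi)

theorem Env2.lm_lt (c : I0) : lm P.κ c < P.κ c := by
  rcases isEmpty_or_nonempty (Iio c) with he | hn
  · unfold lm
    rw [Cardinal.iSup_of_empty]
    exact (aleph0_pos.trans (E.κi c).unc)
  · exact iSup_lt_of_isRegular (E.κi c).reg ((E.iio c).trans_lt (E.Kκ c)) fun a => E.mono a.2

theorem Env2.succ_lm_lt (c : I0) : Order.succ (lm P.κ c) < P.κ c :=
  (Order.succ_le_of_lt (cantor _)).trans_lt ((E.κi c).lim _ (E.lm_lt c))

theorem Env2.lm_inj {i j : I0} (h : lm P.κ i = lm P.κ j) : i = j := by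
  rcases lt_trichotomy i j with h1 | h1 | h1
  · exact absurd h ((E.lm_lt i).trans_le (le_lm P.κ h1)).ne
  · exact h1
  · exact absurd h ((E.lm_lt j).trans_le (le_lm P.κ h1)).ne'

theorem Env2.lt (b : By I0) (hb : gd b) : lby P b < hby P b := by
  cases b with
  | mid => exact E.πK.trans (E.Kκ P.o)
  | blk c c' =>
    change (if c < c' then P.κ c else max P.K (Order.succ (lm P.κ c'))) < P.κ c'
    split_ifs with h1
    · exact E.mono h1
    · exact max_lt (E.Kκ c') (E.succ_lm_lt c')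

theorem Env2.πle (b : By I0) : P.π ≤ lby P b := by
  cases b with
  | mid => exact le_rfl
  | blk c c' =>
    change P.π ≤ if c < c' then P.κ c else max P.K (Order.succ (lm P.κ c'))
    split_ifs with h1
    · exact E.πK.le.trans (E.Kκ c).le
    · exact E.πK.le.trans (le_max_left _ _)

theorem Env2.dcb (b : By I0) : DC P.π (Cb Om (lby P b) (hby P b)) :=
  dc_Cb.mono ((E.πle b).trans (lt_sl _).le)

theorem Env2.mk_gd (a : I0) : #{b : By I0 // gd b ∧ hby P b ≤ P.κ a} ≤ P.K := by
  have hK := E.Ki.unc.le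
  have h1 : #(Option (Iic a × Iic a)) ≤ P.K := by
    rw [mk_option, mk_prod, lift_id]
    exact add_le_of_le hK (mul_le_of_le hK (mk_iic hK (E.iio a)) (mk_iic hK (E.iio a)))
      (one_le_aleph0.trans hK)
  refine le_trans ?_ h1
  have h2 : ∀ b : {b : By I0 // gd b ∧ hby P b ≤ P.κ a}, ∃ t : Option (Iic a × Iic a),
      b.1 = t.elim By.mid fun u => By.blk u.1.1 u.2.1 := by
    rintro ⟨b, hb, hb'⟩
    cases b with
    | mid => exact ⟨none, rfl⟩
    | blk c c' =>
      have h3 : c' ≤ a := E.mono.le_iff_le.1 hb'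
      exact ⟨some (⟨c, (show c ≤ c' from hb).trans h3⟩, ⟨c', h3⟩), rfl⟩
  choose t ht using h2
  refine mk_le_of_injective (f := t) fun b b' h => Subtype.ext ?_
  rw [ht b, ht b', h]

end

end Run7.h898
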