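import Mathlib
import Pool.Agent.Run7.h898.Fq

set_option autoImplicit false
set_option linter.unusedSectionVars false
set_option linter.unusedVariables false

/-!
# The decomposition of the final forcing at a limit point
-/

namespace Run7.h898

open Set Cardinal Pool.Agent.Helper669.Forcing

section

variable {I0 : Type} [LinearOrder I0] [WellFoundedLT I0] {S : Set I0} {cs : I0 → ℕ → I0}
  {P : Pb I0} {Om : Type} [LinearOrder Om] [WellFoundedLT Om]

variable (P cs) in
/-- lower blocks -/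
def bLo (i : I0) (N : ℕ) (b : By I0) : Prop :=
  gd b ∧ lby P b < hby P b ∧ hby P b ≤ P.κ (cs i N)

variable (P cs) in
/-- blocks between the cardinals of the ladder -/
def bMi (i : I0) (N : ℕ) (b : By I0) : Prop :=
  gd b ∧ lby P b < hby P b ∧ ∃ n, N ≤ n ∧ P.κ (cs i n) ≤ lby P b ∧ hby P b ≤ P.κ (cs i (n + 1))

variable (P) in
/-- upper blocks -/
def bHi (i : I0) (b : By I0) : Prop := lby P b < hby P b ∧ Order.succ (lm P.κ i) ≤ lby P b

theorem lo_mi (hκ : StrictMono P.κ) {i : I0} (hl : Lim (cs i) i) {N : ℕ} {b : By I0}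
    (h : bMi cs P i N b) : ¬ bLo cs P i N b := by
  rintro ⟨_, h1, h2⟩
  obtain ⟨_, _, n, h3, h4, _⟩ := h
  exact absurd (h1.trans_le (h2.trans ((hκ.monotone (hl.mono.monotone h3)).trans h4)))
    (lt_irrefl _)

theorem lo_hi {i : I0} (hl : Lim (cs i) i) {N : ℕ} {b : By I0}
    (h : bHi P i b) : ¬ bLo cs P i N b := by
  rintro ⟨_, h1, h2⟩
  obtain ⟨_, h3⟩ := h
  exact absurd (h1.trans_le (h2.trans ((le_lm P.κ (hl.lt N)).trans ((Order.le_succ _).trans h3))))
    (lt_irrefl _)

theorem mi_hi {i : I0} (hl : Lim (cs i) i) {N : ℕ} {b : By I0}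
    (h : bHi P i b) : ¬ bMi cs P i N b := by
  rintro ⟨_, h1, n, h2, _, h4⟩
  obtain ⟨_, h3⟩ := h
  exact absurd (h1.trans_le (h4.trans ((le_lm P.κ (hl.lt _)).trans ((Order.le_succ _).trans h3))))
    (lt_irrefl _)

/-- the blocks which are relevant for a condition with the limit point `i` -/
theorem Env2.cls (E : Env2 S cs P Om) {s : Set I0} {i : I0} (hi : i ∈ s) (hl : Lim (cs i) i)
    {N : ℕ} (hN : ∀ k ≥ N, cs i k ∈ s) {b : By I0} (hb : act s b) :
    bLo cs P i N b ∨ bMi cs P i N b ∨ bHi P i b := by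
  have h0 := E.lt b (act_gd hb)
  cases b with
  | mid => exact Or.inl ⟨trivial, h0, E.mono.monotone (E.bot _)⟩
  | blk c c' =>
    obtain ⟨h1, h2⟩ := hb
    rcases h2 i hi with h3 | h3
    · refine Or.inr (Or.inr ⟨h0, ?_⟩)
      change Order.succ (lm P.κ i) ≤ if c < c' then P.κ c else max P.K (Order.succ (lm P.κ c'))
      split_ifs with h4
      · exact (E.succ_lm_lt i).le.trans (E.mono.monotone h3)
      · refine le_trans (Order.succ_le_succ (lm_le fun a ha => le_lm P.κ ?_)) (le_max_right _ _)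
        exact ha.trans_le (h3.trans h1)
    · rcases h3.lt_or_eq with h4 | h4
      · -- below `i`
        rcases le_or_gt c' (cs i N) with h5 | h5
        · exact Or.inl ⟨h1, h0, E.mono.monotone h5⟩
        · refine Or.inr (Or.inl ⟨h1, h0, ?_⟩)
          classical
          obtain ⟨m, hm⟩ := hl.cof c' h4
          have hex : ∃ m, c' ≤ cs i m := ⟨m, hm.le⟩
          have h6 := Nat.find_spec hex
          have h7 : N < Nat.find hex := by
            by_contra hcon
            push Not at hcon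
            exact absurd h5 (not_lt.2 (h6.trans (hl.mono.monotone hcon)))
          obtain ⟨n, hn⟩ : ∃ n, Nat.find hex = n + 1 := ⟨Nat.find hex - 1, by omega⟩
          have h8 : cs i n < c' := not_le.1 (Nat.find_min hex (by omega))
          have h9 : N ≤ n := by omega
          rw [hn] at h6
          refine ⟨n, h9, ?_, E.mono.monotone h6⟩
          have h10 : cs i n ≤ c := (h2 _ (hN n h9)).resolve_right (not_le.2 h8)
          change P.κ (cs i n) ≤ if c < c' then P.κ c else max P.K (Order.succ (lm P.κ c'))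
          split_ifs with h11
          · exact E.mono.monotone h10
          · exact ((le_lm P.κ h8).trans (Order.le_succ _)).trans (le_max_right _ _)
      · -- the case `c' = i`
        rcases h1.lt_or_eq with h5 | h5
        · exfalso
          obtain ⟨m, hm⟩ := hl.cof c (h4 ▸ h5)
          have h6 : c < cs i (max m N) := hm.trans_le (hl.mono.monotone (le_max_left _ _))
          rcases h2 _ (hN (max m N) (le_max_right _ _)) with h7 | h7
          · exact absurd h6 (not_lt.2 h7)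
          · exact absurd (hl.lt (max m N)) (not_lt.2 (h4 ▸ h7))
        · refine Or.inr (Or.inr ⟨h0, ?_⟩)
          change Order.succ (lm P.κ i) ≤ if c < c' then P.κ c else
            max P.K (Order.succ (lm P.κ c'))
          rw [if_neg (by rw [h5]; exact lt_irrefl _), h4]
          exact le_max_right _ _

/-! ### The parts -/

variable (Om P cs)

/-- the relevant lower blocks -/
def XLo (p : Af S cs P) (i : I0) (N : ℕ) :
    {a : Af S cs P // a ≤ p} →o Set {b : By I0 // bLo cs P i N b} where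
  toFun a := {j | j.1 ∈ XA S cs P a.1}
  monotone' a a' h j hj := (XA S cs P).monotone (show a.1 ≤ a'.1 from h) hj

/-- the small part -/
abbrev Alo (p : Af S cs P) (i : I0) (N : ℕ) : Type :=
  Rp (XLo cs P p i N) fun j => Cb Om (lby P j.1) (hby P j.1)

/-- the relevant blocks of the ladder -/
def XMi (p : Af S cs P) (i : I0) (N : ℕ) :
    Alo cs P Om p i N →o Set {b : By I0 // bMi cs P i N b} where
  toFun a := {j | j.1 ∈ XA S cs P a.a.1}
  monotone' a a' h j hj := (XA S cs P).monotone (show a.a.1 ≤ a'.a.1 from h.1) hj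

/-- the lower part -/
abbrev Plo (p : Af S cs P) (i : I0) (N : ℕ) : Type :=
  Rp (XMi cs P Om p i N) fun j => Cb Om (lby P j.1) (hby P j.1)

/-- the upper part -/
abbrev Gup (i : I0) : Type :=
  Bb Om (fun j : {b : By I0 // bHi P i b} => lby P j.1) (fun j => hby P j.1)

variable {Om P cs}

variable {p : Af S cs P} {i : I0} {N : ℕ}

open Classical in
/-- the conditions of the final forcing given by the parts -/
noncomputable def psj (p : Af S cs P) (i : I0) (N : ℕ)
    (y : Plo cs P Om p i N × Gup P Om i) : Fq S cs P Om where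
  a := y.1.a.a.1
  f b := if h : bLo cs P i N b then y.1.a.f ⟨b, h⟩ else if h : bMi cs P i N b then y.1.f ⟨b, h⟩
    else if h : bHi P i b then y.2 ⟨b, h⟩ else ⊤

theorem psj_lo (y : Plo cs P Om p i N × Gup P Om i) (b : By I0) (h : bLo cs P i N b) :
    (psj p i N y).f b = y.1.a.f ⟨b, h⟩ := dif_pos h

theorem psj_mi (hκ : StrictMono P.κ) (hl : Lim (cs i) i) (y : Plo cs P Om p i N × Gup P Om i)
    (b : By I0) (h : bMi cs P i N b) : (psj p i N y).f b = y.1.f ⟨b, h⟩ :=
  (dif_neg (lo_mi hκ hl h)).trans (dif_pos h)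

theorem psj_hi (hl : Lim (cs i) i) (y : Plo cs P Om p i N × Gup P Om i)
    (b : By I0) (h : bHi P i b) : (psj p i N y).f b = y.2 ⟨b, h⟩ :=
  (dif_neg (lo_hi hl h)).trans ((dif_neg (mi_hi hl h)).trans (dif_pos h))

variable (E : Env2 S cs P Om) (hi : i ∈ p.1.d.P cs) (hl : Lim (cs i) i)
  (hN : ∀ k ≥ N, cs i k ∈ p.1.d.P cs)

include E hi hl hN

theorem psj_cls {a : Af S cs P} (ha : a ≤ p) {b : By I0} (hb : b ∈ XA S cs P a) :
    bLo cs P i N b ∨ bMi cs P i N b ∨ bHi P i b :=
  E.cls (ha.1.2.1 hi) hl (fun k hk => ha.1.2.1 (hN k hk)) hb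

theorem psj_mono {y y' : Plo cs P Om p i N × Gup P Om i} (h : y' ≤ y) :
    psj p i N y' ≤ psj p i N y := by
  refine ⟨h.1.1.1, fun b hb => ?_⟩
  have hb' : b ∈ XA S cs P y'.1.a.a.1 := hb
  rcases psj_cls E hi hl hN y'.1.a.a.2 hb' with h1 | h1 | h1
  · rw [psj_lo y b h1, psj_lo y' b h1]
    exact h.1.1.2 ⟨b, h1⟩ hb'
  · rw [psj_mi E.mono hl y b h1, psj_mi E.mono hl y' b h1]
    exact h.1.2 ⟨b, h1⟩ hb'
  · rw [psj_hi hl y b h1, psj_hi hl y' b h1]
    exact h.2 ⟨b, h1⟩

omit E hi hN in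
theorem psj_low (hκ : StrictMono P.κ) {y y' : Plo cs P Om p i N × Gup P Om i}
    (h : psj p i N y' ≤ psj p i N y) : y'.1 ≤ y.1 := by
  have h2 : ∀ b ∈ XA S cs P y'.1.a.a.1, (psj p i N y').f b ≤ (psj p i N y).f b := h.2
  refine ⟨⟨h.1, fun j hj => ?_⟩, fun j hj => ?_⟩
  · have h3 := h2 j.1 hj
    rw [psj_lo y j.1 j.2, psj_lo y' j.1 j.2] at h3
    exact h3
  · have h3 := h2 j.1 hj
    rw [psj_mi hκ hl y j.1 j.2, psj_mi hκ hl y' j.1 j.2] at h3
    exact h3

/-- each condition with the right first part is equivalent to one of the given form -/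
theorem psj_ex (q : Fq S cs P Om) (hq : q.a ≤ p) (g : Gup P Om i) :
    ∃ y : Plo cs P Om p i N × Gup P Om i, psj p i N y ≤ q ∧
      y.1 = ⟨⟨⟨q.a, hq⟩, fun j => q.f j.1⟩, fun j => q.f j.1⟩ ∧
      ∀ j, (j.1 ∈ XA S cs P q.a → y.2 j = q.f j.1) ∧ (j.1 ∉ XA S cs P q.a → y.2 j = g j) := by
  classical
  let y : Plo cs P Om p i N × Gup P Om i := (⟨⟨⟨q.a, hq⟩, fun j => q.f j.1⟩, fun j => q.f j.1⟩,
    fun j => if j.1 ∈ XA S cs P q.a then q.f j.1 else g j)
  refine ⟨y, ⟨le_rfl, fun b hb => ?_⟩, rfl, fun j => ⟨fun h => if_pos h, fun h => if_neg h⟩⟩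
  have hb' : b ∈ XA S cs P q.a := hb
  rcases psj_cls E hi hl hN hq hb' with h1 | h1 | h1
  · rw [psj_lo y b h1]
  · rw [psj_mi E.mono hl y b h1]
  · rw [psj_hi hl y b h1]
    change (if b ∈ XA S cs P q.a then q.f b else g ⟨b, h1⟩) ≤ q.f b
    rw [if_pos hb']

theorem Pj_psj : Pj (psj p i N : Plo cs P Om p i N × Gup P Om i → Fq S cs P Om) where
  mono y y' h := psj_mono E hi hl hN h
  lift y q hq := by
    have hqa : q.a ≤ p := hq.1.trans y.1.a.a.2
    obtain ⟨y', h1, h2, h3⟩ := psj_ex E hi hl hN q hqa y.2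
    refine ⟨y', ?_, h1⟩
    have h4 : ∀ b ∈ XA S cs P q.a, q.f b ≤ (psj p i N y).f b := hq.2
    refine ⟨?_, fun j => ?_⟩
    · rw [h2]
      refine ⟨⟨hq.1, fun j hj => ?_⟩, fun j hj => ?_⟩
      · have h5 := h4 j.1 hj
        rw [psj_lo y j.1 j.2] at h5
        exact h5
      · have h5 := h4 j.1 hj
        rw [psj_mi E.mono hl y j.1 j.2] at h5
        exact h5
    · by_cases hj : j.1 ∈ XA S cs P q.a
      · rw [(h3 j).1 hj]
        have h5 := h4 j.1 hj
        rw [psj_hi hl y j.1 j.2] at h5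
        exact h5
      · rw [(h3 j).2 hj]

end

end Run7.h898
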