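import Mathlib
import Pool.Agent.Run7.h898.Psj
import Pool.Agent.Run7.h898.Pres

set_option autoImplicit false
set_option linter.unusedSectionVars false
set_option linter.unusedVariables false

/-!
# Cardinals and branches in the final extension, second version
-/

namespace Run7.h898

open Set Cardinal Pool.Agent.Helper669.Forcing

section

variable {I0 : Type} [LinearOrder I0] [WellFoundedLT I0] {S : Set I0} {cs : I0 → ℕ → I0}
  {P : Pb I0} {Om : Type} [LinearOrder Om] [WellFoundedLT Om] (E : Env2 S cs P Om)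

include E

theorem Env2.mk_Cd (a : I0) : #(Cd P.π S cs P.o) ≤ P.κ a := by
  classical
  have h0 := (E.κi a).unc.le
  have hI : #I0 ≤ Order.succ P.K := mk_le_succ_of_iio E.iio
  have hs : Order.succ P.K < P.κ a :=
    (Order.succ_le_of_lt (cantor _)).trans_lt ((E.κi a).lim _ (E.Kκ a))
  have hI' : #I0 ≤ P.κ a := hI.trans hs.le
  have hπ : P.π < P.κ a := E.πK.trans (E.Kκ a)
  have h1 : #({z : Set I0 // #z ≤ P.π} × I0 × Finset I0 × Finset (I0 × ℕ) × Finset (I0 × I0)) ≤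
      P.κ a := by
    simp only [mk_prod, lift_id]
    refine mul_le_of_le h0 ?_ (mul_le_of_le h0 hI' (mul_le_of_le h0 (mk_fin_le h0 hI')
      (mul_le_of_le h0 (mk_fin_le h0 ?_) (mk_fin_le h0 ?_))))
    · refine (mk_bounded_set_le I0 P.π).trans ((E.κi a).pow_lt ?_ hπ).le
      exact max_lt (hI.trans_lt hs) (E.κi a).unc
    · rw [mk_prod, lift_id, lift_id, mk_nat]
      exact mul_le_of_le h0 hI' h0
    · rw [mk_prod, lift_id]
      exact mul_le_of_le h0 hI' hI'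
  refine (mk_le_of_injective (f := fun c : Cd P.π S cs P.o => (⟨c.s.z, c.s.hz⟩, c.s.m, c.d.pts,
    c.d.lad, c.d.ex)) ?_).trans h1
  rintro ⟨⟨z, m, hz, hm⟩, ⟨p, l, e⟩, ok⟩ ⟨⟨z', m', hz', hm'⟩, ⟨p', l', e'⟩, ok'⟩ h
  simp only [Prod.mk.injEq, Subtype.mk.injEq] at h
  obtain ⟨h1, h2, h3, h4, h5⟩ := h
  subst h1
  subst h2
  subst h3
  subst h4
  subst h5
  rfl

theorem Env2.mk_Ls : #(Ls P.π.out) ≤ P.π := by
  have h : #(List P.π.out) ≤ P.π := (mk_list_le_max _).trans (max_le E.π0 (by rw [mk_out]))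
  exact h

theorem Env2.mk_Af (a : I0) : #(Af S cs P) ≤ P.κ a := by
  rw [mk_prod, lift_id, lift_id]
  exact mul_le_of_le (E.κi a).unc.le (E.mk_Cd a) (E.mk_Ls.trans (E.πK.le.trans (E.Kκ a).le))

omit E in
theorem mk_Rp {A J : Type} [Preorder A] (X : A →o Set J) (C : J → Type) :
    #(Rp X C) ≤ #A * #(∀ j, C j) := by
  refine (mk_le_of_injective (f := fun p : Rp X C => (p.a, p.f)) ?_).trans ?_
  · rintro ⟨a, f⟩ ⟨a', f'⟩ h
    simp only [Prod.mk.injEq] at h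
    obtain ⟨rfl, rfl⟩ := h
    rfl
  · rw [mk_prod, lift_id, lift_id]

theorem Env2.mk_lo {i : I0} {N : ℕ} : #{b : By I0 // bLo cs P i N b} ≤ P.K :=
  (mk_le_of_injective (f := fun b : {b : By I0 // bLo cs P i N b} =>
    (⟨b.1, b.2.1, b.2.2.2⟩ : {b : By I0 // gd b ∧ hby P b ≤ P.κ (cs i N)})) fun b b' h =>
      Subtype.ext (Subtype.mk.inj h)).trans (E.mk_gd _)

theorem Env2.mk_mi {i : I0} (hl : Lim (cs i) i) {N : ℕ} : #{b : By I0 // bMi cs P i N b} ≤ P.K :=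
  (mk_le_of_injective (f := fun b : {b : By I0 // bMi cs P i N b} =>
    (⟨b.1, b.2.1, by
      obtain ⟨_, _, n, _, _, h⟩ := b.2
      exact h.trans (E.mono (hl.lt _)).le⟩ : {b : By I0 // gd b ∧ hby P b ≤ P.κ i})) fun b b' h =>
      Subtype.ext (Subtype.mk.inj h)).trans (E.mk_gd _)

theorem Env2.kn {A0 : Type} [Preorder A0] (hA0 : #A0 ≤ P.π) : Kn P.π (Cd P.π S cs P.o × A0) :=
  kn_Cd E.π0 E.πK.le E.iio E.big E.stat E.lim hA0

theorem Env2.kn_Alo (p : Af S cs P) (i : I0) (N : ℕ) : Kn P.π (Alo cs P Om p i N) :=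
  Kn.rp (Kn.sub (E.kn E.mk_Ls) p) fun j => E.dcb j.1

theorem Env2.mk_Alo (p : Af S cs P) {i : I0} (hiS : i ∈ S) (N : ℕ) :
    #(Alo cs P Om p i N) ≤ P.κ (cs i N) := by
  have h0 := (E.κi (cs i N)).unc.le
  refine (mk_Rp _ _).trans (mul_le_of_le h0 ((mk_subtype_le _).trans (E.mk_Af _)) ?_)
  exact (E.stp hiS).blocks (fun j : {b : By I0 // bLo cs P i N b} => lby P j.1)
    (fun j => hby P j.1) N (E.mk_lo.trans_lt (E.Kκ _)) (fun j => j.2.2.1) fun j => j.2.2.2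

/-- the level of a block of the ladder -/
theorem exists_lvl2 {i : I0} {N : ℕ} : ∃ lvl : {b : By I0 // bMi cs P i N b} → ℕ,
    ∀ j, N ≤ lvl j ∧ P.κ (cs i (lvl j)) ≤ lby P j.1 ∧ hby P j.1 ≤ P.κ (cs i (lvl j + 1)) := by
  choose lvl h using fun j : {b : By I0 // bMi cs P i N b} => j.2.2.2
  exact ⟨lvl, h⟩

theorem Env2.mk_Plo (p : Af S cs P) {i : I0} (hiS : i ∈ S) (N : ℕ) :
    #(Plo cs P Om p i N) ≤ Order.succ (lm P.κ i) := by
  classical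
  have St := E.stp hiS
  have hl := E.lim i hiS
  have h0 := St.lam0
  have h1 := h0.trans (Order.le_succ (lm P.κ i))
  refine (mk_Rp _ _).trans (mul_le_of_le h1 (((E.mk_Alo p hiS N).trans (St.lt N).le).trans
    (Order.le_succ _)) ?_)
  obtain ⟨lvl, hlvl⟩ := exists_lvl2 (cs := cs) (P := P) (i := i) (N := N) E
  have h2 : #(∀ j : {b : By I0 // bMi cs P i N b}, Cb Om (lby P j.1) (hby P j.1)) ≤
      #(∀ n : ℕ, ∀ j : {j : {b : By I0 // bMi cs P i N b} // lvl j = n},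
        Cb Om (lby P j.1.1) (hby P j.1.1)) :=
    mk_le_of_injective (f := fun f n j => f j.1) fun f f' h => funext fun j =>
      congrFun (congrFun h (lvl j)) ⟨j, rfl⟩
  refine h2.trans ?_
  rw [mk_pi]
  refine (Cardinal.prod_le_prod _ (fun _ => lm P.κ i) fun n => ?_).trans ?_
  · refine (St.blocks (fun j : {j : {b : By I0 // bMi cs P i N b} // lvl j = n} => lby P j.1.1)
      (fun j => hby P j.1.1) (n + 1) (((mk_subtype_le _).trans (E.mk_mi hl)).trans_lt (E.Kκ _))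
      (fun j => j.1.2.2.1) fun j => ?_).trans (St.lt (n + 1)).le
    have := (hlvl j.1).2.2
    rwa [j.2] at this
  · rw [Cardinal.prod_const', mk_nat]
    exact E.sol i hiS

theorem Env2.dc_G (i : I0) : DC (Order.succ (lm P.κ i)) (Gup P Om i) :=
  DC.pi fun j => dc_Cb.mono (j.2.2.trans (lt_sl _).le)

theorem Env2.reg (p : Af S cs P) {i : I0} (hiS : i ∈ S) (N : ℕ)
    (Φ : sg Om (lm P.κ i) → La Om (lm P.κ i) → Set (Plo cs P Om p i N))
    (hd : ∀ w a, Down (Φ w a)) (hu : ∀ w a b q, q ∈ Φ w a → q ∈ Φ w b → a = b)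
    (p0 : Plo cs P Om p i N) : ∃ r ≤ p0, ∃ b, ∀ w, ∀ q ≤ r, ∀ a, q ∈ Φ w a → a < b := by
  classical
  have St := E.stp hiS
  have hl := E.lim i hiS
  obtain ⟨lvl, hlvl⟩ := exists_lvl2 (cs := cs) (P := P) (i := i) (N := N) E
  let GR : Gr (∀ j : {b : By I0 // bMi cs P i N b}, Cb Om (lby P j.1) (hby P j.1))
      (fun n => P.κ (cs i n)) :=
    Gr.pi (C := fun j : {b : By I0 // bMi cs P i N b} => Cb Om (lby P j.1) (hby P j.1)) lvl
      (fun k => St.blocks (fun j : {j : {b : By I0 // bMi cs P i N b} // lvl j < k} =>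
        lby P j.1.1) (fun j => hby P j.1.1) k
        (((mk_subtype_le _).trans (E.mk_mi hl)).trans_lt (E.Kκ _)) (fun j => j.1.2.2.1)
        fun j => (hlvl j.1).2.2.trans (St.mono.monotone j.2))
      fun k j hj => dc_Cb.mono ((Order.succ_le_succ ((St.mono.monotone (not_lt.1 hj)).trans
        (hlvl j).2.1)).trans (le_max_right _ _))
  obtain ⟨r', hr', b, hb⟩ := GR.reg (Z := Alo cs P Om p i N) N (fun k => (E.κi _).unc.le)
    (fun k hk => (E.mk_Alo p hiS N).trans (St.mono.monotone hk)) (La := La Om (lm P.κ i))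
    (W := sg Om (lm P.κ i)) (fun ι f ⟨k, hk⟩ => St.bd ι f (hk.trans (St.succ_le k)))
    (Vs Om (lm P.κ i) fun n => P.κ (cs i n)) St.Vs
    (fun n => (mk_Vs n).trans (St.mono.monotone (Nat.le_add_left _ _)))
    (fun w a => rpi _ _ ⁻¹' Φ w a)
    (fun w a q hq q' hq' => hd w a _ hq _ (rpi_mono hq')) (fun w a b q hq hq' => hu w a b _ hq hq')
    (p0.a, p0.f)
  refine ⟨⟨p0.a, r'⟩, ⟨le_rfl, fun j _ => hr' j⟩, b, fun w q hq a ha => ?_⟩
  obtain ⟨f, h1, _, h3⟩ := Rp.fix hq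
  exact hb w (q.a, f) ⟨hq.1, h1⟩ a (hd w a _ ha _ h3)

/-- successors of the singular cardinals at limit points are preserved -/
theorem Env2.card {q0 : Fq S cs P Om} {i : I0} (hi : i ∈ q0.a.1.d.Lam) :
    q0 ∈ IsCard (Fq S cs P Om) (Order.succ (lm P.κ i)) := by
  classical
  intro θ hθ q1 hq1 hF
  obtain ⟨q2, hq2, F, hF1, hF2⟩ := mem_fex.1 hF q1 le_rfl
  have hq20 := hq2.trans hq1
  have hi2 : i ∈ q2.a.1.d.Lam := hq20.1.1.2.2.1 hi
  have hiP := Dt.Lam_P cs hi2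
  obtain ⟨N, hN⟩ := Dt.lad_P cs hi2
  have hiS : i ∈ S := q2.a.1.ok.lam i hi2
  have hl := E.lim i hiS
  have St := E.stp hiS
  have h0 := St.lam0
  have h0' := h0.trans (Order.le_succ (lm P.κ i))
  obtain ⟨e1⟩ : Nonempty ((Order.succ (lm P.κ i)).out ≃ La Om (lm P.κ i)) := by
    rw [← Cardinal.eq, mk_out, mk_La St.Om]
  obtain ⟨j1⟩ : Nonempty (θ.out ↪ sg Om (lm P.κ i)) := by
    rw [← Cardinal.le_def, mk_out, mk_sg Om St.Om.le]
    exact Order.lt_succ_iff.1 hθ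
  have hPj := Pj_psj (p := q2.a) E hiP hl hN
  obtain ⟨y0, hy0, _, _⟩ := psj_ex E hiP hl hN q2 le_rfl (⊤ : Gup P Om i)
  let M : θ.out × La Om (lm P.κ i) → Set (Plo cs P Om q2.a i N × Gup P Om i) := fun j =>
    psj q2.a i N ⁻¹' meets (F j.1 (e1.symm j.2))
  have hM : ∀ j, Rg (M j) := fun j => hPj.rg (Rg.meets _)
  obtain ⟨g', hg', hdec⟩ := red h0' (E.dc_G i) (E.mk_Plo q2.a hiS N) (by
    rw [mk_prod, lift_id, lift_id, mk_out, mk_La St.Om]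
    exact mul_le_of_le h0' ((Order.lt_succ_iff.1 hθ).trans (Order.le_succ _)) le_rfl) M
    (fun j => (hM j).dn) y0.2
  have hle : psj q2.a i N (y0.1, g') ≤ q2 := (hPj.mono y0 (y0.1, g') ⟨le_rfl, hg'⟩).trans hy0
  obtain ⟨r, hr, b, hb⟩ := E.reg q2.a hiS N (fun w a => {p | p ≤ y0.1 ∧ ∃ t, j1 t = w ∧
      (p, g') ∈ M (t, a)})
    (fun w a p hp p' hp' => ⟨hp'.trans hp.1, by
      obtain ⟨t, h1, h2⟩ := hp.2
      exact ⟨t, h1, (hM _).dn _ h2 _ ⟨hp', le_rfl⟩⟩⟩) (by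
    rintro w a b p ⟨h1, t, h2, h3⟩ ⟨_, t', h4, h5⟩
    have h6 : t = t' := j1.injective (h2.trans h4.symm)
    subst h6
    have h7 : psj q2.a i N (p, g') ≤ q2 := (hPj.mono (y0.1, g') (p, g') ⟨h1, le_rfl⟩).trans hle
    exact e1.symm.injective (IsFun.unique (down_IsFun F _ hF1 _ h7) h3 h5)) y0.1
  have hrle : psj q2.a i N (r, g') ≤ q2 := (hPj.mono (y0.1, g') (r, g') ⟨hr, le_rfl⟩).trans hle
  obtain ⟨q4, hq4, t, ht⟩ := mem_fex.1 (hF2 (e1.symm b)) _ hrle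
  obtain ⟨y2, hy2, hy2'⟩ := hPj.lift (r, g') q4 hq4
  have h1 : y2 ∈ M (t, b) := down_meets _ _ ht _ hy2'
  obtain ⟨p', hp', h2⟩ := Dcd.dense (N := M (t, b)) (hdec (t, b)) (hM _).dn hy2.2 h1
  exact absurd (hb (j1 t) p' (hp'.trans hy2.1) b ⟨(hp'.trans hy2.1).trans hr, t, rfl, h2⟩)
    (lt_irrefl _)

/-- branches of trees in the final extension -/
theorem Env2.tpf {q0 : Fq S cs P Om} {i : I0} (hi : i ∈ q0.a.1.d.Lam)
    {T : La Om (lm P.κ i) × sg Om (lm P.κ i) → La Om (lm P.κ i) × sg Om (lm P.κ i) →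
      Set (Fq S cs P Om)} (hT : FT T) {p : Fq S cs P Om} (hp : p ≤ q0) :
    ∃ q ≤ p, ∃ B, Bch T q B := by
  classical
  have hi2 : i ∈ p.a.1.d.Lam := hp.1.1.2.2.1 hi
  have hiP := Dt.Lam_P cs hi2
  obtain ⟨N, hN⟩ := Dt.lad_P cs hi2
  have hiS : i ∈ S := p.a.1.ok.lam i hi2
  have hl := E.lim i hiS
  have St := E.stp hiS
  have h0 := St.lam0
  have h0' := h0.trans (Order.le_succ (lm P.κ i))
  have hPj := Pj_psj (p := p.a) E hiP hl hN
  obtain ⟨y0, hy0, _, _⟩ := psj_ex E hiP hl hN p le_rfl (⊤ : Gup P Om i)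
  have hT' := FT.pb hPj hT
  have hX : #(La Om (lm P.κ i) × sg Om (lm P.κ i)) ≤ Order.succ (lm P.κ i) := by
    rw [mk_prod, lift_id, lift_id, mk_La St.Om]
    exact mul_le_of_le h0' le_rfl ((mk_sg_le Om _).trans (Order.le_succ _))
  obtain ⟨g', hg', hdec⟩ := red h0' (E.dc_G i) (E.mk_Plo p.a hiS N)
    (Jx := (La Om (lm P.κ i) × sg Om (lm P.κ i)) × (La Om (lm P.κ i) × sg Om (lm P.κ i))) (by
      rw [mk_prod, lift_id]
      exact mul_le_of_le h0' hX hX) (fun j => psj p.a i N ⁻¹' T j.1 j.2)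
    (fun j => (hT'.rg _ _).dn) y0.2
  have hsl := FT.slice hT' (g := g') fun x y => hdec (x, y)
  obtain ⟨lvl, hlvl⟩ := exists_lvl2 (cs := cs) (P := P) (i := i) (N := N) E
  obtain ⟨q, hq, B, hB⟩ := E.good i hiS (Alo cs P Om p.a i N) N (E.kn_Alo p.a i N)
    (E.mk_Alo p.a hiS N) {b : By I0 // bMi cs P i N b} (fun j => lby P j.1) (fun j => hby P j.1)
    lvl (E.mk_mi hl) (fun j => (hlvl j).2.1) (fun j => j.2.2.1) (fun j => (hlvl j).2.2)
    (fun j => (hlvl j).1) (XMi cs P Om p.a i N) _ hsl y0.1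
  have hle0 : psj p.a i N (y0.1, g') ≤ p := (hPj.mono y0 (y0.1, g') ⟨le_rfl, hg'⟩).trans hy0
  have hle : psj p.a i N (q, g') ≤ p := (hPj.mono (y0.1, g') (q, g') ⟨hq, le_rfl⟩).trans hle0
  -- common extensions
  have key : ∀ r1 : Fq S cs P Om, ∀ p1 p2 : Plo cs P Om p.a i N, r1 ≤ psj p.a i N (p1, g') →
      r1 ≤ psj p.a i N (p2, g') → ∃ y : Plo cs P Om p.a i N × Gup P Om i, psj p.a i N y ≤ r1 ∧
        y.1 ≤ p1 ∧ y.1 ≤ p2 ∧ y.2 ≤ g' := by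
    intro r1 p1 p2 h1 h2
    obtain ⟨y1, hy1, hy1'⟩ := hPj.lift (p1, g') r1 h1
    obtain ⟨y2, hy2, hy2'⟩ := hPj.lift (p2, g') (psj p.a i N y1) (hy1'.trans h2)
    exact ⟨y2, hy2'.trans hy1', (psj_low hl E.mono hy2').trans hy1.1, hy2.1, hy2.2⟩
  refine ⟨_, hle, fun x => {r | ∃ p1 ∈ B x, p1 ≤ q ∧ r ≤ psj p.a i N (p1, g')}, ⟨?_, ?_, ?_, ?_⟩⟩
  · rintro x r ⟨p1, h1, h2, h3⟩ r' hr'
    exact ⟨p1, h1, h2, hr'.trans h3⟩
  · rintro x y r hr ⟨p1, h1, h2, h3⟩ ⟨p2, h4, h5, h6⟩ hxy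
    refine (hT.rg x y).ds r fun r1 hr1 => ?_
    obtain ⟨y1, k1, k2, k3, k4⟩ := key r1 p1 p2 (hr1.trans h3) (hr1.trans h6)
    refine ⟨psj p.a i N y1, k1, ?_⟩
    have k5 := hB.ch x y y1.1 (k2.trans h2) (hB.dn x _ h1 _ k2) (hB.dn y _ h4 _ k3) hxy
    have k6 : psj p.a i N (y1.1, g') ∈ T x y := k5
    exact (hT.rg x y).dn _ k6 _ (hPj.mono (y1.1, g') y1 ⟨le_rfl, k4⟩)
  · rintro x y r hr ⟨p1, h1, h2, h3⟩ ⟨p2, h4, h5, h6⟩ hxy
    obtain ⟨y1, k1, k2, k3, k4⟩ := key r p1 p2 h3 h6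
    exact hB.eq x y y1.1 (k2.trans h2) (hB.dn x _ h1 _ k2) (hB.dn y _ h4 _ k3) hxy
  · intro a r hr
    obtain ⟨y1, hy1, hy1'⟩ := hPj.lift (q, g') r hr
    obtain ⟨p3, hp3, x, hx, h1⟩ := hB.un a y1.1 hy1.1
    refine ⟨psj p.a i N (p3, y1.2), (hPj.mono y1 (p3, y1.2)
      ⟨hp3, le_rfl⟩).trans hy1', x, hx, p3, h1, hp3.trans hy1.1, ?_⟩
    exact hPj.mono (p3, g') (p3, y1.2) ⟨le_rfl, hy1.2⟩

end

end Run7.h898
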