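import Mathlib
import Pool.Agent.Run7.h898.Pr2
import Pool.Agent.Run7.h898.Conv
import Pool.Agent.Run7.h898.Defs3

set_option autoImplicit false
set_option linter.unusedSectionVars false
set_option linter.unusedVariables false

/-!
# The tree property in the final extension, second version
-/

namespace Run7.h898

open Set Cardinal Pool.Agent.Helper669.Forcing

theorem Rp.upd {A J : Type} [Preorder A] {X : A →o Set J} {C : J → Type}
    [∀ j, Preorder (C j)] (q : Rp X C) (b : J) (u : C b) (hu : u ≤ q.f b) :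
    ∃ q' ≤ q, q'.a = q.a ∧ q'.f b = u := by
  classical
  refine ⟨⟨q.a, Function.update q.f b u⟩, ⟨le_rfl, fun b' _ => ?_⟩, rfl, by
    change Function.update q.f b u b = u
    exact Function.update_self _ _ _⟩
  by_cases h : b' = b
  · subst h
    simp only [Function.update_self]
    exact hu
  · simp only [Function.update_of_ne h]
    exact le_rfl

section

variable {I0 : Type} [LinearOrder I0] {S : Set I0} {cs : I0 → ℕ → I0} {o : I0}

/-- adding a limit point to the data -/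
theorem Dt.Ok.addlad {d : Dt I0} {z z' : Set I0} {m i : I0} {N : ℕ} (h : d.Ok cs S o z)
    (hzz : z ⊆ z') (hzm : ∀ c ∈ z, c ≤ m) (hiS : i ∈ S) (hi : m < i) (hN : ∀ k ≥ N, m < cs i k)
    (hiz : i ∈ z') (hNz : ∀ k ≥ N, cs i k ∈ z') :
    (d.un ⟨∅, {(i, N)}, ∅⟩).Ok cs S o z' := by
  have hdl : ∀ x, x ∈ (⟨∅, {(i, N)}, ∅⟩ : Dt I0).P cs → x = i ∨ ∃ k ≥ N, x = cs i k := by
    rintro x (h3 | ⟨u, hu, h3⟩)
    · exact absurd h3 (Finset.notMem_empty _)
    · have hu' := Finset.mem_singleton.1 hu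
      subst hu'
      rcases h3 with h3 | ⟨k, hk, h3⟩
      · exact Or.inl h3
      · exact Or.inr ⟨k, hk, h3⟩
  refine ⟨?_, ?_, ?_, ?_, ?_, ?_⟩
  · intro x hx
    rw [Dt.P_un] at hx
    rcases hx with hx | hx
    · exact hzz (h.pz hx)
    · rcases hdl x hx with rfl | ⟨k, hk, rfl⟩
      · exact hiz
      · exact hNz k hk
  · intro u hu
    rcases Dt.mem_ex_un.1 hu with hu | hu
    · exact ⟨hzz (h.exz u hu).1, hzz (h.exz u hu).2⟩
    · exact absurd hu (Finset.notMem_empty _)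
  · intro u hu
    rcases Dt.mem_ex_un.1 hu with hu | hu
    · exact h.exl u hu
    · exact absurd hu (Finset.notMem_empty _)
  · intro j hj
    rw [Dt.Lam_un] at hj
    rcases hj with hj | ⟨n, hn⟩
    · exact h.lam j hj
    · have h3 := Finset.mem_singleton.1 hn
      rw [Prod.mk.injEq] at h3
      rw [h3.1]
      exact hiS
  · intro u hu x hx
    rcases Dt.mem_ex_un.1 hu with hu | hu
    · rw [Dt.P_un] at hx
      rcases hx with hx | hx
      · exact h.sep u hu x hx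
      · right
        have h3 := hzm _ (h.exz u hu).2
        rcases hdl x hx with rfl | ⟨k, hk, rfl⟩
        · exact h3.trans hi.le
        · exact h3.trans (hN k hk).le
    · exact absurd hu (Finset.notMem_empty _)
  · rw [Dt.P_un]
    exact Or.inl h.bot

/-- the points of the data are bounded below all other points -/
theorem Dt.bd_pts (d : Dt I0) (hl : ∀ i ∈ d.Lam, Lim (cs i) i) {s : I0} (hs : s ∉ d.Lam)
    (hne : ∃ a, a < s) : ∃ a < s, ∀ x ∈ d.P cs, x < s → x ≤ a := by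
  have hne' : Nonempty (Iio s) := by
    obtain ⟨a, ha⟩ := hne
    exact ⟨⟨a, ha⟩⟩
  have h0 : ∀ x : I0, ∀ᶠ a : Iio s in Filter.atTop, x < s → x ≤ a.1 := by
    intro x
    by_cases h : x < s
    · filter_upwards [Filter.eventually_ge_atTop (⟨x, h⟩ : Iio s)] with m hm _
      exact hm
    · exact Filter.Eventually.of_forall fun n h' => absurd h' h
  have h1 : ∀ᶠ a : Iio s in Filter.atTop, ∀ x ∈ d.pts, x < s → x ≤ a.1 :=
    (Filter.eventually_all_finset d.pts).2 fun x _ => h0 x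
  have h2 : ∀ u : I0 × ℕ, u ∈ d.lad → ∀ᶠ a : Iio s in Filter.atTop, (u.1 < s → u.1 ≤ a.1) ∧
      (s < u.1 → ∀ k, cs u.1 k < s → cs u.1 k ≤ a.1) := by
    intro u hu
    refine (h0 u.1).and ?_
    by_cases h : s < u.1
    · obtain ⟨K, hK⟩ := (hl u.1 ⟨u.2, hu⟩).cut h
      have h3 : ∀ᶠ a : Iio s in Filter.atTop, ∀ k ∈ Finset.range K, cs u.1 k < s →
          cs u.1 k ≤ a.1 := (Filter.eventually_all_finset _).2 fun k _ => h0 _
      filter_upwards [h3] with n hn _ k hk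
      rcases hK k with h4 | h4
      · exact hn k (Finset.mem_range.2 h4) hk
      · exact absurd hk (lt_asymm h4)
    · exact Filter.Eventually.of_forall fun n h' => absurd h' h
  have h3 : ∀ᶠ a : Iio s in Filter.atTop, ∀ u ∈ d.lad, (u.1 < s → u.1 ≤ a.1) ∧
      (s < u.1 → ∀ k, cs u.1 k < s → cs u.1 k ≤ a.1) :=
    (Filter.eventually_all_finset d.lad).2 fun u hu => h2 u hu
  obtain ⟨a, ha1, ha2⟩ := (h1.and h3).exists
  refine ⟨a.1, a.2, fun x hx hxs => ?_⟩
  rcases hx with hx | ⟨u, hu, rfl | ⟨k, hk, rfl⟩⟩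
  · exact ha1 x hx hxs
  · exact (ha2 u hu).1 hxs
  · rcases lt_trichotomy u.1 s with h4 | h4 | h4
    · exact ((hl u.1 ⟨u.2, hu⟩).lt k).le.trans ((ha2 u hu).1 h4)
    · exact absurd (h4 ▸ ⟨u.2, hu⟩) hs
    · exact (ha2 u hu).2 h4 k hxs

end

section

variable {I0 : Type} [LinearOrder I0] [WellFoundedLT I0] {S : Set I0} {cs : I0 → ℕ → I0}
  {P : Pb I0} {Om : Type} [LinearOrder Om] [WellFoundedLT Om]

/-- the block remains relevant -/
def stb (q : Fq S cs P Om) (b : By I0) : Prop := ∀ a' ≤ q.a, b ∈ XA S cs P a'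

theorem stb_mono {q q' : Fq S cs P Om} (h : q' ≤ q) {b : By I0} (hb : stb q b) : stb q' b :=
  fun a' ha' => hb a' (ha'.trans h.1)

theorem stb_mid (q : Fq S cs P Om) : stb q .mid := fun _ _ => trivial

theorem stb_eq (q : Fq S cs P Om) (c : I0) : stb q (.blk c c) :=
  fun _ _ => ⟨le_rfl, fun d _ => le_total d c⟩

theorem stb_ex {q : Fq S cs P Om} {e c : I0} (h : (e, c) ∈ q.a.1.d.ex) : stb q (.blk e c) := by
  intro a' ha'
  have h1 : (e, c) ∈ a'.1.d.ex := ha'.1.2.2.2 h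
  exact ⟨(a'.1.ok.exl _ h1).le, fun d hd => a'.1.ok.sep _ h1 d hd⟩

/-- the cardinals strictly between the ends of a block are collapsed -/
theorem coll2 {q : Fq S cs P Om} {b : By I0} (hb : stb q b) {θ : Cardinal.{0}}
    (h1 : Order.succ (sl (lby P b)) < θ) (h2 : θ < hby P b) (hOm : θ < #Om) :
    q ∉ IsCard (Fq S cs P Om) θ := by
  classical
  intro hcard
  obtain ⟨ξ, hξ, _⟩ := exists_iio hOm
  obtain ⟨e1⟩ : Nonempty ((Order.succ (sl (lby P b))).out ≃ La Om (sl (lby P b))) := by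
    rw [← Cardinal.eq, mk_out, mk_La ((Order.lt_succ _).trans (h1.trans hOm))]
  obtain ⟨e2⟩ : Nonempty (θ.out ≃ Iio ξ) := by
    rw [← Cardinal.eq, mk_out, hξ]
  have hξ2 : #(Iio ξ) < hby P b := by rw [hξ]; exact h2
  let F : (Order.succ (sl (lby P b))).out → θ.out → Set (Fq S cs P Om) := fun w v =>
    {r | stb r b ∧ (r.f b).f ξ (e1 w).1 = some (e2 v).1}
  have hFd : ∀ w v, Down (F w v) := by
    rintro w v r ⟨h3, h4⟩ r' hr'
    exact ⟨stb_mono hr' h3, hr'.2 b (h3 _ hr'.1) _ _ _ h4⟩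
  refine hcard _ h1 q le_rfl (mem_fex_of_mem F (down_fand (down_IsFun _) (down_IsOnto _))
    ⟨⟨fun w => mem_fex.2 fun q' hq' => ?_, fun w v v' => mem_fimp.2 fun q' hq' h => ?_⟩,
      fun v => mem_fex.2 fun q' hq' => ?_⟩)
  · have hne : Nonempty θ.out := by
      rw [← mk_ne_zero_iff, mk_out]
      exact (zero_le.trans_lt h1).ne'
    obtain ⟨u, hu, v, hv⟩ := (q'.f b).total hξ2 (e1 w).2 (e2 hne.some).2
    obtain ⟨q'', hq'', h3, h4⟩ := Rp.upd q' b u hu
    have h5 := u.ok _ _ _ hv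
    refine ⟨q'', hq'', e2.symm ⟨v, h5.2.2⟩, meets_of_mem ⟨stb_mono (hq''.trans hq') hb, ?_⟩⟩
    rw [h4, hv, e2.apply_symm_apply]
  · obtain ⟨r, hr, h3⟩ := exists_of_meets (hFd w v) h.1
    obtain ⟨r', hr', h4⟩ := exists_of_meets (hFd w v') (down_meets _ _ h.2 _ hr)
    have h5 := (hFd w v _ h3 _ hr').2
    rw [h4.2] at h5
    exact ⟨q', le_rfl, (e2.injective (Subtype.ext (Option.some.inj h5))).symm⟩
  · obtain ⟨u, hu, ε, hε, hv⟩ := (q'.f b).onto (h1.trans hOm).le hξ2 (e2 v).2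
    obtain ⟨q'', hq'', h3, h4⟩ := Rp.upd q' b u hu
    refine ⟨q'', hq'', e1.symm ⟨ε, hε⟩, meets_of_mem ⟨stb_mono (hq''.trans hq') hb, ?_⟩⟩
    rw [h4, e1.apply_symm_apply]
    exact hv

/-- there are no limit cardinals between the ends of a block -/
theorem not_limit2 {q : Fq S cs P Om} {b : By I0} (hb : stb q b) {lam : Cardinal.{0}}
    (h1 : lby P b < lam) (h2 : lam ≤ hby P b) (hOm : lam ≤ #Om) :
    q ∉ IsLimitCard (Fq S cs P Om) lam := by
  rintro ⟨h0, _, h⟩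
  have h0' : ℵ₀ < lam := h0
  rcases le_or_gt lam (sl (lby P b)) with h3 | h3
  · have h4 : lam ≤ Order.succ (lby P b) := by
      rcases le_max_iff.1 h3 with h4 | h4
      · exact absurd h0' (not_lt.2 h4)
      · exact h4
    obtain ⟨_, _, θ', ⟨h5, h6⟩, _⟩ := mem_fex.1 (h (lby P b) h1) q le_rfl
    exact absurd (Order.succ_le_of_lt h5) (not_le.2 (h6.trans_le h4))
  · rcases le_or_gt lam (Order.succ (sl (lby P b))) with h4 | h4
    · obtain ⟨_, _, θ', ⟨h5, h6⟩, _⟩ := mem_fex.1 (h _ h3) q le_rfl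
      exact absurd (Order.succ_le_of_lt h5) (not_le.2 (h6.trans_le h4))
    · obtain ⟨r, hr, θ', ⟨h5, h6⟩, h7⟩ := mem_fex.1 (h _ h4) q le_rfl
      exact coll2 (stb_mono hr hb) h5 (h6.trans_le h2) (h6.trans_le hOm) h7

/-- the entries of a sequence -/
def Ls.nth {X : Type} (l : List X) (n : ℕ) : Option X := l[n]?

theorem nth_app {X : Type} {n : ℕ} {x : X} : ∀ (l l' t : List X), l ++ t = l' →
    Ls.nth l n = some x → Ls.nth l' n = some x := by
  rintro l _ t rfl hx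
  have h1 : l[n]? = some x := hx
  change (l ++ t)[n]? = some x
  rw [List.getElem?_append_left (List.getElem?_eq_some_iff.1 h1).1]
  exact h1

theorem Ls.mono {X : Type} {l l' : Ls X} (h : l' ≤ l) {n : ℕ} {x : X}
    (hx : Ls.nth l n = some x) : Ls.nth l' n = some x := by
  obtain ⟨t, ht⟩ := (h : List.IsPrefix (α := X) l l')
  exact nth_app l l' t ht hx

theorem Ls.onto {X : Type} (l : Ls X) (x : X) : ∃ l' ≤ l, ∃ n, Ls.nth l' n = some x := by
  have key : ∀ l : List X, Ls.nth (l ++ [x]) l.length = some x := fun l => by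
    change (l ++ [x])[l.length]? = some x
    exact List.getElem?_concat_length
  have h2 : ∀ l : List X, l <+: l ++ [x] := fun l => List.prefix_append _ _
  exact ⟨List.append l [x], h2 l, List.length l, key l⟩

theorem Ls.tot {X : Type} (l : Ls X) (x0 : X) (n : ℕ) : ∃ l' ≤ l, ∃ x, Ls.nth l' n = some x := by
  have key : ∀ l : List X, ∃ x, Ls.nth (l ++ List.replicate (n + 1) x0) n = some x := fun l => by
    have h4 : n < (l ++ List.replicate (n + 1) x0).length := by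
      rw [List.length_append, List.length_replicate]
      omega
    exact ⟨_, List.getElem?_eq_getElem h4⟩
  have h2 : ∀ l : List X, l <+: l ++ List.replicate (n + 1) x0 := fun l => List.prefix_append _ _
  obtain ⟨x, hx⟩ := key l
  exact ⟨List.append l (List.replicate (n + 1) x0), h2 l, x, hx⟩

/-- small cardinals are collapsed -/
theorem coll_low {q : Fq S cs P Om} {θ : Cardinal.{0}} (h1 : ℵ₀ < θ) (h2 : θ ≤ P.π) :
    q ∉ IsCard (Fq S cs P Om) θ := by
  classical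
  intro hcard
  obtain ⟨e0⟩ : Nonempty ((ℵ₀ : Cardinal.{0}).out ≃ ℕ) := by
    rw [← Cardinal.eq, mk_out, mk_nat]
  have hne : Nonempty θ.out := by
    rw [← mk_ne_zero_iff, mk_out]
    exact (zero_le.trans_lt h1).ne'
  obtain ⟨j⟩ : Nonempty (θ.out ↪ P.π.out) := by
    rw [← Cardinal.le_def, mk_out, mk_out]
    exact h2
  let g : P.π.out → θ.out := Function.invFun j
  have hg : Function.Surjective g := Function.invFun_surjective j.injective
  let F : (ℵ₀ : Cardinal.{0}).out → θ.out → Set (Fq S cs P Om) := fun w v =>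
    {r | ∃ x, Ls.nth r.a.2 (e0 w) = some x ∧ g x = v}
  have hFd : ∀ w v, Down (F w v) := by
    rintro w v r ⟨x, h3, h4⟩ r' hr'
    exact ⟨x, Ls.mono hr'.1.2 h3, h4⟩
  have hext : ∀ (q' : Fq S cs P Om) (l' : Ls P.π.out), l' ≤ q'.a.2 → ∃ q'' ≤ q', q''.a.2 = l' :=
    fun q' l' hl' => ⟨⟨(q'.a.1, l'), q'.f⟩, ⟨⟨le_rfl, hl'⟩, fun _ _ => le_rfl⟩, rfl⟩
  refine hcard ℵ₀ h1 q le_rfl (mem_fex_of_mem F (down_fand (down_IsFun _) (down_IsOnto _))
    ⟨⟨fun w => mem_fex.2 fun q' hq' => ?_, fun w v v' => mem_fimp.2 fun q' hq' h => ?_⟩,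
      fun v => mem_fex.2 fun q' hq' => ?_⟩)
  · obtain ⟨x0, _⟩ := hg hne.some
    obtain ⟨l', hl', x, hx⟩ := Ls.tot q'.a.2 x0 (e0 w)
    obtain ⟨q'', hq'', h3⟩ := hext q' l' hl'
    refine ⟨q'', hq'', g x, meets_of_mem ⟨x, ?_, rfl⟩⟩
    rw [h3]
    exact hx
  · obtain ⟨r, hr, h3⟩ := exists_of_meets (hFd w v) h.1
    obtain ⟨r', hr', x', h4, h5⟩ := exists_of_meets (hFd w v') (down_meets _ _ h.2 _ hr)
    obtain ⟨x, h6, h7⟩ := hFd w v _ h3 _ hr'
    refine ⟨q', le_rfl, ?_⟩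
    rw [h4] at h6
    change v = v'
    rw [← h7, ← h5, Option.some.inj h6]
  · obtain ⟨x, hx⟩ := hg v
    obtain ⟨l', hl', n, hn⟩ := Ls.onto q'.a.2 x
    obtain ⟨q'', hq'', h3⟩ := hext q' l' hl'
    refine ⟨q'', hq'', e0.symm n, meets_of_mem ⟨x, ?_, hx⟩⟩
    rw [h3, e0.apply_symm_apply]
    exact hn

variable (E : Env2 S cs P Om)

include E

/-- there are no limit cardinals below the first point -/
theorem Env2.low {q : Fq S cs P Om} {lam : Cardinal.{0}}
    (hq : q ∈ IsLimitCard (Fq S cs P Om) lam) : P.κ P.o < lam := by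
  by_contra hcon
  push Not at hcon
  rcases le_or_gt lam P.π with h | h
  · exact coll_low (by exact hq.1) h hq.2.1
  · exact not_limit2 (stb_mid q) h hcon (hcon.trans (E.hOm _).le) hq

/-- limit cardinals below points -/
theorem Env2.high {q : Fq S cs P Om} {lam : Cardinal.{0}}
    (hq : q ∈ IsLimitCard (Fq S cs P Om) lam) (hc : ∃ c ∈ q.a.1.d.P cs, lam ≤ P.κ c) :
    ∃ q' ≤ q, ∃ i ∈ q'.a.1.d.Lam, lam = lm P.κ i := by
  classical
  have hlow := E.low hq
  obtain ⟨c0, hc0, hlc0⟩ := hc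
  obtain ⟨c, ⟨q1, hq1, hc1, hlc⟩, hmin⟩ := WellFounded.has_min (wellFounded_lt (α := I0))
    {c | ∃ q' ≤ q, c ∈ q'.a.1.d.P cs ∧ lam ≤ P.κ c} ⟨c0, q, le_rfl, hc0, hlc0⟩
  have hlt : ∀ q' ≤ q1, ∀ d ∈ q'.a.1.d.P cs, d < c → P.κ d < lam := fun q' hq' d hd hdc => by
    by_contra h3
    exact hmin d ⟨q', hq'.trans hq1, hd, not_lt.1 h3⟩ hdc
  have hOm : lam ≤ #Om := hlc.trans (E.hOm c).le
  have hoc : P.o < c := E.mono.lt_iff_lt.1 (hlow.trans_le hlc)
  have hq1l := down_IsLimitCard _ _ hq _ hq1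
  have hlims : ∀ i ∈ q1.a.1.d.Lam, Lim (cs i) i := fun i hi => E.lim i (q1.a.1.ok.lam i hi)
  by_cases hL : c ∈ q1.a.1.d.Lam
  · refine ⟨q1, hq1, c, hL, ?_⟩
    obtain ⟨N, hN⟩ := Dt.lad_P cs hL
    have hl := hlims c hL
    have h3 : lm P.κ c ≤ lam := lm_le fun a ha => by
      obtain ⟨n, hn⟩ := hl.cof a ha
      have h4 : a < cs c (max n N) := hn.trans_le (hl.mono.monotone (le_max_left _ _))
      exact (E.mono h4).le.trans (hlt q1 le_rfl _ (hN _ (le_max_right _ _)) (hl.lt _)).le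
    rcases h3.lt_or_eq with h4 | h4
    · exfalso
      rcases (Order.succ_le_of_lt h4).lt_or_eq with h5 | h5
      · refine not_limit2 (b := .blk c c) (q := q1) (lam := lam) (stb_eq q1 c) ?_ hlc hOm hq1l
        change (if c < c then P.κ c else max P.K (Order.succ (lm P.κ c))) < lam
        rw [if_neg (lt_irrefl c)]
        exact max_lt ((E.Kκ _).trans hlow) h5
      · rw [← h5] at hq1l
        exact not_limit_succ _ hq1l
    · exact h4.symm
  · exfalso
    obtain ⟨a, ha, ha'⟩ := Dt.bd_pts q1.a.1.d hlims hL ⟨_, hoc⟩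
    -- the predecessor
    obtain ⟨e, ⟨hec, he⟩, hemin⟩ := WellFounded.has_min (wellFounded_lt (α := I0))
      {e | e < c ∧ ∀ x ∈ q1.a.1.d.P cs, x < c → x ≤ e} ⟨a, ha, ha'⟩
    have hes : e ∈ q1.a.1.d.P cs := by
      by_contra hes
      have hoe : P.o < e := (he _ q1.a.1.ok.bot hoc).lt_of_ne fun h => hes (h ▸ q1.a.1.ok.bot)
      have heL : e ∉ q1.a.1.d.Lam := fun h => hes (Dt.Lam_P cs h)
      obtain ⟨b, hb, hb'⟩ := Dt.bd_pts q1.a.1.d hlims heL ⟨_, hoe⟩
      refine hemin b ⟨hb.trans hec, fun x hx hxc => hb' x hx ?_⟩ hb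
      exact (he x hx hxc).lt_of_ne fun h => hes (h ▸ hx)
    let d' : Dt I0 := ⟨q1.a.1.d.pts, q1.a.1.d.lad, insert (e, c) q1.a.1.d.ex⟩
    have hok := q1.a.1.ok
    have hd' : d'.Ok cs S P.o q1.a.1.s.z := by
      refine ⟨hok.pz, ?_, ?_, hok.lam, ?_, hok.bot⟩
      · intro u hu
        rcases Finset.mem_insert.1 hu with rfl | hu
        · exact ⟨hok.pz hes, hok.pz hc1⟩
        · exact hok.exz u hu
      · intro u hu
        rcases Finset.mem_insert.1 hu with rfl | hu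
        · exact hec
        · exact hok.exl u hu
      · intro u hu x hx
        rcases Finset.mem_insert.1 hu with rfl | hu
        · rcases lt_or_ge x c with h3 | h3
          · exact Or.inl (he x hx h3)
          · exact Or.inr h3
        · exact hok.sep u hu x hx
    let q2 : Fq S cs P Om := ⟨(⟨q1.a.1.s, d', hd'⟩, q1.a.2), q1.f⟩
    have hq2 : q2 ≤ q1 := ⟨⟨⟨le_rfl, Subset.rfl, Subset.rfl, Finset.subset_insert _ _⟩, le_rfl⟩,
      fun _ _ => le_rfl⟩
    refine not_limit2 (b := .blk e c) (q := q2) (lam := lam)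
      (stb_ex (Finset.mem_insert_self _ _)) ?_ hlc hOm (down_IsLimitCard _ _ hq1l _ hq2)
    change (if e < c then P.κ e else max P.K (Order.succ (lm P.κ c))) < lam
    rw [if_pos hec]
    exact hlt q1 le_rfl e hes hec

/-- new limit points -/
theorem Env2.add (q : Fq S cs P Om) (l : I0) : ∃ q' ≤ q, ∃ i ∈ q'.a.1.d.Lam, l < i := by
  classical
  have h0 := E.π0
  obtain ⟨i, hiS, hi⟩ := E.stat fun _ => max l q.a.1.s.m
  have hl := E.lim i hiS
  obtain ⟨e, _, hei, hF⟩ := hi (cs i 0) (hl.lt 0)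
  have h1 : max l q.a.1.s.m < i := (hF [] (by simp)).trans hei
  have h2 : l < i := (le_max_left _ _).trans_lt h1
  have h3 : q.a.1.s.m < i := (le_max_right _ _).trans_lt h1
  obtain ⟨N, hN⟩ := hl.cut h3
  have hN' : ∀ k ≥ N, q.a.1.s.m < cs i k := fun k hk => (hN k).resolve_left (not_lt.2 hk)
  let s' : Sd I0 P.π := {
    z := insert i (q.a.1.s.z ∪ range fun k => cs i (N + k))
    m := i
    hz := by
      refine mk_insert_le.trans (add_le_of_le h0 ((mk_union_le _ _).trans (add_le_of_le h0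
        q.a.1.s.hz (mk_range_le.trans ?_))) (one_le_aleph0.trans h0))
      rw [mk_nat]
      exact h0
    hm := by
      rintro x (rfl | hx | ⟨k, rfl⟩)
      · exact le_rfl
      · exact (q.a.1.s.hm x hx).trans h3.le
      · exact (hl.lt _).le }
  have hs' : s' ≤ q.a.1.s := by
    refine ⟨fun x hx => Or.inr (Or.inl hx), ?_, h3.le⟩
    rintro x (rfl | hx | ⟨k, rfl⟩) hxm
    · exact absurd hxm (not_le.2 h3)
    · exact hx
    · exact absurd hxm (not_le.2 (hN' _ (Nat.le_add_right _ _)))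
  have hok := q.a.1.ok.addlad (z' := s'.z) (i := i) (N := N) hs'.1 q.a.1.s.hm hiS h3 hN'
    (Or.inl rfl) (fun k hk => Or.inr (Or.inr ⟨k - N, by
      change cs i (N + (k - N)) = cs i k
      rw [Nat.add_sub_cancel' hk]⟩))
  refine ⟨⟨(⟨s', _, hok⟩, q.a.2), q.f⟩, ⟨⟨⟨hs', ?_, ?_, ?_⟩, le_rfl⟩, fun _ _ => le_rfl⟩, i, ?_, h2⟩
  · change _ ⊆ (q.a.1.d.un ⟨∅, {(i, N)}, ∅⟩).P cs
    rw [Dt.P_un]
    exact Set.subset_union_left
  · change _ ⊆ (q.a.1.d.un ⟨∅, {(i, N)}, ∅⟩).Lam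
    rw [Dt.Lam_un]
    exact Set.subset_union_left
  · intro u hu
    exact Dt.mem_ex_un.2 (Or.inl hu)
  · change i ∈ (q.a.1.d.un ⟨∅, {(i, N)}, ∅⟩).Lam
    rw [Dt.Lam_un]
    exact Or.inr ⟨N, Finset.mem_singleton_self _⟩

/-- limit cardinals with countably many cardinals below them are below some point -/
theorem Env2.cnt {q1 : Fq S cs P Om} {lam : Cardinal.{0}}
    (hcnt : q1 ∈ CountablyManyBelow (Fq S cs P Om) lam) :
    ∃ q ≤ q1, ∃ c ∈ q.a.1.d.P cs, lam ≤ P.κ c := by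
  classical
  by_contra hcon
  push Not at hcon
  obtain ⟨q2, hq2, g, hg1, hg2⟩ := mem_fex.1 hcnt q1 le_rfl
  have hkn : Kn P.π (Fq S cs P Om) := Kn.rp (E.kn E.mk_Ls) fun b => E.dcb b
  let Θ : Type := (Order.succ P.π).ord.ToType
  obtain ⟨t, q, h1, h2⟩ := hkn Unit (fun _ _ _ _ _ => ⟨(), fun _ => le_rfl⟩) Θ
    (fun θ => Order.lt_succ_iff.1 (mk_iio_toType θ)) I0 (fun ι f hι => by
      obtain ⟨e, he, _⟩ := exists_lub E.Ki.unc.le E.iio E.big (hι.trans E.πK.le) f
      exact ⟨e, he⟩) (fun _ => P.o) (fun r => r.1.a.1.s.m)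
    (fun l => {r | ∃ n, ∃ i ∈ r.1.a.1.d.Lam, l ≤ i ∧ r.1 ∈ meets (g n (Order.succ (lm P.κ i)))})
    (by
      rintro l r ⟨n, i, hi, h1, h2⟩ r' hr'
      exact ⟨n, i, hr'.1.1.1.2.2.1 hi, h1, meets_dn h2 hr'.1⟩) (q2, ()) (by
      rintro l r hr
      obtain ⟨r', hr', i, hi, hli⟩ := E.add r.1 l
      have hr2 : r' ≤ q2 := hr'.trans hr.1
      have h3 := E.card hi
      have hlt : Order.succ (lm P.κ i) < lam :=
        (E.succ_lm_lt i).trans (hcon r' (hr2.trans hq2) i (Dt.Lam_P cs hi))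
      obtain ⟨q5, hq5, h8⟩ := mem_fimp.1 (hg2 _ hlt) r' hr2 h3
      obtain ⟨q6, hq6, n, h9⟩ := mem_fex.1 h8 q5 le_rfl
      have h10 : q6 ≤ r' := hq6.trans hq5
      exact ⟨(q6, ()), ⟨h10.trans hr', le_rfl⟩, n, i, h10.1.1.2.2.1 hi, hli.le, h9⟩)
  choose h3 h4 h5 using h1
  choose n i hi hti hmi using h4
  obtain ⟨θ, θ', hne, hn⟩ : ∃ θ θ' : Θ, θ ≠ θ' ∧ n θ = n θ' := by
    by_contra hcon2
    push Not at hcon2
    have hinj : Function.Injective n := fun θ θ' e => by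
      by_contra hne
      exact hcon2 θ θ' hne e
    have h6 := mk_le_of_injective hinj
    rw [mk_ord_toType, mk_nat] at h6
    exact absurd (E.π0.trans_lt (Order.lt_succ _)) (not_lt.2 h6)
  have key : ∀ θ θ' : Θ, θ < θ' → n θ = n θ' → False := by
    intro θ θ' hlt hn
    obtain ⟨h6, _, _, c, hc1, hc2⟩ := h2 θ θ' hlt
    have hcq : c ≤ q2 := hc1.trans (h3 θ).1
    have h7 := IsFun.unique (down_IsFun g _ hg1 c hcq) (meets_dn (hmi θ) hc1) (by
      rw [hn]
      exact meets_dn (hmi θ') hc2)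
    have h8 := E.lm_inj (Order.succ_injective h7)
    have h9 : i θ ≤ (q θ).1.a.1.s.m :=
      (q θ).1.a.1.s.hm _ ((q θ).1.a.1.ok.pz (Dt.Lam_P cs (hi θ)))
    have h10 : i θ < i θ' := h9.trans_lt (h6.trans_le (hti θ'))
    exact absurd h8 h10.ne
  rcases lt_or_gt_of_ne hne with h6 | h6
  · exact key θ θ' h6 hn
  · exact key θ' θ h6 hn.symm

theorem Env2.main (q : Fq S cs P Om) : q ∈ TreePropAtAllSuccessors (Fq S cs P Om) := by
  intro lam μ
  refine mem_fimp.2 fun q1 _ hh => ?_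
  obtain ⟨hlim, hcnt, h1, hμ, hsucc⟩ := hh
  have h1' : lam < μ := h1
  obtain ⟨q2, hq2, h2⟩ := E.cnt hcnt
  obtain ⟨q3, hq3, i, hi, rfl⟩ := E.high (down_IsLimitCard _ _ hlim _ hq2) h2
  have hcard := E.card hi
  have hμ' : μ = Order.succ (lm P.κ i) := by
    refine le_antisymm (not_lt.1 fun h3 => ?_) (Order.succ_le_of_lt h1')
    exact hsucc _ (Order.lt_succ _) h3 q3 (hq3.trans hq2) hcard
  subst hμ'
  have St := E.stp (q3.a.1.ok.lam i hi)
  exact ⟨q3, hq3.trans hq2, conv St.lam0 St.Om fun T hT p hp => E.tpf hi hT hp⟩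

end

theorem main2 {K : Cardinal.{0}} (κ : (Order.succ K).ord.ToType → Cardinal.{0})
    (hKκ : ∀ i, K < κ i) (hκ : StrictMono κ) (hK : IndestructiblySupercompact K)
    (hκi : ∀ i, IndestructiblySupercompact (κ i)) :
    ∃ (P : Type) (_ : Preorder P), Nonempty P ∧ ∀ p : P, p ∈ TreePropAtAllSuccessors P := by
  classical
  let I0 : Type := (Order.succ K).ord.ToType
  let Om : Type := (Order.succ (⨆ i, κ i)).ord.ToType
  have hOm : ∀ i, κ i < #Om := by
    intro i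
    rw [mk_ord_toType]
    exact (le_ciSup Cardinal.bddAbove_of_small i).trans_lt (Order.lt_succ _)
  have hI1 : ∀ a : I0, #(Iio a) ≤ K := fun a => Order.lt_succ_iff.1 (mk_iio_toType a)
  have hI2 : K < #I0 := by
    rw [mk_ord_toType]
    exact Order.lt_succ _
  have hne : Nonempty I0 := by
    rw [← mk_ne_zero_iff]
    exact (zero_le.trans_lt hI2).ne'
  obtain ⟨π, cs, hπ0, hπK, hS⟩ := exists_pi2 (Om := Om) (I0 := I0) hκ hK hκi hKκ hOm hI1 hI2
  obtain ⟨o, _, ho⟩ := WellFounded.has_min (wellFounded_lt (α := I0)) Set.univ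
    ⟨hne.some, mem_univ _⟩
  have hbot : ∀ a : I0, o ≤ a := fun a => not_lt.1 (ho a (mem_univ _))
  let P : Pb I0 := ⟨K, π, κ, o⟩
  obtain ⟨U⟩ := exists_nm hK Om
  have E : Env2 {i | Lim (cs i) i ∧ GoodAt2 Om K (lm κ i) (fun n => κ (cs i n)) π} cs P Om := {
    Ki := inac_of_sc hK
    π0 := hπ0
    πK := hπK
    mono := hκ
    κi := fun i => inac_of_sc (hκi i)
    Kκ := hKκ
    hOm := hOm
    iio := hI1
    big := hI2
    bot := hbot
    stat := hS
    lim := fun i hi => hi.1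
    good := fun i hi => hi.2
    sol := fun i hi => by
      have St := stp_of_lim (Om := Om) hκ (inac_of_sc hK) (fun i => inac_of_sc (hκi i)) hKκ hOm
        hi.1
      refine solovay U St.Ki.unc St.Klam.le St.Om St.bd (Vs Om (lm κ i)
        (fun n => κ (cs i n))) St.Vs fun n => ?_
      refine (Cardinal.power_le_power_right (mk_Vs n)).trans ?_
      exact ((St.κi n).pow_le (St.κi n).unc).trans (St.lt n).le }
  refine ⟨Fq _ cs P Om, inferInstance, ⟨⟨(⟨⟨{o}, o, ?_, ?_⟩, ⟨{o}, ∅, ∅⟩, ?_⟩, ([] : List π.out)),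
    fun b => ⊤⟩⟩, E.main⟩
  · rw [mk_singleton]
    exact one_le_aleph0.trans hπ0
  · rintro c rfl
    exact le_rfl
  · refine ⟨?_, ?_, ?_, ?_, ?_, ?_⟩
    · rintro c (hc | ⟨u, hu, _⟩)
      · exact Finset.mem_singleton.1 hc
      · exact absurd hu (Finset.notMem_empty _)
    · intro u hu
      exact absurd hu (Finset.notMem_empty _)
    · intro u hu
      exact absurd hu (Finset.notMem_empty _)
    · rintro i ⟨n, hn⟩
      exact absurd hn (Finset.notMem_empty _)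
    · intro u hu
      exact absurd hu (Finset.notMem_empty _)
    · exact Or.inl (Finset.mem_singleton_self _)

end Run7.h898
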